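import Pool.Agent.ROR.MagDefs

/-!
# Lengths, letters, areas, `Mag`, bounds (project ROR, package M1)
-/

set_option autoImplicit false

namespace Pool.Agent.ROR

open FreeGroup (of)

section M1
variable {X Y : Type*}

open Classical in
theorem len_eq_norm (u : FreeGroup X) : len u = u.norm := rfl

theorem len_one : len (1 : FreeGroup X) = 0 := by
  classical
  rw [len_eq_norm, FreeGroup.norm_one]

theorem len_of (x : X) : len (of x) = 1 := by
  classical
  rw [len_eq_norm, FreeGroup.norm_of]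

theorem len_mk_le (w : List (X × Bool)) : len (FreeGroup.mk w) ≤ w.length := by
  classical
  rw [len_eq_norm]
  exact FreeGroup.norm_mk_le

theorem len_mk_eq {w : List (X × Bool)} (h : FreeGroup.IsReduced w) :
    len (FreeGroup.mk w) = w.length := by
  classical
  rw [len_eq_norm, FreeGroup.norm, FreeGroup.toWord_mk, h.reduce_eq]

theorem exists_word (u : FreeGroup X) : ∃ w : List (X × Bool), FreeGroup.mk w = u ∧
    w.length = len u ∧ FreeGroup.IsReduced w := by
  classical
  exact ⟨u.toWord, FreeGroup.mk_toWord, by rw [len_eq_norm, FreeGroup.norm],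
    FreeGroup.isReduced_toWord⟩

theorem len_mul_le (u v : FreeGroup X) : len (u * v) ≤ len u + len v := by
  classical
  rw [len_eq_norm, len_eq_norm, len_eq_norm]
  exact FreeGroup.norm_mul_le u v

theorem len_inv (u : FreeGroup X) : len u⁻¹ = len u := by
  classical
  rw [len_eq_norm, len_eq_norm, FreeGroup.norm_inv_eq]

theorem len_zpow_of_le (x : X) (n : ℤ) : len (of x ^ n) ≤ n.natAbs := by
  classical
  obtain ⟨m, rfl | rfl⟩ := n.eq_nat_or_neg
  · rw [zpow_natCast, len_eq_norm, FreeGroup.norm_of_pow, Int.natAbs_natCast]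
  · rw [zpow_neg, len_inv, zpow_natCast, len_eq_norm, FreeGroup.norm_of_pow, Int.natAbs_neg,
      Int.natAbs_natCast]

theorem len_eq_zero {u : FreeGroup X} (h : len u = 0) : u = 1 := by
  classical
  rw [len_eq_norm] at h
  exact FreeGroup.norm_eq_zero.1 h

theorem mk_cons (a : X × Bool) (w : List (X × Bool)) :
    FreeGroup.mk (a :: w) = FreeGroup.mk [a] * FreeGroup.mk w := by
  rw [FreeGroup.mul_mk]
  rfl

theorem mk_single_mem {S : Set X} {a : X × Bool} (h : a.1 ∈ S) : FreeGroup.mk [a] ∈ Let S := by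
  obtain ⟨x, b⟩ := a
  have hx : of x ∈ Let S := Subgroup.subset_closure ⟨x, h, rfl⟩
  cases b
  · have : FreeGroup.mk [(x, false)] = (of x)⁻¹ := rfl
    rw [this]
    exact Subgroup.inv_mem _ hx
  · exact hx

theorem let_univ (u : FreeGroup X) : u ∈ Let (Set.univ : Set X) := by
  rw [Let, Set.image_univ, FreeGroup.closure_range_of]
  exact Subgroup.mem_top u

theorem let_mono {S T : Set X} (h : S ⊆ T) : Let S ≤ Let T :=
  Subgroup.closure_mono (Set.image_mono h)

theorem mk_mem_let {S : Set X} {w : List (X × Bool)} (h : ∀ p ∈ w, p.1 ∈ S) :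
    FreeGroup.mk w ∈ Let S := by
  induction w with
  | nil =>
    rw [← FreeGroup.one_eq_mk]
    exact Subgroup.one_mem _
  | cons a w ih =>
    rw [mk_cons]
    exact Subgroup.mul_mem _ (mk_single_mem (h a List.mem_cons_self))
      (ih fun p hp => h p (List.mem_cons_of_mem _ hp))

open Classical in
/-- the retraction onto the letters `S` -/
noncomputable def ret (S : Set X) : FreeGroup X →* FreeGroup X :=
  FreeGroup.lift fun x => if x ∈ S then of x else 1

theorem let_induction {S : Set X} (P : FreeGroup X → Prop) (h1 : P 1)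
    (hof : ∀ x ∈ S, P (of x)) (hmul : ∀ u v, P u → P v → P (u * v)) (hinv : ∀ u, P u → P u⁻¹)
    {u : FreeGroup X} (hu : u ∈ Let S) : P u := by
  refine Subgroup.closure_induction (p := fun u _ => P u) ?_ h1 (fun u v _ _ => hmul u v)
    (fun u _ => hinv u) hu
  rintro _ ⟨x, hx, rfl⟩
  exact hof x hx

theorem let_le_comap (φ : FreeGroup X →* FreeGroup Y) {S : Set X} {T : Set Y}
    (h : ∀ x ∈ S, φ (of x) ∈ Let T) {u : FreeGroup X} (hu : u ∈ Let S) : φ u ∈ Let T := by
  refine let_induction (fun u => φ u ∈ Let T) ?_ h ?_ ?_ hu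
  · rw [map_one]
    exact Subgroup.one_mem _
  · intro u v hu hv
    rw [map_mul]
    exact Subgroup.mul_mem _ hu hv
  · intro u hu
    rw [map_inv]
    exact Subgroup.inv_mem _ hu

theorem ret_of_mem {S : Set X} {x : X} (h : x ∈ S) : ret S (of x) = of x := by
  rw [ret, FreeGroup.lift_apply_of, if_pos h]

theorem ret_of_not_mem {S : Set X} {x : X} (h : x ∉ S) : ret S (of x) = 1 := by
  rw [ret, FreeGroup.lift_apply_of, if_neg h]

theorem ret_let {S T : Set X} {u : FreeGroup X} (h : u ∈ Let T) : ret S u ∈ Let (S ∩ T) := by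
  refine let_le_comap (ret S) ?_ h
  intro x hx
  by_cases hs : x ∈ S
  · rw [ret_of_mem hs]
    exact Subgroup.subset_closure ⟨x, ⟨hs, hx⟩, rfl⟩
  · rw [ret_of_not_mem hs]
    exact Subgroup.one_mem _

theorem ret_mem (S : Set X) (u : FreeGroup X) : ret S u ∈ Let S :=
  let_mono Set.inter_subset_left (ret_let (S := S) (let_univ u))

theorem ret_eq {S : Set X} {u : FreeGroup X} (h : u ∈ Let S) : ret S u = u := by
  refine let_induction (fun u => ret S u = u) (map_one _) (fun x hx => ret_of_mem hx) ?_ ?_ h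
  · intro u v hu hv
    rw [map_mul, hu, hv]
  · intro u hu
    rw [map_inv, hu]

theorem ret_mk (S : Set X) [DecidablePred (· ∈ S)] (w : List (X × Bool)) :
    ret S (FreeGroup.mk w) = FreeGroup.mk (w.filter fun p => decide (p.1 ∈ S)) := by
  induction w with
  | nil => rw [List.filter_nil, ← FreeGroup.one_eq_mk, map_one]
  | cons a w ih =>
    rw [mk_cons, map_mul, ih]
    obtain ⟨x, b⟩ := a
    by_cases hx : x ∈ S
    · have hs := mk_cons (x, b) (w.filter fun p => decide (p.1 ∈ S))
      rw [List.filter_cons_of_pos (by simpa using hx), hs]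
      congr 1
      cases b
      · have : FreeGroup.mk [(x, false)] = (of x)⁻¹ := rfl
        rw [this, map_inv, ret_of_mem hx]
      · exact ret_of_mem hx
    · rw [List.filter_cons_of_neg (by simpa using hx)]
      have : ret S (FreeGroup.mk [(x, b)]) = 1 := by
        cases b
        · have : FreeGroup.mk [(x, false)] = (of x)⁻¹ := rfl
          rw [this, map_inv, ret_of_not_mem hx, inv_one]
        · exact ret_of_not_mem hx
      rw [this, one_mul]

/-- the reduced word of an element of `Let S` uses letters in `S` only -/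
theorem mem_of_mk_mem_let {S : Set X} {w : List (X × Bool)} (hw : FreeGroup.IsReduced w)
    (h : FreeGroup.mk w ∈ Let S) : ∀ p ∈ w, p.1 ∈ S := by
  classical
  have h1 := ret_eq h
  rw [ret_mk] at h1
  have h2 : w.length ≤ (w.filter fun p => decide (p.1 ∈ S)).length := by
    rw [← len_mk_eq hw, ← h1]
    exact len_mk_le _
  have h3 : (w.filter fun p => decide (p.1 ∈ S)) = w :=
    List.filter_sublist.eq_of_length_le h2
  intro p hp
  have := (List.filter_eq_self.1 h3) p hp
  simpa using this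

theorem len_hom_le (φ : FreeGroup X →* FreeGroup Y) (S : Set X) (C : ℕ)
    (hφ : ∀ x ∈ S, len (φ (of x)) ≤ C) (u : FreeGroup X) (hu : u ∈ Let S) :
    len (φ u) ≤ C * len u := by
  obtain ⟨w, rfl, hl, hr⟩ := exists_word u
  have hS := mem_of_mk_mem_let hr hu
  rw [← hl]
  clear hl hr hu
  induction w with
  | nil => rw [← FreeGroup.one_eq_mk, map_one, len_one]; exact Nat.zero_le _
  | cons a w ih =>
    have h1 := ih fun p hp => hS p (List.mem_cons_of_mem _ hp)
    have h2 : len (φ (FreeGroup.mk [a])) ≤ C := by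
      obtain ⟨x, b⟩ := a
      have h3 := hφ x (hS _ List.mem_cons_self)
      cases b
      · have : FreeGroup.mk [(x, false)] = (of x)⁻¹ := rfl
        rw [this, map_inv, len_inv]
        exact h3
      · exact h3
    rw [mk_cons, map_mul, List.length_cons]
    calc len (φ (FreeGroup.mk [a]) * φ (FreeGroup.mk w)) ≤ _ := len_mul_le _ _
      _ ≤ C + C * w.length := Nat.add_le_add h2 h1
      _ = C * (w.length + 1) := by ring

theorem isReduced_map {g : X → Y} (hg : Function.Injective g) {w : List (X × Bool)}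
    (h : FreeGroup.IsReduced w) : FreeGroup.IsReduced (w.map fun p => (g p.1, p.2)) := by
  unfold FreeGroup.IsReduced at h ⊢
  rw [List.isChain_map]
  exact h.imp fun a b hab hgab => hab (hg hgab)

theorem len_map_of_injective (g : X → Y) (hg : Function.Injective g) (u : FreeGroup X) :
    len (FreeGroup.map g u) = len u := by
  obtain ⟨w, rfl, hl, hr⟩ := exists_word u
  rw [FreeGroup.map.mk, len_mk_eq (isReduced_map hg hr), len_mk_eq hr, List.length_map]

theorem let_inter {S T : Set X} {u : FreeGroup X} (h : u ∈ Let S) (h' : u ∈ Let T) :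
    u ∈ Let (S ∩ T) := by
  obtain ⟨w, rfl, hl, hr⟩ := exists_word u
  exact mk_mem_let fun p hp => ⟨mem_of_mk_mem_let hr h p hp, mem_of_mk_mem_let hr h' p hp⟩

theorem map_mem_let (g : X → Y) {S : Set X} {T : Set Y} (hg : ∀ x ∈ S, g x ∈ T)
    {u : FreeGroup X} (h : u ∈ Let S) : FreeGroup.map g u ∈ Let T := by
  refine let_le_comap (FreeGroup.map g) ?_ h
  intro x hx
  rw [FreeGroup.map.of]
  exact Subgroup.subset_closure ⟨g x, hg x hx, rfl⟩

theorem mem_let_of_map (g : X → Y) (hg : Function.Injective g) (T : Set Y)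
    {u : FreeGroup X} (h : FreeGroup.map g u ∈ Let T) : u ∈ Let (g ⁻¹' T) := by
  obtain ⟨w, rfl, hl, hr⟩ := exists_word u
  rw [FreeGroup.map.mk] at h
  refine mk_mem_let fun p hp => ?_
  exact mem_of_mk_mem_let (isReduced_map hg hr) h (g p.1, p.2) (List.mem_map.2 ⟨p, hp, rfl⟩)

theorem exists_map_eq_of_mem_let (S : Set Y) {u : FreeGroup Y} (h : u ∈ Let S) :
    ∃ v : FreeGroup S, incl S v = u ∧ len v = len u := by
  obtain ⟨w, rfl, hl, hr⟩ := exists_word u
  have hS := mem_of_mk_mem_let hr h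
  have h1 : incl S (FreeGroup.mk (w.pmap (fun p hp => ((⟨p.1, hp⟩ : S), p.2)) hS)) =
      FreeGroup.mk w := by
    rw [incl, FreeGroup.map.mk, List.map_pmap]
    simp
  refine ⟨_, h1, ?_⟩
  rw [← h1, incl, len_map_of_injective _ Subtype.val_injective]

theorem len_ret_le (S : Set X) (u : FreeGroup X) : len (ret S u) ≤ len u := by
  have := len_hom_le (ret S) Set.univ 1 (fun x _ => by
    by_cases hx : x ∈ S
    · rw [ret_of_mem hx, len_of]
    · rw [ret_of_not_mem hx, len_one]; exact Nat.zero_le _) u (let_univ u)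
  rwa [one_mul] at this

/-- the conjugates in `cprod` -/
def cf (r : FreeGroup X) (p : FreeGroup X × Bool) : FreeGroup X :=
  p.1 * (if p.2 then r else r⁻¹) * p.1⁻¹

theorem cprod_nil (r : FreeGroup X) : cprod r [] = 1 := rfl

theorem cprod_cons (r : FreeGroup X) (p : FreeGroup X × Bool) (l : List (FreeGroup X × Bool)) :
    cprod r (p :: l) = cf r p * cprod r l := by
  simp [cprod, cf]

theorem cprod_append (r : FreeGroup X) (l l' : List (FreeGroup X × Bool)) :
    cprod r (l ++ l') = cprod r l * cprod r l' := by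
  simp [cprod]

theorem cprod_hom (φ : FreeGroup X →* FreeGroup Y) (r : FreeGroup X)
    (l : List (FreeGroup X × Bool)) :
    φ (cprod r l) = cprod (φ r) (l.map fun p => (φ p.1, p.2)) := by
  induction l with
  | nil => rw [cprod_nil, map_one, List.map_nil, cprod_nil]
  | cons p l ih =>
    rw [cprod_cons, map_mul, ih, List.map_cons, cprod_cons]
    congr 1
    simp only [cf]
    split_ifs <;> simp

theorem cprod_mem (r : FreeGroup X) (l : List (FreeGroup X × Bool)) :
    cprod r l ∈ Subgroup.normalClosure {r} := by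
  have hr : r ∈ Subgroup.normalClosure {r} :=
    Subgroup.subset_normalClosure (Set.mem_singleton r)
  induction l with
  | nil => exact Subgroup.one_mem _
  | cons p l ih =>
    rw [cprod_cons]
    refine Subgroup.mul_mem _ ?_ ih
    refine Subgroup.normalClosure_normal.conj_mem _ ?_ _
    split_ifs
    · exact hr
    · exact Subgroup.inv_mem _ hr

theorem AreaIn.mem {S : Set X} {r u : FreeGroup X} {N : ℕ} (h : AreaIn S r N u) :
    u ∈ Subgroup.normalClosure {r} := by
  obtain ⟨l, _, _, rfl⟩ := h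
  exact cprod_mem r l

theorem AreaIn.mono {S T : Set X} {r u : FreeGroup X} {N M : ℕ} (h : AreaIn S r N u)
    (hST : S ⊆ T) (hNM : N ≤ M) : AreaIn T r M u := by
  obtain ⟨l, h1, h2, h3⟩ := h
  exact ⟨l, h1.trans hNM, fun p hp => ⟨(h2 p hp).1.trans hNM, let_mono hST (h2 p hp).2⟩, h3⟩

theorem AreaIn.one (S : Set X) (r : FreeGroup X) (N : ℕ) : AreaIn S r N 1 :=
  ⟨[], Nat.zero_le _, by simp, rfl⟩

theorem AreaIn.mul {S : Set X} {r u v : FreeGroup X} {N M : ℕ} (h : AreaIn S r N u)
    (h' : AreaIn S r M v) : AreaIn S r (N + M) (u * v) := by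
  obtain ⟨l, h1, h2, h3⟩ := h
  obtain ⟨l', h1', h2', h3'⟩ := h'
  refine ⟨l ++ l', ?_, ?_, ?_⟩
  · rw [List.length_append]
    exact Nat.add_le_add h1 h1'
  · intro p hp
    rcases List.mem_append.1 hp with hp | hp
    · exact ⟨(h2 p hp).1.trans (Nat.le_add_right _ _), (h2 p hp).2⟩
    · exact ⟨(h2' p hp).1.trans (Nat.le_add_left _ _), (h2' p hp).2⟩
  · rw [cprod_append, h3, h3']

theorem AreaIn.inv {S : Set X} {r u : FreeGroup X} {N : ℕ} (h : AreaIn S r N u) :
    AreaIn S r N u⁻¹ := by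
  obtain ⟨l, h1, h2, rfl⟩ := h
  refine ⟨(l.map fun p => (p.1, !p.2)).reverse, ?_, ?_, ?_⟩
  · simpa using h1
  · intro p hp
    rw [List.mem_reverse, List.mem_map] at hp
    obtain ⟨q, hq, rfl⟩ := hp
    exact h2 q hq
  · clear h1 h2
    induction l with
    | nil => simp [cprod]
    | cons p l ih =>
      rw [List.map_cons, List.reverse_cons, cprod_append, ih, cprod_cons r p, mul_inv_rev,
        cprod_cons, cprod_nil, mul_one]
      congr 1
      obtain ⟨g, b⟩ := p
      cases b <;> simp [cf, mul_assoc]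

theorem AreaIn.conj {S : Set X} {r u g : FreeGroup X} {N : ℕ} (h : AreaIn S r N u)
    (hg : g ∈ Let S) : AreaIn S r (N + len g) (g * u * g⁻¹) := by
  obtain ⟨l, h1, h2, rfl⟩ := h
  refine ⟨l.map fun p => (g * p.1, p.2), ?_, ?_, ?_⟩
  · rw [List.length_map]
    exact h1.trans (Nat.le_add_right _ _)
  · intro p hp
    rw [List.mem_map] at hp
    obtain ⟨q, hq, rfl⟩ := hp
    refine ⟨(len_mul_le _ _).trans ?_, Subgroup.mul_mem _ hg (h2 q hq).2⟩
    have := (h2 q hq).1
    omega
  · clear h1 h2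
    induction l with
    | nil => simp [cprod]
    | cons p l ih =>
      rw [List.map_cons, cprod_cons, ih, cprod_cons]
      simp only [cf]
      group

/-- conjugate relator -/
theorem AreaIn.conj_rel {S : Set X} {r u g : FreeGroup X} {N : ℕ} (h : AreaIn S r N u)
    (hg : g ∈ Let S) : AreaIn S (g * r * g⁻¹) (N + len g) u := by
  obtain ⟨l, h1, h2, rfl⟩ := h
  refine ⟨l.map fun p => (p.1 * g⁻¹, p.2), ?_, ?_, ?_⟩
  · rw [List.length_map]
    exact h1.trans (Nat.le_add_right _ _)
  · intro p hp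
    rw [List.mem_map] at hp
    obtain ⟨q, hq, rfl⟩ := hp
    refine ⟨(len_mul_le _ _).trans ?_, Subgroup.mul_mem _ (h2 q hq).2 (Subgroup.inv_mem _ hg)⟩
    have := (h2 q hq).1
    rw [len_inv]
    omega
  · clear h1 h2
    induction l with
    | nil => simp [cprod]
    | cons p l ih =>
      rw [List.map_cons, cprod_cons, ih, cprod_cons]
      congr 1
      simp only [cf]
      split_ifs <;> group

theorem AreaIn.map {S : Set X} {T : Set Y} {r u : FreeGroup X} {N C : ℕ} (h : AreaIn S r N u)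
    (φ : FreeGroup X →* FreeGroup Y) (hφ : ∀ x ∈ S, len (φ (of x)) ≤ C ∧ φ (of x) ∈ Let T) :
    AreaIn T (φ r) (max N (C * N)) (φ u) := by
  obtain ⟨l, h1, h2, rfl⟩ := h
  refine ⟨l.map fun p => (φ p.1, p.2), ?_, ?_, (cprod_hom φ r l).symm⟩
  · rw [List.length_map]
    exact h1.trans (le_max_left _ _)
  · intro p hp
    rw [List.mem_map] at hp
    obtain ⟨q, hq, rfl⟩ := hp
    refine ⟨?_, let_le_comap φ (fun x hx => (hφ x hx).2) (h2 q hq).2⟩
    refine (len_hom_le φ S C (fun x hx => (hφ x hx).1) q.1 (h2 q hq).2).trans ?_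
    exact (Nat.mul_le_mul_left C (h2 q hq).1).trans (le_max_right _ _)

theorem AreaIn.retract {S T : Set X} {r u : FreeGroup X} {N : ℕ} (h : AreaIn T r N u)
    (hr : r ∈ Let S) (hu : u ∈ Let S) : AreaIn (S ∩ T) r N u := by
  obtain ⟨l, h1, h2, rfl⟩ := h
  refine ⟨l.map fun p => (ret S p.1, p.2), ?_, ?_, ?_⟩
  · rw [List.length_map]
    exact h1
  · intro p hp
    rw [List.mem_map] at hp
    obtain ⟨q, hq, rfl⟩ := hp
    exact ⟨(len_ret_le _ _).trans (h2 q hq).1, ret_let (h2 q hq).2⟩
  · have := cprod_hom (ret S) r l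
    rw [ret_eq hr, ret_eq hu] at this
    exact this.symm

theorem exists_areaLe {r u : FreeGroup X} (h : u ∈ Subgroup.normalClosure {r}) :
    ∃ N, AreaLe r N u := by
  rw [Subgroup.normalClosure] at h
  refine Subgroup.closure_induction (p := fun u _ => ∃ N, AreaLe r N u) ?_ ?_ ?_ ?_ h
  · intro u hu
    rw [Group.mem_conjugatesOfSet_iff] at hu
    obtain ⟨_, rfl, hc⟩ := hu
    obtain ⟨g, rfl⟩ := isConj_iff.1 hc
    refine ⟨max 1 (len g), [(g, true)], le_max_left _ _, ?_, ?_⟩
    · intro p hp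
      rw [List.mem_singleton] at hp
      rw [hp]
      exact ⟨le_max_right _ _, let_univ g⟩
    · rw [cprod_cons, cprod_nil, mul_one]
      rfl
  · exact ⟨0, AreaIn.one _ _ _⟩
  · rintro u v _ _ ⟨N, hN⟩ ⟨M, hM⟩
    exact ⟨N + M, hN.mul hM⟩
  · rintro u _ ⟨N, hN⟩
    exact ⟨N, hN.inv⟩

theorem Mag.mono {B B' : ℕ → ℕ} {r : FreeGroup X} {x : X} (h : Mag B r x) (hB : ∀ n, B n ≤ B' n) :
    Mag B' r x := by
  refine ⟨h.1, fun n u v hu hv huv => ?_⟩
  obtain ⟨h1, h2⟩ := h.2 n u v hu hv huv
  exact ⟨h1.trans (hB n), h2.mono (subset_refl _) (hB n)⟩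

theorem ncl_conj (r g : FreeGroup X) :
    Subgroup.normalClosure {g * r * g⁻¹} = Subgroup.normalClosure {r} := by
  apply le_antisymm
  · apply Subgroup.normalClosure_le_normal
    intro z hz
    rw [Set.mem_singleton_iff] at hz
    rw [hz]
    exact Subgroup.normalClosure_normal.conj_mem _
      (Subgroup.subset_normalClosure (Set.mem_singleton r)) g
  · apply Subgroup.normalClosure_le_normal
    intro z hz
    rw [Set.mem_singleton_iff] at hz
    rw [hz]
    have := (Subgroup.normalClosure_normal (s := {g * r * g⁻¹})).conj_mem _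
      (Subgroup.subset_normalClosure (Set.mem_singleton (g * r * g⁻¹))) g⁻¹
    have h : g⁻¹ * (g * r * g⁻¹) * g⁻¹⁻¹ = r := by group
    rw [h] at this
    exact this

theorem Mag.conj {B : ℕ → ℕ} {r : FreeGroup X} {x : X} (h : Mag B r x) (g : FreeGroup X) :
    Mag (fun n => B n + len g) (g * r * g⁻¹) x := by
  refine ⟨fun v hv hv' => h.1 v hv (by rwa [ncl_conj] at hv'), fun n u v hu hv huv => ?_⟩
  rw [ncl_conj] at huv
  obtain ⟨h1, h2⟩ := h.2 n u v hu hv huv
  exact ⟨h1.trans (Nat.le_add_right _ _), AreaIn.conj_rel h2 (let_univ g)⟩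

theorem hom_ncl (φ : FreeGroup X →* FreeGroup Y) {r u : FreeGroup X}
    (h : u ∈ Subgroup.normalClosure {r}) : φ u ∈ Subgroup.normalClosure {φ r} := by
  obtain ⟨N, l, _, _, rfl⟩ := exists_areaLe h
  rw [cprod_hom]
  exact cprod_mem _ _

/-- transfer of `Mag` along an injection with a retraction -/
theorem Mag.of_retract {B : ℕ → ℕ} {r : FreeGroup X} {x : X} {g : X → Y}
    (hg : Function.Injective g) (ρ : FreeGroup Y →* FreeGroup X)
    (hρ : ∀ u, ρ (FreeGroup.map g u) = u) (hlen : ∀ y, len (ρ (of y)) ≤ 1)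
    (h : Mag B (FreeGroup.map g r) (g x)) : Mag B r x := by
  have hc : ∀ {v : FreeGroup X}, v ∈ Let ({x}ᶜ : Set X) →
      FreeGroup.map g v ∈ Let ({g x}ᶜ : Set Y) := by
    intro v hv
    refine map_mem_let g ?_ hv
    intro z hz hz'
    exact hz (hg hz')
  constructor
  · intro v hv hv'
    have h1 := h.1 (FreeGroup.map g v) (hc hv) (hom_ncl _ hv')
    have h2 := hρ v
    rw [h1, map_one] at h2
    exact h2.symm
  · intro n u v hu hv huv
    have h1 := hom_ncl (FreeGroup.map g) huv
    rw [map_mul, map_inv] at h1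
    obtain ⟨h2, h3⟩ := h.2 n _ _ (by rwa [len_map_of_injective g hg]) (hc hv) h1
    refine ⟨by rwa [len_map_of_injective g hg] at h2, ?_⟩
    have h4 := AreaIn.map (C := 1) (T := Set.univ) h3 ρ fun y _ => ⟨hlen y, let_univ _⟩
    rw [one_mul, max_self, ← map_inv, ← map_mul, hρ, hρ] at h4
    exact h4

theorem Mag.equiv {B : ℕ → ℕ} {r : FreeGroup X} {x : X} (h : Mag B r x) (e : X ≃ Y) :
    Mag B (FreeGroup.map e r) (e x) := by
  have hee : ∀ u, FreeGroup.map e (FreeGroup.map e.symm u) = u := by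
    intro u
    rw [FreeGroup.map.comp]
    simp
  have hee' : ∀ u, FreeGroup.map e.symm (FreeGroup.map e u) = u := by
    intro u
    rw [FreeGroup.map.comp]
    simp
  refine Mag.of_retract (g := e.symm) e.symm.injective (FreeGroup.map e) hee ?_ ?_
  · intro y
    rw [FreeGroup.map.of, len_of]
  · rw [hee', e.symm_apply_apply]
    exact h

theorem Mag.of_some {B : ℕ → ℕ} {r : FreeGroup X} {x : X}
    (h : Mag B (FreeGroup.map some r) (some x)) : Mag B r x := by
  refine Mag.of_retract (Option.some_injective X)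
    (FreeGroup.lift fun o : Option X => o.elim 1 of) ?_ ?_ h
  · intro u
    have : (FreeGroup.lift fun o : Option X => o.elim 1 of).comp (FreeGroup.map some) =
        MonoidHom.id (FreeGroup X) := by
      ext y
      simp
    exact DFunLike.congr_fun this u
  · intro y
    rw [FreeGroup.lift_apply_of]
    cases y with
    | none => simp [len_one]
    | some y => simp [len_of]

/-- `v` is unique, hence it uses the letters of `u` and `r` only -/
theorem Mag.mem_let {B : ℕ → ℕ} {r : FreeGroup X} {x : X} (h : Mag B r x) {S : Set X}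
    (hr : r ∈ Let S) {u v : FreeGroup X} (hu : u ∈ Let S) (hv : v ∈ Let ({x}ᶜ : Set X))
    (huv : u * v⁻¹ ∈ Subgroup.normalClosure {r}) : v ∈ Let S := by
  have h1 := hom_ncl (ret S) huv
  rw [map_mul, map_inv, ret_eq hr, ret_eq hu] at h1
  have h2 : v * (ret S v)⁻¹ ∈ Subgroup.normalClosure {r} := by
    have h3 : v * (ret S v)⁻¹ = (u * v⁻¹)⁻¹ * (u * (ret S v)⁻¹) := by group
    rw [h3]
    exact Subgroup.mul_mem _ (Subgroup.inv_mem _ huv) h1
  have h4 : v * (ret S v)⁻¹ ∈ Let ({x}ᶜ : Set X) :=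
    Subgroup.mul_mem _ hv (Subgroup.inv_mem _ (let_mono Set.inter_subset_right (ret_let hv)))
  have h5 := h.1 _ h4 h2
  rw [mul_inv_eq_one] at h5
  rw [h5]
  exact ret_mem S v

theorem Mag.mem_iff {B : ℕ → ℕ} {r : FreeGroup X} {x : X} (h : Mag B r x) (u : FreeGroup X) :
    u ∈ Subgroup.normalClosure {r} ↔ AreaLe r (B (len u)) u := by
  constructor
  · intro hu
    have := (h.2 (len u) u 1 le_rfl (Subgroup.one_mem _) (by rwa [inv_one, mul_one])).2
    rwa [inv_one, mul_one] at this
  · exact AreaIn.mem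

theorem phiB_le {B : ℕ → ℕ} {q : ℕ} : q + B q + 2 ≤ phiB B q ∧ (q + B q + 2) ^ 2 ≤ phiB B q ∧
    (q + B q + 2) + 3 * (q + B q + 2) ^ 2 ≤ phiB B q := by
  unfold phiB
  have ha : 2 ≤ q + B q + 2 := by omega
  generalize q + B q + 2 = a at ha
  have h1 : a ≤ a ^ 2 := by nlinarith
  have h2 : 4 * a ^ 2 ≤ a ^ 4 := by
    have : 4 ≤ a ^ 2 := by nlinarith
    calc 4 * a ^ 2 ≤ a ^ 2 * a ^ 2 := Nat.mul_le_mul_right _ this
      _ = a ^ 4 := by ring
  refine ⟨by omega, by omega, by omega⟩

theorem le_phiB (B : ℕ → ℕ) (q : ℕ) : q ≤ phiB B q := by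
  have := (phiB_le (B := B) (q := q)).1
  omega

theorem phiB_mono {B : ℕ → ℕ} (hB : Monotone B) : Monotone (phiB B) := by
  intro p q hpq
  unfold phiB
  have := hB hpq
  exact Nat.pow_le_pow_left (by omega) 4

theorem iter_phiB_mono {B : ℕ → ℕ} (hB : Monotone B) {a b p q : ℕ} (hab : a ≤ b) (hpq : p ≤ q) :
    (phiB B)^[a] p ≤ (phiB B)^[b] q := by
  refine ((phiB_mono hB).iterate a hpq).trans ?_
  exact Function.monotone_iterate_of_id_le (fun q => le_phiB B q) hab q

theorem Bst_mono {B : ℕ → ℕ} (hB : Monotone B) {Λ Λ' n n' : ℕ} (h : Λ ≤ Λ') (h' : n ≤ n') :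
    Bst Λ B n ≤ Bst Λ' B n' := by
  unfold Bst
  have h1 : (n + Λ + 2) ^ 8 ≤ (n' + Λ' + 2) ^ 8 := Nat.pow_le_pow_left (by omega) 8
  exact iter_phiB_mono hB (by omega) h1

theorem le_Bst {B : ℕ → ℕ} (hB : Monotone B) (Λ n : ℕ) : n ≤ Bst Λ B n ∧ B n ≤ Bst Λ B n := by
  unfold Bst
  have h1 : n ≤ (n + Λ + 2) ^ 8 := by
    calc n ≤ n + Λ + 2 := by omega
      _ = (n + Λ + 2) ^ 1 := (pow_one _).symm
      _ ≤ (n + Λ + 2) ^ 8 := Nat.pow_le_pow_right (by omega) (by norm_num)
  have h2 : phiB B n ≤ (phiB B)^[(n + Λ + 2) ^ 8 + 3] ((n + Λ + 2) ^ 8) :=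
    iter_phiB_mono hB (a := 1) (by omega) h1
  have h3 := (phiB_le (B := B) (q := n)).1
  exact ⟨by omega, by omega⟩

theorem Bf_mono (L : ℕ) {m m' n n' : ℕ} (h : m ≤ m') (h' : n ≤ n') : Bf L m n ≤ Bf L m' n' := by
  have h1 : ∀ m, Monotone (Bf L m) := by
    intro m
    induction m with
    | zero =>
      intro n n' h
      exact Nat.pow_le_pow_left (by omega) 2
    | succ m ih =>
      intro n n' h
      exact Nat.add_le_add_right (Bst_mono ih le_rfl h) _
  have h2 : ∀ m n, Bf L m n ≤ Bf L (m + 1) n := by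
    intro m n
    exact ((le_Bst (h1 m) (LL L) n).2).trans (Nat.le_add_right _ _)
  have h3 : Monotone fun m => Bf L m n := monotone_nat_of_le_succ fun m => h2 m n
  exact (h3 h).trans (h1 m' h')

end M1

end Pool.Agent.ROR
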