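import Pool.Agent.ROR.MagDefs
import Mathlib.Computability.PartrecCode

/-!
# The bounds of project ROR are computable (package M6)
-/

set_option autoImplicit false

namespace Pool.Agent.ROR

namespace BC

open Nat.Partrec (Code)

theorem primrec_pow_const (k : ℕ) : Primrec fun n : ℕ => n ^ k := by
  induction k with
  | zero => exact (Primrec.const 1).of_eq fun n => (pow_zero n).symm
  | succ k ih => exact (Primrec.nat_mul.comp ih Primrec.id).of_eq fun n => (pow_succ n k).symm

/-- one step with the partial function computed by the code `c` -/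
def stepP (c : Code) (q : ℕ) : Part ℕ := (Code.eval c q).map fun e => (q + e + 2) ^ 4

theorem stepP_partrec : Partrec₂ stepP := by
  unfold stepP
  have h1 : Partrec fun p : Code × ℕ => Code.eval p.1 p.2 := Code.eval_part
  have h2 : Computable₂ fun (p : Code × ℕ) (e : ℕ) => (p.2 + e + 2) ^ 4 := by
    have : Primrec fun x : (Code × ℕ) × ℕ => (x.1.2 + x.2 + 2) ^ 4 :=
      (primrec_pow_const 4).comp (Primrec.nat_add.comp
        (Primrec.nat_add.comp (Primrec.snd.comp Primrec.fst) Primrec.snd) (Primrec.const 2))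
    exact this.to_comp
  exact h1.map h2

/-- iteration of the step -/
def iterP (c : Code) (k : ℕ) (q : ℕ) : Part ℕ :=
  Nat.rec (Part.some q) (fun _ IH => IH.bind fun i => stepP c i) k

theorem iterP_partrec : Partrec fun p : Code × ℕ × ℕ => iterP p.1 p.2.1 p.2.2 := by
  have hf : Computable fun p : Code × ℕ × ℕ => p.2.1 := Computable.fst.comp Computable.snd
  have hg : Partrec fun p : Code × ℕ × ℕ => (Part.some p.2.2 : Part ℕ) :=
    (Computable.snd.comp Computable.snd : Computable fun p : Code × ℕ × ℕ => p.2.2)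
  have hh : Partrec₂ fun (p : Code × ℕ × ℕ) (x : ℕ × ℕ) => stepP p.1 x.2 :=
    stepP_partrec.comp (Computable.fst.comp Computable.fst)
      (Computable.snd.comp Computable.snd)
  exact (Partrec.nat_rec hf hg hh).of_eq fun p => rfl

theorem iterP_eq (c : Code) (B : ℕ → ℕ) (h : ∀ n, Code.eval c n = Part.some (B n)) (k q : ℕ) :
    iterP c k q = Part.some ((phiB B)^[k] q) := by
  induction k with
  | zero => rfl
  | succ k ih =>
    rw [Function.iterate_succ', Function.comp_apply]
    change (iterP c k q).bind (fun i => stepP c i) = _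
    rw [ih, Part.bind_some, stepP, h, Part.map_some]
    rfl

/-- `Bst` plus `Λ` as a partial function of the code of `B` -/
def bstP (c : Code) (Λ n : ℕ) : Part ℕ :=
  (iterP c ((n + Λ + 2) ^ 8 + 3) ((n + Λ + 2) ^ 8)).map fun e => e + Λ

theorem bstP_partrec : Partrec fun p : Code × ℕ × ℕ => bstP p.1 p.2.1 p.2.2 := by
  have h0 : Primrec fun p : Code × ℕ × ℕ => (p.2.2 + p.2.1 + 2) ^ 8 :=
    (primrec_pow_const 8).comp (Primrec.nat_add.comp (Primrec.nat_add.comp
      (Primrec.snd.comp Primrec.snd) (Primrec.fst.comp Primrec.snd)) (Primrec.const 2))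
  have h1 : Primrec fun p : Code × ℕ × ℕ => (p.2.2 + p.2.1 + 2) ^ 8 + 3 :=
    Primrec.nat_add.comp h0 (Primrec.const 3)
  have h2 : Computable fun p : Code × ℕ × ℕ =>
      ((p.1, (p.2.2 + p.2.1 + 2) ^ 8 + 3, (p.2.2 + p.2.1 + 2) ^ 8) : Code × ℕ × ℕ) :=
    (Primrec.fst.pair (h1.pair h0)).to_comp
  have h3 := iterP_partrec.comp h2
  have h4 : Computable₂ fun (p : Code × ℕ × ℕ) (e : ℕ) => e + p.2.1 :=
    (Primrec.nat_add.comp Primrec.snd (Primrec.fst.comp (Primrec.snd.comp Primrec.fst))).to_comp
  exact h3.map h4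

theorem bstP_eq (c : Code) (B : ℕ → ℕ) (h : ∀ n, Code.eval c n = Part.some (B n)) (Λ n : ℕ) :
    bstP c Λ n = Part.some (Bst Λ B n + Λ) := by
  rw [bstP, iterP_eq c B h, Part.map_some, Bst]

attribute [local irreducible] bstP in
/-- the universal code of one step -/
theorem exists_stepCode : ∃ e : Code, ∀ (c : Code) (Λ n : ℕ),
    Code.eval e (Nat.pair (Nat.pair (Encodable.encode c) Λ) n) = bstP c Λ n := by
  have h : Partrec fun x : ℕ => bstP (Denumerable.ofNat Code x.unpair.1.unpair.1)
      x.unpair.1.unpair.2 x.unpair.2 := by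
    have h1 : Computable fun x : ℕ => ((Denumerable.ofNat Code x.unpair.1.unpair.1,
        x.unpair.1.unpair.2, x.unpair.2) : Code × ℕ × ℕ) := by
      have hu : Primrec fun x : ℕ => x.unpair.1 := Primrec.fst.comp Primrec.unpair
      have hv : Primrec fun x : ℕ => x.unpair.2 := Primrec.snd.comp Primrec.unpair
      have hc : Primrec fun x : ℕ => Denumerable.ofNat Code x.unpair.1.unpair.1 :=
        (Primrec.ofNat Code).comp (hu.comp hu)
      have h3 : Primrec fun x : ℕ => x.unpair.1.unpair.2 := hv.comp hu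
      exact (hc.pair (h3.pair hv)).to_comp
    exact bstP_partrec.comp h1
  obtain ⟨e, he⟩ := Code.exists_code.1 (Partrec.nat_iff.1 h)
  refine ⟨e, fun c Λ n => ?_⟩
  rw [he]
  simp only [Nat.unpair_pair, Denumerable.ofNat_encode]

theorem exists_baseCode : ∃ e : Code, ∀ L n : ℕ,
    Code.eval e (Nat.pair L n) = Part.some ((n + L + 2) ^ 2) := by
  have h : Partrec fun x : ℕ => (Part.some ((x.unpair.2 + x.unpair.1 + 2) ^ 2) : Part ℕ) := by
    have h1 : Computable fun x : ℕ => (x.unpair.2 + x.unpair.1 + 2) ^ 2 := by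
      have hu : Primrec fun x : ℕ => x.unpair.1 := Primrec.fst.comp Primrec.unpair
      have hv : Primrec fun x : ℕ => x.unpair.2 := Primrec.snd.comp Primrec.unpair
      exact ((primrec_pow_const 2).comp (Primrec.nat_add.comp (Primrec.nat_add.comp hv hu)
        (Primrec.const 2))).to_comp
    exact h1
  obtain ⟨e, he⟩ := Code.exists_code.1 (Partrec.nat_iff.1 h)
  refine ⟨e, fun L n => ?_⟩
  rw [he]
  simp

end BC

open Nat.Partrec (Code) in
theorem Bf_computable : Computable fun p : ℕ × ℕ × ℕ => Bf p.1 p.2.1 p.2.2 := by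
  obtain ⟨e, he⟩ := BC.exists_stepCode
  obtain ⟨e0, he0⟩ := BC.exists_baseCode
  let cd : ℕ → ℕ → Code := fun L m => Nat.rec (Code.curry e0 L)
    (fun _ c => Code.curry e (Nat.pair (Encodable.encode c) (LL L))) m
  have hcd : ∀ L m n, Code.eval (cd L m) n = Part.some (Bf L m n) := by
    intro L m
    induction m with
    | zero => intro n; change Code.eval (Code.curry e0 L) n = _; rw [Code.eval_curry, he0]; rfl
    | succ m ih =>
      intro n
      change Code.eval (Code.curry e (Nat.pair (Encodable.encode (cd L m)) (LL L))) n = _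
      rw [Code.eval_curry, he, BC.bstP_eq _ _ ih]
      rfl
  have hLL : Primrec LL := by
    unfold LL
    exact Primrec.nat_mul.comp (Primrec.const 2) ((BC.primrec_pow_const 2).comp
      (Primrec.nat_add.comp Primrec.id (Primrec.const 2)))
  have hprim : Primrec₂ cd := by
    refine Primrec.nat_rec (f := fun L : ℕ => Code.curry e0 L)
      (g := fun (L : ℕ) (p : ℕ × Code) => Code.curry e (Nat.pair (Encodable.encode p.2) (LL L)))
      ?_ ?_
    · exact Code.primrec₂_curry.comp (Primrec.const e0) Primrec.id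
    · exact Code.primrec₂_curry.comp (Primrec.const e)
        (Primrec₂.natPair.comp (Primrec.encode.comp (Primrec.snd.comp Primrec.snd))
          (hLL.comp Primrec.fst))
  have hpart : Partrec fun p : ℕ × ℕ × ℕ => Code.eval (cd p.1 p.2.1) p.2.2 := by
    have h1 : Computable fun p : ℕ × ℕ × ℕ => cd p.1 p.2.1 :=
      (hprim.comp Primrec.fst (Primrec.fst.comp Primrec.snd)).to_comp
    exact Code.eval_part.comp h1 (Computable.snd.comp Computable.snd)
  exact Partrec.of_eq_tot hpart fun p => by rw [hcd]; exact Part.mem_some _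

end Pool.Agent.ROR
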