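import Pool.Agent.ROR.Defs
import Mathlib.GroupTheory.HNNExtension

/-!
# An HNN presentation (project ROR, P5)

`F(X ∪ {s})` modulo the normal closure of `K ⊴ F(Y0)` is an HNN extension of `F(Y0) / K` with
stable letter `s` and associated subgroups the images of two free factors of `F(Y0)`.
-/

set_option autoImplicit false

namespace Pool.Agent.ROR

open FreeGroup (of)
open Pool.Agent.RSMonic

section P5

variable {X : Type*} (c : X → ℤ)

/-- the letters except `y` -/
private abbrev hpL {Y : Type*} (S : Set Y) (y : Y) : Type _ := {p : S // p.1 ≠ y}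

/-- the shift of letters -/
private def hpE (x0 : X) (i i' : ℤ) : hpL (Y0 x0 i i') (x0, i') ≃ hpL (Y0 x0 i i') (x0, i) where
  toFun p := ⟨⟨(p.1.1.1, p.1.1.2 + 1), fun h => by
      have h1 := p.1.2 h
      have h2 : p.1.1.2 ≠ i' := fun h3 => p.2 (Prod.ext h h3)
      constructor
      · show i ≤ p.1.1.2 + 1
        omega
      · show p.1.1.2 + 1 ≤ i'
        omega⟩, fun h => by
      have h0 : p.1.1.1 = x0 := congrArg Prod.fst h
      have h1 := p.1.2 h0
      have h3 : p.1.1.2 + 1 = i := congrArg Prod.snd h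
      omega⟩
  invFun p := ⟨⟨(p.1.1.1, p.1.1.2 - 1), fun h => by
      have h1 := p.1.2 h
      have h2 : p.1.1.2 ≠ i := fun h3 => p.2 (Prod.ext h h3)
      constructor
      · show i ≤ p.1.1.2 - 1
        omega
      · show p.1.1.2 - 1 ≤ i'
        omega⟩, fun h => by
      have h0 : p.1.1.1 = x0 := congrArg Prod.fst h
      have h1 := p.1.2 h0
      have h3 : p.1.1.2 - 1 = i' := congrArg Prod.snd h
      omega⟩
  left_inv p := by
    apply Subtype.ext
    apply Subtype.ext
    apply Prod.ext
    · rfl
    · show p.1.1.2 + 1 - 1 = p.1.1.2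
      omega
  right_inv p := by
    apply Subtype.ext
    apply Subtype.ext
    apply Prod.ext
    · rfl
    · show p.1.1.2 - 1 + 1 = p.1.1.2
      omega

private lemma hp_range {Y : Type*} (S : Set Y) (y : Y) :
    (FreeGroup.map (Subtype.val : hpL S y → S)).range = without y := by
  apply le_antisymm
  · rintro _ ⟨u, rfl⟩
    induction u using FreeGroup.induction_on with
    | C1 => simp
    | of a =>
      rw [FreeGroup.map.of]
      exact Subgroup.subset_closure ⟨a.1, a.2, rfl⟩
    | inv_of a ih =>
      rw [map_inv]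
      exact Subgroup.inv_mem _ ih
    | mul a b ha hb =>
      rw [map_mul]
      exact Subgroup.mul_mem _ ha hb
  · unfold without
    rw [Subgroup.closure_le]
    rintro _ ⟨p, hp, rfl⟩
    exact ⟨of ⟨p, hp⟩, FreeGroup.map.of⟩

/-- the map from the free factor to the quotient -/
private def hpJ {Y : Type*} (S : Set Y) (y : Y) (K : Subgroup (FreeGroup S)) [K.Normal] :
    FreeGroup (hpL S y) →* FreeGroup S ⧸ K :=
  (QuotientGroup.mk' K).comp (FreeGroup.map Subtype.val)

private lemma hpJ_injective {Y : Type*} (S : Set Y) (y : Y) (K : Subgroup (FreeGroup S))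
    [K.Normal] (h : K ⊓ without y = ⊥) : Function.Injective (hpJ S y K) := by
  rw [injective_iff_map_eq_one]
  intro a ha
  have h1 : FreeGroup.map Subtype.val a ∈ K := (QuotientGroup.eq_one_iff _).1 ha
  have h2 : FreeGroup.map Subtype.val a ∈ without (S := S) y := by
    rw [← hp_range]
    exact ⟨a, rfl⟩
  have h3 : FreeGroup.map (Subtype.val : hpL S y → S) a ∈ (⊥ : Subgroup (FreeGroup S)) := by
    rw [← h]
    exact ⟨h1, h2⟩
  rw [Subgroup.mem_bot] at h3
  apply FreeGroup.map_injective (f := (Subtype.val : hpL S y → S)) Subtype.val_injective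
  rw [h3, map_one]

private lemma hpJ_range {Y : Type*} (S : Set Y) (y : Y) (K : Subgroup (FreeGroup S)) [K.Normal] :
    (hpJ S y K).range = (without y).map (QuotientGroup.mk' K) := by
  rw [hpJ, MonoidHom.range_comp, hp_range]

/-- the isomorphism of the associated subgroups -/
private noncomputable def hpPhi (x0 : X) (i i' : ℤ) (K : Subgroup (FreeGroup (Y0 x0 i i')))
    [K.Normal] (h1 : K ⊓ without (x0, i') = ⊥) (h2 : K ⊓ without (x0, i) = ⊥) :
    (hpJ (Y0 x0 i i') (x0, i') K).range ≃* (hpJ (Y0 x0 i i') (x0, i) K).range :=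
  (MonoidHom.ofInjective (hpJ_injective _ _ K h1)).symm.trans
    ((FreeGroup.freeGroupCongr (hpE x0 i i')).trans (MonoidHom.ofInjective (hpJ_injective _ _ K h2)))

private lemma hpPhi_apply (x0 : X) (i i' : ℤ) (K : Subgroup (FreeGroup (Y0 x0 i i')))
    [K.Normal] (h1 : K ⊓ without (x0, i') = ⊥) (h2 : K ⊓ without (x0, i) = ⊥)
    (v : FreeGroup (hpL (Y0 x0 i i') (x0, i'))) :
    (hpPhi x0 i i' K h1 h2 ⟨hpJ _ _ K v, ⟨v, rfl⟩⟩ : FreeGroup (Y0 x0 i i') ⧸ K) =
      hpJ _ _ K (FreeGroup.map (hpE x0 i i') v) := by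
  have h3 : (MonoidHom.ofInjective (hpJ_injective _ _ K h1)).symm
      (⟨hpJ _ _ K v, ⟨v, rfl⟩⟩ : (hpJ (Y0 x0 i i') (x0, i') K).range) = v := by
    rw [MulEquiv.symm_apply_eq]
    rfl
  unfold hpPhi
  rw [MulEquiv.trans_apply, MulEquiv.trans_apply, h3]
  rfl

/-- the base level of a letter -/
private noncomputable def hpB (x0 : X) (i : ℤ) (x : X) : ℤ := by
  classical exact if x = x0 then i else 0

private lemma hpB_mem (x0 : X) {i i' : ℤ} (hi : i ≤ i') (x : X) :
    (x, hpB x0 i x) ∈ Y0 x0 i i' := by
  intro h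
  have h' : x = x0 := h
  subst h'
  simp [hpB, hi]

theorem hnn_presentation (x0 : X) (i i' : ℤ) (hi : i ≤ i')
    (K : Subgroup (FreeGroup (Y0 x0 i i'))) [K.Normal]
    (h1 : K ⊓ without (x0, i') = ⊥) (h2 : K ⊓ without (x0, i) = ⊥) :
    ∃ (A B : Subgroup (FreeGroup (Y0 x0 i i') ⧸ K)) (φ : A ≃* B)
      (Φ : FreeGroup (Option X) →* HNNExtension (FreeGroup (Y0 x0 i i') ⧸ K) A B φ),
      A = (without (x0, i')).map (QuotientGroup.mk' K) ∧
      B = (without (x0, i)).map (QuotientGroup.mk' K) ∧
      Φ (st X) = HNNExtension.t ∧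
      (∀ u, Φ (iota c (incl _ u)) = HNNExtension.of (QuotientGroup.mk' K u)) ∧
      Function.Surjective Φ ∧
      Φ.ker = Subgroup.normalClosure
        ((fun u => iota c (incl (Y0 x0 i i') u)) '' (K : Set (FreeGroup (Y0 x0 i i')))) := by
  classical
  set A := (hpJ (Y0 x0 i i') (x0, i') K).range with hA
  set B := (hpJ (Y0 x0 i i') (x0, i) K).range with hB
  set φ : A ≃* B := hpPhi x0 i i' K h1 h2 with hφ
  -- the letters of the base group in the HNN extension
  let g : Y0 x0 i i' → HNNExtension (FreeGroup (Y0 x0 i i') ⧸ K) A B φ :=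
    fun p => HNNExtension.of (QuotientGroup.mk' K (of p))
  let T : HNNExtension (FreeGroup (Y0 x0 i i') ⧸ K) A B φ := HNNExtension.t
  let b : X → Y0 x0 i i' := fun x => ⟨(x, hpB x0 i x), hpB_mem x0 hi x⟩
  let Φ : FreeGroup (Option X) →* HNNExtension (FreeGroup (Y0 x0 i i') ⧸ K) A B φ :=
    FreeGroup.lift fun o => match o with
      | none => T
      | some x => T ^ (-(hpB x0 i x)) * g (b x) * T ^ (hpB x0 i x + c x)
  have hΦs : Φ (st X) = T := by
    show Φ (of none) = T
    rw [FreeGroup.lift_apply_of]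
  have hΦx : ∀ x, Φ (of (some x)) = T ^ (-(hpB x0 i x)) * g (b x) * T ^ (hpB x0 i x + c x) := by
    intro x
    rw [FreeGroup.lift_apply_of]
  -- the shift of one letter
  have hshift : ∀ (p : Y0 x0 i i') (hp : p.1 ≠ (x0, i')),
      T * g p * T⁻¹ = g (hpE x0 i i' ⟨p, hp⟩).1 := by
    intro p hp
    have h3 := HNNExtension.t_mul_of (φ := φ) ⟨hpJ _ _ K (of ⟨p, hp⟩), ⟨of ⟨p, hp⟩, rfl⟩⟩
    rw [hφ, hpPhi_apply] at h3
    have h4 : hpJ (Y0 x0 i i') (x0, i') K (of ⟨p, hp⟩) = QuotientGroup.mk' K (of p) := by
      unfold hpJ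
      rw [MonoidHom.comp_apply, FreeGroup.map.of]
    have h5 : hpJ (Y0 x0 i i') (x0, i) K (FreeGroup.map (hpE x0 i i') (of ⟨p, hp⟩)) =
        QuotientGroup.mk' K (of (hpE x0 i i' ⟨p, hp⟩).1) := by
      unfold hpJ
      rw [FreeGroup.map.of, MonoidHom.comp_apply, FreeGroup.map.of]
    rw [h5] at h3
    have h3' : T * HNNExtension.of (hpJ (Y0 x0 i i') (x0, i') K (of ⟨p, hp⟩)) =
      HNNExtension.of (QuotientGroup.mk' K (of (hpE x0 i i' ⟨p, hp⟩).1)) * T := h3
    rw [h4] at h3'
    rw [mul_inv_eq_iff_eq_mul]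
    exact h3'
  have hup : ∀ (n : ℕ) (p q : Y0 x0 i i'), q.1.1 = p.1.1 → q.1.2 = p.1.2 + n →
      T ^ n * g p * (T ^ n)⁻¹ = g q := by
    intro n
    induction n with
    | zero =>
      intro p q h3 h4
      have h5 : p = q := by
        apply Subtype.ext
        apply Prod.ext
        · exact h3.symm
        · rw [h4]
          simp
      rw [h5]
      simp
    | succ n ih =>
      intro p q h3 h4
      have hne : p.1 ≠ (x0, i') := by
        intro h5
        have h6 : q.1.1 = x0 := by rw [h3, h5]
        have h7 := q.2 h6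
        rw [h4, h5] at h7
        push_cast at h7
        have := h7.2
        omega
      have h5 := ih (hpE x0 i i' ⟨p, hne⟩).1 q (by rw [h3]; rfl) (by
        rw [h4]
        show p.1.2 + ((n + 1 : ℕ) : ℤ) = p.1.2 + 1 + n
        push_cast
        ring)
      rw [← h5, ← hshift p hne, pow_succ]
      simp only [mul_assoc, mul_inv_rev]
  have hall : ∀ (n : ℤ) (p q : Y0 x0 i i'), q.1.1 = p.1.1 → q.1.2 = p.1.2 + n →
      T ^ n * g p * T ^ (-n) = g q := by
    intro n p q h3 h4
    rcases Int.le_total 0 n with hn | hn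
    · obtain ⟨m, rfl⟩ := Int.eq_ofNat_of_zero_le hn
      rw [zpow_neg, zpow_natCast]
      exact hup m p q h3 h4
    · obtain ⟨m, hm⟩ := Int.eq_ofNat_of_zero_le (by omega : 0 ≤ -n)
      have h5 := hup m q p h3.symm (by rw [h4, ← hm]; ring)
      have hn' : n = -(m : ℤ) := by omega
      rw [hn', neg_neg, zpow_neg, zpow_natCast, ← h5]
      group
  have hletter : ∀ p : Y0 x0 i i', Φ (iota c (of p.1)) = g p := by
    intro p
    have h3 : iota c (of p.1) = st X ^ p.1.2 * of (some p.1.1) * st X ^ (-p.1.2 - c p.1.1) := by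
      unfold iota
      rw [FreeGroup.lift_apply_of]
    rw [h3, map_mul, map_mul, map_zpow, map_zpow, hΦs, hΦx]
    have h4 := hall (p.1.2 - hpB x0 i p.1.1) (b p.1.1) p rfl (by
      show p.1.2 = hpB x0 i p.1.1 + (p.1.2 - hpB x0 i p.1.1)
      ring)
    rw [← h4]
    generalize g (b p.1.1) = w
    generalize hpB x0 i p.1.1 = k
    generalize p.1.2 = j
    generalize c p.1.1 = e
    have h5 : T ^ (j - k) = T ^ j * T ^ (-k) := by rw [← zpow_add]; congr 1
    have h6 : T ^ (-(j - k)) = T ^ (k + e) * T ^ (-j - e) := by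
      rw [← zpow_add]; congr 1; ring
    rw [h5, h6]
    simp only [mul_assoc]
  have hΦι : ∀ u, Φ (iota c (incl _ u)) = HNNExtension.of (QuotientGroup.mk' K u) := by
    intro u
    have h3 : (Φ.comp ((iota c).comp (incl (Y0 x0 i i')))) =
        (HNNExtension.of (φ := φ)).comp (QuotientGroup.mk' K) := by
      apply FreeGroup.ext_hom
      intro p
      rw [MonoidHom.comp_apply, MonoidHom.comp_apply, MonoidHom.comp_apply]
      unfold incl
      rw [FreeGroup.map.of]
      exact hletter p
    exact DFunLike.congr_fun h3 u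
  refine ⟨A, B, φ, Φ, hpJ_range _ _ K, hpJ_range _ _ K, hΦs, hΦι, ?_, ?_⟩
  · intro z
    induction z using HNNExtension.induction_on with
    | of q =>
      obtain ⟨u, rfl⟩ := QuotientGroup.mk'_surjective K q
      exact ⟨_, hΦι u⟩
    | t => exact ⟨_, hΦs⟩
    | mul x y hx hy =>
      obtain ⟨a, rfl⟩ := hx
      obtain ⟨a', rfl⟩ := hy
      exact ⟨a * a', map_mul _ _ _⟩
    | inv x hx =>
      obtain ⟨a, rfl⟩ := hx
      exact ⟨a⁻¹, map_inv _ _⟩
  · set N := Subgroup.normalClosure
        ((fun u => iota c (incl (Y0 x0 i i') u)) '' (K : Set (FreeGroup (Y0 x0 i i')))) with hN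
    apply le_antisymm
    · -- the inverse homomorphism
      let f : FreeGroup (Y0 x0 i i') ⧸ K →* FreeGroup (Option X) ⧸ N :=
        QuotientGroup.lift K ((QuotientGroup.mk' N).comp ((iota c).comp (incl (Y0 x0 i i')))) (by
          intro u hu
          rw [MonoidHom.mem_ker, MonoidHom.comp_apply, QuotientGroup.mk'_apply,
            QuotientGroup.eq_one_iff]
          exact Subgroup.subset_normalClosure ⟨u, hu, rfl⟩)
      have hf : ∀ u, f (QuotientGroup.mk' K u) = QuotientGroup.mk' N (iota c (incl _ u)) :=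
        fun u => rfl
      have hfJ : ∀ (y : X × ℤ) (v : FreeGroup (hpL (Y0 x0 i i') y)), f (hpJ _ _ K v) =
          QuotientGroup.mk' N (iota c (incl _ (FreeGroup.map Subtype.val v))) := fun y v => rfl
      let S : FreeGroup (Option X) ⧸ N := QuotientGroup.mk' N (st X)
      have hconj : ∀ v : FreeGroup (hpL (Y0 x0 i i') (x0, i')),
          st X * iota c (incl _ (FreeGroup.map Subtype.val v)) * (st X)⁻¹ =
            iota c (incl _ (FreeGroup.map Subtype.val (FreeGroup.map (hpE x0 i i') v))) := by
        intro v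
        have h3 : ((MulAut.conj (st X)).toMonoidHom.comp ((iota c).comp ((incl _).comp
            (FreeGroup.map (Subtype.val : hpL (Y0 x0 i i') (x0, i') → Y0 x0 i i'))))) =
            (iota c).comp ((incl _).comp ((FreeGroup.map
              (Subtype.val : hpL (Y0 x0 i i') (x0, i) → Y0 x0 i i')).comp
                (FreeGroup.map (hpE x0 i i')))) := by
          apply FreeGroup.ext_hom
          intro p
          simp only [MonoidHom.comp_apply, MulEquiv.coe_toMonoidHom, MulAut.conj_apply, incl,
            FreeGroup.map.of]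
          unfold iota
          rw [FreeGroup.lift_apply_of, FreeGroup.lift_apply_of]
          show st X * (st X ^ p.1.1.2 * of (some p.1.1.1) * st X ^ (-p.1.1.2 - c p.1.1.1)) *
            (st X)⁻¹ = st X ^ (p.1.1.2 + 1) * of (some p.1.1.1) *
              st X ^ (-(p.1.1.2 + 1) - c p.1.1.1)
          generalize of (some p.1.1.1) = w
          generalize p.1.1.2 = j
          generalize c p.1.1.1 = e
          generalize st X = s
          have h5 : s ^ (j + 1) = s * s ^ j := by rw [add_comm, zpow_add, zpow_one]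
          have h6 : s ^ (-(j + 1) - e) = s ^ (-j - e) * s⁻¹ := by
            rw [← zpow_neg_one, ← zpow_add]; congr 1; ring
          rw [h5, h6]
          simp only [mul_assoc]
        exact DFunLike.congr_fun h3 v
      let Ψ : HNNExtension (FreeGroup (Y0 x0 i i') ⧸ K) A B φ →* FreeGroup (Option X) ⧸ N :=
        HNNExtension.lift f S (by
          rintro ⟨_, v, rfl⟩
          rw [hφ, hpPhi_apply, hfJ, hfJ, ← hconj, map_mul, map_mul, map_inv]
          show S * _ = S * _ * S⁻¹ * S
          rw [inv_mul_cancel_right])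
      have hΨ : ∀ u, Ψ (Φ u) = QuotientGroup.mk' N u := by
        intro u
        have h3 : Ψ.comp Φ = QuotientGroup.mk' N := by
          apply FreeGroup.ext_hom
          intro o
          rw [MonoidHom.comp_apply]
          rcases o with _ | x
          · have h4 : Φ (of none) = T := hΦs
            rw [h4]
            exact HNNExtension.lift_t _ _ _
          · rw [hΦx, map_mul, map_mul, map_zpow, map_zpow]
            have h4 : Ψ T = S := HNNExtension.lift_t _ _ _
            have h5 : Ψ (g (b x)) = QuotientGroup.mk' N (iota c (incl _ (of (b x)))) :=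
              HNNExtension.lift_of _ _ _ _
            rw [h4, h5]
            have h6 : iota c (incl _ (of (b x))) = st X ^ (hpB x0 i x) * of (some x) *
                st X ^ (-(hpB x0 i x) - c x) := by
              unfold incl iota
              rw [FreeGroup.map.of, FreeGroup.lift_apply_of]
            rw [h6]
            show QuotientGroup.mk' N (st X) ^ _ * _ * QuotientGroup.mk' N (st X) ^ _ = _
            rw [← map_zpow, ← map_zpow, ← map_mul, ← map_mul]
            congr 1
            generalize of (some x) = w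
            generalize hpB x0 i x = k
            generalize c x = e
            generalize st X = s
            have h7 : s ^ (-k) * (s ^ k * w * s ^ (-k - e)) * s ^ (k + e) =
                (s ^ (-k) * s ^ k) * w * (s ^ (-k - e) * s ^ (k + e)) := by
              simp only [mul_assoc]
            rw [h7, ← zpow_add, ← zpow_add]
            have h8 : -k + k = 0 := by ring
            have h9 : -k - e + (k + e) = 0 := by ring
            rw [h8, h9, zpow_zero, one_mul, mul_one]
        exact DFunLike.congr_fun h3 u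
      intro u hu
      have h3 := hΨ u
      rw [MonoidHom.mem_ker.1 hu, map_one] at h3
      exact (QuotientGroup.eq_one_iff u).1 h3.symm
    · rw [hN]
      apply Subgroup.normalClosure_le_normal
      rintro _ ⟨u, hu, rfl⟩
      show Φ (iota c (incl _ u)) = 1
      rw [hΦι, QuotientGroup.mk'_apply, (QuotientGroup.eq_one_iff u).2 hu, map_one]

end P5

end Pool.Agent.ROR
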