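import Pool.Agent.ROR.Area
import Pool.Agent.ROR.HNNPres

/-!
# Quantitative Britton reduction (project ROR, M2a)
-/

set_option autoImplicit false

namespace Pool.Agent.ROR

open FreeGroup (of)

section M2a
variable {X : Type*} (c : X → ℤ)

/-- the letter `x0_j` of `Y0` -/
def y0 (x0 : X) (i i' j : ℤ) (h : i ≤ j) (h' : j ≤ i') : Y0 x0 i i' := ⟨(x0, j), fun _ => ⟨h, h'⟩⟩

section Aux

variable (x0 : X) (i i' : ℤ)

/-- the base map -/
private def bj : FreeGroup (Y0 x0 i i') →* FreeGroup (Option X) := (iota c).comp (incl _)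

/-- the letters of level at most `M` -/
private def lev (M : ℕ) : Set (Y0 x0 i i') := {p | p.1.2.natAbs ≤ M}

private lemma lev_mono {M M' : ℕ} (h : M ≤ M') : lev x0 i i' M ⊆ lev x0 i i' M' :=
  fun _ hp => le_trans (show _ ≤ M from hp) h

private lemma bj_of (p : Y0 x0 i i') : bj c x0 i i' (of p) =
    st X ^ p.1.2 * of (some p.1.1) * st X ^ (-p.1.2 - c p.1.1) := by
  unfold bj iota incl
  rw [MonoidHom.comp_apply, FreeGroup.map.of, FreeGroup.lift_apply_of]

private lemma len_bj_of {Λ M : ℕ} (hc : ∀ x, (c x).natAbs ≤ Λ) (p : Y0 x0 i i')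
    (hp : p ∈ lev x0 i i' M) : len (bj c x0 i i' (of p)) ≤ 2 * M + Λ + 1 := by
  rw [bj_of]
  have h1 := len_mul_le (st X ^ p.1.2 * of (some p.1.1)) (st X ^ (-p.1.2 - c p.1.1))
  have h2 := len_mul_le (st X ^ p.1.2) (of (some p.1.1))
  have h3 := len_zpow_of_le (none : Option X) p.1.2
  have h4 := len_zpow_of_le (none : Option X) (-p.1.2 - c p.1.1)
  have h5 := len_of (some p.1.1)
  have h6 : p.1.2.natAbs ≤ M := hp
  have h7 := hc p.1.1
  unfold st at h1 h2 ⊢
  omega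

private lemma len_bj {Λ M : ℕ} (hc : ∀ x, (c x).natAbs ≤ Λ) (u : FreeGroup (Y0 x0 i i'))
    (hu : u ∈ Let (lev x0 i i' M)) : len (bj c x0 i i' u) ≤ (2 * M + Λ + 1) * len u :=
  len_hom_le _ _ _ (fun p hp => len_bj_of c x0 i i' hc p hp) u hu

open Classical in
/-- the shift of a letter, if it stays inside `Y0` -/
private noncomputable def shL (δ : ℤ) (p : Y0 x0 i i') : Y0 x0 i i' :=
  if h : (p.1.1, p.1.2 + δ) ∈ Y0 x0 i i' then ⟨_, h⟩ else p

/-- the letters which can be shifted -/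
private def okL (δ : ℤ) : Set (Y0 x0 i i') := {p | (p.1.1, p.1.2 + δ) ∈ Y0 x0 i i'}

private lemma shL_lev {M : ℕ} {δ : ℤ} (hδ : δ.natAbs ≤ 1) (p : Y0 x0 i i')
    (hp : p ∈ lev x0 i i' M) : shL x0 i i' δ p ∈ lev x0 i i' (M + 1) := by
  have h1 : p.1.2.natAbs ≤ M := hp
  unfold shL
  split_ifs with h
  · show (p.1.2 + δ).natAbs ≤ M + 1
    omega
  · show p.1.2.natAbs ≤ M + 1
    omega

/-- the shift -/
private noncomputable def shH (δ : ℤ) : FreeGroup (Y0 x0 i i') →* FreeGroup (Y0 x0 i i') :=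
  FreeGroup.map (shL x0 i i' δ)

private lemma len_shH (δ : ℤ) (v : FreeGroup (Y0 x0 i i')) : len (shH x0 i i' δ v) ≤ len v := by
  have h := len_hom_le (shH x0 i i' δ) Set.univ 1 (fun p _ => by
    unfold shH
    rw [FreeGroup.map.of, len_of]) v (let_univ v)
  omega

private lemma bj_shH (δ : ℤ) (v : FreeGroup (Y0 x0 i i')) (hv : v ∈ Let (okL x0 i i' δ)) :
    st X ^ δ * bj c x0 i i' v * (st X ^ δ)⁻¹ = bj c x0 i i' (shH x0 i i' δ v) := by
  have h : Let (okL x0 i i' δ) ≤ MonoidHom.eqLocus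
      ((MulAut.conj (st X ^ δ)).toMonoidHom.comp (bj c x0 i i'))
      ((bj c x0 i i').comp (shH x0 i i' δ)) := by
    unfold Let
    rw [Subgroup.closure_le]
    rintro _ ⟨p, hp, rfl⟩
    have hp' : (p.1.1, p.1.2 + δ) ∈ Y0 x0 i i' := hp
    show st X ^ δ * bj c x0 i i' (of p) * (st X ^ δ)⁻¹ = bj c x0 i i' (shH x0 i i' δ (of p))
    have h1 : shH x0 i i' δ (of p) = of ⟨(p.1.1, p.1.2 + δ), hp'⟩ := by
      unfold shH shL
      rw [FreeGroup.map.of, dif_pos hp']
    rw [h1, bj_of, bj_of]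
    show _ = st X ^ (p.1.2 + δ) * of (some p.1.1) * st X ^ (-(p.1.2 + δ) - c p.1.1)
    generalize of (some p.1.1) = w
    generalize p.1.2 = j
    generalize c p.1.1 = e
    generalize st X = s
    have h5 : s ^ (j + δ) = s ^ δ * s ^ j := by rw [← zpow_add, add_comm]
    have h6 : s ^ (-(j + δ) - e) = s ^ (-j - e) * (s ^ δ)⁻¹ := by
      rw [← zpow_neg, ← zpow_add]; congr 1; ring
    rw [h5, h6]
    simp only [mul_assoc]
  exact h hv

/-- the value of a word -/
private def val (g0 : FreeGroup (Y0 x0 i i')) (l : List (ℤˣ × FreeGroup (Y0 x0 i i'))) :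
    FreeGroup (Option X) :=
  bj c x0 i i' g0 * (l.map fun p => st X ^ (p.1 : ℤ) * bj c x0 i i' p.2).prod

/-- the total length -/
private noncomputable def siz (g0 : FreeGroup (Y0 x0 i i'))
    (l : List (ℤˣ × FreeGroup (Y0 x0 i i'))) : ℕ :=
  len g0 + (l.map fun p => len p.2).sum

private lemma val_append (g0 : FreeGroup (Y0 x0 i i'))
    (l l' : List (ℤˣ × FreeGroup (Y0 x0 i i'))) : val c x0 i i' g0 (l ++ l') =
      val c x0 i i' g0 l * (l'.map fun p => st X ^ (p.1 : ℤ) * bj c x0 i i' p.2).prod := by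
  unfold val
  rw [List.map_append, List.prod_append, mul_assoc]

private lemma siz_append (g0 : FreeGroup (Y0 x0 i i'))
    (l l' : List (ℤˣ × FreeGroup (Y0 x0 i i'))) : siz x0 i i' g0 (l ++ l') =
      siz x0 i i' g0 l + (l'.map fun p => len p.2).sum := by
  unfold siz
  rw [List.map_append, List.sum_append, add_assoc]

/-- multiplying the last syllable -/
private lemma mulLast (S : Set (Y0 x0 i i')) (g0 : FreeGroup (Y0 x0 i i'))
    (l : List (ℤˣ × FreeGroup (Y0 x0 i i'))) (z : FreeGroup (Y0 x0 i i')) (hg0 : g0 ∈ Let S)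
    (hl : ∀ p ∈ l, p.2 ∈ Let S) (hz : z ∈ Let S) :
    ∃ g0' l', l'.length = l.length ∧ val c x0 i i' g0' l' = val c x0 i i' g0 l * bj c x0 i i' z ∧
      siz x0 i i' g0' l' ≤ siz x0 i i' g0 l + len z ∧ g0' ∈ Let S ∧ ∀ p ∈ l', p.2 ∈ Let S := by
  rcases List.eq_nil_or_concat' l with rfl | ⟨l1, a, rfl⟩
  · refine ⟨g0 * z, [], rfl, ?_, ?_, Subgroup.mul_mem _ hg0 hz, by simp⟩
    · unfold val
      rw [map_mul]
      simp
    · unfold siz
      have := len_mul_le g0 z
      simpa using this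
  · refine ⟨g0, l1 ++ [(a.1, a.2 * z)], by simp, ?_, ?_, hg0, ?_⟩
    · rw [val_append, val_append]
      simp only [List.map_cons, List.map_nil, List.prod_cons, List.prod_nil, mul_one, map_mul]
      simp only [mul_assoc]
    · rw [siz_append, siz_append]
      have := len_mul_le a.2 z
      simp only [List.map_cons, List.map_nil, List.sum_cons, List.sum_nil]
      omega
    · intro p hp
      rcases List.mem_append.1 hp with h | h
      · exact hl p (by simp [h])
      · rw [List.mem_singleton.1 h]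
        exact Subgroup.mul_mem _ (hl a (by simp)) hz

private lemma len_val {Λ M : ℕ} (hc : ∀ x, (c x).natAbs ≤ Λ) (g0 : FreeGroup (Y0 x0 i i'))
    (l : List (ℤˣ × FreeGroup (Y0 x0 i i'))) (hg0 : g0 ∈ Let (lev x0 i i' M))
    (hl : ∀ p ∈ l, p.2 ∈ Let (lev x0 i i' M)) :
    len (val c x0 i i' g0 l) ≤ (2 * M + Λ + 1) * siz x0 i i' g0 l + l.length := by
  have h1 : len ((l.map fun p => st X ^ (p.1 : ℤ) * bj c x0 i i' p.2).prod) ≤
      (2 * M + Λ + 1) * (l.map fun p => len p.2).sum + l.length := by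
    induction l with
    | nil => simp [len_one]
    | cons a l ih =>
      have h2 := ih fun p hp => hl p (List.mem_cons_of_mem _ hp)
      have h3 := len_bj c x0 i i' hc a.2 (hl a List.mem_cons_self)
      rw [List.map_cons, List.prod_cons, List.map_cons, List.sum_cons, List.length_cons]
      have h4 := len_mul_le (st X ^ (a.1 : ℤ) * bj c x0 i i' a.2)
        ((l.map fun p => st X ^ (p.1 : ℤ) * bj c x0 i i' p.2).prod)
      have h5 := len_mul_le (st X ^ (a.1 : ℤ)) (bj c x0 i i' a.2)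
      have h6 := len_zpow_of_le (none : Option X) (a.1 : ℤ)
      have h7 : (a.1 : ℤ).natAbs = 1 := Int.isUnit_iff_natAbs_eq.1 a.1.isUnit
      have h8 : (2 * M + Λ + 1) * (len a.2 + (l.map fun p => len p.2).sum) =
        (2 * M + Λ + 1) * len a.2 + (2 * M + Λ + 1) * (l.map fun p => len p.2).sum := by ring
      unfold st at h4 h5 h2 ⊢
      omega
  have h2 := len_mul_le (bj c x0 i i' g0) ((l.map fun p => st X ^ (p.1 : ℤ) * bj c x0 i i' p.2).prod)
  have h3 := len_bj c x0 i i' hc g0 hg0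
  unfold val siz
  have h8 : (2 * M + Λ + 1) * (len g0 + (l.map fun p => len p.2).sum) =
        (2 * M + Λ + 1) * len g0 + (2 * M + Λ + 1) * (l.map fun p => len p.2).sum := by ring
  omega

/-- the letter of the associated subgroup -/
private def yy (hi : i ≤ i') (e : ℤˣ) : Y0 x0 i i' :=
  if e = 1 then y0 x0 i i' i' hi le_rfl else y0 x0 i i' i le_rfl hi

private lemma let_yy_le (hi : i ≤ i') (e : ℤˣ) :
    Let ({yy x0 i i' hi e}ᶜ : Set (Y0 x0 i i')) ≤ Let (okL x0 i i' (e : ℤ)) := by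
  apply let_mono
  intro p hp
  have hp' : p ≠ yy x0 i i' hi e := hp
  intro h
  have h0 : p.1.1 = x0 := h
  have h1 := p.2 h0
  rcases Int.units_eq_one_or e with rfl | rfl
  · have h2 : p.1.2 ≠ i' := by
      intro h3
      apply hp'
      unfold yy y0
      rw [if_pos rfl]
      apply Subtype.ext
      exact Prod.ext h0 h3
    show i ≤ p.1.2 + 1 ∧ p.1.2 + 1 ≤ i'
    omega
  · have h2 : p.1.2 ≠ i := by
      intro h3
      apply hp'
      unfold yy y0
      rw [if_neg (by decide)]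
      apply Subtype.ext
      exact Prod.ext h0 h3
    show i ≤ p.1.2 + -1 ∧ p.1.2 + -1 ≤ i'
    omega

private lemma without_eq (hi : i ≤ i') :
    without (S := Y0 x0 i i') (x0, i') = Let ({yy x0 i i' hi 1}ᶜ : Set (Y0 x0 i i')) ∧
    without (S := Y0 x0 i i') (x0, i) = Let ({yy x0 i i' hi (-1)}ᶜ : Set (Y0 x0 i i')) := by
  constructor
  · unfold without Let
    congr 2
    ext p
    unfold yy y0
    rw [if_pos rfl]
    simp only [Set.mem_ofPred_eq, Set.mem_compl_iff, Set.mem_singleton_iff, Subtype.ext_iff, ne_eq]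
  · unfold without Let
    congr 2
    ext p
    unfold yy y0
    rw [if_neg (by decide)]
    simp only [Set.mem_ofPred_eq, Set.mem_compl_iff, Set.mem_singleton_iff, Subtype.ext_iff, ne_eq]

private lemma inf_eq_bot (B0 : ℕ → ℕ) (r0 : FreeGroup (Y0 x0 i i')) (y : Y0 x0 i i')
    (h : Mag B0 r0 y) : Subgroup.normalClosure {r0} ⊓ Let ({y}ᶜ : Set (Y0 x0 i i')) = ⊥ := by
  rw [eq_bot_iff]
  rintro v ⟨h1, h2⟩
  exact Subgroup.mem_bot.2 (h.1 v h2 h1)

/-- the presentation -/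
private lemma pres (hi : i ≤ i') (r0 : FreeGroup (Y0 x0 i i')) (B0 : ℕ → ℕ)
    (h1 : Mag B0 r0 (y0 x0 i i' i' hi le_rfl)) (h2 : Mag B0 r0 (y0 x0 i i' i le_rfl hi)) :
    ∃ (A B : Subgroup (FreeGroup (Y0 x0 i i') ⧸ Subgroup.normalClosure {r0})) (φ : A ≃* B)
      (Φ : FreeGroup (Option X) →*
        HNNExtension (FreeGroup (Y0 x0 i i') ⧸ Subgroup.normalClosure {r0}) A B φ),
      (∀ (e : ℤˣ) (g : FreeGroup (Y0 x0 i i')),
        QuotientGroup.mk' (Subgroup.normalClosure {r0}) g ∈ HNNExtension.toSubgroup A B e →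
        ∃ v ∈ Let ({yy x0 i i' hi e}ᶜ : Set (Y0 x0 i i')),
          g * v⁻¹ ∈ Subgroup.normalClosure {r0}) ∧
      Φ (st X) = HNNExtension.t ∧
      (∀ u, Φ (bj c x0 i i' u) =
        HNNExtension.of (QuotientGroup.mk' (Subgroup.normalClosure {r0}) u)) ∧
      Φ.ker = Subgroup.normalClosure {bj c x0 i i' r0} := by
  have hw := without_eq x0 i i' hi
  have h1' : Subgroup.normalClosure {r0} ⊓ without (S := Y0 x0 i i') (x0, i') = ⊥ := by
    rw [hw.1]
    exact inf_eq_bot x0 i i' B0 r0 _ (by unfold yy; rw [if_pos rfl]; exact h1)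
  have h2' : Subgroup.normalClosure {r0} ⊓ without (S := Y0 x0 i i') (x0, i) = ⊥ := by
    rw [hw.2]
    exact inf_eq_bot x0 i i' B0 r0 _ (by unfold yy; rw [if_neg (by decide)]; exact h2)
  obtain ⟨A, B, φ, Φ, hA, hB, ht, hΦ, -, hker⟩ :=
    hnn_presentation c x0 i i' hi (Subgroup.normalClosure {r0}) h1' h2'
  refine ⟨A, B, φ, Φ, ?_, ht, hΦ, ?_⟩
  · have key : ∀ (y : Y0 x0 i i') (g : FreeGroup (Y0 x0 i i')),
        QuotientGroup.mk' (Subgroup.normalClosure {r0}) g ∈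
          (Let ({y}ᶜ : Set (Y0 x0 i i'))).map (QuotientGroup.mk' (Subgroup.normalClosure {r0})) →
        ∃ v ∈ Let ({y}ᶜ : Set (Y0 x0 i i')), g * v⁻¹ ∈ Subgroup.normalClosure {r0} := by
      rintro y g ⟨v, hv, hvg⟩
      refine ⟨v, hv, ?_⟩
      rw [← QuotientGroup.eq_one_iff, ← QuotientGroup.mk'_apply, map_mul, map_inv, hvg,
        mul_inv_cancel]
    intro e g hg
    rcases Int.units_eq_one_or e with rfl | rfl
    · rw [HNNExtension.toSubgroup_one, hA, hw.1] at hg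
      exact key _ g hg
    · rw [HNNExtension.toSubgroup_neg_one, hB, hw.2] at hg
      exact key _ g hg
  · rw [hker]
    apply le_antisymm
    · apply Subgroup.normalClosure_le_normal
      rintro _ ⟨u, hu, rfl⟩
      have h3 : Subgroup.normalClosure {r0} ≤
          (Subgroup.normalClosure {bj c x0 i i' r0}).comap (bj c x0 i i') := by
        apply Subgroup.normalClosure_le_normal
        rintro _ rfl
        exact Subgroup.subset_normalClosure rfl
      exact h3 hu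
    · apply Subgroup.normalClosure_le_normal
      rintro _ rfl
      exact Subgroup.subset_normalClosure ⟨r0, Subgroup.subset_normalClosure rfl, rfl⟩

end Aux

/-- the base group embeds -/
theorem base_embeds (x0 : X) (i i' : ℤ) (hi : i ≤ i') (r0 : FreeGroup (Y0 x0 i i'))
    (B0 : ℕ → ℕ)
    (h1 : Mag B0 r0 (y0 x0 i i' i' hi le_rfl)) (h2 : Mag B0 r0 (y0 x0 i i' i le_rfl hi))
    (u : FreeGroup (Y0 x0 i i'))
    (hu : iota c (incl _ u) ∈ Subgroup.normalClosure {iota c (incl _ r0)}) :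
    u ∈ Subgroup.normalClosure {r0} := by
  obtain ⟨A, B, φ, Φ, -, -, hΦ, hker⟩ := pres c x0 i i' hi r0 B0 h1 h2
  have h3 : Φ (bj c x0 i i' u) = 1 := by
    rw [← MonoidHom.mem_ker, hker]
    exact hu
  rw [hΦ, ← map_one (HNNExtension.of (φ := φ))] at h3
  have h4 := HNNExtension.of_injective φ h3
  exact (QuotientGroup.eq_one_iff u).1 h4

section Aux2

variable (x0 : X) (i i' : ℤ)

/-- one pinch -/
private lemma pinch (hi : i ≤ i') (r0 : FreeGroup (Y0 x0 i i')) (Λ : ℕ)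
    (hc : ∀ x, (c x).natAbs ≤ Λ) (hlr0 : r0 ∈ Let (lev x0 i i' Λ))
    (B0 : ℕ → ℕ)
    (h1 : Mag B0 r0 (y0 x0 i i' i' hi le_rfl)) (h2 : Mag B0 r0 (y0 x0 i i' i le_rfl hi))
    (e : ℤˣ) (M : ℕ) (hM : Λ ≤ M) (g v : FreeGroup (Y0 x0 i i')) (hg : g ∈ Let (lev x0 i i' M))
    (hv : v ∈ Let ({yy x0 i i' hi e}ᶜ : Set (Y0 x0 i i')))
    (hgv : g * v⁻¹ ∈ Subgroup.normalClosure {r0}) :
    ∃ w ∈ Let (lev x0 i i' (M + 1)), len w ≤ B0 (len g) ∧
      AreaLe (bj c x0 i i' r0) (max (B0 (len g)) ((2 * M + Λ + 1) * B0 (len g)) + 1)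
        (st X ^ (e : ℤ) * bj c x0 i i' g * (st X ^ (e : ℤ))⁻¹ * (bj c x0 i i' w)⁻¹) := by
  have hMag : Mag B0 r0 (yy x0 i i' hi e) := by
    unfold yy
    split_ifs
    · exact h1
    · exact h2
  obtain ⟨hvl, harea⟩ := hMag.2 (len g) g v le_rfl hv hgv
  have hr0M : r0 ∈ Let (lev x0 i i' M) := let_mono (lev_mono x0 i i' hM) hlr0
  have hvM : v ∈ Let (lev x0 i i' M) := hMag.mem_let hr0M hg hv hgv
  have h3 := AreaIn.retract harea hr0M (Subgroup.mul_mem _ hg (Subgroup.inv_mem _ hvM))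
  have h4 := h3.map (T := Set.univ) (C := 2 * M + Λ + 1) (bj c x0 i i')
    (fun p hp => ⟨len_bj_of c x0 i i' hc p hp.1, let_univ _⟩)
  have h5 := h4.conj (g := st X ^ (e : ℤ)) (let_univ _)
  refine ⟨shH x0 i i' e v, ?_, le_trans (len_shH x0 i i' e v) hvl, ?_⟩
  · unfold shH
    refine map_mem_let _ (fun p hp => shL_lev x0 i i' ?_ p hp) hvM
    rw [Int.isUnit_iff_natAbs_eq.1 e.isUnit]
  · rw [← bj_shH c x0 i i' e v (let_yy_le x0 i i' hi e hv)]
    have h6 : st X ^ (e : ℤ) * bj c x0 i i' g * (st X ^ (e : ℤ))⁻¹ *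
        (st X ^ (e : ℤ) * bj c x0 i i' v * (st X ^ (e : ℤ))⁻¹)⁻¹ =
        st X ^ (e : ℤ) * bj c x0 i i' (g * v⁻¹) * (st X ^ (e : ℤ))⁻¹ := by
      rw [map_mul, map_inv]
      group
    rw [h6]
    refine AreaIn.mono h5 (Set.subset_univ _) ?_
    have h7 := len_zpow_of_le (none : Option X) (e : ℤ)
    rw [Int.isUnit_iff_natAbs_eq.1 e.isUnit] at h7
    unfold st
    omega

/-- the bounds after one pinch -/
private lemma bounds {B0 : ℕ → ℕ} {q C S S1 k M Λ N : ℕ} (hC : C = 2 * M + Λ + 1) (hM : Λ ≤ M)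
    (hq : S + M + k ≤ q) (hN : N ≤ B0 q) (hS1 : S1 ≤ S) :
    q + (max N (C * N) + 1 + (C * S1 + k)) ≤ phiB B0 q := by
  have h1 := (phiB_le (B := B0) (q := q)).2.2
  have h2 : max N (C * N) ≤ C * N := by
    apply max_le _ le_rfl
    calc N = 1 * N := (one_mul N).symm
      _ ≤ C * N := Nat.mul_le_mul_right N (by omega)
  have h3 : C * N ≤ (3 * q + 1) * B0 q := Nat.mul_le_mul (by omega) hN
  have h4 : C * S1 ≤ (3 * q + 1) * q := Nat.mul_le_mul (by omega) (by omega)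
  have h5 : q + ((3 * q + 1) * B0 q + 1 + ((3 * q + 1) * q + q)) ≤
      (q + B0 q + 2) + 3 * (q + B0 q + 2) ^ 2 := by nlinarith [Nat.zero_le q, Nat.zero_le (B0 q)]
  omega

private lemma le_iter (B0 : ℕ → ℕ) (k q : ℕ) : q ≤ (phiB B0)^[k] q := by
  induction k generalizing q with
  | zero => exact le_rfl
  | succ k ih =>
    rw [Function.iterate_succ_apply]
    have h1 := (phiB_le (B := B0) (q := q)).1
    exact le_trans (by omega) (ih (phiB B0 q))

private lemma red_main (hi : i ≤ i') (r0 : FreeGroup (Y0 x0 i i')) (Λ : ℕ)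
    (hc : ∀ x, (c x).natAbs ≤ Λ) (hlr0 : r0 ∈ Let (lev x0 i i' Λ))
    (B0 : ℕ → ℕ) (hB0 : Monotone B0)
    (h1 : Mag B0 r0 (y0 x0 i i' i' hi le_rfl)) (h2 : Mag B0 r0 (y0 x0 i i' i le_rfl hi))
    (u : FreeGroup (Option X)) (h' : FreeGroup (Y0 x0 i i'))
    (huh : u * (bj c x0 i i' h')⁻¹ ∈ Subgroup.normalClosure {bj c x0 i i' r0}) (k : ℕ) :
    ∀ (q M : ℕ) (g0 : FreeGroup (Y0 x0 i i')) (l : List (ℤˣ × FreeGroup (Y0 x0 i i'))),
      l.length ≤ k → Λ ≤ M → g0 ∈ Let (lev x0 i i' M) → (∀ p ∈ l, p.2 ∈ Let (lev x0 i i' M)) →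
      siz x0 i i' g0 l + M + l.length ≤ q →
      AreaLe (bj c x0 i i' r0) q (u * (val c x0 i i' g0 l)⁻¹) →
      ∃ h : FreeGroup (Y0 x0 i i'), len h ≤ (phiB B0)^[k] q ∧
        h ∈ Let (lev x0 i i' ((phiB B0)^[k] q)) ∧
        AreaLe (bj c x0 i i' r0) ((phiB B0)^[k] q) (u * (bj c x0 i i' h)⁻¹) := by
  obtain ⟨A, B, φ, Φ, hsub, hΦt, hΦ, hker⟩ := pres c x0 i i' hi r0 B0 h1 h2
  -- the case of the empty list
  have hnil : ∀ (k q M : ℕ) (g0 : FreeGroup (Y0 x0 i i')), g0 ∈ Let (lev x0 i i' M) →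
      siz x0 i i' g0 [] + M ≤ q → AreaLe (bj c x0 i i' r0) q (u * (val c x0 i i' g0 [])⁻¹) →
      ∃ h : FreeGroup (Y0 x0 i i'), len h ≤ (phiB B0)^[k] q ∧
        h ∈ Let (lev x0 i i' ((phiB B0)^[k] q)) ∧
        AreaLe (bj c x0 i i' r0) ((phiB B0)^[k] q) (u * (bj c x0 i i' h)⁻¹) := by
    intro k q M g0 hg0 hq hA
    have h3 := le_iter B0 k q
    have h4 : siz x0 i i' g0 [] = len g0 := by unfold siz; simp
    have h5 : val c x0 i i' g0 [] = bj c x0 i i' g0 := by unfold val; simp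
    rw [h5] at hA
    exact ⟨g0, by omega, let_mono (lev_mono x0 i i' (by omega)) hg0,
      AreaIn.mono hA subset_rfl h3⟩
  induction k with
  | zero =>
    intro q M g0 l hk hM hg0 hl hq hA
    have hl0 : l = [] := List.length_eq_zero_iff.1 (Nat.le_zero.1 hk)
    subst hl0
    exact hnil 0 q M g0 hg0 (by simpa using hq) hA
  | succ k ih =>
    intro q M g0 l hk hM hg0 hl hq hA
    by_cases hl0 : l = []
    · subst hl0
      exact hnil (k + 1) q M g0 hg0 (by simpa using hq) hA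
    -- the word is not reduced
    have hrange : Φ (val c x0 i i' g0 l) = HNNExtension.of
        (QuotientGroup.mk' (Subgroup.normalClosure {r0}) h') := by
      have h3 : Φ (u * (val c x0 i i' g0 l)⁻¹) = 1 := by
        rw [← MonoidHom.mem_ker, hker]
        exact hA.mem
      have h4 : Φ (u * (bj c x0 i i' h')⁻¹) = 1 := by
        rw [← MonoidHom.mem_ker, hker]
        exact huh
      rw [map_mul, map_inv, mul_inv_eq_one] at h3 h4
      rw [← h3, h4, hΦ]
    let l' : List (ℤˣ × (FreeGroup (Y0 x0 i i') ⧸ Subgroup.normalClosure {r0})) :=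
      l.map fun p => (p.1, QuotientGroup.mk' (Subgroup.normalClosure {r0}) p.2)
    have hnot : ¬ l'.IsChain (fun a b => a.2 ∈ HNNExtension.toSubgroup A B a.1 → a.1 = b.1) := by
      intro hchain
      have h3 := HNNExtension.ReducedWord.toList_eq_nil_of_mem_of_range φ
        ⟨QuotientGroup.mk' (Subgroup.normalClosure {r0}) g0, l', hchain⟩ (by
          refine ⟨QuotientGroup.mk' (Subgroup.normalClosure {r0}) h', ?_⟩
          rw [← hrange]
          unfold val HNNExtension.NormalWord.ReducedWord.prod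
          rw [map_mul, hΦ, map_list_prod, List.map_map]
          congr 2
          show l.map _ = (l.map _).map _
          rw [List.map_map]
          apply List.map_congr_left
          intro p _
          show Φ (st X ^ (p.1 : ℤ) * bj c x0 i i' p.2) = _
          rw [map_mul, map_zpow, hΦt, hΦ]
          rfl)
      have h4 : l' = [] := h3
      exact hl0 (List.map_eq_nil_iff.1 h4)
    rw [List.isChain_iff_forall_rel_of_append_cons_cons] at hnot
    push Not at hnot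
    obtain ⟨a', b', l1', l2', hl', hmem, hne⟩ := hnot
    obtain ⟨l1, l3, hl1, hl1', hl3⟩ := List.map_eq_append_iff.1 hl'
    obtain ⟨a, l4, hl4, ha, hl4'⟩ := List.map_eq_cons_iff.1 hl3
    obtain ⟨b, l2, hl2, hb, hl2'⟩ := List.map_eq_cons_iff.1 hl4'
    subst hl2 hl4
    obtain ⟨e, g⟩ := a
    obtain ⟨e', g'⟩ := b
    subst ha hb
    have hmem' : QuotientGroup.mk' (Subgroup.normalClosure {r0}) g ∈
        HNNExtension.toSubgroup A B e := hmem
    have hee : e' = -e := by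
      have hne' : e ≠ e' := hne
      rcases Int.units_eq_one_or e with rfl | rfl <;> rcases Int.units_eq_one_or e' with rfl | rfl
      · exact absurd rfl hne'
      · rfl
      · simp
      · exact absurd rfl hne'
    obtain ⟨v, hv, hgv⟩ := hsub e g hmem'
    have hgM : g ∈ Let (lev x0 i i' M) := hl (e, g) (by rw [hl1]; simp)
    have hgM' : g' ∈ Let (lev x0 i i' M) := hl (e', g') (by rw [hl1]; simp)
    obtain ⟨w, hwM, hwl, hwA⟩ := pinch c x0 i i' hi r0 Λ hc hlr0 B0 h1 h2 e M hM g v hgM hv hgv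
    have hlM : ∀ p ∈ l1, p.2 ∈ Let (lev x0 i i' M) := fun p hp => hl p (by rw [hl1]; simp [hp])
    have hlM2 : ∀ p ∈ l2, p.2 ∈ Let (lev x0 i i' M) := fun p hp => hl p (by rw [hl1]; simp [hp])
    have hup : Let (lev x0 i i' M) ≤ Let (lev x0 i i' (M + 1)) :=
      let_mono (lev_mono x0 i i' (Nat.le_succ M))
    obtain ⟨g1, m, hml, hmval, hmsiz, hg1, hm⟩ := mulLast c x0 i i' (lev x0 i i' (M + 1)) g0 l1
      (w * g') (hup hg0) (fun p hp => hup (hlM p hp)) (Subgroup.mul_mem _ hwM (hup hgM'))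
    -- sizes
    have hs1 : siz x0 i i' g0 l = siz x0 i i' g0 l1 + (len g + (len g' +
        (l2.map fun p => len p.2).sum)) := by
      rw [hl1, siz_append]
      simp
    have hs2 : siz x0 i i' g1 (m ++ l2) = siz x0 i i' g1 m + (l2.map fun p => len p.2).sum :=
      siz_append x0 i i' g1 m l2
    have hs3 := len_mul_le w g'
    have hlen : l.length = l1.length + l2.length + 2 := by
      rw [hl1]
      simp
      omega
    have hBq : B0 (len g) ≤ B0 q := hB0 (by omega)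
    have hphi := (phiB_le (B := B0) (q := q)).1
    have hval : val c x0 i i' g0 l * (val c x0 i i' g1 (m ++ l2))⁻¹ =
        val c x0 i i' g0 l1 * (st X ^ (e : ℤ) * bj c x0 i i' g * (st X ^ (e : ℤ))⁻¹ *
          (bj c x0 i i' w)⁻¹) * (val c x0 i i' g0 l1)⁻¹ := by
      rw [hl1, val_append, val_append, hmval, hee]
      simp only [List.map_cons, List.prod_cons, map_mul, Units.val_neg, zpow_neg]
      group
    have hA1 := AreaIn.conj (g := val c x0 i i' g0 l1) hwA (let_univ _)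
    rw [← hval] at hA1
    have hA2 := AreaIn.mul hA hA1
    have hlv := len_val c x0 i i' hc g0 l1 hg0 hlM
    have hbd := bounds (B0 := B0) (q := q) (C := 2 * M + Λ + 1) (S := siz x0 i i' g0 l)
      (S1 := siz x0 i i' g0 l1) (k := l.length) (M := M) (Λ := Λ) (N := B0 (len g)) rfl hM hq hBq
      (by omega)
    have hA3 : AreaLe (bj c x0 i i' r0) (phiB B0 q) (u * (val c x0 i i' g1 (m ++ l2))⁻¹) := by
      have h9 : u * (val c x0 i i' g0 l)⁻¹ * (val c x0 i i' g0 l *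
          (val c x0 i i' g1 (m ++ l2))⁻¹) = u * (val c x0 i i' g1 (m ++ l2))⁻¹ := by group
      rw [h9] at hA2
      exact AreaIn.mono hA2 subset_rfl (by omega)
    rw [Function.iterate_succ_apply]
    refine ih (phiB B0 q) (M + 1) g1 (m ++ l2) ?_ (by omega) hg1 ?_ ?_ hA3
    · rw [List.length_append]
      omega
    · intro p hp
      rcases List.mem_append.1 hp with h | h
      · exact hm p h
      · exact hup (hlM2 p h)
    · rw [hs2, List.length_append]
      omega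

/-- a power of `s` in front of a word -/
private lemma cons_pow (S : Set (Y0 x0 i i')) (e : ℤˣ) (n : ℕ) :
    ∀ (g0 : FreeGroup (Y0 x0 i i')) (l : List (ℤˣ × FreeGroup (Y0 x0 i i'))), g0 ∈ Let S →
      (∀ p ∈ l, p.2 ∈ Let S) →
    ∃ g0' l', l'.length = l.length + n ∧
      val c x0 i i' g0' l' = st X ^ ((e : ℤ) * n) * val c x0 i i' g0 l ∧
      siz x0 i i' g0' l' = siz x0 i i' g0 l ∧ g0' ∈ Let S ∧ ∀ p ∈ l', p.2 ∈ Let S := by
  induction n with
  | zero =>
    intro g0 l hg0 hl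
    exact ⟨g0, l, by simp, by simp, rfl, hg0, hl⟩
  | succ n ih =>
    intro g0 l hg0 hl
    obtain ⟨g0', l', h1, h2, h3, h4, h5⟩ := ih g0 l hg0 hl
    refine ⟨1, (e, g0') :: l', by simp [h1, add_assoc], ?_, ?_, Subgroup.one_mem _, ?_⟩
    · have h6 : val c x0 i i' 1 ((e, g0') :: l') = st X ^ (e : ℤ) * val c x0 i i' g0' l' := by
        unfold val
        rw [List.map_cons, List.prod_cons, map_one, one_mul, mul_assoc]
      rw [h6, h2, ← mul_assoc, ← zpow_add]
      congr 2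
      push_cast
      ring
    · rw [← h3]
      unfold siz
      simp [len_one]
    · intro p hp
      rcases List.mem_cons.1 hp with h | h
      · rw [h]
        exact h4
      · exact h5 p h

private lemma cons_zpow (S : Set (Y0 x0 i i')) (n : ℤ) (g0 : FreeGroup (Y0 x0 i i'))
    (l : List (ℤˣ × FreeGroup (Y0 x0 i i'))) (hg0 : g0 ∈ Let S) (hl : ∀ p ∈ l, p.2 ∈ Let S) :
    ∃ g0' l', l'.length = l.length + n.natAbs ∧
      val c x0 i i' g0' l' = st X ^ n * val c x0 i i' g0 l ∧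
      siz x0 i i' g0' l' = siz x0 i i' g0 l ∧ g0' ∈ Let S ∧ ∀ p ∈ l', p.2 ∈ Let S := by
  rcases Int.natAbs_eq n with h | h
  · obtain ⟨g0', l', h1, h2, h3⟩ := cons_pow c x0 i i' S 1 n.natAbs g0 l hg0 hl
    refine ⟨g0', l', h1, ?_, h3⟩
    rw [h2]
    congr 2
    rw [Units.val_one, one_mul]
    exact h.symm
  · obtain ⟨g0', l', h1, h2, h3⟩ := cons_pow c x0 i i' S (-1) n.natAbs g0 l hg0 hl
    refine ⟨g0', l', h1, ?_, h3⟩
    rw [h2]
    congr 2
    rw [Units.val_neg, Units.val_one, neg_one_mul]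
    exact h.symm

private lemma cons_base (S : Set (Y0 x0 i i')) (z : FreeGroup (Y0 x0 i i')) (hz : z ∈ Let S)
    (g0 : FreeGroup (Y0 x0 i i')) (l : List (ℤˣ × FreeGroup (Y0 x0 i i'))) (hg0 : g0 ∈ Let S) :
    ∃ g0', val c x0 i i' g0' l = bj c x0 i i' z * val c x0 i i' g0 l ∧
      siz x0 i i' g0' l ≤ len z + siz x0 i i' g0 l ∧ g0' ∈ Let S := by
  refine ⟨z * g0, ?_, ?_, Subgroup.mul_mem _ hz hg0⟩
  · unfold val
    rw [map_mul, mul_assoc]
  · unfold siz
    have := len_mul_le z g0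
    omega

/-- conversion of a word -/
private lemma conv (hi : i ≤ i') (Λ : ℕ) (hc : ∀ x, (c x).natAbs ≤ Λ) (hΛ : i.natAbs ≤ Λ)
    (w : List (Option X × Bool)) :
    ∃ (g0 : FreeGroup (Y0 x0 i i')) (l : List (ℤˣ × FreeGroup (Y0 x0 i i'))),
      l.length ≤ (3 * Λ + 1) * w.length ∧ val c x0 i i' g0 l = FreeGroup.mk w ∧
      siz x0 i i' g0 l ≤ w.length ∧ g0 ∈ Let (lev x0 i i' Λ) ∧
      ∀ p ∈ l, p.2 ∈ Let (lev x0 i i' Λ) := by
  induction w with
  | nil =>
    refine ⟨1, [], by simp, ?_, ?_, Subgroup.one_mem _, by simp⟩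
    · unfold val
      simp only [map_one, List.map_nil, List.prod_nil, mul_one]
      rfl
    · unfold siz
      simp [len_one]
  | cons a w ih =>
    obtain ⟨g0, l, h1, h2, h3, h4, h5⟩ := ih
    have hmk : FreeGroup.mk (a :: w) = FreeGroup.mk [a] * FreeGroup.mk w := by
      rw [FreeGroup.mul_mk]
      rfl
    rw [hmk, ← h2]
    have hL : (3 * Λ + 1) * (a :: w).length = (3 * Λ + 1) * w.length + (3 * Λ + 1) := by
      rw [List.length_cons]
      ring
    rw [hL]
    -- a power of s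
    have hs : ∀ e : ℤˣ, FreeGroup.mk [a] = st X ^ (e : ℤ) → ∃ (g0' : FreeGroup (Y0 x0 i i'))
        (l' : List (ℤˣ × FreeGroup (Y0 x0 i i'))),
        l'.length ≤ (3 * Λ + 1) * w.length + (3 * Λ + 1) ∧
        val c x0 i i' g0' l' = FreeGroup.mk [a] * val c x0 i i' g0 l ∧
        siz x0 i i' g0' l' ≤ (a :: w).length ∧ g0' ∈ Let (lev x0 i i' Λ) ∧
        ∀ p ∈ l', p.2 ∈ Let (lev x0 i i' Λ) := by
      intro e he
      obtain ⟨g0', l', k1, k2, k3, k4, k5⟩ := cons_zpow c x0 i i' _ (e : ℤ) g0 l h4 h5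
      refine ⟨g0', l', ?_, ?_, ?_, k4, k5⟩
      · rw [k1, Int.isUnit_iff_natAbs_eq.1 e.isUnit]
        omega
      · rw [k2, he]
      · rw [k3, List.length_cons]
        omega
    -- s^a z s^b
    have hx : ∀ (n n' : ℤ) (z : FreeGroup (Y0 x0 i i')), n.natAbs + n'.natAbs ≤ 3 * Λ →
        len z ≤ 1 → z ∈ Let (lev x0 i i' Λ) →
        FreeGroup.mk [a] = st X ^ n * bj c x0 i i' z * st X ^ n' →
        ∃ (g0' : FreeGroup (Y0 x0 i i')) (l' : List (ℤˣ × FreeGroup (Y0 x0 i i'))),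
        l'.length ≤ (3 * Λ + 1) * w.length + (3 * Λ + 1) ∧
        val c x0 i i' g0' l' = FreeGroup.mk [a] * val c x0 i i' g0 l ∧
        siz x0 i i' g0' l' ≤ (a :: w).length ∧ g0' ∈ Let (lev x0 i i' Λ) ∧
        ∀ p ∈ l', p.2 ∈ Let (lev x0 i i' Λ) := by
      intro n n' z hn hz hzl he
      obtain ⟨g1, l1, k1, k2, k3, k4, k5⟩ := cons_zpow c x0 i i' _ n' g0 l h4 h5
      obtain ⟨g2, m2, m3, m4⟩ := cons_base c x0 i i' _ z hzl g1 l1 k4
      obtain ⟨g3, l3, n1, n2, n3, n4, n5⟩ := cons_zpow c x0 i i' _ n g2 l1 m4 k5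
      refine ⟨g3, l3, ?_, ?_, ?_, n4, n5⟩
      · rw [n1, k1]
        omega
      · rw [n2, m2, k2, he]
        simp only [mul_assoc]
      · rw [n3, List.length_cons]
        omega
    obtain ⟨o, bo⟩ := a
    rcases o with _ | x
    · cases bo
      · refine hs (-1) ?_
        rw [Units.val_neg, Units.val_one, zpow_neg_one]
        rfl
      · refine hs 1 ?_
        rw [Units.val_one, zpow_one]
        rfl
    · -- the base letter
      obtain ⟨bb, hbb, hbΛ⟩ : ∃ bb : ℤ, (x, bb) ∈ Y0 x0 i i' ∧ bb.natAbs ≤ Λ := by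
        by_cases hx0 : x = x0
        · exact ⟨i, fun _ => ⟨le_rfl, hi⟩, hΛ⟩
        · exact ⟨0, fun h => absurd h hx0, by simp⟩
      have hofx : of (some x) = st X ^ (-bb) * bj c x0 i i' (of ⟨(x, bb), hbb⟩) *
          st X ^ (bb + c x) := by
        rw [bj_of]
        show of (some x) = st X ^ (-bb) * (st X ^ bb * of (some x) * st X ^ (-bb - c x)) *
          st X ^ (bb + c x)
        generalize of (some x) = w
        generalize c x = e
        generalize st X = s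
        have h7 : s ^ (-bb) * (s ^ bb * w * s ^ (-bb - e)) * s ^ (bb + e) =
            (s ^ (-bb) * s ^ bb) * w * (s ^ (-bb - e) * s ^ (bb + e)) := by
          simp only [mul_assoc]
        rw [h7, ← zpow_add, ← zpow_add]
        have h8 : -bb + bb = 0 := by ring
        have h9 : -bb - e + (bb + e) = 0 := by ring
        rw [h8, h9, zpow_zero, one_mul, mul_one]
      have hzl : of (⟨(x, bb), hbb⟩ : Y0 x0 i i') ∈ Let (lev x0 i i' Λ) :=
        Subgroup.subset_closure ⟨_, hbΛ, rfl⟩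
      have hcx := hc x
      cases bo
      · refine hx (-(bb + c x)) bb (of ⟨(x, bb), hbb⟩)⁻¹ ?_ ?_ (Subgroup.inv_mem _ hzl) ?_
        · omega
        · rw [len_inv, len_of]
        · have h8 : FreeGroup.mk [(some x, false)] = (of (some x))⁻¹ := rfl
          rw [h8, hofx, map_inv]
          group
      · refine hx (-bb) (bb + c x) (of ⟨(x, bb), hbb⟩) ?_ ?_ hzl ?_
        · omega
        · rw [len_of]
        · have h8 : FreeGroup.mk [(some x, true)] = of (some x) := rfl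
          rw [h8, hofx]

end Aux2

theorem britton_bound (x0 : X) (i i' : ℤ) (hi : i ≤ i') (r0 : FreeGroup (Y0 x0 i i')) (Λ : ℕ)
    (hc : ∀ x, (c x).natAbs ≤ Λ) (hΛ : i.natAbs ≤ Λ) (hΛ' : i'.natAbs ≤ Λ)
    (hlr0 : r0 ∈ Let {p : Y0 x0 i i' | p.1.2.natAbs ≤ Λ})
    (B0 : ℕ → ℕ) (hB0 : Monotone B0)
    (h1 : Mag B0 r0 (y0 x0 i i' i' hi le_rfl)) (h2 : Mag B0 r0 (y0 x0 i i' i le_rfl hi))
    (n : ℕ) (u : FreeGroup (Option X)) (hu : len u ≤ n) (h' : FreeGroup (Y0 x0 i i'))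
    (huh : u * (iota c (incl _ h'))⁻¹ ∈ Subgroup.normalClosure {iota c (incl _ r0)}) :
    ∃ h : FreeGroup (Y0 x0 i i'),
      len h ≤ (phiB B0)^[(n + Λ + 2) ^ 4] ((n + Λ + 2) ^ 4) ∧
      h ∈ Let {p : Y0 x0 i i' | p.1.2.natAbs ≤ (phiB B0)^[(n + Λ + 2) ^ 4] ((n + Λ + 2) ^ 4)} ∧
      AreaLe (iota c (incl _ r0)) ((phiB B0)^[(n + Λ + 2) ^ 4] ((n + Λ + 2) ^ 4))
        (u * (iota c (incl _ h))⁻¹) := by
  have _ := hΛ'
  obtain ⟨w, hw, hwl, -⟩ := exists_word u
  obtain ⟨g0, l, k1, k2, k3, k4, k5⟩ := conv c x0 i i' hi Λ hc hΛ w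
  have hwn : w.length ≤ n := by omega
  have hk : l.length ≤ (3 * Λ + 1) * n := le_trans k1 (Nat.mul_le_mul_left _ hwn)
  set a := n + Λ + 2 with ha
  have ha2 : 2 ≤ a := by omega
  have hq : n + Λ + (3 * Λ + 1) * n ≤ a ^ 4 := by
    have e1 : n + Λ + (3 * Λ + 1) * n ≤ 4 * a ^ 2 := by
      rw [ha]
      nlinarith [Nat.zero_le n, Nat.zero_le Λ, Nat.zero_le (n * Λ), Nat.zero_le (n * n),
        Nat.zero_le (Λ * Λ)]
    have e2 : 4 * a ^ 2 ≤ a ^ 4 := by
      have e3 : 4 ≤ a ^ 2 := by nlinarith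
      calc 4 * a ^ 2 ≤ a ^ 2 * a ^ 2 := Nat.mul_le_mul_right _ e3
        _ = a ^ 4 := by ring
    exact le_trans e1 e2
  have hA : AreaLe (bj c x0 i i' r0) (a ^ 4) (u * (val c x0 i i' g0 l)⁻¹) := by
    rw [k2, hw, mul_inv_cancel]
    exact AreaIn.one _ _ _
  exact red_main c x0 i i' hi r0 Λ hc hlr0 B0 hB0 h1 h2 u h' huh (a ^ 4) (a ^ 4) Λ g0 l
    (by omega) le_rfl k4 k5 (by omega) hA

end M2a

end Pool.Agent.ROR
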