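import Mathlib

/-!
# Bounded quantifiers over lists are computable
-/

set_option autoImplicit false

namespace Pool.Agent.ROR

variable {α σ : Type*} [Primcodable α] [Primcodable σ]

theorem all_eq_rec {σ : Type*} (P : σ → Bool) (L : List σ) :
    L.all P = Nat.rec (motive := fun _ => Bool) true
      (fun i acc => acc && (match L[i]? with | some s => P s | none => true)) L.length := by
  have h : ∀ k ≤ L.length, (L.take k).all P = Nat.rec (motive := fun _ => Bool) true
      (fun i acc => acc && (match L[i]? with | some s => P s | none => true)) k := by
    intro k
    induction k with
    | zero => intro _; rfl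
    | succ k ih =>
      intro hk
      have h1 : k < L.length := hk
      rw [List.take_add_one, List.all_append, ih (by omega), List.getElem?_eq_getElem h1]
      have h3 : ([L[k]] : List σ).all P = P L[k] := by simp
      rw [Option.toList_some, h3]
      show _ = (_ && (match L[k]? with | some s => P s | none => true))
      rw [List.getElem?_eq_getElem h1]
  have h2 := h L.length le_rfl
  rwa [List.take_length] at h2

/-- a bounded universal quantifier over a computable list is computable -/
theorem computable_all {P : α → σ → Bool} (hP : Computable₂ P) {L : α → List σ}
    (hL : Computable L) : Computable fun a => (L a).all (P a) := by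
  have h1 : (fun a => (L a).all (P a)) = fun a => Nat.rec (motive := fun _ => Bool) true
      (fun i acc => acc && (match (L a)[i]? with | some s => P a s | none => true))
      (L a).length := by
    funext a
    exact all_eq_rec _ _
  rw [h1]
  refine Computable.nat_rec (f := fun a => (L a).length) (g := fun _ => true)
    (h := fun a p => p.2 && (match (L a)[p.1]? with | some s => P a s | none => true))
    ((Primrec.list_length).to_comp.comp hL) (Computable.const true) ?_
  refine Primrec.and.to_comp.comp (Computable.snd.comp Computable.snd) ?_
  have h2 : Computable fun q : α × ℕ × Bool => (L q.1)[q.2.1]? :=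
    (Primrec.list_getElem?).to_comp.comp (hL.comp Computable.fst)
      (Computable.fst.comp Computable.snd)
  refine (Computable.option_casesOn (o := fun q : α × ℕ × Bool => (L q.1)[q.2.1]?)
    (f := fun _ => true) (g := fun q s => P q.1 s) h2 (Computable.const true)
    (hP.comp (Computable.fst.comp Computable.fst) Computable.snd)).of_eq fun q => ?_
  cases (L q.1)[q.2.1]? <;> rfl

/-- a bounded existential quantifier over a computable list is computable -/
theorem computable_any {P : α → σ → Bool} (hP : Computable₂ P) {L : α → List σ}
    (hL : Computable L) : Computable fun a => (L a).any (P a) := by
  have h1 := computable_all (P := fun a s => !(P a s))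
    (Primrec.not.to_comp.comp hP) hL
  refine (Primrec.not.to_comp.comp h1).of_eq fun a => ?_
  rw [List.not_all_eq_any_not]
  simp

end Pool.Agent.ROR
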