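import Pool.Agent.ROR.LIGroup

/-!
# The base case (C) of the structure theorem: no progress (project ROR, MP_08b746_al)
-/

set_option autoImplicit false

namespace Pool.Agent.ROR

open FreeGroup (of)
open Pool.Agent.RSMonic

attribute [-simp] MonoidAlgebra.of_apply

/-- the height with `t ↦ expo a y`, `a ↦ - expo t y`, other letters `↦ 0` -/
noncomputable def dht {X : Type*} (y : FreeGroup X) (t a : X) (x : X) : ℤ := by
  classical exact if x = t then Multiplicative.toAdd (expo a y)
    else if x = a then - Multiplicative.toAdd (expo t y) else 0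

namespace DynAux

/-! ## group ring lemmas -/
section Ring

variable {Γ : Type*} [Group Γ]

theorem dyn_coeff_mul_of (a : MonoidAlgebra ℤ Γ) (g v : Γ) :
    (a * MonoidAlgebra.of ℤ Γ g).coeff v = a.coeff (v * g⁻¹) := by
  rw [MonoidAlgebra.of_apply, MonoidAlgebra.coeff_mul_single_apply, mul_one]

theorem dyn_coeff_of_mul (a : MonoidAlgebra ℤ Γ) (g v : Γ) :
    (MonoidAlgebra.of ℤ Γ g * a).coeff v = a.coeff (g⁻¹ * v) := by
  rw [MonoidAlgebra.of_apply, MonoidAlgebra.coeff_single_mul_apply, one_mul]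

theorem dyn_lin_mul_of {A : Type*} [AddCommGroup A] (φ : Γ → A) (a : MonoidAlgebra ℤ Γ) (g : Γ) :
    lin φ (a * MonoidAlgebra.of ℤ Γ g) = lin (fun v => φ (v * g)) a := by
  have : (lin φ).comp (AddMonoidHom.mulRight (MonoidAlgebra.of ℤ Γ g)) =
      lin (fun v => φ (v * g)) := by
    refine addHom_ext_of fun v => ?_
    rw [AddMonoidHom.comp_apply, AddMonoidHom.mulRight_apply, ← map_mul, lin_of, lin_of]
  exact DFunLike.congr_fun this a

omit [Group Γ] in
theorem dyn_lin_eq_sum {A : Type*} [AddCommGroup A] (φ : Γ → A) (a : MonoidAlgebra ℤ Γ) :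
    lin φ a = ∑ v ∈ a.coeff.support, a.coeff v • φ v := by
  simp [lin, Finsupp.sum]

omit [Group Γ] in
/-- a function which is constant on the support -/
theorem dyn_lin_const (φ : Γ → ℤ) (a : MonoidAlgebra ℤ Γ) (c : ℤ)
    (h : ∀ v, a.coeff v ≠ 0 → φ v = c) : lin φ a = lin (fun _ => (1 : ℤ)) a * c := by
  rw [dyn_lin_eq_sum, dyn_lin_eq_sum, Finset.sum_mul]
  refine Finset.sum_congr rfl fun v hv => ?_
  rw [h v (Finsupp.mem_support_iff.1 hv)]
  simp

end Ring

/-! ## Fox derivatives -/
section Fox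

variable {X Γ : Type*} [Group Γ]

theorem dyn_support_range (f : FreeGroup X →* Γ) (u : FreeGroup X) (x : X) (v : Γ)
    (h : (fox f u x).coeff v ≠ 0) : v ∈ f.range := by
  classical
  have key : ∀ u, ∀ v, (fox f u x).coeff v ≠ 0 → v ∈ f.range := by
    intro u
    have hmul : ∀ a b : FreeGroup X, (∀ v, (fox f a x).coeff v ≠ 0 → v ∈ f.range) →
        (∀ v, (fox f b x).coeff v ≠ 0 → v ∈ f.range) →
        ∀ v, (fox f (a * b) x).coeff v ≠ 0 → v ∈ f.range := by
      intro a b ha hb v hv
      rw [fox_mul, Finsupp.add_apply, Finsupp.smul_apply, smul_eq_mul, MonoidAlgebra.coeff_add,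
        Finsupp.add_apply, dyn_coeff_of_mul] at hv
      by_cases h1 : (fox f a x).coeff v = 0
      · rw [h1, zero_add] at hv
        have := f.range.mul_mem (⟨a, rfl⟩ : f a ∈ f.range) (hb _ hv)
        simpa using this
      · exact ha v h1
    induction u using FreeGroup.induction_on with
    | C1 =>
      intro v hv
      rw [fox_one] at hv
      simp at hv
    | of z =>
      intro v hv
      rw [fox_of, Finsupp.single_apply] at hv
      split_ifs at hv
      · rw [MonoidAlgebra.one_def, MonoidAlgebra.coeff_single, Finsupp.single_apply] at hv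
        split_ifs at hv with h1
        · rw [← h1]
          exact f.range.one_mem
        · exact absurd rfl hv
      · simp at hv
    | inv_of z hz =>
      intro v hv
      rw [fox_inv, Finsupp.neg_apply, Finsupp.smul_apply, smul_eq_mul, MonoidAlgebra.coeff_neg,
        Finsupp.neg_apply, neg_ne_zero, dyn_coeff_of_mul, inv_inv] at hv
      have := f.range.mul_mem (f.range.inv_mem (⟨of z, rfl⟩ : f (of z) ∈ f.range)) (hz _ hv)
      simpa using this
    | mul a b ha hb => exact hmul a b ha hb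
  exact key u v h

/-- the augmentation of the Fox derivative is the exponent sum -/
theorem dyn_aug (f : FreeGroup X →* Γ) (u : FreeGroup X) (x : X) :
    lin (fun _ => (1 : ℤ)) (fox f u x) = Multiplicative.toAdd (expo x u) := by
  classical
  have hof : ∀ (g : Γ) (a : MonoidAlgebra ℤ Γ),
      lin (fun _ => (1 : ℤ)) (MonoidAlgebra.of ℤ Γ g * a) = lin (fun _ => (1 : ℤ)) a := by
    intro g a
    have : (lin (fun _ => (1 : ℤ))).comp (AddMonoidHom.mulLeft (MonoidAlgebra.of ℤ Γ g)) =
        lin (fun _ : Γ => (1 : ℤ)) := by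
      refine addHom_ext_of fun v => ?_
      rw [AddMonoidHom.comp_apply, AddMonoidHom.coe_mulLeft, ← map_mul, lin_of, lin_of]
    exact DFunLike.congr_fun this a
  induction u using FreeGroup.induction_on with
  | C1 => simp
  | of z =>
    rw [fox_of, Finsupp.single_apply]
    simp only [expo, FreeGroup.lift_apply_of]
    split_ifs
    · rw [MonoidAlgebra.one_def, lin_single]
      simp
    · simp
  | inv_of z hz =>
    rw [fox_inv, Finsupp.neg_apply, Finsupp.smul_apply, smul_eq_mul, map_neg, hof, hz, map_inv,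
      toAdd_inv]
  | mul a b ha hb =>
    rw [fox_mul, Finsupp.add_apply, Finsupp.smul_apply, smul_eq_mul, map_add, hof, ha, hb, map_mul,
      toAdd_mul]

theorem dyn_fox_conj (f : FreeGroup X →* Γ) (g u : FreeGroup X) (hu : f u = 1) :
    fox f (g * u * g⁻¹) = MonoidAlgebra.of ℤ Γ (f g) • fox f u := by
  rw [fox_mul, fox_mul, fox_inv, map_mul, hu, mul_one, smul_neg, ← mul_smul, ← map_mul,
    mul_inv_cancel, map_one, one_smul]
  abel

/-- Fox derivatives of elements of the kernel are multiples of the generator -/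
theorem dyn_fox_eq {f : FreeGroup X →* Γ} {y : FreeGroup X} (h : Cyc f y) {u : FreeGroup X}
    (hu : f u = 1) : ∃ lam : MonoidAlgebra ℤ Γ, fox f u = lam • fox f y := by
  let S : Subgroup (FreeGroup X) :=
    { carrier := {u | f u = 1 ∧ ∃ lam : MonoidAlgebra ℤ Γ, fox f u = lam • fox f y}
      one_mem' := ⟨map_one f, 0, by rw [fox_one, zero_smul]⟩
      mul_mem' := by
        rintro a b ⟨ha, la, hla⟩ ⟨hb, lb, hlb⟩
        refine ⟨by rw [map_mul, ha, hb, mul_one], la + lb, ?_⟩
        rw [fox_mul, hla, hlb, ha, map_one, one_smul, add_smul]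
      inv_mem' := by
        rintro a ⟨ha, la, hla⟩
        refine ⟨by rw [map_inv, ha, inv_one], -la, ?_⟩
        rw [fox_inv, ha, inv_one, map_one, one_smul, hla, neg_smul] }
  have hS : S.Normal := by
    constructor
    rintro a ⟨ha, la, hla⟩ g
    refine ⟨by rw [map_mul, map_mul, ha, mul_one, map_inv, mul_inv_cancel],
      MonoidAlgebra.of ℤ Γ (f g) * la, ?_⟩
    rw [dyn_fox_conj f g a ha, hla, mul_smul]
  have h1 : Subgroup.normalClosure {y} ≤ S := by
    apply Subgroup.normalClosure_le_normal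
    rintro _ rfl
    exact ⟨h.1, 1, by rw [one_smul]⟩
  have h2 : ⁅f.ker, f.ker⁆ ≤ S := by
    intro x hx
    refine ⟨?_, 0, ?_⟩
    · exact Subgroup.commutator_le_left f.ker f.ker hx
    · rw [fox_eq_zero_of_mem f hx, zero_smul]
  exact (sup_le h1 h2 (h.2 hu)).2

/-- the converse -/
theorem dyn_mem (f : FreeGroup X →* Γ) (w u : FreeGroup X) (hw : f w = 1) (hu : f u = 1)
    (lam : MonoidAlgebra ℤ Γ) (hl : ∀ v, lam.coeff v ≠ 0 → v ∈ f.range)
    (h : fox f u = lam • fox f w) : u ∈ Subgroup.normalClosure {w} ⊔ ⁅f.ker, f.ker⁆ := by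
  let P : AddSubgroup (MonoidAlgebra ℤ Γ) :=
    { carrier := {m | ∃ u' ∈ Subgroup.normalClosure {w}, f u' = 1 ∧ fox f u' = m • fox f w}
      zero_mem' := ⟨1, Subgroup.one_mem _, map_one f, by rw [fox_one, zero_smul]⟩
      add_mem' := by
        rintro a b ⟨ua, hua, ha, hla⟩ ⟨ub, hub, hb, hlb⟩
        refine ⟨ua * ub, Subgroup.mul_mem _ hua hub, by rw [map_mul, ha, hb, mul_one], ?_⟩
        rw [fox_mul, hla, hlb, ha, map_one, one_smul, add_smul]
      neg_mem' := by
        rintro a ⟨ua, hua, ha, hla⟩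
        refine ⟨ua⁻¹, Subgroup.inv_mem _ hua, by rw [map_inv, ha, inv_one], ?_⟩
        rw [fox_inv, ha, inv_one, map_one, one_smul, hla, neg_smul] }
  have h1 : ∀ v ∈ f.range, MonoidAlgebra.of ℤ Γ v ∈ P := by
    rintro _ ⟨g, rfl⟩
    refine ⟨g * w * g⁻¹, ?_, by rw [map_mul, map_mul, hw, mul_one, map_inv, mul_inv_cancel], ?_⟩
    · exact Subgroup.Normal.conj_mem inferInstance w
        (Subgroup.subset_normalClosure (Set.mem_singleton w)) g
    · exact dyn_fox_conj f g w hw
  have h2 : lam ∈ P := by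
    rw [← MonoidAlgebra.sum_coeff_single lam, Finsupp.sum]
    refine P.sum_mem fun v hv => ?_
    have h3 : (MonoidAlgebra.single v (lam.coeff v) : MonoidAlgebra ℤ Γ) =
        lam.coeff v • MonoidAlgebra.of ℤ Γ v := by
      rw [MonoidAlgebra.of_apply, MonoidAlgebra.smul_single, smul_eq_mul, mul_one]
    rw [h3]
    exact P.zsmul_mem (h1 v (hl v (Finsupp.mem_support_iff.1 hv))) _
  obtain ⟨u', hu', hfu', hD⟩ := h2
  have h4 : u * u'⁻¹ ∈ ⁅f.ker, f.ker⁆ := by
    apply mem_of_fox_eq_zero f
    · rw [map_mul, map_inv, hu, hfu', inv_one, mul_one]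
    · exact fox_mul_inv_of_eq f (hu.trans hfu'.symm) (h.trans hD.symm)
  have h5 : u = (u * u'⁻¹) * u' := by group
  rw [h5]
  exact Subgroup.mul_mem _ (Subgroup.mem_sup_right h4) (Subgroup.mem_sup_left hu')

/-- the Fox derivative of a signed letter -/
noncomputable def kap (f : FreeGroup X →* Γ) (x : X) (b : Bool) : MonoidAlgebra ℤ Γ :=
  if b then 1 else -MonoidAlgebra.of ℤ Γ (f (of x))⁻¹

/-- its inverse -/
noncomputable def kapi (f : FreeGroup X →* Γ) (x : X) (b : Bool) : MonoidAlgebra ℤ Γ :=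
  if b then 1 else -MonoidAlgebra.of ℤ Γ (f (of x))

theorem kap_mul_kapi (f : FreeGroup X →* Γ) (x : X) (b : Bool) : kap f x b * kapi f x b = 1 := by
  unfold kap kapi
  cases b
  · simp only [Bool.false_eq_true, if_false]
    rw [neg_mul_neg, ← map_mul, inv_mul_cancel, map_one]
  · simp

theorem kapi_mul_kap (f : FreeGroup X →* Γ) (x : X) (b : Bool) : kapi f x b * kap f x b = 1 := by
  unfold kap kapi
  cases b
  · simp only [Bool.false_eq_true, if_false]
    rw [neg_mul_neg, ← map_mul, mul_inv_cancel, map_one]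
  · simp

theorem mk_false (x : X) : (FreeGroup.mk [(x, false)] : FreeGroup X) = (of x)⁻¹ := by
  rw [FreeGroup.of, FreeGroup.inv_mk]
  rfl

theorem fox_letter (f : FreeGroup X →* Γ) (x : X) (b : Bool) :
    fox f (FreeGroup.mk [(x, b)]) = Finsupp.single x (kap f x b) := by
  cases b
  · rw [mk_false, fox_inv, fox_of, Finsupp.smul_single, smul_eq_mul, mul_one, ← Finsupp.single_neg]
    rfl
  · exact fox_of f x

theorem kap_mul_sub (f : FreeGroup X →* Γ) (x : X) (b : Bool) :
    kap f x b * (MonoidAlgebra.of ℤ Γ (f (of x)) - 1) =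
      MonoidAlgebra.of ℤ Γ (f (FreeGroup.mk [(x, b)])) - 1 := by
  cases b
  · rw [mk_false, map_inv]
    unfold kap
    simp only [Bool.false_eq_true, if_false]
    rw [mul_sub, mul_one, neg_mul, ← map_mul, inv_mul_cancel, map_one]
    abel
  · unfold kap
    simp only [if_true, one_mul]
    rfl

theorem mk_cons' (a : X × Bool) (w : List (X × Bool)) :
    (FreeGroup.mk (a :: w) : FreeGroup X) = FreeGroup.mk [a] * FreeGroup.mk w := by
  rw [FreeGroup.mul_mk]
  rfl

theorem fox_cons (f : FreeGroup X →* Γ) (a : X × Bool) (w : List (X × Bool)) :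
    fox f (FreeGroup.mk (a :: w)) = Finsupp.single a.1 (kap f a.1 a.2) +
      MonoidAlgebra.of ℤ Γ (f (FreeGroup.mk [a])) • fox f (FreeGroup.mk w) := by
  rw [mk_cons', fox_mul, fox_letter f a.1 a.2]

theorem fox_notMem (f : FreeGroup X →* Γ) (w : List (X × Bool)) (z : X)
    (h : ∀ a ∈ w, a.1 ≠ z) : fox f (FreeGroup.mk w) z = 0 := by
  classical
  induction w with
  | nil =>
    have : (FreeGroup.mk [] : FreeGroup X) = 1 := rfl
    rw [this, fox_one, Finsupp.zero_apply]
  | cons a w ih =>
    rw [fox_cons, Finsupp.add_apply, Finsupp.smul_apply,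
      ih fun b hb => h b (List.mem_cons_of_mem _ hb), smul_zero, add_zero,
      Finsupp.single_apply, if_neg (h a List.mem_cons_self)]

end Fox

/-! ## the dynamics -/
section Abs

variable {X Γ : Type*} [Group Γ] (I : Finset X) (g : X → Γ) (δ : X → MonoidAlgebra ℤ Γ)

/-- the existence of heights separating letters -/
def Sepa : Prop := ∀ t ∈ I, ∀ a ∈ I, t ≠ a → ∃ (η : Γ → ℤ) (S T : X → ℤ),
  (∀ x ∈ I, ∀ v, (δ x).coeff v ≠ 0 → η v = S x ∧ η (v * g x) = T x) ∧ S t ≠ S a ∧ T t ≠ T a

variable {I g δ}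

theorem dyn_out (hs : Sepa I g δ) {t a : X} (ht : t ∈ I) (ha : a ∈ I) {v : Γ}
    (h1 : (δ t).coeff v ≠ 0) (h2 : (δ a).coeff v ≠ 0) : t = a := by
  by_contra hne
  obtain ⟨η, S, T, h, hS, _⟩ := hs t ht a ha hne
  exact hS ((h t ht v h1).1.symm.trans (h a ha v h2).1)

theorem dyn_in (hs : Sepa I g δ) {t a : X} (ht : t ∈ I) (ha : a ∈ I) {v : Γ}
    (h1 : (δ t).coeff (v * (g t)⁻¹) ≠ 0) (h2 : (δ a).coeff (v * (g a)⁻¹) ≠ 0) : t = a := by
  by_contra hne
  obtain ⟨η, S, T, h, _, hT⟩ := hs t ht a ha hne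
  have e1 := (h t ht _ h1).2
  have e2 := (h a ha _ h2).2
  rw [inv_mul_cancel_right] at e1 e2
  exact hT (e1.symm.trans e2)

theorem dyn_succ (hs : Sepa I g δ) (hne : ∀ x ∈ I, δ x ≠ 0)
    (hV : ∑ x ∈ I, δ x * (MonoidAlgebra.of ℤ Γ (g x) - 1) = 0) {x : X} (hx : x ∈ I) :
    ∃ z ∈ I, δ z = δ x * MonoidAlgebra.of ℤ Γ (g x) := by
  classical
  -- the vertex equation
  have hv : ∀ u, ∑ z ∈ I, (δ z).coeff (u * (g z)⁻¹) = ∑ z ∈ I, (δ z).coeff u := by
    intro u
    have h1 : ∑ z ∈ I, δ z * MonoidAlgebra.of ℤ Γ (g z) = ∑ z ∈ I, δ z := by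
      rw [← sub_eq_zero, ← Finset.sum_sub_distrib, ← hV]
      refine Finset.sum_congr rfl fun z _ => ?_
      rw [mul_sub, mul_one]
    have h2 := congrArg (fun a : MonoidAlgebra ℤ Γ => a.coeff u) h1
    simp only [MonoidAlgebra.coeff_sum, Finsupp.finsetSum_apply, dyn_coeff_mul_of] at h2
    exact h2
  have hout : ∀ u, ∀ z ∈ I, (δ z).coeff u ≠ 0 → ∑ z ∈ I, (δ z).coeff u = (δ z).coeff u := by
    intro u z hz hne'
    refine Finset.sum_eq_single z (fun z' hz' h => ?_) (fun h => absurd hz h)
    by_contra h'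
    exact h (dyn_out hs hz' hz h' hne')
  have hin : ∀ u, ∀ z ∈ I, (δ z).coeff (u * (g z)⁻¹) ≠ 0 →
      ∑ z ∈ I, (δ z).coeff (u * (g z)⁻¹) = (δ z).coeff (u * (g z)⁻¹) := by
    intro u z hz hne'
    refine Finset.sum_eq_single z (fun z' hz' h => ?_) (fun h => absurd hz h)
    by_contra h'
    exact h (dyn_in hs hz' hz h' hne')
  have step1 : ∀ v, (δ x).coeff v ≠ 0 → ∃ z ∈ I, (δ z).coeff (v * g x) = (δ x).coeff v := by
    intro v hvx
    have h1 : (δ x).coeff (v * g x * (g x)⁻¹) ≠ 0 := by rwa [mul_inv_cancel_right]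
    have h2 := hin (v * g x) x hx h1
    rw [hv, mul_inv_cancel_right] at h2
    have h3 : ∑ z ∈ I, (δ z).coeff (v * g x) ≠ 0 := by rwa [h2]
    obtain ⟨z, hz, hz'⟩ := Finset.exists_ne_zero_of_sum_ne_zero h3
    exact ⟨z, hz, (hout _ z hz hz').symm.trans h2⟩
  obtain ⟨v0, hv0⟩ : ∃ v, (δ x).coeff v ≠ 0 := by
    by_contra hcon
    push Not at hcon
    apply hne x hx
    rw [← MonoidAlgebra.coeff_eq_zero]
    ext v
    exact hcon v
  obtain ⟨z, hz, hzv⟩ := step1 v0 hv0
  have hz0 : (δ z).coeff (v0 * g x) ≠ 0 := by rwa [hzv]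
  refine ⟨z, hz, ?_⟩
  rw [← MonoidAlgebra.coeff_inj]
  ext u
  rw [dyn_coeff_mul_of]
  by_cases h0 : (δ x).coeff (u * (g x)⁻¹) = 0
  · rw [h0]
    by_contra hcon
    have h1 : ∑ z ∈ I, (δ z).coeff (u * (g z)⁻¹) ≠ 0 := by
      rw [hv, hout u z hz hcon]
      exact hcon
    obtain ⟨x', hx', hx''⟩ := Finset.exists_ne_zero_of_sum_ne_zero h1
    have hxx : x ≠ x' := by
      rintro rfl
      exact hx'' h0
    obtain ⟨η, S, T, h, _, hT⟩ := hs x hx x' hx' hxx
    have e1 := (h x hx v0 hv0).2
    have e2 := (h z hz _ hz0).1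
    have e3 := (h x' hx' _ hx'').2
    rw [inv_mul_cancel_right] at e3
    have e4 := (h z hz _ hcon).1
    exact hT (e1.symm.trans (e2.trans (e4.symm.trans e3)))
  · obtain ⟨z', hz', hzv'⟩ := step1 _ h0
    rw [inv_mul_cancel_right] at hzv'
    have hz0' : (δ z').coeff u ≠ 0 := by rwa [hzv']
    have : z = z' := by
      by_contra hne'
      obtain ⟨η, S, T, h, hS, _⟩ := hs z hz z' hz' hne'
      have e1 := (h x hx v0 hv0).2
      have e2 := (h z hz _ hz0).1
      have e3 := (h x hx _ h0).2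
      rw [inv_mul_cancel_right] at e3
      have e4 := (h z' hz' _ hz0').1
      exact hS (e2.symm.trans (e1.trans (e3.symm.trans e4)))
    rw [this, hzv']

end Abs

/-! ## orbit words -/
section Orbit

variable {X Γ : Type*} [Group Γ]

/-- the word `x^ (succ x)^ …` of length `n` -/
def orbW (succ : X → X) (b : X → Bool) : ℕ → X → List (X × Bool)
  | 0, _ => []
  | n + 1, x => (x, b x) :: orbW succ b n (succ x)

theorem mem_orbW {succ : X → X} {b : X → Bool} {n : ℕ} {x : X} {a : X × Bool}
    (h : a ∈ orbW succ b n x) : ∃ k < n, a.1 = succ^[k] x := by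
  induction n generalizing x with
  | zero => simp [orbW] at h
  | succ n ih =>
    rcases List.mem_cons.1 h with h | h
    · exact ⟨0, Nat.succ_pos n, by rw [h]; rfl⟩
    · obtain ⟨k, hk, h'⟩ := ih h
      exact ⟨k + 1, Nat.succ_lt_succ hk, h'⟩

/-- the letters of the word are distinct -/
def Dist (succ : X → X) (n : ℕ) (x : X) : Prop :=
  ∀ i < n, ∀ j < n, succ^[i] x = succ^[j] x → i = j

theorem Dist.tail {succ : X → X} {n : ℕ} {x : X} (h : Dist succ (n + 1) x) :
    Dist succ n (succ x) := by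
  intro i hi j hj hij
  have := h (i + 1) (Nat.succ_lt_succ hi) (j + 1) (Nat.succ_lt_succ hj) hij
  omega

theorem Dist.head {succ : X → X} {b : X → Bool} {n : ℕ} {x : X} (h : Dist succ (n + 1) x) :
    ∀ a ∈ orbW succ b n (succ x), a.1 ≠ x := by
  intro a ha hax
  obtain ⟨k, hk, h'⟩ := mem_orbW ha
  have := h (k + 1) (Nat.succ_lt_succ hk) 0 (Nat.succ_pos n) (h'.symm.trans hax)
  omega

variable {I : Finset X} {δ : X → MonoidAlgebra ℤ Γ} {succ : X → X} {b : X → Bool}

theorem orbW_end (f : FreeGroup X →* Γ) (hI : ∀ x ∈ I, succ x ∈ I)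
    (hδ : ∀ x ∈ I, δ (succ x) = δ x * MonoidAlgebra.of ℤ Γ (f (FreeGroup.mk [(x, b x)])))
    (n : ℕ) : ∀ x ∈ I, δ (succ^[n] x) =
      δ x * MonoidAlgebra.of ℤ Γ (f (FreeGroup.mk (orbW succ b n x))) := by
  induction n with
  | zero =>
    intro x _
    have : (FreeGroup.mk [] : FreeGroup X) = 1 := rfl
    simp [orbW, this]
  | succ n ih =>
    intro x hx
    rw [Function.iterate_succ_apply, ih _ (hI x hx), hδ x hx, orbW,
      mk_cons' (x, b x) (orbW succ b n (succ x)), map_mul, map_mul, mul_assoc]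

theorem verts_map (f : FreeGroup X →* Γ) (v γ : Γ) (w : List (X × Bool)) :
    verts f (v * γ) w = (verts f γ w).map (v * ·) := by
  induction w generalizing γ with
  | nil => rfl
  | cons a w ih =>
    show (v * γ) :: verts f (v * γ * _) w = _
    rw [mul_assoc, ih]
    rfl

theorem orbW_verts {g : X → Γ} (f : FreeGroup X →* Γ) (hs : Sepa I g δ) (hI : ∀ x ∈ I, succ x ∈ I)
    (hδ : ∀ x ∈ I, δ (succ x) = δ x * MonoidAlgebra.of ℤ Γ (f (FreeGroup.mk [(x, b x)])))
    (n : ℕ) : ∀ x ∈ I, Dist succ n x → ∀ v, (δ x).coeff v ≠ 0 →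
      (verts f v (orbW succ b n x)).Nodup ∧
        ∀ u ∈ verts f v (orbW succ b n x), ∃ k < n, (δ (succ^[k] x)).coeff u ≠ 0 := by
  induction n with
  | zero =>
    intro x _ _ v _
    exact ⟨List.nodup_nil, fun u hu => absurd hu List.not_mem_nil⟩
  | succ n ih =>
    intro x hx hd v hv
    have h1 : (δ (succ x)).coeff (v * f (FreeGroup.mk [(x, b x)])) ≠ 0 := by
      rw [hδ x hx, dyn_coeff_mul_of, mul_inv_cancel_right]
      exact hv
    obtain ⟨h2, h3⟩ := ih _ (hI x hx) hd.tail _ h1
    have hmem : ∀ k, succ^[k] (succ x) ∈ I := by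
      intro k
      induction k with
      | zero => exact hI x hx
      | succ k ihk =>
        rw [Function.iterate_succ_apply']
        exact hI _ ihk
    refine ⟨?_, ?_⟩
    · show (v :: verts f (v * f (FreeGroup.mk [(x, b x)])) (orbW succ b n (succ x))).Nodup
      rw [List.nodup_cons]
      refine ⟨fun hcon => ?_, h2⟩
      obtain ⟨k, hk, h4⟩ := h3 v hcon
      have h5 := dyn_out hs hx (hmem k) hv h4
      have := hd 0 (Nat.succ_pos n) (k + 1) (Nat.succ_lt_succ hk) h5
      omega
    · intro u hu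
      rcases List.mem_cons.1 hu with h | h
      · exact ⟨0, Nat.succ_pos n, by rw [h]; exact hv⟩
      · obtain ⟨k, hk, h4⟩ := h3 u h
        exact ⟨k + 1, Nat.succ_lt_succ hk, h4⟩

end Orbit

/-! ## the quotient by a word in distinct letters is free -/
section Free

variable {X : Type*}

theorem dyn_perfect (x : X) (b : Bool) (w : List (X × Bool)) (hw : ∀ a ∈ w, a.1 ≠ x)
    (K : Subgroup (FreeGroup X))
    (hK : K ≤ Subgroup.normalClosure {FreeGroup.mk ((x, b) :: w)} ⊔ ⁅K, K⁆) :
    K ≤ Subgroup.normalClosure {FreeGroup.mk ((x, b) :: w)} := by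
  classical
  set N : Subgroup (FreeGroup X) := Subgroup.normalClosure {FreeGroup.mk ((x, b) :: w)} with hN
  set r0 : FreeGroup X := if b then (FreeGroup.mk w)⁻¹ else FreeGroup.mk w with hr0
  set ρ : FreeGroup X →* FreeGroup X := FreeGroup.lift (fun z => if z = x then r0 else of z) with hρ
  have hρx : ρ (of x) = r0 := by
    rw [hρ, FreeGroup.lift_apply_of, if_pos rfl]
  have hρz : ∀ z, z ≠ x → ρ (of z) = of z := by
    intro z hz
    rw [hρ, FreeGroup.lift_apply_of, if_neg hz]
  have h1 : ∀ w' : List (X × Bool), (∀ a ∈ w', a.1 ≠ x) → ρ (FreeGroup.mk w') = FreeGroup.mk w' := by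
    intro w'
    induction w' with
    | nil =>
      intro _
      exact map_one ρ
    | cons a w' ih =>
      intro h
      rw [mk_cons' a w', map_mul, ih fun c hc => h c (List.mem_cons_of_mem _ hc)]
      congr 1
      obtain ⟨z, c⟩ := a
      have hz : z ≠ x := h (z, c) List.mem_cons_self
      cases c
      · rw [mk_false, map_inv, hρz z hz]
      · exact hρz z hz
  have h2 : ρ (FreeGroup.mk [(x, b)]) = (FreeGroup.mk w)⁻¹ := by
    cases b
    · rw [mk_false, map_inv, hρx, hr0]
      simp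
    · have : (FreeGroup.mk [(x, true)] : FreeGroup X) = of x := rfl
      rw [this, hρx, hr0]
      simp
  have h3 : ρ (FreeGroup.mk ((x, b) :: w)) = 1 := by
    rw [mk_cons' (x, b) w, map_mul, h2, h1 w hw, inv_mul_cancel]
  have hNn : N.Normal := Subgroup.normalClosure_normal
  have h4 : (QuotientGroup.mk' N).comp ρ = QuotientGroup.mk' N := by
    apply FreeGroup.ext_hom
    intro z
    rw [MonoidHom.comp_apply]
    by_cases hz : z = x
    · subst hz
      rw [hρx]
      have h5 : QuotientGroup.mk' N (FreeGroup.mk ((z, b) :: w)) = 1 := by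
        rw [QuotientGroup.mk'_apply, QuotientGroup.eq_one_iff]
        exact Subgroup.subset_normalClosure (Set.mem_singleton _)
      rw [mk_cons' (z, b) w, map_mul] at h5
      cases b
      · rw [mk_false, map_inv, inv_mul_eq_one] at h5
        rw [hr0, h5]
        simp
      · have : (FreeGroup.mk [(z, true)] : FreeGroup X) = of z := rfl
        rw [this] at h5
        rw [hr0, eq_inv_of_mul_eq_one_left h5, if_pos rfl, map_inv]
    · rw [hρz z hz]
  have h5 : N ≤ ρ.ker := by
    apply Subgroup.normalClosure_le_normal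
    rintro _ rfl
    exact h3
  have h6 : K.map ρ ≤ ⁅K.map ρ, K.map ρ⁆ := by
    rw [← Subgroup.map_commutator]
    refine (Subgroup.map_mono hK).trans ?_
    rw [Subgroup.map_sup]
    refine sup_le ?_ le_rfl
    rintro _ ⟨n, hn, rfl⟩
    have : ρ n = 1 := h5 hn
    rw [this]
    exact Subgroup.one_mem _
  have h7 := perfect_eq_bot _ h6
  intro k hk
  have h8 : ρ k = 1 := by
    have : ρ k ∈ K.map ρ := ⟨k, hk, rfl⟩
    rw [h7] at this
    exact Subgroup.mem_bot.1 this
  have h9 := DFunLike.congr_fun h4 k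
  rw [MonoidHom.comp_apply, h8, map_one] at h9
  exact (QuotientGroup.eq_one_iff k).1 h9.symm

end Free

/-! ## heights -/
section Heights

variable {X Γ : Type*} [Group Γ]

/-- the sign of a letter -/
noncomputable def bs (y : FreeGroup X) (x : X) : Bool := by
  classical exact decide (0 < Multiplicative.toAdd (expo x y))

theorem dyn_sepa (f : FreeGroup X →* Γ) (y : FreeGroup X) (hy : Cyc f y)
    (hexp : ∀ x ∈ (fox f y).support, expo x y ≠ 1 ∨ (fox f y).support = {x})
    (hsingle : ∀ t ∈ (fox f y).support, ∀ a ∈ (fox f y).support, t ≠ a →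
      ∀ x ∈ (fox f y).support, ∀ u v : FreeGroup X,
        f u ∈ (fox f y x).coeff.support → f v ∈ (fox f y x).coeff.support →
        (FreeGroup.lift (fun z => Multiplicative.ofAdd (dht y t a z)) u : Multiplicative ℤ) =
          FreeGroup.lift (fun z => Multiplicative.ofAdd (dht y t a z)) v) :
    Sepa (fox f y).support (fun x => f (FreeGroup.mk [(x, bs y x)]))
      (fun x => fox f y x * kapi f x (bs y x)) := by
  classical
  intro t ht' a ha' hta
  have hE : ∀ x ∈ (fox f y).support, Multiplicative.toAdd (expo x y) ≠ 0 := by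
    intro x hx h0
    rcases hexp x hx with h | h
    · exact h (toAdd_eq_zero.1 h0)
    · rw [h, Finset.mem_singleton] at ht' ha'
      exact hta (ht'.trans ha'.symm)
  set Et := Multiplicative.toAdd (expo t y) with hEt
  set Ea := Multiplicative.toAdd (expo a y) with hEa
  have hEt0 : Et ≠ 0 := hE t ht'
  have hEa0 : Ea ≠ 0 := hE a ha'
  set h : FreeGroup X →* Multiplicative ℤ :=
    FreeGroup.lift (fun z => Multiplicative.ofAdd (dht y t a z)) with hh
  have hof : ∀ z, Multiplicative.toAdd (h (of z)) = dht y t a z := by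
    intro z
    rw [hh, FreeGroup.lift_apply_of]
    rfl
  have hht_t : dht y t a t = Ea := by
    unfold dht
    rw [if_pos rfl]
  have hht_a : dht y t a a = -Et := by
    unfold dht
    rw [if_neg (Ne.symm hta), if_pos rfl]
  have hht_z : ∀ z, z ≠ t → z ≠ a → dht y t a z = 0 := by
    intro z h1 h2
    unfold dht
    rw [if_neg h1, if_neg h2]
  have hexpo : ∀ x z : X, Multiplicative.toAdd (expo x (of z)) = if z = x then (1 : ℤ) else 0 := by
    intro x z
    unfold expo
    rw [FreeGroup.lift_apply_of]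
    split_ifs <;> simp
  have hform : ∀ u, Multiplicative.toAdd (h u) =
      Ea * Multiplicative.toAdd (expo t u) - Et * Multiplicative.toAdd (expo a u) := by
    intro u
    induction u using FreeGroup.induction_on with
    | C1 => simp
    | of z =>
      rw [hof, hexpo, hexpo]
      by_cases h1 : z = t
      · subst h1
        rw [hht_t, if_pos rfl, if_neg hta]
        ring
      · by_cases h2 : z = a
        · subst h2
          rw [hht_a, if_pos rfl, if_neg h1]
          ring
        · rw [hht_z z h1 h2, if_neg h1, if_neg h2]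
          ring
    | inv_of z hz =>
      rw [map_inv h, map_inv (expo t), map_inv (expo a), toAdd_inv, toAdd_inv, toAdd_inv, hz]
      ring
    | mul u v hu hv =>
      rw [map_mul h, map_mul (expo t), map_mul (expo a), toAdd_mul, toAdd_mul, toAdd_mul, hu, hv]
      ring
  have hy1 : h y = 1 := by
    have := hform y
    rw [← hEt, ← hEa, mul_comm, sub_self] at this
    exact toAdd_eq_zero.1 this
  have hker : ∀ u, f u = 1 → h u = 1 := by
    have h1 : Subgroup.normalClosure {y} ⊔ ⁅f.ker, f.ker⁆ ≤ h.ker := by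
      refine sup_le ?_ ?_
      · apply Subgroup.normalClosure_le_normal
        rintro _ rfl
        exact hy1
      · rw [Subgroup.commutator_le]
        intro p _ q _
        rw [MonoidHom.mem_ker, map_commutatorElement, commutatorElement_eq_one_iff_mul_comm, mul_comm]
    intro u hu
    exact h1 (hy.2 hu)
  let η : Γ → ℤ := fun γ => if hγ : ∃ u, f u = γ then Multiplicative.toAdd (h hγ.choose) else 0
  have hη : ∀ u, η (f u) = Multiplicative.toAdd (h u) := by
    intro u
    have hex : ∃ u', f u' = f u := ⟨u, rfl⟩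
    show (if hγ : ∃ u', f u' = f u then Multiplicative.toAdd (h hγ.choose) else 0) = _
    rw [dif_pos hex]
    have h1 : h (hex.choose * u⁻¹) = 1 := by
      apply hker
      rw [map_mul, map_inv, hex.choose_spec, mul_inv_cancel]
    rw [map_mul, map_inv, mul_inv_eq_one] at h1
    rw [h1]
  have hH : ∀ x ∈ (fox f y).support, ∃ Hx : ℤ, ∀ v, (fox f y x).coeff v ≠ 0 → η v = Hx := by
    intro x hx
    have hx0 : fox f y x ≠ 0 := Finsupp.mem_support_iff.1 hx
    obtain ⟨v0, hv0⟩ : ∃ v, (fox f y x).coeff v ≠ 0 := by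
      by_contra hcon
      push Not at hcon
      apply hx0
      rw [← MonoidAlgebra.coeff_eq_zero]
      ext v
      exact hcon v
    obtain ⟨u0, rfl⟩ := dyn_support_range f y x v0 hv0
    refine ⟨Multiplicative.toAdd (h u0), fun v hv => ?_⟩
    obtain ⟨u, rfl⟩ := dyn_support_range f y x v hv
    rw [hη, hsingle t ht' a ha' hta x hx u u0 (Finsupp.mem_support_iff.2 hv)
      (Finsupp.mem_support_iff.2 hv0)]
  choose! H hH using hH
  have hstep : ∀ x ∈ (fox f y).support, ∀ v, (fox f y x).coeff v ≠ 0 →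
      η (v * f (of x)) = H x + dht y t a x := by
    intro x hx v hv
    have h1 := hH x hx v hv
    obtain ⟨u, rfl⟩ := dyn_support_range f y x v hv
    rw [← map_mul, hη, map_mul, toAdd_mul, ← hη, h1, hof]
  -- the flow identity at the height `H t`
  have hflow : ∑ x ∈ (fox f y).support,
      (Multiplicative.toAdd (expo x y) * (if H x + dht y t a x = H t then (1 : ℤ) else 0) -
        Multiplicative.toAdd (expo x y) * (if H x = H t then (1 : ℤ) else 0)) = 0 := by
    let φ : Γ → ℤ := fun γ => if η γ = H t then 1 else 0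
    have h1 := congrArg (lin φ) (fox_fund f y)
    rw [hy.1, map_one, sub_self, map_zero, Finsupp.sum, map_sum] at h1
    refine Eq.trans (Finset.sum_congr rfl fun x hx => ?_) h1
    rw [mul_sub, mul_one, map_sub, dyn_lin_mul_of, ← dyn_aug f y x]
    congr 1
    · symm
      apply dyn_lin_const
      intro v hv
      show (if η (v * f (of x)) = H t then (1 : ℤ) else 0) = _
      rw [hstep x hx v hv]
    · symm
      apply dyn_lin_const
      intro v hv
      show (if η v = H t then (1 : ℤ) else 0) = _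
      rw [hH x hx v hv]
  have hkey : (Ea = Et ∧ H a = H t + Et) ∨ (Ea = -Et ∧ H a = H t) := by
    rw [Finset.sum_eq_add_of_mem t a ht' ha' hta] at hflow
    · rw [hht_t, hht_a, ← hEt, ← hEa] at hflow
      split_ifs at hflow <;> omega
    · rintro z - ⟨h1, h2⟩
      rw [hht_z z h1 h2, add_zero, sub_self]
  refine ⟨η, fun x => if bs y x then H x else H x + dht y t a x,
    fun x => if bs y x then H x + dht y t a x else H x, ?_, ?_, ?_⟩
  · intro x hx v hv
    cases hb : bs y x
    · simp only [hb, Bool.false_eq_true, if_false]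
      have h1 : (fox f y x).coeff (v * (f (of x))⁻¹) ≠ 0 := by
        simp only [hb, kapi, Bool.false_eq_true, if_false] at hv
        rw [mul_neg, MonoidAlgebra.coeff_neg, Finsupp.neg_apply, neg_ne_zero,
          dyn_coeff_mul_of] at hv
        exact hv
      have h2 := hstep x hx _ h1
      rw [inv_mul_cancel_right] at h2
      refine ⟨h2, ?_⟩
      rw [mk_false, map_inv]
      exact hH x hx _ h1
    · simp only [hb, if_true]
      have h1 : (fox f y x).coeff v ≠ 0 := by
        simp only [hb, kapi, if_true, mul_one] at hv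
        exact hv
      exact ⟨hH x hx v h1, hstep x hx v h1⟩
  · simp only [bs, decide_eq_true_eq]
    rw [hht_t, hht_a, ← hEt, ← hEa]
    split_ifs <;> omega
  · simp only [bs, decide_eq_true_eq]
    rw [hht_t, hht_a, ← hEt, ← hEa]
    split_ifs <;> omega

end Heights

/-! ## the theorem -/
section Main

variable {X Γ : Type*} [Group Γ]

theorem dyn_aux [NoZeroDivisors (MonoidAlgebra ℤ Γ)] (f : FreeGroup X →* Γ) (y : FreeGroup X)
    (hy : Cyc f y) (hne : f.ker ≠ ⊥)
    (hexp : ∀ x ∈ (fox f y).support, expo x y ≠ 1 ∨ (fox f y).support = {x})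
    (hsingle : ∀ t ∈ (fox f y).support, ∀ a ∈ (fox f y).support, t ≠ a →
      ∀ x ∈ (fox f y).support, ∀ u v : FreeGroup X,
        f u ∈ (fox f y x).coeff.support → f v ∈ (fox f y x).coeff.support →
        (FreeGroup.lift (fun z => Multiplicative.ofAdd (dht y t a z)) u : Multiplicative ℤ) =
          FreeGroup.lift (fun z => Multiplicative.ofAdd (dht y t a z)) v) :
    ∃ w, Good f w := by
  classical
  have hsep := dyn_sepa f y hy hexp hsingle
  set D := fox f y with hD
  set I := D.support with hI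
  set b : X → Bool := bs y with hb
  set g : X → Γ := fun x => f (FreeGroup.mk [(x, b x)]) with hg
  set δ : X → MonoidAlgebra ℤ Γ := fun x => D x * kapi f x (b x) with hδ
  have hDδ : ∀ x, D x = δ x * kap f x (b x) := by
    intro x
    rw [hδ]
    simp only
    rw [mul_assoc, kapi_mul_kap, mul_one]
  have hD0 : D ≠ 0 := by
    intro h0
    have h1 : y ∈ ⁅f.ker, f.ker⁆ := mem_of_fox_eq_zero f hy.1 h0
    apply hne
    apply perfect_eq_bot
    refine hy.2.trans (sup_le ?_ le_rfl)
    apply Subgroup.normalClosure_le_normal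
    rintro _ rfl
    exact h1
  have hδ0 : ∀ x ∈ I, δ x ≠ 0 := by
    intro x hx h0
    apply Finsupp.mem_support_iff.1 hx
    rw [hDδ, h0, zero_mul]
  have hV : ∑ x ∈ I, δ x * (MonoidAlgebra.of ℤ Γ (g x) - 1) = 0 := by
    have h1 := fox_fund f y
    rw [hy.1, map_one, sub_self, Finsupp.sum] at h1
    refine Eq.trans (Finset.sum_congr rfl fun x _ => ?_) h1
    have h2 := kap_mul_sub f x (b x)
    show δ x * (MonoidAlgebra.of ℤ Γ (f (FreeGroup.mk [(x, b x)])) - 1) =
      D x * (MonoidAlgebra.of ℤ Γ (f (of x)) - 1)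
    rw [hDδ x, ← h2, ← mul_assoc]
  obtain ⟨x0, hx0⟩ : I.Nonempty := Finsupp.support_nonempty_iff.2 hD0
  have hsucc : ∀ x ∈ I, ∃ z, z ∈ I ∧ δ z = δ x * MonoidAlgebra.of ℤ Γ (g x) := fun x hx =>
    dyn_succ hsep hδ0 hV hx
  choose! succ hsI hsδ using hsucc
  have hit : ∀ k, succ^[k] x0 ∈ I := by
    intro k
    induction k with
    | zero => exact hx0
    | succ k ih =>
      rw [Function.iterate_succ_apply']
      exact hsI _ ih
  -- a periodic letter
  obtain ⟨z0, hz0, q, hq0, hqz, hqd⟩ : ∃ z0 ∈ I, ∃ q, 0 < q ∧ succ^[q] z0 = z0 ∧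
      Dist succ q z0 := by
    obtain ⟨i, j, hij, he⟩ := Finite.exists_ne_map_eq_of_infinite
      (fun k : ℕ => (⟨succ^[k] x0, hit k⟩ : I))
    have he' : succ^[i] x0 = succ^[j] x0 := congrArg Subtype.val he
    have key : ∀ i j : ℕ, i < j → succ^[i] x0 = succ^[j] x0 → ∃ z0 ∈ I, ∃ q, 0 < q ∧
        succ^[q] z0 = z0 ∧ Dist succ q z0 := by
      intro i j hij he
      have hp : Function.IsPeriodicPt succ (j - i) (succ^[i] x0) := by
        show succ^[j - i] (succ^[i] x0) = succ^[i] x0
        rw [← Function.iterate_add_apply, Nat.sub_add_cancel hij.le, he]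
      refine ⟨succ^[i] x0, hit i, Function.minimalPeriod succ (succ^[i] x0),
        hp.minimalPeriod_pos (Nat.sub_pos_of_lt hij), Function.iterate_minimalPeriod, ?_⟩
      intro k hk l hl hkl
      exact Function.iterate_injOn_Iio_minimalPeriod hk hl hkl
    rcases lt_or_gt_of_ne hij with h | h
    · exact key i j h he'
    · exact key j i h he'.symm
  obtain ⟨q', rfl⟩ : ∃ q', q = q' + 1 := ⟨q - 1, by omega⟩
  set w := orbW succ b (q' + 1) z0 with hw
  have hend := orbW_end (b := b) f hsI hsδ (q' + 1) z0 hz0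
  rw [hqz, ← hw] at hend
  have hfw : f (FreeGroup.mk w) = 1 := by
    have h1 : δ z0 * (MonoidAlgebra.of ℤ Γ (f (FreeGroup.mk w)) - 1) = 0 := by
      rw [mul_sub, mul_one, ← hend, sub_self]
    rcases mul_eq_zero.1 h1 with h | h
    · exact absurd h (hδ0 z0 hz0)
    · rw [sub_eq_zero, ← map_one (MonoidAlgebra.of ℤ Γ)] at h
      exact MonoidAlgebra.of_injective h
  obtain ⟨lam, hlam⟩ := dyn_fox_eq hy hfw
  have hhead : fox f (FreeGroup.mk w) z0 = kap f z0 (b z0) := by
    rw [hw, orbW, fox_cons, Finsupp.add_apply, Finsupp.smul_apply,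
      fox_notMem f _ z0 hqd.head, smul_zero, add_zero, Finsupp.single_eq_same]
  have hlδ : lam * δ z0 = 1 := by
    have h1 : lam * D z0 = kap f z0 (b z0) := by
      rw [← hhead, hlam, Finsupp.smul_apply, smul_eq_mul]
    rw [hδ]
    simp only
    rw [← mul_assoc, h1, kap_mul_kapi]
  have hδl : δ z0 * lam = 1 := by
    have h1 : (δ z0 * lam - 1) * δ z0 = 0 := by
      rw [sub_mul, one_mul, mul_assoc, hlδ, mul_one, sub_self]
    rcases mul_eq_zero.1 h1 with h | h
    · exact sub_eq_zero.1 h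
    · exact absurd h (hδ0 z0 hz0)
  have hDw : fox f y = δ z0 • fox f (FreeGroup.mk w) := by
    rw [hlam, ← mul_smul, hδl, one_smul]
  have hyw : y ∈ Subgroup.normalClosure {FreeGroup.mk w} ⊔ ⁅f.ker, f.ker⁆ := by
    refine dyn_mem f _ y hfw hy.1 (δ z0) ?_ hDw
    intro v hv
    have hv' : (D z0 * kapi f z0 (b z0)).coeff v ≠ 0 := hv
    unfold kapi at hv'
    split_ifs at hv'
    · rw [mul_one] at hv'
      exact dyn_support_range f y z0 v hv'
    · rw [mul_neg, MonoidAlgebra.coeff_neg, Finsupp.neg_apply, neg_ne_zero,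
        dyn_coeff_mul_of] at hv'
      have := f.range.mul_mem (dyn_support_range f y z0 _ hv')
        (⟨of z0, rfl⟩ : f (of z0) ∈ f.range)
      rwa [inv_mul_cancel_right] at this
  have hK : f.ker ≤ Subgroup.normalClosure {FreeGroup.mk w} ⊔ ⁅f.ker, f.ker⁆ := by
    refine hy.2.trans (sup_le ?_ le_sup_right)
    apply Subgroup.normalClosure_le_normal
    rintro _ rfl
    exact hyw
  refine ⟨w, ?_, ?_, ?_⟩
  · rw [hw, orbW]
    exact List.cons_ne_nil _ _
  · obtain ⟨v, hv⟩ : ∃ v, (δ z0).coeff v ≠ 0 := by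
      by_contra hcon
      push Not at hcon
      apply hδ0 z0 hz0
      rw [← MonoidAlgebra.coeff_eq_zero]
      ext v
      exact hcon v
    have h1 := (orbW_verts f hsep hsI hsδ (q' + 1) z0 hz0 hqd v hv).1
    rw [← mul_one v, verts_map] at h1
    exact List.Nodup.of_map _ h1
  · apply le_antisymm
    · exact dyn_perfect z0 (b z0) (orbW succ b q' (succ z0)) hqd.head f.ker hK
    · apply Subgroup.normalClosure_le_normal
      rintro _ rfl
      exact hfw

end Main

end DynAux

/-- base case (C): no pair of letters allows progress -/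
theorem dyn {X Γ : Type*} [Group Γ] (hΓ : LI Γ) (f : FreeGroup X →* Γ) (y : FreeGroup X)
    (hy : Cyc f y) (hne : f.ker ≠ ⊥)
    (hexp : ∀ x ∈ (fox f y).support, expo x y ≠ 1 ∨ (fox f y).support = {x})
    (hsingle : ∀ t ∈ (fox f y).support, ∀ a ∈ (fox f y).support, t ≠ a →
      ∀ x ∈ (fox f y).support, ∀ u v : FreeGroup X,
        f u ∈ (fox f y x).coeff.support → f v ∈ (fox f y x).coeff.support →
        (FreeGroup.lift (fun z => Multiplicative.ofAdd (dht y t a z)) u : Multiplicative ℤ) =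
          FreeGroup.lift (fun z => Multiplicative.ofAdd (dht y t a z)) v) :
    ∃ w, Good f w := by
  have := hΓ.uniqueProds
  exact DynAux.dyn_aux f y hy hne hexp hsingle

end Pool.Agent.ROR
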