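import Pool.Agent.ROR.Defs

/-!
# Locally indicable groups: closure properties (project ROR, package P1)
-/

set_option autoImplicit false

namespace Pool.Agent.ROR

open FreeGroup (of)

/-- a homomorphism on `closure S` which is not trivial is not trivial on `S` -/
theorem exists_mem_ne_one {Γ M : Type*} [Group Γ] [Group M] {S : Set Γ}
    (φ : Subgroup.closure S →* M) (x : Subgroup.closure S) (hx : φ x ≠ 1) :
    ∃ s, ∃ hs : s ∈ S, φ ⟨s, Subgroup.subset_closure hs⟩ ≠ 1 := by
  by_contra hcon
  push Not at hcon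
  have h1 : (⊤ : Subgroup (Subgroup.closure S)) ≤ φ.ker := by
    rw [← Subgroup.closure_closure_coe_preimage, Subgroup.closure_le]
    intro y hy
    exact hcon y.1 hy
  exact hx (h1 (Subgroup.mem_top x))

/-- pull back along a homomorphism on `closure S` which is not trivial -/
theorem LI.pull {Γ H : Type*} [Group Γ] [Group H] (hH : LI H) (S : Finset Γ)
    (g : Subgroup.closure (S : Set Γ) →* H) (x : Subgroup.closure (S : Set Γ)) (hx : g x ≠ 1) :
    ∃ l : Subgroup.closure (S : Set Γ) →* Multiplicative ℤ, ∃ s, ∃ hs : s ∈ S,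
      l ⟨s, Subgroup.subset_closure hs⟩ ≠ 1 := by
  classical
  obtain ⟨s0, hs0, hne⟩ := exists_mem_ne_one g x hx
  let T : Finset H := S.attach.image fun s => g ⟨s.1, Subgroup.subset_closure s.2⟩
  have hT : ∀ s (hs : s ∈ S), g ⟨s, Subgroup.subset_closure hs⟩ ∈ T := fun s hs =>
    Finset.mem_image.2 ⟨⟨s, hs⟩, Finset.mem_attach _ _, rfl⟩
  have hcl : ∀ y, g y ∈ Subgroup.closure (T : Set H) := by
    have h1 : (⊤ : Subgroup (Subgroup.closure (S : Set Γ))) ≤
        (Subgroup.closure (T : Set H)).comap g := by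
      rw [← Subgroup.closure_closure_coe_preimage, Subgroup.closure_le]
      intro y hy
      exact Subgroup.subset_closure (hT y.1 hy)
    exact fun y => h1 (Subgroup.mem_top y)
  obtain ⟨l, t, ht, hl⟩ := hH T ⟨_, hT s0 hs0, hne⟩
  obtain ⟨s, -, hst⟩ := Finset.mem_image.1 ht
  refine ⟨l.comp (g.codRestrict _ hcl), s.1, s.2, ?_⟩
  have : (g.codRestrict _ hcl) ⟨s.1, Subgroup.subset_closure s.2⟩ =
      ⟨t, Subgroup.subset_closure ht⟩ := Subtype.ext hst
  rw [MonoidHom.comp_apply, this]
  exact hl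

section P1
variable {Γ Γ' Q A : Type*} [Group Γ] [Group Γ'] [Group Q] [CommGroup A]

theorem LI.of_injective (f : Γ →* Γ') (hf : Function.Injective f) (h : LI Γ') : LI Γ := by
  rintro S ⟨s, hs, hne⟩
  refine h.pull S (f.comp (Subgroup.closure (S : Set Γ)).subtype)
    ⟨s, Subgroup.subset_closure hs⟩ ?_
  intro h1
  exact hne (hf (by simpa using h1))

theorem LI.of_ext (f : Γ →* Q) (hQ : LI Q) (hK : LI f.ker) : LI Γ := by
  rintro S ⟨s, hs, hne⟩
  by_cases h : ∃ s ∈ S, f s ≠ 1
  · obtain ⟨s', hs', hne'⟩ := h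
    exact hQ.pull S (f.comp (Subgroup.closure (S : Set Γ)).subtype)
      ⟨s', Subgroup.subset_closure hs'⟩ hne'
  · push Not at h
    have hle : Subgroup.closure (S : Set Γ) ≤ f.ker := (Subgroup.closure_le _).2 fun x hx => h x hx
    refine hK.pull S (Subgroup.inclusion hle) ⟨s, Subgroup.subset_closure hs⟩ ?_
    intro h1
    exact hne (by simpa using congrArg Subtype.val h1)

theorem LI.freeGroup (Y : Type*) : LI (FreeGroup Y) := by
  rintro S ⟨s, hs, hne⟩
  have hnon : ¬ IsEmpty (IsFreeGroup.Generators (Subgroup.closure (S : Set (FreeGroup Y)))) := by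
    intro hempty
    have hsub : Subsingleton (Subgroup.closure (S : Set (FreeGroup Y))) :=
      (IsFreeGroup.toFreeGroup (Subgroup.closure (S : Set (FreeGroup Y)))).toEquiv.subsingleton
    have := Subsingleton.elim (⟨s, Subgroup.subset_closure hs⟩ :
      Subgroup.closure (S : Set (FreeGroup Y))) 1
    exact hne (by simpa using congrArg Subtype.val this)
  rw [not_isEmpty_iff] at hnon
  obtain ⟨x⟩ := hnon
  let φ : Subgroup.closure (S : Set (FreeGroup Y)) →* Multiplicative ℤ :=
    IsFreeGroup.lift fun _ => Multiplicative.ofAdd 1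
  have h3 : φ (IsFreeGroup.of x) = Multiplicative.ofAdd 1 := IsFreeGroup.lift_of _ x
  obtain ⟨s', hs', h'⟩ := exists_mem_ne_one φ (IsFreeGroup.of x) (by
    rw [h3]
    intro h
    simpa using congrArg Multiplicative.toAdd h)
  exact ⟨φ, s', hs', h'⟩

theorem LI.of_comm (hA : ∀ (a : A) (e : ℕ), e ≠ 0 → a ^ e = 1 → a = 1) : LI A := by
  rintro S ⟨s, hs, hne⟩
  have hfg : (Subgroup.closure (S : Set A)).FG := ⟨S, rfl⟩
  have hfg' : Group.FG (Subgroup.closure (S : Set A)) := (Group.fg_iff_subgroup_fg _).2 hfg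
  have hfin : Module.Finite ℤ (Additive (Subgroup.closure (S : Set A))) :=
    Module.Finite.iff_addGroup_fg.2 inferInstance
  have htf : Module.IsTorsionFree ℤ (Additive (Subgroup.closure (S : Set A))) := by
    constructor
    intro n hn x y hxy
    have hn0 : n ≠ 0 := hn.ne_zero
    have h0 : n • (x - y) = 0 := by
      rw [smul_sub, sub_eq_zero]
      exact hxy
    have h1 : n.natAbs • (x - y) = 0 := by
      rcases Int.natAbs_eq n with h | h
      · rw [h, natCast_zsmul] at h0
        exact h0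
      · rw [h, neg_smul, natCast_zsmul, neg_eq_zero] at h0
        exact h0
    have h2 := hA ((x - y).toMul : Subgroup.closure (S : Set A)).1 n.natAbs (by simpa using hn0)
      (by
        have := congrArg (fun z : Additive (Subgroup.closure (S : Set A)) =>
          ((z.toMul : Subgroup.closure (S : Set A)) : A)) h1
        simpa using this)
    have h3 : x - y = 0 := by
      apply Additive.toMul.injective
      exact Subtype.ext h2
    exact sub_eq_zero.1 h3
  have hfree : Module.Free ℤ (Additive (Subgroup.closure (S : Set A))) := inferInstance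
  let b := Module.Free.chooseBasis ℤ (Additive (Subgroup.closure (S : Set A)))
  let x : Additive (Subgroup.closure (S : Set A)) :=
    Additive.ofMul ⟨s, Subgroup.subset_closure hs⟩
  have hx : x ≠ 0 := by
    intro h
    exact hne (congrArg Subtype.val (congrArg Additive.toMul h))
  have hbx : b.repr x ≠ 0 := by
    intro h
    exact hx (by simpa using h)
  obtain ⟨i, hi⟩ := Finsupp.ne_iff.1 hbx
  refine ⟨AddMonoidHom.toMultiplicativeRight (b.coord i).toAddMonoidHom, s, hs, ?_⟩
  intro h
  apply hi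
  have := congrArg Multiplicative.toAdd h
  simpa using this

theorem LI.of_chain (N : ℕ → Subgroup Γ) [∀ m, (N m).Normal] (hanti : Antitone N)
    (hbot : ∀ x, (∀ m, x ∈ N m) → x = 1) (h : ∀ m, LI (Γ ⧸ N m)) : LI Γ := by
  have _ := hanti
  rintro S ⟨s, hs, hne⟩
  have h1 : ∃ m, s ∉ N m := by
    by_contra hcon
    push Not at hcon
    exact hne (hbot s hcon)
  obtain ⟨m, hm⟩ := h1
  refine (h m).pull S ((QuotientGroup.mk' (N m)).comp (Subgroup.closure (S : Set Γ)).subtype)
    ⟨s, Subgroup.subset_closure hs⟩ ?_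
  intro h2
  exact hm ((QuotientGroup.eq_one_iff s).1 h2)

theorem LI.eq_one_of_pow (h : LI Γ) {g : Γ} {n : ℕ} (hn : n ≠ 0) (hg : g ^ n = 1) : g = 1 := by
  by_contra hne
  obtain ⟨l, s, hs, hl⟩ := h {g} ⟨g, Finset.mem_singleton_self g, hne⟩
  have hsg : s = g := Finset.mem_singleton.1 hs
  subst hsg
  apply hl
  have h1 : (l ⟨s, Subgroup.subset_closure hs⟩) ^ n = 1 := by
    rw [← map_pow]
    have : (⟨s, Subgroup.subset_closure hs⟩ :
        Subgroup.closure ((({s} : Finset Γ)) : Set Γ)) ^ n = 1 := Subtype.ext (by simpa using hg)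
    rw [this, map_one]
  have h2 := congrArg Multiplicative.toAdd h1
  rw [toAdd_pow, toAdd_one] at h2
  apply Multiplicative.toAdd.injective
  rw [toAdd_one]
  rcases smul_eq_zero.1 h2 with h3 | h3
  · exact absurd h3 hn
  · exact h3

/-- `1 ∈ S`, `S` not contained in `{1}`: split `S` by degrees -/
theorem LI.uniqueProds (h : LI Γ) : UniqueProds Γ := by
  classical
  have key : ∀ n : ℕ, ∀ A B : Finset Γ, A.card + B.card ≤ n → A.Nonempty → B.Nonempty →
      ∃ a0 ∈ A, ∃ b0 ∈ B, UniqueMul A B a0 b0 := by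
    intro n
    induction n with
    | zero =>
      intro A B hn hA hB
      have := hA.card_pos
      omega
    | succ n ih =>
      intro A B hn hA hB
      obtain ⟨a1, ha1⟩ := hA
      obtain ⟨b1, hb1⟩ := hB
      by_cases htriv : (∀ a ∈ A, a = a1) ∧ ∀ b ∈ B, b = b1
      · refine ⟨a1, ha1, b1, hb1, ?_⟩
        intro a b ha hb _
        exact ⟨htriv.1 a ha, htriv.2 b hb⟩
      -- the translated set
      let S : Finset Γ := A.image (fun a => a1⁻¹ * a) ∪ B.image (fun b => b * b1⁻¹)
      have hSA : ∀ a ∈ A, a1⁻¹ * a ∈ S := fun a ha =>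
        Finset.mem_union_left _ (Finset.mem_image.2 ⟨a, ha, rfl⟩)
      have hSB : ∀ b ∈ B, b * b1⁻¹ ∈ S := fun b hb =>
        Finset.mem_union_right _ (Finset.mem_image.2 ⟨b, hb, rfl⟩)
      have hne : ∃ s ∈ S, s ≠ 1 := by
        by_contra hcon
        push Not at hcon
        apply htriv
        constructor
        · intro a ha
          have := hcon _ (hSA a ha)
          rw [inv_mul_eq_one] at this
          exact this.symm
        · intro b hb
          have := hcon _ (hSB b hb)
          rwa [mul_inv_eq_one] at this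
      obtain ⟨l, s, hs, hl⟩ := h S hne
      let L : Γ → ℤ := fun x => if hx : x ∈ Subgroup.closure (S : Set Γ) then
        Multiplicative.toAdd (l ⟨x, hx⟩) else 0
      have hLdef : ∀ x (hx : x ∈ Subgroup.closure (S : Set Γ)),
          L x = Multiplicative.toAdd (l ⟨x, hx⟩) := fun x hx => by
        simp only [L, dif_pos hx]
      have hL1 : L 1 = 0 := by
        rw [hLdef 1 (Subgroup.one_mem _)]
        have : (⟨1, Subgroup.one_mem _⟩ : Subgroup.closure (S : Set Γ)) = 1 := rfl
        rw [this, map_one, toAdd_one]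
      have hLmul : ∀ x y, x ∈ Subgroup.closure (S : Set Γ) → y ∈ Subgroup.closure (S : Set Γ) →
          L (x * y) = L x + L y := by
        intro x y hx hy
        rw [hLdef _ (Subgroup.mul_mem _ hx hy), hLdef _ hx, hLdef _ hy, ← toAdd_mul, ← map_mul]
        rfl
      have hLs : L s ≠ 0 := by
        rw [hLdef s (Subgroup.subset_closure hs)]
        intro h0
        exact hl (Multiplicative.toAdd.injective h0)
      -- maxima
      obtain ⟨am, ham, hamax⟩ := Finset.exists_max_image A (fun a => L (a1⁻¹ * a)) ⟨a1, ha1⟩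
      obtain ⟨bm, hbm, hbmax⟩ := Finset.exists_max_image B (fun b => L (b * b1⁻¹)) ⟨b1, hb1⟩
      let A' := A.filter fun a => L (a1⁻¹ * a) = L (a1⁻¹ * am)
      let B' := B.filter fun b => L (b * b1⁻¹) = L (bm * b1⁻¹)
      have hA' : A'.Nonempty := ⟨am, Finset.mem_filter.2 ⟨ham, rfl⟩⟩
      have hB' : B'.Nonempty := ⟨bm, Finset.mem_filter.2 ⟨hbm, rfl⟩⟩
      have hcA : A'.card ≤ A.card := Finset.card_filter_le _ _
      have hcB : B'.card ≤ B.card := Finset.card_filter_le _ _
      have hlt : A'.card + B'.card < A.card + B.card := by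
        by_contra hge
        have h1 : A'.card = A.card := by omega
        have h2 : B'.card = B.card := by omega
        have h3 : ∀ a ∈ A, L (a1⁻¹ * a) = L (a1⁻¹ * am) := Finset.card_filter_eq_iff.1 h1
        have h4 : ∀ b ∈ B, L (b * b1⁻¹) = L (bm * b1⁻¹) := Finset.card_filter_eq_iff.1 h2
        have h5 : L (a1⁻¹ * am) = 0 := by
          rw [← h3 a1 ha1, inv_mul_cancel, hL1]
        have h6 : L (bm * b1⁻¹) = 0 := by
          rw [← h4 b1 hb1, mul_inv_cancel, hL1]
        apply hLs
        rcases Finset.mem_union.1 hs with hs' | hs'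
        · obtain ⟨a, ha, rfl⟩ := Finset.mem_image.1 hs'
          rw [h3 a ha, h5]
        · obtain ⟨b, hb, rfl⟩ := Finset.mem_image.1 hs'
          rw [h4 b hb, h6]
      obtain ⟨a0, ha0, b0, hb0, hu⟩ := ih A' B' (by omega) hA' hB'
      obtain ⟨ha0A, ha0L⟩ := Finset.mem_filter.1 ha0
      obtain ⟨hb0B, hb0L⟩ := Finset.mem_filter.1 hb0
      refine ⟨a0, ha0A, b0, hb0B, ?_⟩
      intro a b ha hb hab
      have h1 : (a1⁻¹ * a) * (b * b1⁻¹) = (a1⁻¹ * a0) * (b0 * b1⁻¹) := by
        calc (a1⁻¹ * a) * (b * b1⁻¹) = a1⁻¹ * (a * b) * b1⁻¹ := by group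
          _ = a1⁻¹ * (a0 * b0) * b1⁻¹ := by rw [hab]
          _ = _ := by group
      have h2 := congrArg L h1
      rw [hLmul _ _ (Subgroup.subset_closure (hSA a ha)) (Subgroup.subset_closure (hSB b hb)),
        hLmul _ _ (Subgroup.subset_closure (hSA a0 ha0A)) (Subgroup.subset_closure (hSB b0 hb0B)),
        ha0L, hb0L] at h2
      have h3 := hamax a ha
      have h4 := hbmax b hb
      have h5 : L (a1⁻¹ * a) = L (a1⁻¹ * am) := by omega
      have h6 : L (b * b1⁻¹) = L (bm * b1⁻¹) := by omega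
      exact hu (Finset.mem_filter.2 ⟨ha, h5⟩) (Finset.mem_filter.2 ⟨hb, h6⟩) hab
  exact ⟨fun {A B} hA hB => key _ A B le_rfl hA hB⟩

end P1

end Pool.Agent.ROR
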