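import Pool.Agent.ROR.FoxGood
import Pool.Agent.ROR.LIGroup

/-!
# Adding a free letter (project ROR, P9)

For `f : F(X) → Γ` the group `Γ' = F(Γ) ⋊ Γ` (with `Γ` acting on the letters by left
multiplication) receives `F(X ∪ {s})` by `s ↦ 1_Γ ∈ F(Γ)`, `x ↦ f x ∈ Γ`; it is locally indicable if
`Γ` is, and the kernel is the normal closure of `ker f`.
-/

set_option autoImplicit false

namespace Pool.Agent.ROR

open FreeGroup (of)
open Pool.Agent.RSMonic

attribute [-simp] MonoidAlgebra.of_apply

section Act

variable (Γ : Type*) [Group Γ]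

/-- the action of `Γ` on `F(Γ)` by left multiplication of the letters -/
def actL : Γ →* MulAut (FreeGroup Γ) where
  toFun g := FreeGroup.freeGroupCongr (Equiv.mulLeft g)
  map_one' := by
    ext x
    simp
  map_mul' g h := by
    ext x
    simp only [FreeGroup.freeGroupCongr_apply, MulAut.mul_apply, FreeGroup.map.comp]
    congr 2
    funext y
    simp

theorem actL_of (g h : Γ) : actL Γ g (of h) = of (g * h) := by
  simp [actL]

/-- the group `F(Γ) ⋊ Γ` -/
abbrev Big : Type _ := SemidirectProduct (FreeGroup Γ) Γ (actL Γ)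

theorem LI.big (hΓ : LI Γ) : LI (Big Γ) := by
  refine LI.of_ext (SemidirectProduct.rightHom : Big Γ →* Γ) hΓ ?_
  let l : (SemidirectProduct.rightHom : Big Γ →* Γ).ker →* FreeGroup Γ :=
    { toFun := fun x => x.1.left
      map_one' := rfl
      map_mul' := by
        intro x y
        have hx : x.1.right = 1 := x.2
        simp [SemidirectProduct.mul_left, hx] }
  refine LI.of_injective l ?_ (LI.freeGroup Γ)
  intro x y h
  have hx : x.1.right = 1 := x.2
  have hy : y.1.right = 1 := y.2
  apply Subtype.ext
  exact SemidirectProduct.ext h (hx.trans hy.symm)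

end Act

section Kernel

variable {X Γ : Type*} [Group Γ]

/-- `s ↦ 1_Γ ∈ F(Γ)`, `x ↦ f x ∈ Γ` -/
def newHom (f : FreeGroup X →* Γ) : FreeGroup (Option X) →* Big Γ :=
  FreeGroup.lift fun o => match o with
    | none => SemidirectProduct.inl (of 1)
    | some x => SemidirectProduct.inr (f (of x))

theorem newHom_some (f : FreeGroup X →* Γ) (u : FreeGroup X) :
    newHom f (FreeGroup.map some u) = SemidirectProduct.inr (f u) := by
  have : (newHom f).comp (FreeGroup.map some) =
      (SemidirectProduct.inr : Γ →* Big Γ).comp f := by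
    ext x
    · simp [newHom]
    · simp [newHom]
  exact DFunLike.congr_fun this u

theorem newHom_none (f : FreeGroup X →* Γ) :
    newHom f (of none) = SemidirectProduct.inl (of 1) := by
  simp [newHom]

/-- the kernel for surjective `f` -/
theorem ker_newHom_le_of_surjective (f : FreeGroup X →* Γ) (hf : Function.Surjective f) :
    (newHom f).ker ≤ Subgroup.normalClosure (FreeGroup.map some '' (f.ker : Set (FreeGroup X))) := by
  set K := Subgroup.normalClosure (FreeGroup.map some '' (f.ker : Set (FreeGroup X))) with hK
  let q : FreeGroup X →* FreeGroup (Option X) ⧸ K :=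
    (QuotientGroup.mk' K).comp (FreeGroup.map some)
  have hq : f.ker ≤ q.ker := by
    intro u hu
    rw [MonoidHom.mem_ker]
    exact (QuotientGroup.eq_one_iff _).2 (Subgroup.subset_normalClosure ⟨u, hu, rfl⟩)
  let σ : Γ →* FreeGroup (Option X) ⧸ K := f.liftOfSurjective hf ⟨q, hq⟩
  have hσ : ∀ u, σ (f u) = q u := fun u => MonoidHom.liftOfRightInverse_comp_apply f _ _ ⟨q, hq⟩ u
  let s : FreeGroup (Option X) ⧸ K := QuotientGroup.mk' K (of none)
  let fn : FreeGroup Γ →* FreeGroup (Option X) ⧸ K :=
    FreeGroup.lift fun γ => σ γ * s * (σ γ)⁻¹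
  let ψ : Big Γ →* FreeGroup (Option X) ⧸ K := SemidirectProduct.lift fn σ (by
    intro g
    ext h
    simp only [MonoidHom.comp_apply, MulEquiv.coe_toMonoidHom, actL_of, fn,
      FreeGroup.lift_apply_of, MulAut.conj_apply, map_mul]
    group)
  have hψ : ψ.comp (newHom f) = QuotientGroup.mk' K := by
    ext o
    cases o with
    | none => simp [ψ, newHom_none, fn, s]
    | some x =>
      have h := newHom_some f (of x)
      rw [FreeGroup.map.of] at h
      rw [MonoidHom.comp_apply, h]
      simp only [ψ, SemidirectProduct.lift_inr]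
      rw [hσ]
      simp [q]
  intro v hv
  rw [MonoidHom.mem_ker] at hv
  have := DFunLike.congr_fun hψ v
  rw [MonoidHom.comp_apply, hv, map_one] at this
  exact (QuotientGroup.eq_one_iff _).1 this.symm

theorem ker_newHom (f : FreeGroup X →* Γ) :
    (newHom f).ker = Subgroup.normalClosure (FreeGroup.map some '' (f.ker : Set (FreeGroup X))) := by
  refine le_antisymm ?_ ?_
  · let J : Big f.range →* Big Γ :=
      SemidirectProduct.map (FreeGroup.map (Subtype.val : f.range → Γ)) f.range.subtype (by
        intro g
        ext h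
        simp [actL_of])
    have hJ : Function.Injective J := by
      intro a b h
      have h1 := congrArg SemidirectProduct.left h
      have h2 := congrArg SemidirectProduct.right h
      simp only [J, SemidirectProduct.map_left, SemidirectProduct.map_right] at h1 h2
      exact SemidirectProduct.ext (FreeGroup.map_injective Subtype.val_injective h1)
        (Subtype.val_injective h2)
    have hcomp : J.comp (newHom f.rangeRestrict) = newHom f := by
      ext o
      · cases o with
        | none => simp [J, newHom]
        | some x => simp [J, newHom]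
      · cases o with
        | none => simp [J, newHom]
        | some x => simp [J, newHom]
    have h1 : (newHom f).ker ≤ (newHom f.rangeRestrict).ker := by
      intro v hv
      rw [MonoidHom.mem_ker] at hv ⊢
      apply hJ
      rw [map_one, ← hv, ← hcomp, MonoidHom.comp_apply]
    refine h1.trans ((ker_newHom_le_of_surjective _ f.rangeRestrict_surjective).trans ?_)
    rw [MonoidHom.ker_rangeRestrict]
  · refine Subgroup.normalClosure_le_normal ?_
    rintro _ ⟨u, hu, rfl⟩
    have hu' : f u = 1 := hu
    simp only [SetLike.mem_coe, MonoidHom.mem_ker]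
    rw [newHom_some, hu', map_one]

end Kernel

universe u v

theorem exists_new_letter {X : Type u} {Γ : Type v} [Group Γ] (hΓ : LI Γ) (f : FreeGroup X →* Γ) :
    ∃ (Γ' : Type v) (_ : Group Γ') (f' : FreeGroup (Option X) →* Γ') (e : Γ →* Γ'),
      LI Γ' ∧ Function.Injective e ∧ (∀ u, f' (FreeGroup.map some u) = e (f u)) ∧
      f'.ker = Subgroup.normalClosure (FreeGroup.map some '' (f.ker : Set (FreeGroup X))) :=
  ⟨Big Γ, inferInstance, newHom f, SemidirectProduct.inr, LI.big Γ hΓ,
    SemidirectProduct.inr_injective, newHom_some f, ker_newHom f⟩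

section Fox

variable {X : Type*} {Γ Γ' : Type*} [Group Γ] [Group Γ']

theorem nrm1_mapDomain (e : Γ →* Γ') (he : Function.Injective e) (a : MonoidAlgebra ℤ Γ) :
    nrm1 (MonoidAlgebra.mapDomainRingHom ℤ e a) = nrm1 a := by
  have h : (MonoidAlgebra.mapDomainRingHom ℤ e a).coeff = Finsupp.mapDomain e a.coeff := by
    ext
    simp
  rw [nrm1, h, nrm1, Finsupp.sum_mapDomain_index_inj he]

theorem fox_map_some (f : FreeGroup X →* Γ) (f' : FreeGroup (Option X) →* Γ') (e : Γ →* Γ')
    (hf : ∀ u, f' (FreeGroup.map some u) = e (f u)) (u : FreeGroup X) :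
    fox f' (FreeGroup.map some u) = Finsupp.mapDomain some (fox (e.comp f) u) := by
  have hc : f'.comp (FreeGroup.map some) = e.comp f := MonoidHom.ext hf
  rw [fox_chain (FreeGroup.map some) f' u, hc, Finsupp.mapDomain]
  refine Finsupp.sum_congr fun x _ => ?_
  rw [FreeGroup.map.of, fox_of, Finsupp.smul_single, smul_eq_mul, mul_one]

/-- the Fox derivatives are the same -/
theorem new_letter_fox (f : FreeGroup X →* Γ)
    (f' : FreeGroup (Option X) →* Γ') (e : Γ →* Γ') (he : Function.Injective e)
    (hf : ∀ u, f' (FreeGroup.map some u) = e (f u)) (u : FreeGroup X) :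
    fox f' (FreeGroup.map some u) none = 0 ∧
    (∀ x, fox f' (FreeGroup.map some u) (some x) =
      MonoidAlgebra.mapDomainRingHom ℤ e (fox f u x)) ∧
    nrm (fox f' (FreeGroup.map some u)) = nrm (fox f u) ∧
    (fox f' (FreeGroup.map some u)).support.card = (fox f u).support.card := by
  have hinj : Function.Injective (MonoidAlgebra.mapDomainRingHom ℤ e) :=
    MonoidAlgebra.mapDomain_injective he
  have hs : Function.Injective (some : X → Option X) := Option.some_injective X
  have hr : fox (e.comp f) u = (fox f u).mapRange (MonoidAlgebra.mapDomainRingHom ℤ e)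
      (map_zero _) := by
    ext1 x
    rw [fox_comp_apply, Finsupp.mapRange_apply]
  rw [fox_map_some f f' e hf u]
  refine ⟨?_, ?_, ?_, ?_⟩
  · exact Finsupp.mapDomain_of_notMem_range _ _ (by simp)
  · intro x
    rw [Finsupp.mapDomain_apply hs, fox_comp_apply]
  · rw [nrm, Finsupp.sum_mapDomain_index_inj hs, hr, Finsupp.sum_mapRange_index (by simp [nrm1]),
      nrm]
    exact Finsupp.sum_congr fun x _ => nrm1_mapDomain e he _
  · classical
    rw [Finsupp.mapDomain_support_of_injective hs, Finset.card_image_of_injective _ hs, hr]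
    rw [Finsupp.support_mapRange_of_injective (map_zero _) _ hinj]

/-- `Cyc` is inherited -/
theorem new_letter_cyc (f : FreeGroup X →* Γ)
    (f' : FreeGroup (Option X) →* Γ') (e : Γ →* Γ')
    (hf : ∀ u, f' (FreeGroup.map some u) = e (f u))
    (hk : f'.ker = Subgroup.normalClosure (FreeGroup.map some '' (f.ker : Set (FreeGroup X))))
    (y : FreeGroup X) (hy : Cyc f y) : Cyc f' (FreeGroup.map some y) := by
  refine ⟨by rw [hf, hy.1, map_one], ?_⟩
  have hn : (Subgroup.normalClosure {FreeGroup.map some y} ⊔ ⁅f'.ker, f'.ker⁆).Normal :=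
    inferInstance
  conv_lhs => rw [hk]
  refine Subgroup.normalClosure_le_normal ?_
  rintro _ ⟨u, hu, rfl⟩
  have h1 : f.ker ≤ (Subgroup.normalClosure {FreeGroup.map some y} ⊔ ⁅f'.ker, f'.ker⁆).comap
      (FreeGroup.map some) := by
    refine hy.2.trans (sup_le ?_ ?_)
    · refine Subgroup.normalClosure_le_normal ?_
      rintro _ rfl
      exact Subgroup.mem_sup_left (Subgroup.subset_normalClosure rfl)
    · rw [← Subgroup.map_le_iff_le_comap, Subgroup.map_commutator]
      refine le_trans (Subgroup.commutator_mono ?_ ?_) le_sup_right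
      all_goals
        rintro _ ⟨v, hv, rfl⟩
        rw [MonoidHom.mem_ker, hf]
        rw [SetLike.mem_coe, MonoidHom.mem_ker] at hv
        rw [hv, map_one]
  exact h1 hu

theorem verts_map_some (f : FreeGroup X →* Γ)
    (f' : FreeGroup (Option X) →* Γ') (e : Γ →* Γ')
    (hf : ∀ u, f' (FreeGroup.map some u) = e (f u)) (w : List (X × Bool)) (γ : Γ) :
    verts f' (e γ) (w.map fun a => (some a.1, a.2)) = (verts f γ w).map e := by
  induction w generalizing γ with
  | nil => simp [verts]
  | cons a w ih =>
    have h : f' (FreeGroup.mk [(some a.1, a.2)]) = e (f (FreeGroup.mk [a])) := by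
      rw [← hf, FreeGroup.map.mk]
      rfl
    simp only [List.map_cons, verts]
    rw [h, ← map_mul, ih]

theorem new_letter_good (hΓ' : LI Γ') (f : FreeGroup X →* Γ)
    (f' : FreeGroup (Option X) →* Γ') (e : Γ →* Γ') (he : Function.Injective e)
    (hf : ∀ u, f' (FreeGroup.map some u) = e (f u))
    (hk : f'.ker = Subgroup.normalClosure (FreeGroup.map some '' (f.ker : Set (FreeGroup X))))
    (y : FreeGroup X) (hy : Cyc f y) (hne : f.ker ≠ ⊥) (w : List (Option X × Bool))
    (hw : Good f' w) : ∃ w', Good f w' := by
  have hmi : Function.Injective (FreeGroup.map (some : X → Option X)) :=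
    FreeGroup.map_injective (Option.some_injective X)
  have hne' : f'.ker ≠ ⊥ := by
    intro h
    apply hne
    rw [eq_bot_iff]
    intro u hu
    rw [MonoidHom.mem_ker] at hu
    have h1 : FreeGroup.map some u ∈ f'.ker := by
      rw [MonoidHom.mem_ker, hf, hu, map_one]
    rw [h, Subgroup.mem_bot] at h1
    rw [Subgroup.mem_bot]
    exact hmi (by rw [h1, map_one])
  obtain ⟨g, ε, hε, hg⟩ := hw.fox_unit hΓ' (new_letter_cyc f f' e hf hk y hy) hne'
  have hnone : fox f' (FreeGroup.mk w) none = 0 := by
    rw [hg, Finsupp.smul_apply, (new_letter_fox f f' e he hf y).1, smul_zero]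
  have hlet : ∀ a ∈ w, a.1 ≠ none := by
    intro a ha h0
    refine hw.letter hne' (x := none) (b := a.2) ?_ hnone
    rw [← h0]
    exact ha
  obtain ⟨w', rfl⟩ : ∃ w' : List (X × Bool), w = w'.map fun a => (some a.1, a.2) := by
    clear hw hg hnone
    induction w with
    | nil => exact ⟨[], rfl⟩
    | cons a w ih =>
      obtain ⟨w', rfl⟩ := ih fun b hb => hlet b (List.mem_cons_of_mem _ hb)
      obtain ⟨o, b⟩ := a
      cases o with
      | none => exact absurd rfl (hlet _ List.mem_cons_self)
      | some x => exact ⟨(x, b) :: w', rfl⟩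
  have hmk : FreeGroup.mk (w'.map fun a => (some a.1, a.2)) =
      FreeGroup.map some (FreeGroup.mk w') := by
    rw [FreeGroup.map.mk]
  refine ⟨w', ?_, ?_, ?_⟩
  · rintro rfl
    exact hw.1 rfl
  · have h := hw.2.1
    rw [← map_one e, verts_map_some f f' e hf] at h
    exact h.of_map _
  · have h3 := hw.2.2
    rw [hmk] at h3
    apply le_antisymm
    · intro u hu
      have hu' : FreeGroup.map some u ∈ f'.ker := by
        rw [MonoidHom.mem_ker] at hu ⊢
        rw [hf, hu, map_one]
      rw [h3] at hu'
      let ρ : FreeGroup (Option X) →* FreeGroup X :=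
        FreeGroup.lift fun o => o.elim 1 of
      have hρ : ∀ v, ρ (FreeGroup.map some v) = v := by
        intro v
        have : ρ.comp (FreeGroup.map some) = MonoidHom.id _ := by
          ext x
          simp [ρ]
        exact DFunLike.congr_fun this v
      have h4 : Subgroup.normalClosure {FreeGroup.map some (FreeGroup.mk w')} ≤
          (Subgroup.normalClosure {FreeGroup.mk w'}).comap ρ := by
        refine Subgroup.normalClosure_le_normal ?_
        rintro _ rfl
        simp only [SetLike.mem_coe, Subgroup.mem_comap]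
        rw [hρ]
        exact Subgroup.subset_normalClosure rfl
      have h5 := h4 hu'
      rw [Subgroup.mem_comap, hρ] at h5
      exact h5
    · refine Subgroup.normalClosure_le_normal ?_
      rintro _ rfl
      rw [SetLike.mem_coe, MonoidHom.mem_ker]
      apply he
      rw [← hf, map_one, ← MonoidHom.mem_ker, h3]
      exact Subgroup.subset_normalClosure rfl

end Fox

end Pool.Agent.ROR
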