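import Mathlib

/-!
# Perfect normal subgroups of HNN extensions (project ROR)

A perfect normal subgroup of an HNN extension which meets the base group trivially is trivial.
-/

set_option autoImplicit false

namespace Pool.Agent.ROR

open HNNExtension

section Wreath

variable {G : Type*} [Group G] {A B : Subgroup G} {φ : A ≃* B}

/-- product of the letters of a word -/
private def hP (φ : A ≃* B) (l : List (ℤˣ × G)) : HNNExtension G A B φ :=
  (l.map (fun x => t ^ (x.1 : ℤ) * of x.2)).prod

private theorem hP_cons (a : ℤˣ × G) (l : List (ℤˣ × G)) :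
    hP φ (a :: l) = t ^ (a.1 : ℤ) * of a.2 * hP φ l := by
  simp [hP]

private theorem hP_nil : hP φ [] = 1 := rfl

private theorem hP_append (l l' : List (ℤˣ × G)) : hP φ (l ++ l') = hP φ l * hP φ l' := by
  simp [hP]

private theorem prod_eq (w : NormalWord.ReducedWord G A B) :
    w.prod φ = of w.head * hP φ w.toList := rfl

variable (S : Subgroup (HNNExtension G A B φ))

open Classical in
/-- the indicator of the trivial coset -/
private noncomputable def ind : (HNNExtension G A B φ ⧸ S) → Multiplicative ℤ :=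
  fun c => if c = ((1 : HNNExtension G A B φ) : HNNExtension G A B φ ⧸ S)
    then Multiplicative.ofAdd 1 else 1

/-- the wreath product representation -/
private noncomputable def wr (hS : ∀ b ∈ B, (of b : HNNExtension G A B φ) ∈ S) :
    HNNExtension G A B φ →*
      ((HNNExtension G A B φ ⧸ S) → Multiplicative ℤ) ⋊[mulAutArrow] HNNExtension G A B φ :=
  HNNExtension.lift (SemidirectProduct.inr.comp of) ⟨ind S, t⟩ (by
    intro a
    apply SemidirectProduct.ext
    · funext c
      show ind S c * (1 : Multiplicative ℤ) =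
        1 * ind S ((of ((φ a : B) : G) : HNNExtension G A B φ)⁻¹ • c)
      rw [mul_one, one_mul]
      unfold ind
      have hb : (of ((φ a : B) : G) : HNNExtension G A B φ) ∈ S := hS _ (φ a).2
      have h1 : ((of ((φ a : B) : G) : HNNExtension G A B φ))⁻¹ • c =
          ((1 : HNNExtension G A B φ) : HNNExtension G A B φ ⧸ S) ↔
          c = ((1 : HNNExtension G A B φ) : HNNExtension G A B φ ⧸ S) := by
        rw [inv_smul_eq_iff]
        have h2 : (of ((φ a : B) : G) : HNNExtension G A B φ) •
            ((1 : HNNExtension G A B φ) : HNNExtension G A B φ ⧸ S) =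
            ((1 : HNNExtension G A B φ) : HNNExtension G A B φ ⧸ S) := by
          rw [MulAction.Quotient.smul_coe, QuotientGroup.eq]
          simpa using S.inv_mem hb
        rw [h2]
      by_cases hc : c = ((1 : HNNExtension G A B φ) : HNNExtension G A B φ ⧸ S)
      · rw [if_pos hc, if_pos (h1.2 hc)]
      · rw [if_neg hc, if_neg (fun h => hc (h1.1 h))]
    · exact t_mul_of a)

variable (hS : ∀ b ∈ B, (of b : HNNExtension G A B φ) ∈ S)

private theorem wr_right (x : HNNExtension G A B φ) : (wr S hS x).right = x := by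
  have h : (SemidirectProduct.rightHom.comp (wr S hS)) = MonoidHom.id _ := by
    apply HNNExtension.hom_ext
    · ext g
      simp [wr]
    · simp [wr]
  exact DFunLike.congr_fun h x

/-- the derivation -/
private noncomputable def dl (x : HNNExtension G A B φ) (c : HNNExtension G A B φ ⧸ S) : ℤ :=
  Multiplicative.toAdd ((wr S hS x).left c)

private theorem dl_mul (x y : HNNExtension G A B φ) (c : HNNExtension G A B φ ⧸ S) :
    dl S hS (x * y) c = dl S hS x c + dl S hS y (x⁻¹ • c) := by
  unfold dl
  rw [map_mul, SemidirectProduct.mul_left, Pi.mul_apply, toAdd_mul, wr_right]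
  rfl

private theorem dl_of (g : G) (c : HNNExtension G A B φ ⧸ S) : dl S hS (of g) c = 0 := by
  unfold dl wr
  rw [HNNExtension.lift_of]
  rfl

private theorem dl_t_self :
    dl S hS t ((1 : HNNExtension G A B φ) : HNNExtension G A B φ ⧸ S) = 1 := by
  unfold dl wr
  rw [HNNExtension.lift_t]
  simp [ind]

private theorem dl_t_ne {c : HNNExtension G A B φ ⧸ S}
    (hc : c ≠ ((1 : HNNExtension G A B φ) : HNNExtension G A B φ ⧸ S)) : dl S hS t c = 0 := by
  unfold dl wr
  rw [HNNExtension.lift_t]
  simp [ind, hc]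

private theorem dl_one (c : HNNExtension G A B φ ⧸ S) : dl S hS 1 c = 0 := by
  have := dl_of S hS 1 c
  rwa [map_one] at this

private theorem dl_inv (x : HNNExtension G A B φ) (c : HNNExtension G A B φ ⧸ S) :
    dl S hS x⁻¹ c = - dl S hS x (x • c) := by
  have h := dl_mul S hS x⁻¹ x c
  rw [inv_mul_cancel, dl_one, inv_inv] at h
  linarith

/-- value on a letter -/
private theorem dl_letter (u : ℤˣ) (g : G) (c : HNNExtension G A B φ ⧸ S) :
    dl S hS (t ^ (u : ℤ) * of g) c = dl S hS (t ^ (u : ℤ)) c := by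
  rw [dl_mul, dl_of, add_zero]

private theorem smul_coe_eq (x y : HNNExtension G A B φ) (c : HNNExtension G A B φ ⧸ S)
    (h : x⁻¹ • c = (y : HNNExtension G A B φ ⧸ S)) :
    c = ((x * y : HNNExtension G A B φ) : HNNExtension G A B φ ⧸ S) := by
  rw [inv_smul_eq_iff] at h
  exact h

private theorem exists_split (l : List (ℤˣ × G)) : ∀ c : HNNExtension G A B φ ⧸ S,
    (0 < dl S hS (hP φ l) c → ∃ l2 g' l3, l = l2 ++ (1, g') :: l3 ∧
      c = (hP φ l2 : HNNExtension G A B φ ⧸ S)) ∧
    (dl S hS (hP φ l) c < 0 → ∃ l2 g' l3, l = l2 ++ (-1, g') :: l3 ∧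
      c = ((hP φ l2 * t⁻¹ : HNNExtension G A B φ) : HNNExtension G A B φ ⧸ S)) := by
  induction l with
  | nil =>
    intro c
    rw [hP_nil, dl_one]
    exact ⟨fun h => absurd h (lt_irrefl _), fun h => absurd h (lt_irrefl _)⟩
  | cons a l ih =>
    intro c
    obtain ⟨u, g⟩ := a
    have key := dl_mul S hS (t ^ (u : ℤ) * of g) (hP φ l) c
    rw [dl_letter] at key
    obtain ⟨ih1, ih2⟩ := ih ((t ^ (u : ℤ) * of g : HNNExtension G A B φ)⁻¹ • c)
    rw [hP_cons, key]
    have aux1 : 0 < dl S hS (hP φ l) ((t ^ (u : ℤ) * of g : HNNExtension G A B φ)⁻¹ • c) →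
        ∃ l2 g' l3, (u, g) :: l = l2 ++ (1, g') :: l3 ∧
          c = (hP φ l2 : HNNExtension G A B φ ⧸ S) := by
      intro h
      obtain ⟨l2, g', l3, e1, e2⟩ := ih1 h
      refine ⟨(u, g) :: l2, g', l3, by rw [e1]; rfl, ?_⟩
      rw [hP_cons]
      exact smul_coe_eq S _ _ _ e2
    have aux2 : dl S hS (hP φ l) ((t ^ (u : ℤ) * of g : HNNExtension G A B φ)⁻¹ • c) < 0 →
        ∃ l2 g' l3, (u, g) :: l = l2 ++ (-1, g') :: l3 ∧
          c = ((hP φ l2 * t⁻¹ : HNNExtension G A B φ) : HNNExtension G A B φ ⧸ S) := by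
      intro h
      obtain ⟨l2, g', l3, e1, e2⟩ := ih2 h
      refine ⟨(u, g) :: l2, g', l3, by rw [e1]; rfl, ?_⟩
      rw [hP_cons, mul_assoc (t ^ (u : ℤ) * of g)]
      exact smul_coe_eq S _ _ _ e2
    rcases Int.units_eq_one_or u with hu | hu
    · subst hu
      have e0 : (t : HNNExtension G A B φ) ^ ((1 : ℤˣ) : ℤ) = t := by simp
      simp only [e0] at aux1 aux2 ⊢
      by_cases hc : c = ((1 : HNNExtension G A B φ) : HNNExtension G A B φ ⧸ S)
      · refine ⟨fun _ => ⟨[], g, l, rfl, hc⟩, fun h => aux2 ?_⟩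
        have h1 : dl S hS t c = 1 := by rw [hc, dl_t_self]
        linarith
      · have h1 : dl S hS t c = 0 := dl_t_ne S hS hc
        rw [h1, zero_add]
        exact ⟨aux1, aux2⟩
    · subst hu
      have e0 : (t : HNNExtension G A B φ) ^ ((-1 : ℤˣ) : ℤ) = t⁻¹ := by simp
      simp only [e0] at aux1 aux2 ⊢
      by_cases hc : (t : HNNExtension G A B φ) • c =
          ((1 : HNNExtension G A B φ) : HNNExtension G A B φ ⧸ S)
      · have h1 : dl S hS t⁻¹ c = -1 := by rw [dl_inv, hc, dl_t_self]
        refine ⟨fun h => aux1 (by linarith), fun _ => ⟨[], g, l, rfl, ?_⟩⟩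
        rw [hP_nil, one_mul]
        have h2 := smul_coe_eq S t⁻¹ 1 c (by rwa [inv_inv])
        rwa [mul_one] at h2
      · have h1 : dl S hS t⁻¹ c = 0 := by rw [dl_inv, dl_t_ne S hS hc, neg_zero]
        rw [h1, zero_add]
        exact ⟨aux1, aux2⟩

end Wreath

section Words

variable {G : Type*} [Group G] {A B : Subgroup G} {φ : A ≃* B}

/-- reducedness of lists of letters -/
private abbrev Red (A B : Subgroup G) (l : List (ℤˣ × G)) : Prop :=
  l.IsChain (fun a b => a.2 ∈ toSubgroup A B a.1 → a.1 = b.1)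

/-- multiplication on the right by an element of the base group -/
private theorem mul_of (g0 : G) (l : List (ℤˣ × G)) (hl : Red A B l) (h : G) :
    ∃ w : NormalWord.ReducedWord G A B, w.toList.length = l.length ∧
      w.prod φ = of g0 * hP φ l * of h := by
  rcases List.eq_nil_or_concat l with rfl | ⟨l1, ⟨u, g⟩, rfl⟩
  · refine ⟨⟨g0 * h, [], List.isChain_nil⟩, rfl, ?_⟩
    rw [prod_eq, hP_nil, mul_one, mul_one, map_mul]
  · rw [List.concat_eq_append] at hl ⊢
    refine ⟨⟨g0, l1 ++ [(u, g * h)], ?_⟩, by simp, ?_⟩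
    · rw [Red, List.isChain_append] at hl
      rw [List.isChain_append]
      refine ⟨hl.1, List.isChain_singleton _, ?_⟩
      intro x hx y hy
      have h1 := hl.2.2 x hx (u, g) (by simp)
      simp only [List.head?_cons, Option.mem_def, Option.some.injEq] at hy
      rw [← hy]
      exact h1
    · rw [prod_eq]
      simp only [hP_append, hP_cons, hP_nil, mul_one, map_mul, mul_assoc]

private theorem britton (g0 : G) (l : List (ℤˣ × G)) (hl : Red A B l) (g : G)
    (h : of g0 * hP φ l = of g) : l = [] :=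
  HNNExtension.ReducedWord.toList_eq_nil_of_mem_of_range φ ⟨g0, l, hl⟩ ⟨g, h.symm⟩

end Words

theorem perfect_hnn {G : Type*} [Group G] (A B : Subgroup G) (φ : A ≃* B)
    (N : Subgroup (HNNExtension G A B φ)) [N.Normal]
    (h1 : N ⊓ (HNNExtension.of : G →* HNNExtension G A B φ).range = ⊥) (h2 : N ≤ ⁅N, N⁆) :
    N = ⊥ := by
  classical
  set S : Subgroup (HNNExtension G A B φ) := N ⊔ B.map of with hSdef
  have hS : ∀ b ∈ B, (of b : HNNExtension G A B φ) ∈ S := fun b hb =>
    (le_sup_right : B.map of ≤ S) ⟨b, hb, rfl⟩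
  have hNS : ∀ n ∈ N, ∀ c : HNNExtension G A B φ ⧸ S, n • c = c := by
    intro n hn c
    induction c using QuotientGroup.induction_on with
    | H x =>
      rw [MulAction.Quotient.smul_coe, QuotientGroup.eq]
      refine (le_sup_left : N ≤ S) ?_
      have h3 : x⁻¹ * n⁻¹ * x⁻¹⁻¹ ∈ N := Subgroup.Normal.conj_mem inferInstance _ (N.inv_mem hn) _
      simpa [mul_assoc] using h3
  -- the derivation vanishes on `N`
  have hd : ∀ n ∈ N, ∀ c, dl S hS n c = 0 := by
    let K : Subgroup (HNNExtension G A B φ) :=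
      { carrier := {x | x ∈ N ∧ ∀ c, dl S hS x c = 0}
        one_mem' := ⟨N.one_mem, dl_one S hS⟩
        mul_mem' := by
          rintro x y ⟨hx, hx'⟩ ⟨hy, hy'⟩
          refine ⟨N.mul_mem hx hy, fun c => ?_⟩
          rw [dl_mul, hx', hy', add_zero]
        inv_mem' := by
          rintro x ⟨hx, hx'⟩
          refine ⟨N.inv_mem hx, fun c => ?_⟩
          rw [dl_inv, hx', neg_zero] }
    have hK : ⁅N, N⁆ ≤ K := by
      rw [Subgroup.commutator_le]
      intro x hx y hy
      refine ⟨?_, fun c => ?_⟩
      · rw [commutatorElement_def]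
        exact N.mul_mem (N.mul_mem (N.mul_mem hx hy) (N.inv_mem hx)) (N.inv_mem hy)
      · rw [commutatorElement_def, dl_mul, dl_mul, dl_mul, dl_inv, dl_inv]
        have e1 := hNS _ (N.inv_mem hx)
        have e2 := hNS _ (N.inv_mem (N.mul_mem hx hy))
        have e3 := hNS _ (N.inv_mem (N.mul_mem (N.mul_mem hx hy) (N.inv_mem hx)))
        rw [e1, e2, e3, hNS _ hx, hNS _ hy]
        ring
    intro n hn
    exact (hK (h2 hn)).2
  have hmemS : ∀ x ∈ S, ∃ n ∈ N, ∃ b ∈ B, x = n * of b := by
    intro x hx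
    rw [hSdef, Subgroup.mem_sup_of_normal_left] at hx
    obtain ⟨n, hn, y, ⟨b, hb, rfl⟩, rfl⟩ := hx
    exact ⟨n, hn, b, hb, rfl⟩
  by_contra hne
  obtain ⟨n, hn, hn1⟩ : ∃ n ∈ N, n ≠ 1 := by
    by_contra hcon
    push Not at hcon
    exact hne ((Subgroup.eq_bot_iff_forall N).2 hcon)
  have hex : ∃ k : ℕ, ∃ w : NormalWord.ReducedWord G A B, w.toList.length = k ∧
      w.prod φ ∈ N ∧ w.prod φ ≠ 1 := by
    obtain ⟨d⟩ := NormalWord.TransversalPair.nonempty G A B
    refine ⟨_, (n • (NormalWord.empty : NormalWord d)).toReducedWord, rfl, ?_⟩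
    rw [NormalWord.prod_smul, NormalWord.prod_empty, mul_one]
    exact ⟨hn, hn1⟩
  obtain ⟨w, hwl, hwN, hw1⟩ := Nat.find_spec hex
  have hmin : ∀ w' : NormalWord.ReducedWord G A B, w'.toList.length < w.toList.length →
      w'.prod φ ∈ N → w'.prod φ = 1 := by
    intro w' hlt hN
    by_contra hcon
    rw [hwl] at hlt
    exact Nat.find_min hex hlt ⟨w', rfl, hN, hcon⟩
  obtain ⟨g0, l, hl⟩ := w
  rw [prod_eq] at hwN hw1
  dsimp only at hwN hw1 hmin hwl
  cases l with
  | nil =>
    rw [hP_nil, mul_one] at hwN hw1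
    have h3 : (of g0 : HNNExtension G A B φ) ∈ N ⊓ (of : G →* HNNExtension G A B φ).range :=
      ⟨hwN, ⟨g0, rfl⟩⟩
    rw [h1, Subgroup.mem_bot] at h3
    exact hw1 h3
  | cons a l =>
    obtain ⟨u, g⟩ := a
    have hdl : ∀ c, dl S hS (t ^ (u : ℤ)) c +
        dl S hS (hP φ l) ((t ^ (u : ℤ) * of g : HNNExtension G A B φ)⁻¹ • c) = 0 := by
      intro c
      have h3 := hd _ hwN ((of g0 : HNNExtension G A B φ) • c)
      rw [dl_mul, dl_of, zero_add, inv_smul_smul, hP_cons, dl_mul, dl_letter] at h3
      exact h3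
    have hred : Red A B l := (List.isChain_cons.1 hl).2
    rcases Int.units_eq_one_or u with hu | hu
    · subst hu
      have e0 : (t : HNNExtension G A B φ) ^ ((1 : ℤˣ) : ℤ) = t := by simp
      rw [e0] at hdl
      have h3 := hdl ((1 : HNNExtension G A B φ) : HNNExtension G A B φ ⧸ S)
      rw [dl_t_self] at h3
      obtain ⟨l2, g', l3, rfl, h4⟩ := (exists_split S hS l _).2 (by linarith)
      -- the subword `t g ... t⁻¹`
      have h5 : (t * of g) * (hP φ l2 * t⁻¹) ∈ S := by
        have := smul_coe_eq S _ _ _ h4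
        rw [QuotientGroup.eq] at this
        simpa using this
      obtain ⟨n', hn', b, hb, h6⟩ := hmemS _ h5
      have hchain : Red A B ((1, g) :: (l2 ++ [(-1, b⁻¹)])) := by
        have h7 : Red A B (((1, g) :: l2) ++ ((-1, g') :: l3)) := hl
        rw [Red, List.isChain_append] at h7
        have h8 : Red A B (((1, g) :: l2) ++ [(-1, b⁻¹)]) := by
          rw [Red, List.isChain_append]
          refine ⟨h7.1, List.isChain_singleton _, ?_⟩
          intro x hx y hy
          have h9 := h7.2.2 x hx (-1, g') (by simp)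
          simp only [List.head?_cons, Option.mem_def, Option.some.injEq] at hy
          rw [← hy]
          exact h9
        exact h8
      have hn'eq : (of 1 : HNNExtension G A B φ) * hP φ ((1, g) :: (l2 ++ [(-1, b⁻¹)])) = n' := by
        rw [hP_cons, hP_append, hP_cons, hP_nil]
        have : n' = (t * of g) * (hP φ l2 * t⁻¹) * (of b)⁻¹ := by rw [h6]; group
        rw [this]
        simp [mul_assoc]
      have hn'ne : n' ≠ 1 := by
        intro hcon
        rw [hcon] at hn'eq
        have := britton 1 _ hchain 1 (hn'eq.trans (map_one of).symm)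
        exact absurd this (by simp)
      by_cases hl3 : l3 = []
      · subst hl3
        -- conjugate by `t`
        have h7 : t⁻¹ * n' * t ∈ N := by
          have := Subgroup.Normal.conj_mem (inferInstance : N.Normal) _ hn' t⁻¹
          simpa using this
        have hred2 : Red A B l2 := by
          rw [Red, List.isChain_append] at hred
          exact hred.1
        obtain ⟨w', hw'l, hw'p⟩ := mul_of (φ := φ) g l2 hred2 (φ.symm ⟨b, hb⟩ : G)⁻¹
        have h8 : w'.prod φ = t⁻¹ * n' * t := by
          have h9 : n' = (t * of g) * (hP φ l2 * t⁻¹) * (of b)⁻¹ := by rw [h6]; group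
          have h10 := equiv_symm_eq_conj (G := G) (A := A) (B := B) (φ := φ) ⟨b, hb⟩
          rw [hw'p, map_inv, h10, h9]
          group
        have h9 := hmin w' (by rw [hw'l]; simp) (by rw [h8]; exact h7)
        rw [h8] at h9
        apply hn'ne
        have : n' = t * (t⁻¹ * n' * t) * t⁻¹ := by group
        rw [this, h9]
        group
      · apply hn'ne
        rw [← hn'eq]
        refine hmin ⟨1, _, hchain⟩ ?_ ?_
        · have := List.length_pos_iff.2 hl3
          simp only [List.length_cons, List.length_append, List.length_nil]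
          omega
        · rw [prod_eq, hn'eq]
          exact hn'
    · subst hu
      have e0 : (t : HNNExtension G A B φ) ^ ((-1 : ℤˣ) : ℤ) = t⁻¹ := by simp
      rw [e0] at hdl
      have h3 := hdl ((t⁻¹ : HNNExtension G A B φ) : HNNExtension G A B φ ⧸ S)
      rw [dl_inv] at h3
      have h3' : (t : HNNExtension G A B φ) • ((t⁻¹ : HNNExtension G A B φ) :
          HNNExtension G A B φ ⧸ S) = ((1 : HNNExtension G A B φ) : HNNExtension G A B φ ⧸ S) := by
        rw [MulAction.Quotient.smul_coe, smul_eq_mul, mul_inv_cancel]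
      rw [h3', dl_t_self] at h3
      obtain ⟨l2, g', l3, rfl, h4⟩ := (exists_split S hS l _).1 (by linarith)
      have h5 : of g * hP φ l2 ∈ S := by
        have := smul_coe_eq S _ _ _ h4
        rw [QuotientGroup.eq] at this
        simpa [mul_assoc] using this
      obtain ⟨n', hn', b, hb, h6⟩ := hmemS _ h5
      have hred2 : Red A B l2 := by
        rw [Red, List.isChain_append] at hred
        exact hred.1
      obtain ⟨w', hw'l, hw'p⟩ := mul_of (φ := φ) g l2 hred2 b⁻¹
      have h8 : w'.prod φ = n' := by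
        rw [hw'p, h6, map_inv]
        group
      have h9 := hmin w' (by rw [hw'l]; simp) (by rw [h8]; exact hn')
      rw [h8] at h9
      rw [h9, one_mul] at h6
      have h10 := britton g l2 hred2 b h6
      subst h10
      rw [hP_nil, mul_one] at h6
      have h11 : g = b := HNNExtension.of_injective (φ := φ) h6
      have h12 : Red A B ((-1, g) :: (1, g') :: l3) := hl
      have h13 := (List.isChain_cons_cons.1 h12).1 (by
        rw [h11]
        simpa using hb)
      have h14 : (-1 : ℤˣ) ≠ 1 := by decide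
      exact h14 h13

end Pool.Agent.ROR
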