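import Pool.Agent.ROR.Defs

/-!
# Simple closed words through the shift (project ROR)
-/

set_option autoImplicit false

namespace Pool.Agent.ROR

open FreeGroup (of)

section WordStep

variable {X Γ : Type*} [Group Γ] (c : X → ℤ)

/-- height of the start of a letter -/
private def wsA {S : Set (X × ℤ)} (p : S × Bool) : ℤ :=
  if p.2 then p.1.1.2 else p.1.1.2 + c p.1.1.1

/-- height of the end of a letter -/
private def wsB {S : Set (X × ℤ)} (p : S × Bool) : ℤ :=
  if p.2 then p.1.1.2 + c p.1.1.1 else p.1.1.2

/-- the direction of a run -/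
private def wsS (n : ℤ) : ℤ := if 0 ≤ n then 1 else -1

private theorem wsS_mul (n : ℤ) : wsS n * (n.natAbs : ℤ) = n := by
  unfold wsS
  split_ifs with h
  · rw [one_mul, Int.natAbs_of_nonneg h]
  · rw [Int.ofNat_natAbs_of_nonpos (by omega)]
    ring

private theorem wsS_ne (n : ℤ) : wsS n ≠ 0 := by
  unfold wsS
  split_ifs <;> decide

/-- a power of the letter `s` as a word -/
private def spow (X : Type*) (n : ℤ) : List (Option X × Bool) :=
  List.replicate n.natAbs (none, decide (0 ≤ n))

/-- the word read along the shift -/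
private def bl {S : Set (X × ℤ)} : ℤ → List (S × Bool) → List (Option X × Bool)
  | _, [] => []
  | b, p :: w => spow X (wsA c p - b) ++ (some p.1.1.1, p.2) :: bl (wsB c p) w

/-- final height -/
private def endH {S : Set (X × ℤ)} : ℤ → List (S × Bool) → ℤ
  | b, [] => b
  | _, p :: w => endH (wsB c p) w

private theorem mk_rep (e : Bool) (n : ℕ) :
    (FreeGroup.mk (List.replicate n ((none : Option X), e)) : FreeGroup (Option X)) =
      FreeGroup.mk [((none : Option X), e)] ^ n := by
  induction n with
  | zero => rfl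
  | succ n ih =>
    rw [List.replicate_succ, ← List.singleton_append, ← FreeGroup.mul_mk, ih, pow_succ']

private theorem mk_none (n : ℤ) :
    (FreeGroup.mk [((none : Option X), decide (0 ≤ n))] : FreeGroup (Option X)) =
      st X ^ (wsS n) := by
  unfold wsS
  split_ifs with h
  · rw [decide_eq_true h, zpow_one]
    rfl
  · rw [decide_eq_false h, zpow_neg, zpow_one]
    rfl

private theorem mk_spow (n : ℤ) : FreeGroup.mk (spow X n) = st X ^ n := by
  unfold spow
  rw [mk_rep, mk_none, ← zpow_natCast, ← zpow_mul, wsS_mul]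

private theorem letter_eq {S : Set (X × ℤ)} (p : S × Bool) :
    iota c (incl S (FreeGroup.mk [p])) =
      st X ^ (wsA c p) * FreeGroup.mk [(some p.1.1.1, p.2)] * st X ^ (-wsB c p) := by
  obtain ⟨⟨⟨x, j⟩, hx⟩, e⟩ := p
  cases e
  · have h1 : (FreeGroup.mk [((⟨(x, j), hx⟩ : S), false)] : FreeGroup S) =
        (of (⟨(x, j), hx⟩ : S))⁻¹ := rfl
    have h2 : (FreeGroup.mk [((some x : Option X), false)] : FreeGroup (Option X)) =
        (of (some x))⁻¹ := rfl
    rw [h1, h2, map_inv, map_inv]
    simp only [incl, FreeGroup.map.of, iota, FreeGroup.lift_apply_of, wsA, wsB, mul_inv_rev,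
      Bool.false_eq_true, if_false]
    rw [← zpow_neg, ← zpow_neg, mul_assoc]
    congr 2
    ring
  · have h1 : (FreeGroup.mk [((⟨(x, j), hx⟩ : S), true)] : FreeGroup S) =
        of (⟨(x, j), hx⟩ : S) := rfl
    have h2 : (FreeGroup.mk [((some x : Option X), true)] : FreeGroup (Option X)) =
        of (some x) := rfl
    rw [h1, h2]
    simp only [incl, FreeGroup.map.of, iota, FreeGroup.lift_apply_of, wsA, wsB, if_true]
    congr 2
    ring

private theorem mk_bl {S : Set (X × ℤ)} (w : List (S × Bool)) : ∀ b : ℤ,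
    st X ^ b * FreeGroup.mk (bl c b w) =
      iota c (incl S (FreeGroup.mk w)) * st X ^ (endH c b w) := by
  induction w with
  | nil =>
    intro b
    rw [bl, endH]
    have h1 : (FreeGroup.mk ([] : List (Option X × Bool))) = 1 := rfl
    have h2 : (FreeGroup.mk ([] : List (S × Bool))) = 1 := rfl
    rw [h1, h2, map_one, map_one, one_mul, mul_one]
  | cons p w ih =>
    intro b
    have e1 : (FreeGroup.mk (p :: w)) = FreeGroup.mk [p] * FreeGroup.mk w := by
      rw [FreeGroup.mul_mk, List.singleton_append]
    have e2 : (FreeGroup.mk (bl c b (p :: w))) = st X ^ (wsA c p - b) *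
        (FreeGroup.mk [(some p.1.1.1, p.2)] * FreeGroup.mk (bl c (wsB c p) w)) := by
      rw [bl, ← mk_spow, FreeGroup.mul_mk, FreeGroup.mul_mk, List.singleton_append]
    rw [e1, e2, map_mul, map_mul, letter_eq, endH, mul_assoc _ (iota c (incl S (FreeGroup.mk w))),
      ← ih (wsB c p)]
    group

private theorem endH_eq {S : Set (X × ℤ)} {w : List (S × Bool)} (hw : w ≠ []) (b b' : ℤ) :
    endH c b w = endH c b' w := by
  cases w with
  | nil => exact absurd rfl hw
  | cons p w => rfl

private theorem verts_append {Z : Type*} (f : FreeGroup Z →* Γ) (l l' : List (Z × Bool)) :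
    ∀ γ : Γ, verts f γ (l ++ l') = verts f γ l ++ verts f (γ * f (FreeGroup.mk l)) l' := by
  induction l with
  | nil =>
    intro γ
    have h1 : (FreeGroup.mk ([] : List (Z × Bool))) = 1 := rfl
    rw [h1, map_one, mul_one]
    rfl
  | cons a l ih =>
    intro γ
    rw [List.cons_append, verts, verts, ih, List.cons_append]
    have e1 : (FreeGroup.mk (a :: l)) = FreeGroup.mk [a] * FreeGroup.mk l := by
      rw [FreeGroup.mul_mk, List.singleton_append]
    rw [e1, map_mul, mul_assoc]

private theorem verts_rep (f : FreeGroup (Option X) →* Γ) (e : Bool) (σ : ℤ)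
    (hσ : f (FreeGroup.mk [((none : Option X), e)]) = f (st X) ^ σ) (n : ℕ) :
    ∀ γ : Γ, verts f γ (List.replicate n ((none : Option X), e)) =
      (List.range n).map fun i : ℕ => γ * f (st X) ^ (σ * (i : ℤ)) := by
  induction n with
  | zero => intro γ; rfl
  | succ n ih =>
    intro γ
    rw [List.replicate_succ', verts_append, ih, List.range_succ, List.map_append]
    congr 1
    have h1 : f (FreeGroup.mk (List.replicate n ((none : Option X), e))) =
        f (st X) ^ (σ * (n : ℤ)) := by
      rw [mk_rep, map_pow, hσ, zpow_mul, zpow_natCast]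
    rw [h1]
    rfl

private theorem verts_spow (f : FreeGroup (Option X) →* Γ) (n : ℤ) (γ : Γ) :
    verts f γ (spow X n) =
      (List.range n.natAbs).map fun i : ℕ => γ * f (st X) ^ (wsS n * (i : ℤ)) := by
  unfold spow
  exact verts_rep f _ _ (by rw [mk_none, map_zpow]) _ γ

/-- vertices with their heights -/
private def tv {S : Set (X × ℤ)} (f0 : FreeGroup S →* Γ) :
    Γ → ℤ → List (S × Bool) → List (Γ × ℤ)
  | _, _, [] => []
  | g, b, p :: w =>
    (List.range ((wsA c p - b).natAbs + 1)).map
      (fun i : ℕ => (g, b + wsS (wsA c p - b) * (i : ℤ))) ++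
    tv f0 (g * f0 (FreeGroup.mk [p])) (wsB c p) w

private theorem tv_nodup {S : Set (X × ℤ)} (f0 : FreeGroup S →* Γ) (w : List (S × Bool)) :
    ∀ (g : Γ) (b : ℤ), (verts f0 g w).Nodup →
      (tv c f0 g b w).Nodup ∧ ∀ z ∈ tv c f0 g b w, z.1 ∈ verts f0 g w := by
  induction w with
  | nil =>
    intro g b _
    exact ⟨List.nodup_nil, fun z hz => absurd hz List.not_mem_nil⟩
  | cons p w ih =>
    intro g b h
    rw [verts, List.nodup_cons] at h
    obtain ⟨ih1, ih2⟩ := ih (g * f0 (FreeGroup.mk [p])) (wsB c p) h.2
    rw [tv]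
    constructor
    · rw [List.nodup_append]
      refine ⟨List.Nodup.map ?_ List.nodup_range, ih1, ?_⟩
      · intro i j hij
        have h1 := congrArg Prod.snd hij
        simp only [add_right_inj] at h1
        exact_mod_cast mul_left_cancel₀ (wsS_ne _) h1
      · intro z hz z' hz' hzz
        subst hzz
        rw [List.mem_map] at hz
        obtain ⟨i, _, rfl⟩ := hz
        exact h.1 (ih2 _ hz')
    · intro z hz
      rw [List.mem_append] at hz
      rw [verts]
      rcases hz with hz | hz
      · rw [List.mem_map] at hz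
        obtain ⟨i, _, rfl⟩ := hz
        exact List.mem_cons_self
      · exact List.mem_cons_of_mem _ (ih2 z hz)

private theorem verts_bl (f : FreeGroup (Option X) →* Γ) {S : Set (X × ℤ)} (κ : Γ)
    (w : List (S × Bool)) : ∀ (g : Γ) (b : ℤ),
    verts f (κ * g * f (st X) ^ b) (bl c b w) =
      (tv c ((f.comp (iota c)).comp (incl S)) g b w).map
        fun z => κ * z.1 * f (st X) ^ z.2 := by
  induction w with
  | nil => intro g b; rfl
  | cons p w ih =>
    intro g b
    rw [bl, tv, verts_append, verts_spow, verts, mk_spow, map_zpow]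
    have e1 : κ * g * f (st X) ^ b * f (st X) ^ (wsA c p - b) = κ * g * f (st X) ^ (wsA c p) := by
      rw [mul_assoc, ← zpow_add]
      congr 2
      ring
    have e2 : κ * g * f (st X) ^ (wsA c p) * f (FreeGroup.mk [(some p.1.1.1, p.2)]) =
        κ * (g * (f.comp (iota c)).comp (incl S) (FreeGroup.mk [p])) *
          f (st X) ^ (wsB c p) := by
      rw [MonoidHom.comp_apply, MonoidHom.comp_apply, letter_eq, map_mul, map_mul, map_zpow,
        map_zpow]
      group
    rw [e1, e2, ih, List.map_append, List.range_succ, List.map_append, List.map_append,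
      List.append_assoc]
    congr 1
    · rw [List.map_map]
      refine List.map_congr_left fun i _ => ?_
      simp only [Function.comp_apply, mul_assoc, ← zpow_add]
    · rw [List.map_singleton, List.map_singleton, List.singleton_append]
      simp only [wsS_mul]
      rw [add_sub_cancel]

private theorem tau_iota (u : FreeGroup (X × ℤ)) : tau c (iota c u) = 1 := by
  have h : (tau c).comp (iota c) = 1 := by
    ext p
    simp only [MonoidHom.comp_apply, iota, FreeGroup.lift_apply_of, map_mul, map_zpow, tau, st,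
      MonoidHom.one_apply]
    rw [← ofAdd_zsmul, ← ofAdd_zsmul, ← ofAdd_add, ← ofAdd_add, ← ofAdd_zero]
    congr 1
    simp
  exact DFunLike.congr_fun h u

private theorem verts_range {Z : Type*} (f : FreeGroup Z →* Γ) (l : List (Z × Bool)) :
    ∀ γ ∈ f.range, ∀ v ∈ verts f γ l, v ∈ f.range := by
  induction l with
  | nil => intro γ _ v hv; exact absurd hv List.not_mem_nil
  | cons a l ih =>
    intro γ hγ v hv
    rw [verts, List.mem_cons] at hv
    rcases hv with rfl | hv
    · exact hγ
    · exact ih _ (f.range.mul_mem hγ ⟨_, rfl⟩) v hv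

theorem good_step (f : FreeGroup (Option X) →* Γ) (hf : f.ker ≤ (tau c).ker) (S : Set (X × ℤ))
    (w0 : List (S × Bool)) (h0 : ((f.comp (iota c)).comp (incl S)).ker ≠ ⊥)
    (h : Good ((f.comp (iota c)).comp (incl S)) w0)
    (hk : f.ker = Subgroup.normalClosure
      ((fun u => iota c (incl S u)) '' (((f.comp (iota c)).comp (incl S)).ker : Set _))) :
    ∃ w, Good f w := by
  obtain ⟨hne, hnd, hker⟩ := h
  set b0 := endH c 0 w0 with hb0
  have hb0' : endH c b0 w0 = b0 := endH_eq c hne _ _
  have hconj : FreeGroup.mk (bl c b0 w0) =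
      (st X ^ b0)⁻¹ * iota c (incl S (FreeGroup.mk w0)) * (st X ^ b0)⁻¹⁻¹ := by
    have := mk_bl c w0 b0
    rw [hb0'] at this
    rw [inv_inv, mul_assoc, ← this]
    group
  refine ⟨bl c b0 w0, ?_, ?_, ?_⟩
  · cases w0 with
    | nil => exact absurd rfl hne
    | cons p w => simp [bl]
  · have e1 : (1 : Γ) = (f (st X) ^ b0)⁻¹ * 1 * f (st X) ^ b0 := by group
    rw [e1, verts_bl]
    obtain ⟨h1, h2⟩ := tv_nodup c _ w0 1 b0 hnd
    refine List.Nodup.map_on ?_ h1
    intro z hz z' hz' hzz
    have hr : ∀ y ∈ tv c ((f.comp (iota c)).comp (incl S)) 1 b0 w0,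
        ∃ u, f (iota c u) = y.1 := by
      intro y hy
      obtain ⟨u, hu⟩ := verts_range _ w0 1 (Subgroup.one_mem _) _ (h2 y hy)
      exact ⟨incl S u, hu⟩
    obtain ⟨u, hu⟩ := hr z hz
    obtain ⟨u', hu'⟩ := hr z' hz'
    rw [mul_assoc, mul_assoc] at hzz
    have h3 := mul_left_cancel hzz
    have h4 : f ((iota c u * st X ^ z.2) * (iota c u' * st X ^ z'.2)⁻¹) = 1 := by
      rw [map_mul, map_inv, map_mul, map_mul, map_zpow, map_zpow, hu, hu', h3, mul_inv_cancel]
    have h5 : tau c ((iota c u * st X ^ z.2) * (iota c u' * st X ^ z'.2)⁻¹) = 1 :=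
      hf (MonoidHom.mem_ker.2 h4)
    rw [map_mul, map_inv, map_mul, map_mul, tau_iota, tau_iota, one_mul, one_mul, map_zpow,
      map_zpow, mul_inv_eq_one] at h5
    have h6 : tau c (st X) = Multiplicative.ofAdd 1 := by
      simp [tau, st]
    rw [h6, ← ofAdd_zsmul, ← ofAdd_zsmul] at h5
    have h7 : z.2 = z'.2 := by
      have := Multiplicative.ofAdd.injective h5
      simpa using this
    rw [h7] at h3
    exact Prod.ext (mul_right_cancel h3) h7
  · rw [hk]
    apply le_antisymm
    · refine Subgroup.normalClosure_le_normal ?_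
      rintro _ ⟨u, hu, rfl⟩
      have h1 : (Subgroup.normalClosure {FreeGroup.mk w0}) ≤
          (Subgroup.normalClosure {FreeGroup.mk (bl c b0 w0)}).comap
            ((iota c).comp (incl S)) := by
        refine Subgroup.normalClosure_le_normal ?_
        rintro _ rfl
        show iota c (incl S (FreeGroup.mk w0)) ∈
          Subgroup.normalClosure {FreeGroup.mk (bl c b0 w0)}
        have h2 : iota c (incl S (FreeGroup.mk w0)) =
            (st X ^ b0) * FreeGroup.mk (bl c b0 w0) * (st X ^ b0)⁻¹ := by
          rw [hconj]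
          group
        rw [h2]
        exact Subgroup.normalClosure_normal.conj_mem _
          (Subgroup.subset_normalClosure (Set.mem_singleton _)) _
      rw [SetLike.mem_coe, hker] at hu
      exact h1 hu
    · refine Subgroup.normalClosure_le_normal ?_
      rintro _ rfl
      rw [hconj]
      have h3 : FreeGroup.mk w0 ∈ (((f.comp (iota c)).comp (incl S)).ker : Set _) := by
        rw [SetLike.mem_coe, hker]
        exact Subgroup.subset_normalClosure (Set.mem_singleton _)
      exact Subgroup.normalClosure_normal.conj_mem _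
        (Subgroup.subset_normalClosure (Set.mem_image_of_mem _ h3)) _

end WordStep

end Pool.Agent.ROR
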