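import Pool.Agent.ROR.StepAlg
import Pool.Agent.ROR.HNNPres
import Pool.Agent.ROR.NewLetter
import Pool.Agent.ROR.Dyn
import Pool.Agent.ROR.PerfHNN
import Pool.Agent.ROR.WordStep

/-!
# The core induction (project ROR, P11)
-/

set_option autoImplicit false

namespace Pool.Agent.ROR

open FreeGroup (of)
open Pool.Agent.RSMonic

attribute [-simp] MonoidAlgebra.of_apply

section Relabel

variable {X Z Γ : Type*} [Group Γ]

theorem relabel_fox (e : X ≃ Z) (f : FreeGroup X →* Γ) (u : FreeGroup X) (x : X) :
    fox (f.comp (FreeGroup.map e.symm)) (FreeGroup.map e u) (e x) = fox f u x := by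
  classical
  have h0 : (f.comp (FreeGroup.map e.symm)).comp (FreeGroup.map e) = f := by
    refine FreeGroup.ext_hom _ _ fun x => ?_
    simp
  have h1 : fox (f.comp (FreeGroup.map e.symm)) (FreeGroup.map e u) =
      Finsupp.mapDomain e (fox f u) := by
    rw [fox_chain, h0]
    refine Finsupp.sum_congr fun p _ => ?_
    rw [FreeGroup.map.of, fox_of, Finsupp.smul_single, smul_eq_mul, mul_one]
  rw [h1, Finsupp.mapDomain_apply e.injective]

theorem relabel_fox' (e : X ≃ Z) (f : FreeGroup X →* Γ) (u : FreeGroup X) :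
    fox (f.comp (FreeGroup.map e.symm)) (FreeGroup.map e u) =
      Finsupp.mapDomain e (fox f u) := by
  ext1 z
  obtain ⟨x, rfl⟩ := e.surjective z
  rw [relabel_fox, Finsupp.mapDomain_apply e.injective]

theorem relabel_nrm (e : X ≃ Z) (f : FreeGroup X →* Γ) (u : FreeGroup X) :
    nrm (fox (f.comp (FreeGroup.map e.symm)) (FreeGroup.map e u)) = nrm (fox f u) := by
  rw [relabel_fox', nrm, nrm, Finsupp.sum_mapDomain_index_inj e.injective]

theorem relabel_ker (e : X ≃ Z) (f : FreeGroup X →* Γ) :
    f.ker = (f.comp (FreeGroup.map e.symm)).ker.map (FreeGroup.map e.symm) := by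
  ext u
  constructor
  · intro hu
    refine ⟨FreeGroup.map e u, ?_, ?_⟩
    · show f (FreeGroup.map e.symm (FreeGroup.map e u)) = 1
      rw [FreeGroup.map.comp]
      simpa using hu
    · rw [FreeGroup.map.comp]
      simp
  · rintro ⟨v, hv, rfl⟩
    exact hv

theorem relabel_cyc (e : X ≃ Z) (f : FreeGroup X →* Γ) (y : FreeGroup X) (h : Cyc f y) :
    Cyc (f.comp (FreeGroup.map e.symm)) (FreeGroup.map e y) := by
  have h0 : ∀ u, FreeGroup.map e.symm (FreeGroup.map e u) = u := by
    intro u
    rw [FreeGroup.map.comp]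
    simp
  have h0' : ∀ u, FreeGroup.map e (FreeGroup.map e.symm u) = u := by
    intro u
    rw [FreeGroup.map.comp]
    simp
  refine ⟨?_, ?_⟩
  · show f (FreeGroup.map e.symm (FreeGroup.map e y)) = 1
    rw [h0]
    exact h.1
  · intro u hu
    have h1 := h.2 (show FreeGroup.map e.symm u ∈ f.ker from hu)
    have h2 : (f.ker).map (FreeGroup.map e) ≤ (f.comp (FreeGroup.map e.symm)).ker := by
      rintro _ ⟨v, hv, rfl⟩
      show f (FreeGroup.map e.symm (FreeGroup.map e v)) = 1
      rw [h0]
      exact hv
    have h3 : FreeGroup.map e (FreeGroup.map e.symm u) ∈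
        (Subgroup.normalClosure {y} ⊔ ⁅f.ker, f.ker⁆).map (FreeGroup.map e) := ⟨_, h1, rfl⟩
    rw [h0', Subgroup.map_sup, Subgroup.map_commutator,
      Subgroup.map_normalClosure _ _ (fun v => ⟨_, h0' v⟩), Set.image_singleton] at h3
    exact (sup_le_sup_left (Subgroup.commutator_mono h2 h2) _) h3

theorem relabel_verts (e : X ≃ Z) (f : FreeGroup X →* Γ) (w : List (Z × Bool)) (γ : Γ) :
    verts f γ (w.map fun p => (e.symm p.1, p.2)) =
      verts (f.comp (FreeGroup.map e.symm)) γ w := by
  induction w generalizing γ with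
  | nil => rfl
  | cons a w ih =>
    rw [List.map_cons, verts, verts, ih]
    rfl

theorem relabel_good (e : X ≃ Z) (f : FreeGroup X →* Γ) (w : List (Z × Bool))
    (h : Good (f.comp (FreeGroup.map e.symm)) w) :
    Good f (w.map fun p => (e.symm p.1, p.2)) := by
  refine ⟨by simpa using h.1, ?_, ?_⟩
  · rw [relabel_verts]
    exact h.2.1
  · rw [relabel_ker e f, h.2.2, Subgroup.map_normalClosure _ _ ?_, Set.image_singleton]
    · rfl
    · intro u
      exact ⟨FreeGroup.map e u, by rw [FreeGroup.map.comp]; simp⟩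

end Relabel

section Step

variable {X Γ : Type*} [Group Γ] (c : X → ℤ)

/-- one step: a good word for the smaller problem gives a good word -/
theorem step_good (hΓ : LI Γ) (f : FreeGroup (Option X) →* Γ) (hf : f.ker ≤ (tau c).ker)
    (y : FreeGroup (X × ℤ)) (hy : Cyc f (iota c y)) (hne : f.ker ≠ ⊥) (x0 : X)
    (hx0 : fox f (iota c y) (some x0) ≠ 0)
    (IH : ∀ (S : Set (X × ℤ)) (f0 : FreeGroup S →* Γ) (y0 : FreeGroup S), Cyc f0 y0 →
      f0.ker ≠ ⊥ → nrm (fox f0 y0) = nrm (fox (f.comp (iota c)) y) →
      (fox f0 y0).support.card = (fox (f.comp (iota c)) y).support.card → ∃ w, Good f0 w) :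
    ∃ w, Good f w := by
  classical
  -- the range of levels of `x0`
  have h1 : ∃ j, (x0, j) ∈ (fox (f.comp (iota c)) y).support :=
    (fst_mem_support c f hf y x0).1 (Finsupp.mem_support_iff.2 hx0)
  let J : Finset ℤ := ((fox (f.comp (iota c)) y).support.filter fun p => p.1 = x0).image Prod.snd
  have hJ : ∀ j, j ∈ J ↔ fox (f.comp (iota c)) y (x0, j) ≠ 0 := by
    intro j
    rw [Finset.mem_image]
    constructor
    · rintro ⟨⟨x, j'⟩, hp, rfl⟩
      rw [Finset.mem_filter, Finsupp.mem_support_iff] at hp
      have : x = x0 := hp.2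
      subst this
      exact hp.1
    · intro hj
      exact ⟨(x0, j), Finset.mem_filter.2 ⟨Finsupp.mem_support_iff.2 hj, rfl⟩, rfl⟩
  have hJne : J.Nonempty := by
    obtain ⟨j, hj⟩ := h1
    exact ⟨j, (hJ j).2 (Finsupp.mem_support_iff.1 hj)⟩
  set i := J.min' hJne with hi
  set i' := J.max' hJne with hi'
  have hii : fox (f.comp (iota c)) y (x0, i) ≠ 0 := (hJ i).1 (J.min'_mem hJne)
  have hii' : fox (f.comp (iota c)) y (x0, i') ≠ 0 := (hJ i').1 (J.max'_mem hJne)
  have hr : ∀ j, fox (f.comp (iota c)) y (x0, j) ≠ 0 → i ≤ j ∧ j ≤ i' := fun j hj =>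
    ⟨J.min'_le j ((hJ j).2 hj), J.le_max' j ((hJ j).2 hj)⟩
  have hle : i ≤ i' := (hr i hii).2
  obtain ⟨y0, hy0, hn, hcard, hk1, hk2, hy0'⟩ := step_alg c hΓ f hf y hy x0 i i' hii hii' hr
  set f0 := (f.comp (iota c)).comp (incl (Y0 x0 i i')) with hf0
  obtain ⟨A, B, φ, Φ, -, -, -, hΦi, hΦs, hΦk⟩ := hnn_presentation c x0 i i' hle f0.ker hk1 hk2
  set M := Subgroup.normalClosure ((fun u => iota c (incl (Y0 x0 i i') u)) ''
    (f0.ker : Set (FreeGroup (Y0 x0 i i')))) with hM
  have hMle : M ≤ f.ker := by
    refine Subgroup.normalClosure_le_normal ?_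
    rintro _ ⟨u, hu, rfl⟩
    exact hu
  have hyM : iota c (incl _ y0) ∈ M := Subgroup.subset_normalClosure ⟨y0, hy0.1, rfl⟩
  have hker : f.ker = M := by
    refine le_antisymm ?_ hMle
    have hN : ((f.ker).map Φ).Normal := Subgroup.Normal.map inferInstance Φ hΦs
    have hbot : (f.ker).map Φ = ⊥ := by
      refine perfect_hnn A B φ _ ?_ ?_
      · rw [eq_bot_iff]
        rintro _ ⟨⟨u, hu, rfl⟩, ⟨g, hg⟩⟩
        obtain ⟨u0, rfl⟩ := QuotientGroup.mk'_surjective _ g
        rw [← hΦi] at hg
        have h2 : iota c (incl _ u0) * u⁻¹ ∈ Φ.ker := by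
          rw [MonoidHom.mem_ker, map_mul, hg, map_inv, mul_inv_cancel]
        rw [hΦk] at h2
        have h3 : iota c (incl _ u0) ∈ f.ker := by
          have := f.ker.mul_mem (hMle h2) hu
          rwa [inv_mul_cancel_right] at this
        have h4 : (QuotientGroup.mk' f0.ker) u0 = 1 := by
          rw [← MonoidHom.mem_ker, QuotientGroup.ker_mk']
          exact h3
        rw [Subgroup.mem_bot, ← hg, hΦi, h4, map_one]
      · have h2 : f.ker ≤ M ⊔ ⁅f.ker, f.ker⁆ := by
          refine hy0'.2.trans (sup_le_sup_right ?_ _)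
          refine Subgroup.normalClosure_le_normal ?_
          rintro _ rfl
          exact hyM
        have h3 : M.map Φ = ⊥ := by
          rw [← hΦk, (Subgroup.map_eq_bot_iff _).2 le_rfl]
        calc (f.ker).map Φ ≤ (M ⊔ ⁅f.ker, f.ker⁆).map Φ := Subgroup.map_mono h2
          _ = ⁅(f.ker).map Φ, (f.ker).map Φ⁆ := by
            rw [Subgroup.map_sup, h3, bot_sup_eq, Subgroup.map_commutator]
    have h5 := (Subgroup.map_eq_bot_iff _).1 hbot
    rwa [hΦk] at h5
  have hne0 : f0.ker ≠ ⊥ := by
    intro h0
    apply hne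
    rw [hker, hM, h0]
    rw [eq_bot_iff]
    refine Subgroup.normalClosure_le_normal ?_
    rintro _ ⟨u, hu, rfl⟩
    have : u = 1 := hu
    rw [this]
    simp
  obtain ⟨w0, hw0⟩ := IH _ f0 y0 hy0 hne0 hn hcard
  exact good_step c f hf _ w0 hne0 hw0 hker

end Step

section Heights

variable {X Γ : Type*} [Group Γ]

open Classical in
theorem core_expo_of (x z : X) : expo x (of z) = if z = x then Multiplicative.ofAdd (1 : ℤ) else 1 := by
  rw [expo, FreeGroup.lift_apply_of]

/-- the total height of `y` is zero -/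
theorem lift_dht_self (y : FreeGroup X) (t a : X) (hta : t ≠ a) :
    (FreeGroup.lift (fun z => Multiplicative.ofAdd (dht y t a z)) y : Multiplicative ℤ) = 1 := by
  have h1 : ∀ u : FreeGroup X,
      (FreeGroup.lift (fun z => Multiplicative.ofAdd (dht y t a z)) u : Multiplicative ℤ) =
        expo t u ^ (Multiplicative.toAdd (expo a y)) *
          expo a u ^ (-Multiplicative.toAdd (expo t y)) := by
    intro u
    have h2 : (FreeGroup.lift (fun z => Multiplicative.ofAdd (dht y t a z)) :
        FreeGroup X →* Multiplicative ℤ) =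
        ((zpowGroupHom (Multiplicative.toAdd (expo a y))).comp (expo t)) *
          ((zpowGroupHom (-Multiplicative.toAdd (expo t y))).comp (expo a)) := by
      refine FreeGroup.ext_hom _ _ fun z => ?_
      rw [FreeGroup.lift_apply_of, MonoidHom.mul_apply, MonoidHom.comp_apply, MonoidHom.comp_apply,
        zpowGroupHom_apply, zpowGroupHom_apply, core_expo_of t z, core_expo_of a z, dht]
      apply Multiplicative.toAdd.injective
      by_cases hz : z = t
      · subst hz
        simp [hta]
      · by_cases hz' : z = a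
        · subst hz'
          simp [hz]
        · simp [hz, hz']
    rw [h2]
    rfl
  rw [h1]
  apply Multiplicative.toAdd.injective
  simp
  ring

/-- a homomorphism to an abelian group that kills `y` kills the kernel -/
theorem ker_le_of_cyc {A : Type*} [CommGroup A] (f : FreeGroup X →* Γ) (y : FreeGroup X)
    (hy : Cyc f y) (l : FreeGroup X →* A) (hl : l y = 1) : f.ker ≤ l.ker := by
  refine hy.2.trans (sup_le ?_ ?_)
  · refine Subgroup.normalClosure_le_normal ?_
    rintro _ rfl
    exact hl
  · refine (Subgroup.commutator_mono le_top le_top).trans ?_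
    exact Abelianization.commutator_subset_ker l

end Heights

section P11
universe u v

theorem core_aux (n : ℕ) : ∀ (m : ℕ) (X : Type u) (Γ : Type v) [Group Γ] (_ : LI Γ)
    (f : FreeGroup X →* Γ) (y : FreeGroup X) (_ : Cyc f y) (_ : f.ker ≠ ⊥),
    nrm (fox f y) = n → n - (fox f y).support.card = m → ∃ w, Good f w := by
  classical
  induction n using Nat.strong_induction_on with
  | _ n ihn =>
  intro m
  induction m using Nat.strong_induction_on with
  | _ m ihm =>
  intro X Γ _ hΓ f y hy hne hn hm
  by_cases hA : ∃ t ∈ (fox f y).support, expo t y = 1 ∧ (fox f y).support ≠ {t}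
  · -- case (A)
    obtain ⟨t, ht, hexp, hsupp⟩ := hA
    obtain ⟨x0, hx0, hx0t⟩ : ∃ x ∈ (fox f y).support, x ≠ t := by
      by_contra hcon
      push Not at hcon
      exact hsupp (Finset.eq_singleton_iff_unique_mem.2 ⟨ht, hcon⟩)
    let e : X ≃ Option {x : X // x ≠ t} := (Equiv.optionSubtypeNe t).symm
    have het : e t = none := by
      simp [e]
    have hex0 : e x0 = some ⟨x0, hx0t⟩ := by
      simp [e, hx0t]
    set f' := f.comp (FreeGroup.map e.symm) with hf'
    have hcy' : Cyc f' (FreeGroup.map e y) := relabel_cyc e f y hy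
    have htau : tau (fun _ : {x : X // x ≠ t} => (0 : ℤ)) (FreeGroup.map e y) = 1 := by
      have h1 : (tau (fun _ : {x : X // x ≠ t} => (0 : ℤ))).comp (FreeGroup.map e) = expo t := by
        refine FreeGroup.ext_hom _ _ fun x => ?_
        rw [MonoidHom.comp_apply, FreeGroup.map.of, tau, FreeGroup.lift_apply_of, expo,
          FreeGroup.lift_apply_of]
        by_cases hx : x = t
        · subst hx
          rw [het, if_pos rfl]
        · have : e x = some ⟨x, hx⟩ := by simp [e, hx]
          rw [this, if_neg hx]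
          rfl
      rw [← MonoidHom.comp_apply, h1, hexp]
    have hker : f'.ker ≤ (tau (fun _ : {x : X // x ≠ t} => (0 : ℤ))).ker :=
      ker_le_of_cyc f' _ hcy' _ htau
    obtain ⟨yK, hyK⟩ : ∃ yK, iota (fun _ : {x : X // x ≠ t} => (0 : ℤ)) yK =
        FreeGroup.map e y := by
      have h1 : FreeGroup.map e y ∈ (tau (fun _ : {x : X // x ≠ t} => (0 : ℤ))).ker := htau
      rw [← iota_range] at h1
      exact h1
    rw [← hyK] at hcy'
    have hne' : f'.ker ≠ ⊥ := by
      intro h0
      apply hne
      rw [relabel_ker e f, ← hf', h0, Subgroup.map_bot]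
    have hnrm := nrm_iota _ f' hker yK
    have hnone : 0 < nrm1 (fox f' (iota (fun _ : {x : X // x ≠ t} => (0 : ℤ)) yK) none) := by
      rw [hyK, ← het, relabel_fox]
      have h1 : fox f y t ≠ 0 := Finsupp.mem_support_iff.1 ht
      rw [nrm1, Finsupp.sum, pos_iff_ne_zero, Ne, Finset.sum_eq_zero_iff]
      intro h0
      apply h1
      apply MonoidAlgebra.coeff_injective
      ext g
      by_contra hg
      have := h0 g (Finsupp.mem_support_iff.2 hg)
      exact hg (Int.natAbs_eq_zero.1 this)
    have hnrm2 : nrm (fox f' (iota (fun _ : {x : X // x ≠ t} => (0 : ℤ)) yK)) = n := by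
      rw [hyK, relabel_nrm, hn]
    obtain ⟨w, hw⟩ := step_good _ hΓ f' hker yK hcy' hne' ⟨x0, hx0t⟩
      (by
        rw [hyK, ← hex0, relabel_fox]
        exact Finsupp.mem_support_iff.1 hx0)
      (fun S f0 y0 hc0 hne0 hn0 hcard0 =>
        ihn (nrm (fox f0 y0)) (by rw [hn0]; omega) _ S Γ hΓ f0 y0 hc0 hne0 rfl rfl)
    exact ⟨_, relabel_good e f w hw⟩
  by_cases hB : ∃ t ∈ (fox f y).support, ∃ a ∈ (fox f y).support, t ≠ a ∧
      ∃ x ∈ (fox f y).support, ∃ u v : FreeGroup X,
        f u ∈ (fox f y x).coeff.support ∧ f v ∈ (fox f y x).coeff.support ∧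
        (FreeGroup.lift (fun z => Multiplicative.ofAdd (dht y t a z)) u : Multiplicative ℤ) ≠
          FreeGroup.lift (fun z => Multiplicative.ofAdd (dht y t a z)) v
  · -- case (B)
    obtain ⟨t, ht, a, ha, hta, x, hx, u, v, hu, hv, huv⟩ := hB
    obtain ⟨Γ', inst', f', e, hΓ', he, hfe, hk'⟩ := exists_new_letter hΓ f
    set c := Pool.Agent.ROR.dht y t a with hc
    have htau : ∀ z : FreeGroup X, tau c (FreeGroup.map some z) =
        FreeGroup.lift (fun z => Multiplicative.ofAdd (c z)) z := by
      intro z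
      have h1 : (tau c).comp (FreeGroup.map some) =
          FreeGroup.lift (fun z => Multiplicative.ofAdd (c z)) := by
        refine FreeGroup.ext_hom _ _ fun z => ?_
        rw [MonoidHom.comp_apply, FreeGroup.map.of, tau, FreeGroup.lift_apply_of,
          FreeGroup.lift_apply_of]
      rw [← h1]
      rfl
    have hy1 : tau c (FreeGroup.map some y) = 1 := by
      rw [htau]
      exact lift_dht_self y t a hta
    have hcy' : Cyc f' (FreeGroup.map some y) := new_letter_cyc f f' e hfe hk' y hy
    have hker : f'.ker ≤ (tau c).ker := ker_le_of_cyc f' _ hcy' _ hy1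
    obtain ⟨yK, hyK⟩ : ∃ yK, iota c yK = FreeGroup.map some y := by
      have h1 : FreeGroup.map some y ∈ (tau c).ker := hy1
      rw [← iota_range] at h1
      exact h1
    rw [← hyK] at hcy'
    have hne' : f'.ker ≠ ⊥ := by
      intro h0
      apply hne
      rw [eq_bot_iff]
      intro z hz
      have h1 : FreeGroup.map some z ∈ f'.ker := by
        rw [MonoidHom.mem_ker, hfe, (hz : f z = 1), map_one]
      rw [h0, Subgroup.mem_bot] at h1
      rw [Subgroup.mem_bot]
      exact FreeGroup.map_injective (Option.some_injective X) (by rw [h1, map_one])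
    have hfox := new_letter_fox f f' e he hfe y
    have hnrm := nrm_iota c f' hker yK
    have hnone : nrm1 (fox f' (iota c yK) none) = 0 := by
      rw [hyK, hfox.1]
      rfl
    have hnrm2 : nrm (fox (f'.comp (iota c)) yK) = n := by
      rw [hyK, hfox.2.2.1, hn, ← hyK, hnone] at hnrm
      omega
    -- the number of letters increases
    have hlev : ∀ z : FreeGroup X, f z ∈ (fox f y x).coeff.support →
        (x, Multiplicative.toAdd (tau c (FreeGroup.map some z))) ∈
          (fox (f'.comp (iota c)) yK).support := by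
      intro z hz
      have h1 : f' (FreeGroup.map some z) ∈ (fox f' (iota c yK) (some x)).coeff.support := by
        rw [hyK, hfox.2.1, hfe]
        rw [Finsupp.mem_support_iff] at hz ⊢
        have h2 : (MonoidAlgebra.mapDomainRingHom ℤ e (fox f y x)).coeff (e (f z)) =
            (fox f y x).coeff (f z) := by
          show (Finsupp.mapDomain e (fox f y x).coeff) (e (f z)) = _
          rw [Finsupp.mapDomain_apply he]
        rwa [h2]
      have h3 := (mem_support_iota c f' hker yK x (FreeGroup.map some z)).1 h1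
      rw [Finsupp.mem_support_iff]
      intro h0
      rw [h0] at h3
      exact absurd h3 (by simp)
    have hcard : (fox f y).support.card < (fox (f'.comp (iota c)) yK).support.card := by
      have h1 : (fox f y).support ⊆
          ((fox (f'.comp (iota c)) yK).support.image Prod.fst) := by
        intro z hz
        have h2 : some z ∈ (fox f' (iota c yK)).support := by
          rw [Finsupp.mem_support_iff, hyK, hfox.2.1]
          intro h0
          apply Finsupp.mem_support_iff.1 hz
          apply MonoidAlgebra.coeff_injective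
          have h4 : Finsupp.mapDomain e (fox f y z).coeff = Finsupp.mapDomain e 0 := by
            rw [Finsupp.mapDomain_zero]
            exact congrArg MonoidAlgebra.coeff h0
          exact Finsupp.mapDomain_injective he h4
        obtain ⟨j, hj⟩ := (fst_mem_support c f' hker yK z).1 h2
        exact Finset.mem_image.2 ⟨_, hj, rfl⟩
      have h2 := Finset.card_le_card h1
      have h3 : ((fox (f'.comp (iota c)) yK).support.image Prod.fst).card <
          (fox (f'.comp (iota c)) yK).support.card := by
        refine lt_of_le_of_ne Finset.card_image_le fun h4 => ?_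
        have h5 := Finset.card_image_iff.1 h4
        have h6 := h5 (hlev u hu) (hlev v hv) rfl
        rw [Prod.mk.injEq] at h6
        apply huv
        have h7 := Multiplicative.toAdd.injective h6.2
        rw [htau, htau] at h7
        exact h7
      omega
    have hle := card_support_le_nrm (fox (f'.comp (iota c)) yK)
    obtain ⟨w, hw⟩ := step_good c hΓ' f' hker yK hcy' hne' x
      (by
        have h1 := (fst_mem_support c f' hker yK x).2 ⟨_, hlev u hu⟩
        exact Finsupp.mem_support_iff.1 h1)
      (fun S f0 y0 hc0 hne0 hn0 hcard0 =>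
        ihm (n - (fox f0 y0).support.card) (by rw [hcard0]; omega) S Γ' hΓ' f0 y0 hc0 hne0
          (by rw [hn0, hnrm2]) rfl)
    exact new_letter_good hΓ' f f' e he hfe hk' y hy hne w hw
  · -- case (C)
    refine dyn hΓ f y hy hne ?_ ?_
    · intro x hx
      by_contra hcon
      push Not at hcon
      exact hA ⟨x, hx, hcon.1, hcon.2⟩
    · intro t ht a ha hta x hx u v hu hv
      by_contra hcon
      exact hB ⟨t, ht, a, ha, hta, x, hx, u, v, hu, hv, hcon⟩

theorem core {X : Type u} {Γ : Type v} [Group Γ] (hΓ : LI Γ) (f : FreeGroup X →* Γ)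
    (y : FreeGroup X) (hy : Cyc f y) (hne : f.ker ≠ ⊥) : ∃ w, Good f w :=
  core_aux _ _ X Γ hΓ f y hy hne rfl rfl

end P11

end Pool.Agent.ROR
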