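import Pool.Agent.ROR.LIGroup

/-!
# Group rings of locally indicable groups (project ROR, package P2)
-/

set_option autoImplicit false

namespace Pool.Agent.ROR

attribute [-simp] MonoidAlgebra.of_apply

section P2
variable {Γ : Type*} [Group Γ]

/-- a unique product with first factor different from `1` -/
theorem LI.exists_unique_ne_one (h : LI Γ) (A : Finset Γ) (h1 : (1 : Γ) ∈ A)
    (hA : ∃ a ∈ A, a ≠ 1) :
    ∀ n : ℕ, ∀ B : Finset Γ, B.card ≤ n → B.Nonempty →
      ∃ a0 ∈ A, ∃ b0 ∈ B, a0 ≠ 1 ∧ UniqueMul A B a0 b0 := by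
  classical
  have := h.uniqueProds
  intro n
  induction n with
  | zero =>
    intro B hn hB
    have := hB.card_pos
    omega
  | succ n ih =>
    intro B hn hB
    obtain ⟨b1, hb1⟩ := hB
    let S : Finset Γ := A ∪ B.image (fun b => b * b1⁻¹)
    have hSA : ∀ a ∈ A, a ∈ S := fun a ha => Finset.mem_union_left _ ha
    have hSB : ∀ b ∈ B, b * b1⁻¹ ∈ S := fun b hb =>
      Finset.mem_union_right _ (Finset.mem_image.2 ⟨b, hb, rfl⟩)
    have hne : ∃ s ∈ S, s ≠ 1 := by
      obtain ⟨a, ha, hne⟩ := hA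
      exact ⟨a, hSA a ha, hne⟩
    obtain ⟨l, s, hs, hl⟩ := h S hne
    let L : Γ → ℤ := fun x => if hx : x ∈ Subgroup.closure (S : Set Γ) then
      Multiplicative.toAdd (l ⟨x, hx⟩) else 0
    have hLdef : ∀ x (hx : x ∈ Subgroup.closure (S : Set Γ)),
        L x = Multiplicative.toAdd (l ⟨x, hx⟩) := fun x hx => by
      simp only [L, dif_pos hx]
    have hL1 : L 1 = 0 := by
      rw [hLdef 1 (Subgroup.one_mem _)]
      have : (⟨1, Subgroup.one_mem _⟩ : Subgroup.closure (S : Set Γ)) = 1 := rfl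
      rw [this, map_one, toAdd_one]
    have hLmul : ∀ x y, x ∈ Subgroup.closure (S : Set Γ) → y ∈ Subgroup.closure (S : Set Γ) →
        L (x * y) = L x + L y := by
      intro x y hx hy
      rw [hLdef _ (Subgroup.mul_mem _ hx hy), hLdef _ hx, hLdef _ hy, ← toAdd_mul, ← map_mul]
      rfl
    have hLs : L s ≠ 0 := by
      rw [hLdef s (Subgroup.subset_closure hs)]
      intro h0
      exact hl (Multiplicative.toAdd.injective h0)
    have hdeg : ∀ a ∈ A, ∀ b ∈ B, ∀ a' ∈ A, ∀ b' ∈ B, a * b = a' * b' →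
        L a + L (b * b1⁻¹) = L a' + L (b' * b1⁻¹) := by
      intro a ha b hb a' ha' b' hb' hab
      rw [← hLmul _ _ (Subgroup.subset_closure (hSA a ha)) (Subgroup.subset_closure (hSB b hb)),
        ← hLmul _ _ (Subgroup.subset_closure (hSA a' ha')) (Subgroup.subset_closure (hSB b' hb')),
        ← mul_assoc, ← mul_assoc, hab]
    obtain ⟨bM, hbM, hbMmax⟩ := Finset.exists_max_image B (fun b => L (b * b1⁻¹)) ⟨b1, hb1⟩
    obtain ⟨bm, hbm, hbmmin⟩ := Finset.exists_min_image B (fun b => L (b * b1⁻¹)) ⟨b1, hb1⟩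
    obtain ⟨aM, haM, haMmax⟩ := Finset.exists_max_image A L ⟨1, h1⟩
    obtain ⟨am, ham, hammin⟩ := Finset.exists_min_image A L ⟨1, h1⟩
    by_cases hM : L aM ≠ 0
    · -- maximal degrees
      obtain ⟨a0, ha0, b0, hb0, hu⟩ := UniqueProds.uniqueMul_of_nonempty
        (A := A.filter fun a => L a = L aM) (B := B.filter fun b => L (b * b1⁻¹) = L (bM * b1⁻¹))
        ⟨aM, Finset.mem_filter.2 ⟨haM, rfl⟩⟩ ⟨bM, Finset.mem_filter.2 ⟨hbM, rfl⟩⟩
      obtain ⟨ha0A, ha0L⟩ := Finset.mem_filter.1 ha0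
      obtain ⟨hb0B, hb0L⟩ := Finset.mem_filter.1 hb0
      refine ⟨a0, ha0A, b0, hb0B, ?_, ?_⟩
      · rintro rfl
        exact hM (by rw [← ha0L, hL1])
      · intro a b ha hb hab
        have h2 := hdeg a ha b hb a0 ha0A b0 hb0B hab
        have h3 := haMmax a ha
        have h4 := hbMmax b hb
        exact hu (Finset.mem_filter.2 ⟨ha, by omega⟩) (Finset.mem_filter.2 ⟨hb, by omega⟩) hab
    push Not at hM
    by_cases hm : L am ≠ 0
    · -- minimal degrees
      obtain ⟨a0, ha0, b0, hb0, hu⟩ := UniqueProds.uniqueMul_of_nonempty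
        (A := A.filter fun a => L a = L am) (B := B.filter fun b => L (b * b1⁻¹) = L (bm * b1⁻¹))
        ⟨am, Finset.mem_filter.2 ⟨ham, rfl⟩⟩ ⟨bm, Finset.mem_filter.2 ⟨hbm, rfl⟩⟩
      obtain ⟨ha0A, ha0L⟩ := Finset.mem_filter.1 ha0
      obtain ⟨hb0B, hb0L⟩ := Finset.mem_filter.1 hb0
      refine ⟨a0, ha0A, b0, hb0B, ?_, ?_⟩
      · rintro rfl
        exact hm (by rw [← ha0L, hL1])
      · intro a b ha hb hab
        have h2 := hdeg a ha b hb a0 ha0A b0 hb0B hab
        have h3 := hammin a ha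
        have h4 := hbmmin b hb
        exact hu (Finset.mem_filter.2 ⟨ha, by omega⟩) (Finset.mem_filter.2 ⟨hb, by omega⟩) hab
    push Not at hm
    -- all degrees on `A` are zero
    have hLA : ∀ a ∈ A, L a = 0 := by
      intro a ha
      have h3 := haMmax a ha
      have h4 := hammin a ha
      omega
    have hlt : (B.filter fun b => L (b * b1⁻¹) = L (bM * b1⁻¹)).card < B.card := by
      refine lt_of_le_of_ne (Finset.card_filter_le _ _) ?_
      intro heq
      have h3 : ∀ b ∈ B, L (b * b1⁻¹) = L (bM * b1⁻¹) := Finset.card_filter_eq_iff.1 heq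
      have h4 : L (bM * b1⁻¹) = 0 := by
        rw [← h3 b1 hb1, mul_inv_cancel, hL1]
      apply hLs
      rcases Finset.mem_union.1 hs with hs' | hs'
      · exact hLA s hs'
      · obtain ⟨b, hb, rfl⟩ := Finset.mem_image.1 hs'
        rw [h3 b hb, h4]
    obtain ⟨a0, ha0, b0, hb0, hne0, hu⟩ := ih (B.filter fun b => L (b * b1⁻¹) = L (bM * b1⁻¹))
      (by omega) ⟨bM, Finset.mem_filter.2 ⟨hbM, rfl⟩⟩
    obtain ⟨hb0B, hb0L⟩ := Finset.mem_filter.1 hb0
    refine ⟨a0, ha0, b0, hb0B, hne0, ?_⟩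
    intro a b ha hb hab
    have h2 := hdeg a ha b hb a0 ha0 b0 hb0B hab
    rw [hLA a ha, hLA a0 ha0, hb0L] at h2
    exact hu ha (Finset.mem_filter.2 ⟨hb, by omega⟩) hab

theorem LI.noZeroDivisors (h : LI Γ) (k : Type*) [Ring k] [NoZeroDivisors k] :
    NoZeroDivisors (MonoidAlgebra k Γ) := by
  have := h.uniqueProds
  infer_instance

theorem LI.scalar (h : LI Γ) (lam δ : MonoidAlgebra ℤ Γ) (hδ : δ ≠ 0)
    (hs : (lam * δ).coeff.support ⊆ δ.coeff.support) :
    ∃ c : ℤ, lam = MonoidAlgebra.single 1 c := by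
  classical
  by_cases hA : ∃ a ∈ lam.coeff.support, a ≠ 1
  · exfalso
    have hB : δ.coeff.support.Nonempty := by
      rw [Finsupp.support_nonempty_iff, Ne, MonoidAlgebra.coeff_eq_zero]
      exact hδ
    obtain ⟨a0, ha0, b0, hb0, hne, hu⟩ := h.exists_unique_ne_one (insert 1 lam.coeff.support)
      (Finset.mem_insert_self _ _)
      (by obtain ⟨a, ha, hne⟩ := hA; exact ⟨a, Finset.mem_insert_of_mem ha, hne⟩)
      _ δ.coeff.support le_rfl hB
    have ha0' : a0 ∈ lam.coeff.support := (Finset.mem_insert.1 ha0).resolve_left hne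
    have h1 := MonoidAlgebra.coeff_mul_mul_of_uniqueMul (f := lam) (g := δ)
      (hu.mono (Finset.subset_insert _ _) subset_rfl)
    have h2 : a0 * b0 ∈ (lam * δ).coeff.support := by
      rw [Finsupp.mem_support_iff, h1]
      exact mul_ne_zero (Finsupp.mem_support_iff.1 ha0') (Finsupp.mem_support_iff.1 hb0)
    have h3 := hu (Finset.mem_insert_self 1 _) (hs h2) (by rw [one_mul])
    exact hne h3.1.symm
  · push Not at hA
    refine ⟨lam.coeff 1, ?_⟩
    rw [← MonoidAlgebra.coeff_inj, MonoidAlgebra.coeff_single]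
    ext x
    by_cases hx : x = 1
    · subst hx
      simp
    · rw [Finsupp.single_eq_of_ne hx]
      by_contra hne
      exact hx (hA x (Finsupp.mem_support_iff.2 hne))

theorem LI.unit (h : LI Γ) {u v : MonoidAlgebra ℤ Γ} {g : Γ} {ε : ℤ} (hε : IsUnit ε)
    (huv : u * v = MonoidAlgebra.single g ε) :
    ∃ (g' : Γ) (ε' : ℤ), IsUnit ε' ∧ u = MonoidAlgebra.single g' ε' := by
  classical
  have := h.uniqueProds
  have : TwoUniqueProds Γ := UniqueProds.toTwoUniqueProds_of_group
  have hne : u * v ≠ 0 := by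
    rw [huv]
    intro h0
    have h1 := congrArg (fun z : MonoidAlgebra ℤ Γ => z.coeff g) h0
    simp only [MonoidAlgebra.coeff_single, Finsupp.single_eq_same, MonoidAlgebra.coeff_zero,
      Finsupp.coe_zero, Pi.zero_apply] at h1
    exact hε.ne_zero h1
  have hu0 : u ≠ 0 := left_ne_zero_of_mul hne
  have hv0 : v ≠ 0 := right_ne_zero_of_mul hne
  have hA : u.coeff.support.Nonempty := by
    rw [Finsupp.support_nonempty_iff, Ne, MonoidAlgebra.coeff_eq_zero]
    exact hu0
  have hB : v.coeff.support.Nonempty := by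
    rw [Finsupp.support_nonempty_iff, Ne, MonoidAlgebra.coeff_eq_zero]
    exact hv0
  have hcard : ¬ 1 < u.coeff.support.card * v.coeff.support.card := by
    intro hc
    obtain ⟨p1, hp1, p2, hp2, hp, hu1, hu2⟩ := TwoUniqueProds.uniqueMul_of_one_lt_card hc
    rw [Finset.mem_product] at hp1 hp2
    have h1 := MonoidAlgebra.coeff_mul_mul_of_uniqueMul (f := u) (g := v) hu1
    have h2 := MonoidAlgebra.coeff_mul_mul_of_uniqueMul (f := u) (g := v) hu2
    have h3 : ∀ p : Γ × Γ, p.1 ∈ u.coeff.support → p.2 ∈ v.coeff.support →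
        (u * v).coeff (p.1 * p.2) = u.coeff p.1 * v.coeff p.2 → p.1 * p.2 = g := by
      intro p hp hp' heq
      by_contra hne'
      rw [huv, MonoidAlgebra.coeff_single, Finsupp.single_eq_of_ne hne'] at heq
      exact mul_ne_zero (Finsupp.mem_support_iff.1 hp) (Finsupp.mem_support_iff.1 hp') heq.symm
    have h4 := h3 p1 hp1.1 hp1.2 h1
    have h5 := h3 p2 hp2.1 hp2.2 h2
    have h6 := hu1 hp2.1 hp2.2 (h5.trans h4.symm)
    exact hp (Prod.ext h6.1.symm h6.2.symm)
  have hc1 : u.coeff.support.card = 1 := by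
    have h1 := hA.card_pos
    have h2 := hB.card_pos
    have h3 : u.coeff.support.card * 1 ≤ u.coeff.support.card * v.coeff.support.card :=
      Nat.mul_le_mul_left _ h2
    omega
  have hc2 : v.coeff.support.card = 1 := by
    have h1 := hA.card_pos
    have h2 := hB.card_pos
    have h3 : 1 * v.coeff.support.card ≤ u.coeff.support.card * v.coeff.support.card :=
      Nat.mul_le_mul_right _ h1
    omega
  have hsing : ∀ w : MonoidAlgebra ℤ Γ, w.coeff.support.card = 1 →
      ∃ x c, w = MonoidAlgebra.single x c := by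
    intro w hw
    obtain ⟨x, c, -, hxc⟩ := Finsupp.card_support_eq_one'.1 hw
    exact ⟨x, c, MonoidAlgebra.coeff_injective (by rw [hxc, MonoidAlgebra.coeff_single])⟩
  obtain ⟨x, c, hx⟩ := hsing u hc1
  obtain ⟨y, e, hy⟩ := hsing v hc2
  refine ⟨x, c, ?_, hx⟩
  rw [hx, hy, MonoidAlgebra.single_mul_single] at huv
  have h1 : (Finsupp.single (x * y) (c * e) : Γ →₀ ℤ) = Finsupp.single g ε := by
    have := congrArg MonoidAlgebra.coeff huv
    rwa [MonoidAlgebra.coeff_single, MonoidAlgebra.coeff_single] at this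
  rw [Finsupp.single_eq_single_iff] at h1
  rcases h1 with ⟨-, h1⟩ | ⟨-, h1⟩
  · rw [← h1] at hε
    exact isUnit_of_mul_isUnit_left hε
  · rw [h1] at hε
    exact absurd hε not_isUnit_zero

end P2

end Pool.Agent.ROR
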