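import Pool.Agent.ROR.Tower
import Pool.Agent.ROR.LIRing

/-!
# The trivial relator, proper powers (project ROR, final assembly)
-/

set_option autoImplicit false

namespace Pool.Agent.ROR

open FreeGroup (of)
open Pool.Agent.RSMonic

attribute [-simp] MonoidAlgebra.of_apply

variable {X : Type*}

theorem rres_one : rres (Subgroup.normalClosure {(1 : FreeGroup X)}) = ⊥ := by
  have hEn := rres_normal (Subgroup.normalClosure {(1 : FreeGroup X)})
  have hn := nser_normal (Subgroup.normalClosure {(1 : FreeGroup X)})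
  have hrn := rser_normal (Subgroup.normalClosure {(1 : FreeGroup X)})
  set R := Subgroup.normalClosure {(1 : FreeGroup X)} with hR
  have hlt : ∀ m (Γ' : Type _) [Group Γ'] (a : MonoidAlgebra ℤ Γ'), m ≠ 0 → m • a = 0 → a = 0 := by
    intro m Γ' _ a hm h
    apply MonoidAlgebra.coeff_injective
    ext γ
    have h1 := congrArg (fun t => MonoidAlgebra.coeff t γ) h
    simp only [coeff_nsmul_apply] at h1
    simp only [MonoidAlgebra.coeff_zero, Finsupp.zero_apply] at h1 ⊢
    rcases mul_eq_zero.1 h1 with h2 | h2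
    · exact absurd (by exact_mod_cast h2) hm
    · exact h2
  have hperf : rres R ≤ ⁅rres R, rres R⁆ := by
    intro x hx
    have h1 : fox (QuotientGroup.mk' (rres R)) x = 0 := by
      ext1 z
      rw [Finsupp.zero_apply]
      obtain ⟨m, hm⟩ := exists_injOn (nser R) (nser_antitone R) (nser_bot R)
        (fox (QuotientGroup.mk' (rres R)) x z).coeff.support
      refine eq_zero_of_mapDomain (QuotientGroup.mk' (nser R m)) _ (hm m le_rfl) ?_
      obtain ⟨e, lam, he, h⟩ := tower_level (1 : FreeGroup X) x hx m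
      have h2 := h z
      rw [fox_one, Finsupp.zero_apply, map_zero, mul_zero] at h2
      exact hlt e _ _ he.ne' h2
    have h3 := mem_of_fox_eq_zero (QuotientGroup.mk' (rres R))
      ((QuotientGroup.eq_one_iff x).2 hx) h1
    rwa [QuotientGroup.ker_mk'] at h3
  exact perfect_eq_bot _ hperf

theorem pow_mem_rres (R : Subgroup (FreeGroup X)) [R.Normal] (g : FreeGroup X) (k : ℕ)
    (hk : k ≠ 0) (h : g ^ k ∈ R) : g ∈ rres R := by
  rw [mem_rres]
  intro m
  induction m with
  | zero => exact Subgroup.mem_top g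
  | succ m ih => exact rser_tf R m g k hk ih (le_rser R (m + 1) h)

/-- if `r` is a proper power, `F/⟨⟨r⟩⟩` is not residually torsion-free solvable -/
theorem rres_ne_of_pow (r g : FreeGroup X) (k : ℕ) (hk : 2 ≤ k) (hg : g ^ k = r) (hr : r ≠ 1) :
    rres (Subgroup.normalClosure {r}) ≠ Subgroup.normalClosure {r} := by
  intro hE
  have hEn := rres_normal (Subgroup.normalClosure {r})
  have hne := tower_ne r hr
  have hli := li_rres (Subgroup.normalClosure {r})
  have hgE := pow_mem_rres (Subgroup.normalClosure {r}) g k (by omega)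
    (by rw [hg]; exact Subgroup.subset_normalClosure rfl)
  have hrE : r ∈ rres (Subgroup.normalClosure {r}) :=
    le_rres _ (Subgroup.subset_normalClosure rfl)
  set E := rres (Subgroup.normalClosure {r}) with hEdef
  set f := QuotientGroup.mk' E with hf
  have hfg : f g = 1 := (QuotientGroup.eq_one_iff g).2 hgE
  have hfr : f r = 1 := (QuotientGroup.eq_one_iff r).2 hrE
  have h1 : fox f r = k • fox f g := by
    rw [← hg]
    exact fox_pow_of_eq_one f hfg k
  have h2 : fox f g ∈ Submodule.span (MonoidAlgebra ℤ (FreeGroup X ⧸ E)) (fox f '' {r}) := by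
    refine fox_mem_span f {r} (by rintro _ rfl; exact hfr) g (Subgroup.mem_sup_left ?_)
    rw [← hE]
    exact hgE
  rw [Set.image_singleton, Submodule.mem_span_singleton] at h2
  obtain ⟨lam, hlam⟩ := h2
  obtain ⟨z, hz⟩ := Finsupp.ne_iff.1 hne
  rw [Finsupp.zero_apply, h1] at hz
  have hgz : fox f g z ≠ 0 := by
    intro h0
    apply hz
    rw [Finsupp.smul_apply, h0, smul_zero]
  have := hli.noZeroDivisors ℤ
  have h3 : (1 - k • lam) * fox f g z = 0 := by
    have h4 := DFunLike.congr_fun hlam z
    rw [h1, Finsupp.smul_apply, Finsupp.smul_apply, smul_eq_mul, mul_smul_comm] at h4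
    rw [sub_mul, one_mul, smul_mul_assoc, h4, sub_self]
  have h5 : (1 : MonoidAlgebra ℤ (FreeGroup X ⧸ E)) - k • lam = 0 :=
    (mul_eq_zero.1 h3).resolve_right hgz
  have h6 : (1 : ℤ) = k * lam.coeff 1 := by
    have h7 : (1 : MonoidAlgebra ℤ (FreeGroup X ⧸ E)) = k • lam := sub_eq_zero.1 h5
    have h8 := congrArg (fun t => MonoidAlgebra.coeff t (1 : FreeGroup X ⧸ E)) h7
    simp only [coeff_nsmul_apply] at h8
    rw [← h8, MonoidAlgebra.one_def, MonoidAlgebra.coeff_single, Finsupp.single_eq_same]
  have h9 : (k : ℤ) ∣ 1 := ⟨_, h6⟩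
  have h10 := Int.le_of_dvd one_pos h9
  omega

end Pool.Agent.ROR
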