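import Pool.Agent.ROR.Decide
import Pool.Agent.ROR.PowCase

/-!
# Correctness of the decision procedure (project ROR, MP_08b746_al)
-/

set_option autoImplicit false

namespace Pool.Agent.ROR

open FreeGroup (of)
open Pool.Agent.RSMonic

/-- the word over `ℕ` of a word over `Fin n` -/
def up (n : ℕ) (u : List (Fin n × Bool)) : Wo := u.map fun p => ((p.1 : ℕ), p.2)

theorem inc_mk (n : ℕ) (u : List (Fin n × Bool)) :
    inc n (FreeGroup.mk u) = FreeGroup.mk (up n u) := rfl

theorem exists_up (n : ℕ) (u : Wo) (h : ∀ p ∈ u, p.1 < n) : ∃ u2, up n u2 = u := by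
  induction u with
  | nil => exact ⟨[], rfl⟩
  | cons a u ih =>
    obtain ⟨u2, rfl⟩ := ih fun p hp => h p (List.mem_cons_of_mem _ hp)
    exact ⟨(⟨a.1, h a List.mem_cons_self⟩, a.2) :: u2, rfl⟩

theorem up_length (n : ℕ) (u : List (Fin n × Bool)) : (up n u).length = u.length := by
  simp [up]

theorem up_eq_nil (n : ℕ) (u : List (Fin n × Bool)) : up n u = [] ↔ u = [] := by
  simp [up]

theorem rho_mk_filter (n : ℕ) (w : Wo) :
    rho n (FreeGroup.mk (w.filter fun z => z.1 < n)) = rho n (FreeGroup.mk w) := by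
  induction w with
  | nil => rfl
  | cons a w ih =>
    rw [pres_mk_cons a w, map_mul, ← ih, List.filter_cons]
    split_ifs with h
    · rw [pres_mk_cons a, map_mul]
    · have h1 : rho n (FreeGroup.mk [a]) = 1 := by
        rw [rho, pres_lift_single]
        have h2 : ¬ a.1 < n := by simpa using h
        simp [h2]
      rw [h1, one_mul]

theorem corr_ncl_conj {G : Type*} [Group G] (g r : G) :
    Subgroup.normalClosure {g * r * g⁻¹} = Subgroup.normalClosure {r} := by
  have hN1 : (Subgroup.normalClosure {r}).Normal := Subgroup.normalClosure_normal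
  have hN2 : (Subgroup.normalClosure {g * r * g⁻¹}).Normal := Subgroup.normalClosure_normal
  have h1 : r ∈ Subgroup.normalClosure {r} :=
    Subgroup.subset_normalClosure (Set.mem_singleton r)
  have h2 : g * r * g⁻¹ ∈ Subgroup.normalClosure {g * r * g⁻¹} :=
    Subgroup.subset_normalClosure (Set.mem_singleton _)
  apply le_antisymm
  · exact Subgroup.normalClosure_le_normal (Set.singleton_subset_iff.2 (hN1.conj_mem r h1 g))
  · refine Subgroup.normalClosure_le_normal (Set.singleton_subset_iff.2 ?_)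
    have h := hN2.conj_mem _ h2 g⁻¹
    have h3 : g⁻¹ * (g * r * g⁻¹) * g⁻¹⁻¹ = r := by group
    rw [h3] at h
    exact h

theorem cycRed_up (n : ℕ) (u : List (Fin n × Bool)) :
    FreeGroup.IsCyclicallyReduced (up n u) ↔ FreeGroup.IsCyclicallyReduced u :=
  cycReduced_map (fun i : Fin n => (i : ℕ)) Fin.val_injective u

/-- a cyclically reduced word is trivial only if it is empty -/
theorem mk_ne_one {X : Type*} {w : List (X × Bool)} (h : FreeGroup.IsReduced w) (hw : w ≠ []) :
    FreeGroup.mk w ≠ 1 := by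
  classical
  intro h1
  apply hw
  have h2 := congrArg FreeGroup.toWord h1
  rw [FreeGroup.toWord_mk, FreeGroup.toWord_one, (FreeGroup.isReduced_iff_reduce_eq).1 h] at h2
  exact h2

section Main

variable {memB commB : Wo × Wo → Bool} {cyc : Wo → Wo} {cr np : Wo → Bool}

/-- the specification of the algorithm -/
def Spec (n : ℕ) (r : FreeGroup (Fin n)) (a : Option Bool) : Prop :=
  (a = some true ↔ rres (Subgroup.normalClosure {r}) = Subgroup.normalClosure {r}) ∧
  (a = some false → ¬ RS (FreeGroup (Fin n) ⧸ Subgroup.normalClosure {r})) ∧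
  (a = none → ∃ y ∈ rres (Subgroup.normalClosure {r}), ∃ k : ℕ, 2 ≤ k ∧
    r * (y ^ k)⁻¹ ∈ ⁅rres (Subgroup.normalClosure {r}), rres (Subgroup.normalClosure {r})⁆)

theorem isC_iff
    (hcomm : ∀ r u, FreeGroup.IsCyclicallyReduced r → r ≠ [] → NPw (FreeGroup.mk r) →
      (commB (r, u) = true ↔ FreeGroup.mk u ∈ ⁅Subgroup.normalClosure {FreeGroup.mk r},
        Subgroup.normalClosure {FreeGroup.mk r}⁆))
    (hcr : ∀ w, cr w = true ↔ FreeGroup.IsCyclicallyReduced w)
    (hnp : ∀ w, FreeGroup.IsCyclicallyReduced w → (np w = true ↔ NPw (FreeGroup.mk w)))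
    (n : ℕ) (c : List (Fin n × Bool)) (r' g : List (Fin n × Bool)) (k : ℕ) (b : Bool) :
    isC commB cr np (up n c) (up n r', k, up n g, b) = true ↔
      FreeGroup.IsCyclicallyReduced r' ∧ r' ≠ [] ∧ NPw (FreeGroup.mk (up n r')) ∧
        Crt (FreeGroup.mk c) (FreeGroup.mk r') k (FreeGroup.mk g) b := by
  have h1 : FreeGroup.mk (certW (up n c) (up n r', k, up n g, b)) =
      inc n (FreeGroup.mk c * (FreeGroup.mk g * (if b then FreeGroup.mk r' else
        (FreeGroup.mk r')⁻¹) ^ k * (FreeGroup.mk g)⁻¹)⁻¹) := by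
    rw [mk_certW, map_mul, map_inv, map_mul, map_mul, map_inv, map_pow, inc_mk, inc_mk]
    congr 5
    split_ifs
    · rfl
    · rw [map_inv]
      rfl
  rw [isC, Bool.and_eq_true, Bool.and_eq_true, Bool.and_eq_true, hcr]
  constructor
  · rintro ⟨⟨⟨h2, h3⟩, h4⟩, h5⟩
    have h3' : up n r' ≠ [] := by simpa using h3
    have h4' := (hnp _ h2).1 h4
    refine ⟨(cycRed_up n r').1 h2, fun h => h3' ((up_eq_nil n r').2 h), h4', ?_⟩
    have h6 := (hcomm _ _ h2 h3' h4').1 h5
    rw [h1, ← inc_mk] at h6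
    exact (comm_transfer (inc n) (rho n) (rho_inc n) _ _).1 h6
  · rintro ⟨h2, h3, h4, h5⟩
    have h2' := (cycRed_up n r').2 h2
    have h3' : up n r' ≠ [] := fun h => h3 ((up_eq_nil n r').1 h)
    refine ⟨⟨⟨h2', by simpa using h3'⟩, (hnp _ h2').2 h4⟩, ?_⟩
    refine (hcomm _ _ h2' h3' h4).2 ?_
    rw [h1, ← inc_mk]
    exact (comm_transfer (inc n) (rho n) (rho_inc n) _ _).2 h5

theorem algC_spec
    (hmem : ∀ r u, FreeGroup.IsCyclicallyReduced r → r ≠ [] → NPw (FreeGroup.mk r) →
      (memB (r, u) = true ↔ FreeGroup.mk u ∈ Subgroup.normalClosure {FreeGroup.mk r}))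
    (hcomm : ∀ r u, FreeGroup.IsCyclicallyReduced r → r ≠ [] → NPw (FreeGroup.mk r) →
      (commB (r, u) = true ↔ FreeGroup.mk u ∈ ⁅Subgroup.normalClosure {FreeGroup.mk r},
        Subgroup.normalClosure {FreeGroup.mk r}⁆))
    (hcr : ∀ w, cr w = true ↔ FreeGroup.IsCyclicallyReduced w)
    (hnp : ∀ w, FreeGroup.IsCyclicallyReduced w → (np w = true ↔ NPw (FreeGroup.mk w)))
    (n : ℕ) (c : List (Fin n × Bool)) (hc : FreeGroup.IsCyclicallyReduced c) :
    Spec n (FreeGroup.mk c) (algC memB commB cr np (up n c)) := by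
  have hc' := (cycRed_up n c).2 hc
  rw [algC]
  by_cases h1 : up n c = []
  · -- trivial relator
    rw [if_pos h1]
    have h2 : c = [] := (up_eq_nil n c).1 h1
    subst h2
    refine ⟨⟨fun _ => ?_, fun _ => rfl⟩, fun h => ?_, fun h => ?_⟩
    · have h3 : (FreeGroup.mk ([] : List (Fin n × Bool))) = 1 := rfl
      rw [h3, rres_one, eq_comm, eq_bot_iff]
      refine Subgroup.normalClosure_le_normal ?_
      rintro _ rfl
      exact Subgroup.one_mem _
    · exact absurd h (by simp)
    · exact absurd h (by simp)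
  rw [if_neg h1]
  have h1' : c ≠ [] := fun h => h1 ((up_eq_nil n c).2 h)
  have hr1 : FreeGroup.mk c ≠ 1 := mk_ne_one hc.1 h1'
  by_cases h2 : np (up n c) = false
  · -- proper powers
    rw [if_pos h2]
    have h3 : ¬ NPw (FreeGroup.mk (up n c)) := by
      rw [← hnp _ hc', h2]
      simp
    rw [NPw] at h3
    push Not at h3
    obtain ⟨g, k, hg, hk⟩ := h3
    have h4 : (rho n g) ^ k = FreeGroup.mk c := by
      rw [← map_pow, hg, ← inc_mk, rho_inc]
    have hk0 : k ≠ 0 := by
      rintro rfl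
      rw [pow_zero] at h4
      exact hr1 h4.symm
    refine ⟨⟨fun h => absurd h (by simp), fun h => ?_⟩, fun h => absurd h (by simp), fun _ => ?_⟩
    · exact absurd h (rres_ne_of_pow _ (rho n g) k (by omega) h4 hr1)
    · refine ⟨rho n g, pow_mem_rres _ _ k hk0 ?_, k, by omega, ?_⟩
      · rw [h4]
        exact Subgroup.subset_normalClosure rfl
      · rw [h4, mul_inv_cancel]
        exact Subgroup.one_mem _
  rw [if_neg h2]
  have h2' : np (up n c) = true := by simpa using h2
  have hnpc := (hnp _ hc').1 h2'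
  -- membership in `⟨⟨c⟩⟩`
  have hmemc : ∀ r' : List (Fin n × Bool), memB (up n c, up n r') = true ↔
      FreeGroup.mk r' ∈ Subgroup.normalClosure {FreeGroup.mk c} := by
    intro r'
    rw [hmem _ _ hc' h1 hnpc, ← inc_mk, ← inc_mk]
    exact mem_ncl_transfer (inc n) (rho n) (rho_inc n) _ _
  -- candidates come from words over `Fin n`
  have hup : ∀ q ∈ cands (up n c), ∃ (r' g : List (Fin n × Bool)) (k : ℕ) (b : Bool), 0 < k ∧
      q = (up n r', k, up n g, b) := by
    rintro ⟨r', k, g, b⟩ hq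
    rw [mem_cands] at hq
    obtain ⟨⟨-, hr⟩, ⟨hk, -⟩, ⟨-, hg⟩⟩ := hq
    have hlt : ∀ (u : Wo), (∀ a ∈ u, ∃ e, (a.1, e) ∈ up n c) → ∀ p ∈ u, p.1 < n := by
      intro u hu p hp
      obtain ⟨e, he⟩ := hu p hp
      rw [up, List.mem_map] at he
      obtain ⟨z, _, hz⟩ := he
      have : (z.1 : ℕ) = p.1 := (Prod.mk.inj hz).1
      rw [← this]
      exact z.1.2
    obtain ⟨r2, hr2⟩ := exists_up n r' (hlt _ hr)
    obtain ⟨g2, hg2⟩ := exists_up n g (hlt _ hg)
    exact ⟨r2, g2, k, b, hk, by rw [hr2, hg2]⟩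
  -- the certificate of `E`
  obtain ⟨w', k, g, b, hw', hk, hE, hcrt, hlen, hglen, hlet, hnpw, hcycw⟩ := exists_crt c hr1
  have hqmem : ((up n w', k, up n g, b) : Ca) ∈ cands (up n c) := by
    rw [mem_cands]
    have hpos : 0 < w'.length := List.length_pos_iff.2 hw'
    refine ⟨⟨?_, ?_⟩, ⟨hk, ?_⟩, ⟨?_, ?_⟩⟩
    · show (up n w').length ≤ _
      rw [up_length, up_length]
      exact (Nat.le_mul_of_pos_right _ hk).trans hlen
    · intro a ha
      have ha' : a ∈ up n w' := ha
      rw [up, List.mem_map] at ha'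
      obtain ⟨z, hz, rfl⟩ := ha'
      obtain ⟨e, he⟩ := hlet z (List.mem_append_left _ hz)
      exact ⟨e, List.mem_map.2 ⟨_, he, rfl⟩⟩
    · show k ≤ _
      rw [up_length]
      exact (Nat.le_mul_of_pos_left _ hpos).trans hlen
    · show (up n g).length ≤ _
      rw [up_length, up_length]
      exact hglen
    · intro a ha
      have ha' : a ∈ up n g := ha
      rw [up, List.mem_map] at ha'
      obtain ⟨z, hz, rfl⟩ := ha'
      obtain ⟨e, he⟩ := hlet z (List.mem_append_right _ hz)
      exact ⟨e, List.mem_map.2 ⟨_, he, rfl⟩⟩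
  have hnpw' : NPw (FreeGroup.mk (up n w')) := by
    intro x m hx
    refine hnpw (rho n x) m ?_
    rw [← map_pow, hx, ← inc_mk, rho_inc]
  have hqC : isC commB cr np (up n c) (up n w', k, up n g, b) = true :=
    (isC_iff hcomm hcr hnp n c w' g k b).2 ⟨hcycw, hw', hnpw', hcrt⟩
  have hEiff : FreeGroup.mk w' ∈ Subgroup.normalClosure {FreeGroup.mk c} ↔
      rres (Subgroup.normalClosure {FreeGroup.mk c}) =
        Subgroup.normalClosure {FreeGroup.mk c} := by
    constructor
    · intro h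
      refine le_antisymm ?_ (le_rres _)
      rw [hE]
      refine Subgroup.normalClosure_le_normal ?_
      rintro _ rfl
      exact h
    · intro h
      rw [← h, hE]
      exact Subgroup.subset_normalClosure rfl
  split_ifs with h3 h4
  · -- a certificate with `k = 1`
    rw [List.any_eq_true] at h3
    obtain ⟨q, hq, hq'⟩ := h3
    obtain ⟨r2, g2, k2, b2, hk2, rfl⟩ := hup q hq
    rw [Bool.and_eq_true, Bool.and_eq_true] at hq'
    obtain ⟨⟨h5, h6⟩, h7⟩ := hq'
    have h6' : k2 = 1 := by simpa using h6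
    subst h6'
    obtain ⟨-, -, -, h8⟩ := (isC_iff hcomm hcr hnp n c r2 g2 1 b2).1 h5
    have h7' : FreeGroup.mk r2 ∉ Subgroup.normalClosure {FreeGroup.mk c} := by
      rw [← hmemc]
      simpa using h7
    refine ⟨⟨fun h => absurd h (by simp), fun h => ?_⟩, fun _ => not_rs_of_crt h8 h7',
      fun h => absurd h (by simp)⟩
    exact absurd (by rw [← h]; exact crt_le one_pos h8 (Subgroup.subset_normalClosure rfl)) h7'
  · -- all certificates are trivial
    rw [List.all_eq_true] at h4
    refine ⟨⟨fun _ => ?_, fun _ => rfl⟩, fun h => absurd h (by simp), fun h => absurd h (by simp)⟩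
    rw [← hEiff, ← hmemc]
    have h5 := h4 _ hqmem
    rw [hqC] at h5
    simpa using h5
  · -- unknown
    rw [List.all_eq_true] at h4
    push Not at h4
    obtain ⟨q, hq, hq'⟩ := h4
    obtain ⟨r2, g2, k2, b2, hk2, rfl⟩ := hup q hq
    have h5 : isC commB cr np (up n c) (up n r2, k2, up n g2, b2) = true ∧
        memB (up n c, up n r2) = false := by
      cases h6 : isC commB cr np (up n c) (up n r2, k2, up n g2, b2) <;>
      cases h7 : memB (up n c, up n r2) <;>
      simp [h6, h7] at hq' ⊢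
    obtain ⟨-, -, -, h8⟩ := (isC_iff hcomm hcr hnp n c r2 g2 k2 b2).1 h5.1
    have h7' : FreeGroup.mk r2 ∉ Subgroup.normalClosure {FreeGroup.mk c} := by
      rw [← hmemc, h5.2]
      simp
    have hne : rres (Subgroup.normalClosure {FreeGroup.mk c}) ≠
        Subgroup.normalClosure {FreeGroup.mk c} := by
      intro h
      exact h7' (by rw [← h]; exact crt_le hk2 h8 (Subgroup.subset_normalClosure rfl))
    refine ⟨⟨fun h => absurd h (by simp), fun h => absurd h hne⟩, fun h => absurd h (by simp),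
      fun _ => ?_⟩
    have hk1 : k ≠ 1 := by
      rintro rfl
      apply h3
      rw [List.any_eq_true]
      refine ⟨_, hqmem, ?_⟩
      rw [Bool.and_eq_true, Bool.and_eq_true]
      refine ⟨⟨hqC, by simp⟩, ?_⟩
      have h9 : ¬ (memB (up n c, up n w') = true) := by
        rw [hmemc, hEiff]
        exact hne
      simpa using h9
    have hEn := rres_normal (Subgroup.normalClosure {FreeGroup.mk c})
    refine ⟨FreeGroup.mk g * (if b then FreeGroup.mk w' else (FreeGroup.mk w')⁻¹) *
      (FreeGroup.mk g)⁻¹, ?_, k, by omega, ?_⟩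
    · refine hEn.conj_mem _ ?_ _
      have h9 : FreeGroup.mk w' ∈ rres (Subgroup.normalClosure {FreeGroup.mk c}) := by
        rw [hE]
        exact Subgroup.subset_normalClosure rfl
      split_ifs
      · exact h9
      · exact Subgroup.inv_mem _ h9
    · rw [conj_pow]
      have h9 := hcrt
      rw [Crt, ← hE] at h9
      exact h9

theorem alg_spec
    (hmem : ∀ r u, FreeGroup.IsCyclicallyReduced r → r ≠ [] → NPw (FreeGroup.mk r) →
      (memB (r, u) = true ↔ FreeGroup.mk u ∈ Subgroup.normalClosure {FreeGroup.mk r}))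
    (hcomm : ∀ r u, FreeGroup.IsCyclicallyReduced r → r ≠ [] → NPw (FreeGroup.mk r) →
      (commB (r, u) = true ↔ FreeGroup.mk u ∈ ⁅Subgroup.normalClosure {FreeGroup.mk r},
        Subgroup.normalClosure {FreeGroup.mk r}⁆))
    (hcyc : ∀ w, FreeGroup.IsCyclicallyReduced (cyc w) ∧ (∀ p ∈ cyc w, p ∈ w) ∧
      ∃ g, FreeGroup.mk (cyc w) = g * FreeGroup.mk w * g⁻¹)
    (hcr : ∀ w, cr w = true ↔ FreeGroup.IsCyclicallyReduced w)
    (hnp : ∀ w, FreeGroup.IsCyclicallyReduced w → (np w = true ↔ NPw (FreeGroup.mk w)))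
    (n : ℕ) (w : Wo) : Spec n (relator n w) (alg memB commB cyc cr np (n, w)) := by
  obtain ⟨h1, h2, g, h3⟩ := hcyc (w.filter fun z => z.1 < n)
  rw [alg]
  obtain ⟨c, hc⟩ := exists_up n (cyc (w.filter fun z => z.1 < n)) (by
    intro p hp
    have := List.of_mem_filter (h2 p hp)
    simpa using this)
  have hcyc' : FreeGroup.IsCyclicallyReduced c := by
    rw [← cycRed_up, hc]
    exact h1
  have h4 := algC_spec hmem hcomm hcr hnp n c hcyc'
  rw [hc] at h4
  have h5 : FreeGroup.mk c = rho n g * relator n w * (rho n g)⁻¹ := by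
    have h6 := congrArg (rho n) h3
    rw [map_mul, map_mul, map_inv, rho_mk_filter, ← hc, ← inc_mk, rho_inc] at h6
    exact h6
  have h6 : Subgroup.normalClosure {FreeGroup.mk c} = Subgroup.normalClosure {relator n w} := by
    rw [h5, corr_ncl_conj]
  have hN := rres_normal (Subgroup.normalClosure {relator n w})
  obtain ⟨ha, hb, hd⟩ := h4
  simp only [h6] at ha hd
  refine ⟨ha, fun h hRS => hb h ?_, fun h => ?_⟩
  · exact rs_of_injective (QuotientGroup.quotientMulEquivOfEq h6).toMonoidHom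
      (QuotientGroup.quotientMulEquivOfEq h6).injective hRS
  obtain ⟨y, hy, k, hk, hyk⟩ := hd h
  refine ⟨(rho n g)⁻¹ * y * (rho n g)⁻¹⁻¹, hN.conj_mem _ hy _, k, hk, ?_⟩
  have hCN : (⁅rres (Subgroup.normalClosure {relator n w}),
      rres (Subgroup.normalClosure {relator n w})⁆).Normal := inferInstance
  have h7 := hCN.conj_mem _ hyk (rho n g)⁻¹
  rw [h5] at h7
  rw [conj_pow]
  have h8 : (rho n g)⁻¹ * (rho n g * relator n w * (rho n g)⁻¹ * (y ^ k)⁻¹) * (rho n g)⁻¹⁻¹ =
      relator n w * ((rho n g)⁻¹ * y ^ k * (rho n g)⁻¹⁻¹)⁻¹ := by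
    group
  rw [h8] at h7
  exact h7

end Main

/-- the main theorem with the specification in terms of the free group of rank `n` -/
theorem exists_alg : ∃ f : ℕ × Wo → Option Bool, Computable f ∧
    ∀ n w, Spec n (relator n w) (f (n, w)) := by
  obtain ⟨memB, h1, hmem⟩ := exists_memB
  obtain ⟨commB, h2, hcomm⟩ := exists_commB
  obtain ⟨cyc, h3, hcyc⟩ := exists_cycB
  obtain ⟨cr, h4, hcr⟩ := isCycReduced_computable
  obtain ⟨np, h5, hnp⟩ := exists_npwB
  exact ⟨alg memB commB cyc cr np, alg_computable h1 h2 h3 h4 h5,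
    fun n w => alg_spec hmem hcomm hcyc hcr hnp n w⟩

end Pool.Agent.ROR
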