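import Pool.Agent.ROR.MagDefs
import Mathlib.Computability.Primrec.List
import Mathlib.Computability.Partrec

/-!
# Cyclic reduction and proper powers are computable (project ROR, MP_08b746_al)
-/

set_option autoImplicit false

namespace Pool.Agent.ROR

open FreeGroup (of)

section M8

/-- one step of the reduction of a word -/
def redStep (a : ℕ × Bool) (l : List (ℕ × Bool)) : List (ℕ × Bool) :=
  Option.casesOn l.head? [a] fun b => if a.1 = b.1 ∧ a.2 = (!b.2) then l.tail else a :: l

theorem foldr_redStep (w : List (ℕ × Bool)) : w.foldr redStep [] = FreeGroup.reduce w := by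
  induction w with
  | nil => rfl
  | cons a w ih =>
    rw [List.foldr_cons, ih, FreeGroup.reduce.cons]
    cases h : FreeGroup.reduce w with
    | nil => simp [redStep]
    | cons b l => simp [redStep]

/-- strip the first and the last letter if they cancel -/
def strip (w : List (ℕ × Bool)) : List (ℕ × Bool) :=
  Option.casesOn w.head? w fun a => Option.casesOn w.reverse.head? w fun b =>
    if b.1 = a.1 ∧ (!b.2) = a.2 then w.tail.reverse.tail.reverse else w

theorem strip_nil : strip [] = [] := rfl

theorem strip_singleton (a : ℕ × Bool) : strip [a] = [a] := by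
  simp [strip]

theorem strip_cons_append (a b : ℕ × Bool) (l : List (ℕ × Bool)) :
    strip (a :: (l ++ [b])) = if b.1 = a.1 ∧ (!b.2) = a.2 then l else a :: l ++ [b] := by
  simp [strip]

theorem strip_iterate (w : List (ℕ × Bool)) : ∀ n, w.length ≤ n →
    strip^[n] w = FreeGroup.reduceCyclically w := by
  induction w using List.bidirectionalRec with
  | nil =>
    intro n _
    rw [FreeGroup.reduceCyclically.nil]
    exact Function.iterate_fixed strip_nil n
  | singleton a =>
    intro n _
    rw [FreeGroup.reduceCyclically.singleton]
    exact Function.iterate_fixed (strip_singleton a) n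
  | cons_append a l b ih =>
    intro n hn
    rw [FreeGroup.reduceCyclically.cons_append]
    split_ifs with h
    · obtain ⟨m, rfl⟩ : ∃ m, n = m + 1 := ⟨n - 1, by simp at hn; omega⟩
      rw [Function.iterate_succ_apply, strip_cons_append, if_pos h]
      exact ih m (by simp at hn; omega)
    · have h1 : strip (a :: (l ++ [b])) = a :: (l ++ [b]) := by
        rw [strip_cons_append, if_neg h]; rfl
      exact Function.iterate_fixed h1 n

theorem isCyclicallyReduced_iff_strip (w : List (ℕ × Bool)) :
    FreeGroup.IsCyclicallyReduced w ↔ w.foldr redStep [] = w ∧ strip w = w := by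
  rw [foldr_redStep, ← FreeGroup.isReduced_iff_reduce_eq]
  induction w using List.bidirectionalRec with
  | nil => simp [strip_nil]
  | singleton a => simp [strip_singleton]
  | cons_append a l b _ =>
    rw [strip_cons_append]
    have h := FreeGroup.isCyclicallyReduced_cons_append_iff (L := l) (a := b) (b := a)
    rw [List.cons_append] at h
    rw [h]
    refine and_congr_right fun _ => ?_
    split_ifs with hc
    · constructor
      · intro h2
        have := h2 hc.1
        rw [← hc.2] at this
        simp at this
      · intro h2
        have := congrArg List.length h2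
        simp at this
        omega
    · constructor
      · intro _
        simp
      · intro _ h1
        by_contra h2
        exact hc ⟨h1, by revert h2; cases b.2 <;> cases a.2 <;> simp⟩

theorem cancel_primrec {α : Type*} [Primcodable α] {f g : α → ℕ × Bool} (hf : Primrec f)
    (hg : Primrec g) : PrimrecPred fun x => (f x).1 = (g x).1 ∧ (f x).2 = (!(g x).2) :=
  (Primrec.eq.comp (Primrec.fst.comp hf) (Primrec.fst.comp hg)).and
    (Primrec.eq.comp (Primrec.snd.comp hf) (Primrec.not.comp (Primrec.snd.comp hg)))

theorem redStep_primrec : Primrec₂ redStep := by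
  have h : Primrec fun p : (ℕ × Bool) × List (ℕ × Bool) => redStep p.1 p.2 :=
    Primrec.option_casesOn (Primrec.list_head?.comp Primrec.snd)
      (Primrec.list_cons.comp Primrec.fst (Primrec.const [])) (Primrec.ite
        (cancel_primrec (Primrec.fst.comp Primrec.fst) Primrec.snd)
        (Primrec.list_tail.comp (Primrec.snd.comp Primrec.fst))
        (Primrec.list_cons.comp (Primrec.fst.comp Primrec.fst) (Primrec.snd.comp Primrec.fst)))
  exact h

theorem reduce_primrec : Primrec fun w : List (ℕ × Bool) => w.foldr redStep [] :=
  Primrec.list_foldr (h := fun _ p => redStep p.1 p.2) Primrec.id (Primrec.const [])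
    (redStep_primrec.comp (Primrec.fst.comp Primrec.snd) (Primrec.snd.comp Primrec.snd))

theorem strip_primrec : Primrec strip := by
  have h : Primrec fun w : List (ℕ × Bool) => strip w := by
    refine Primrec.option_casesOn Primrec.list_head? Primrec.id ?_
    have h2 : Primrec fun p : List (ℕ × Bool) × (ℕ × Bool) =>
        (Option.casesOn p.1.reverse.head? p.1 fun b =>
          if b.1 = p.2.1 ∧ (!b.2) = p.2.2 then p.1.tail.reverse.tail.reverse else p.1 :
          List (ℕ × Bool)) := by
      refine Primrec.option_casesOn
        (Primrec.list_head?.comp (Primrec.list_reverse.comp Primrec.fst)) Primrec.fst ?_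
      refine Primrec.ite ?_ ?_ (Primrec.fst.comp Primrec.fst)
      · have h3 := cancel_primrec (α := (List (ℕ × Bool) × (ℕ × Bool)) × (ℕ × Bool))
          (Primrec.snd.comp Primrec.fst) Primrec.snd
        refine h3.of_eq fun x => ?_
        constructor
        · rintro ⟨h4, h5⟩
          exact ⟨h4.symm, h5.symm⟩
        · rintro ⟨h4, h5⟩
          exact ⟨h4.symm, h5.symm⟩
      · exact Primrec.list_reverse.comp (Primrec.list_tail.comp (Primrec.list_reverse.comp
          (Primrec.list_tail.comp (Primrec.fst.comp Primrec.fst))))
    exact h2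
  exact h

theorem iterate_strip_primrec : Primrec fun w : List (ℕ × Bool) => strip^[w.length] w :=
  Primrec.nat_iterate Primrec.list_length Primrec.id (strip_primrec.comp Primrec.snd)

theorem exists_cycB : ∃ cyc : List (ℕ × Bool) → List (ℕ × Bool), Computable cyc ∧
    ∀ w, FreeGroup.IsCyclicallyReduced (cyc w) ∧ (∀ p ∈ cyc w, p ∈ w) ∧
      ∃ g, FreeGroup.mk (cyc w) = g * FreeGroup.mk w * g⁻¹ := by
  refine ⟨fun w => strip^[(w.foldr redStep []).length] (w.foldr redStep []),
    (iterate_strip_primrec.comp reduce_primrec).to_comp, fun w => ?_⟩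
  beta_reduce
  rw [strip_iterate _ _ le_rfl, foldr_redStep]
  have hc := FreeGroup.reduceCyclically.conj_conjugator_reduceCyclically (FreeGroup.reduce w)
  refine ⟨FreeGroup.reduceCyclically.isCyclicallyReduced (FreeGroup.isReduced_iff_reduce_eq.2 FreeGroup.reduce.idem),
    fun p hp => ?_, (FreeGroup.mk (FreeGroup.reduceCyclically.conjugator
      (FreeGroup.reduce w)))⁻¹, ?_⟩
  · have h1 : p ∈ FreeGroup.reduce w := by
      rw [← hc]
      simp [hp]
    exact (FreeGroup.reduce.red (L := w)).sublist.subset h1
  · have h1 : FreeGroup.mk w = FreeGroup.mk (FreeGroup.reduce w) := FreeGroup.reduce.self.symm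
    have h2 := congrArg FreeGroup.mk hc
    rw [← FreeGroup.mul_mk, ← FreeGroup.mul_mk, ← FreeGroup.inv_mk] at h2
    rw [h1, ← h2]
    group

theorem isCycReduced_computable : ∃ cr : List (ℕ × Bool) → Bool, Computable cr ∧
    ∀ w, cr w = true ↔ FreeGroup.IsCyclicallyReduced w := by
  have h : PrimrecPred fun w : List (ℕ × Bool) => w.foldr redStep [] = w ∧ strip w = w :=
    (Primrec.eq.comp reduce_primrec Primrec.id).and (Primrec.eq.comp strip_primrec Primrec.id)
  obtain ⟨_, h⟩ := h
  refine ⟨_, h.to_comp, fun w => ?_⟩
  rw [isCyclicallyReduced_iff_strip]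
  simp

/-- the `k`-th power of the prefix of length `|w| / k` of `w` -/
def candPow (w : List (ℕ × Bool)) (k : ℕ) : List (ℕ × Bool) :=
  (List.replicate k (w.take (w.length / k))).flatten

theorem candPow_primrec : Primrec₂ candPow := by
  have h : Primrec fun p : List (ℕ × Bool) × ℕ =>
      ((fun l => p.1.take (p.1.length / p.2) ++ l)^[p.2] [] : List (ℕ × Bool)) :=
    Primrec.nat_iterate Primrec.snd (Primrec.const [])
      (Primrec.list_append.comp (Primrec.list_take.comp (Primrec.nat_div.comp
        (Primrec.list_length.comp (Primrec.fst.comp Primrec.fst)) (Primrec.snd.comp Primrec.fst))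
        (Primrec.fst.comp Primrec.fst)) Primrec.snd)
  refine h.of_eq fun p => ?_
  have key : ∀ (v : List (ℕ × Bool)) (n : ℕ),
      ((fun l => v ++ l)^[n] [] : List (ℕ × Bool)) = (List.replicate n v).flatten := by
    intro v n
    induction n with
    | zero => rfl
    | succ n ih =>
      rw [Function.iterate_succ_apply', ih, List.replicate_succ, List.flatten_cons]
  exact key _ _

theorem npw_iff (w : List (ℕ × Bool)) (hw : FreeGroup.IsCyclicallyReduced w) :
    NPw (FreeGroup.mk w) ↔ ∀ k < w.length + 1, k = 1 ∨ candPow w k ≠ w := by
  constructor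
  · intro h k _
    by_contra hc
    obtain ⟨h1, h2⟩ := not_or.1 hc
    rw [not_not] at h2
    refine h1 (h (FreeGroup.mk (w.take (w.length / k))) k ?_)
    rw [FreeGroup.pow_mk]
    exact congrArg FreeGroup.mk h2
  · intro h g k hk
    have h0 : w ≠ [] := by
      rintro rfl
      have := h 0 (by simp)
      simp [candPow] at this
    have hred : FreeGroup.reduce w = w := FreeGroup.isReduced_iff_reduce_eq.1 hw.1
    have hgr : FreeGroup.IsReduced g.toWord := FreeGroup.isReduced_toWord
    have h1 : FreeGroup.reduce (List.replicate k g.toWord).flatten = w := by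
      have := congrArg FreeGroup.toWord hk
      rw [FreeGroup.toWord_pow, FreeGroup.toWord_mk, hred] at this
      exact this
    rw [FreeGroup.reduceCyclically.reduce_flatten_replicate hgr] at h1
    have hk0 : k ≠ 0 := by
      rintro rfl
      simp at h1
      exact h0 h1
    rw [if_neg hk0] at h1
    set c := FreeGroup.reduceCyclically.conjugator g.toWord with hc
    set v := FreeGroup.reduceCyclically g.toWord with hv
    have hcn : c = [] := by
      rcases c with _ | ⟨a, c⟩
      · rfl
      · exfalso
        have h2 := hw.2
        rw [← h1] at h2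
        have h4 : a :: c ++ (List.replicate k v).flatten ++ FreeGroup.invRev (a :: c) =
            (a :: c ++ (List.replicate k v).flatten ++ FreeGroup.invRev c) ++ [(a.1, !a.2)] := by
          simp [FreeGroup.invRev]
        have h3 := h2 (a.1, !a.2) (by rw [h4, List.getLast?_concat]; rfl) a (by simp)
        simp at h3
    rw [hcn] at h1
    have h2 : (List.replicate k v).flatten = w := by simpa [FreeGroup.invRev] using h1
    have hlen : w.length = k * v.length := by
      rw [← h2]; simp
    have hv0 : 0 < v.length := by
      rcases Nat.eq_zero_or_pos v.length with h3 | h3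
      · rw [h3, mul_zero] at hlen
        exact absurd (List.eq_nil_of_length_eq_zero hlen) h0
      · exact h3
    have hkl : k < w.length + 1 := by
      rw [hlen]
      exact Nat.lt_succ_of_le (Nat.le_mul_of_pos_right k hv0)
    rcases h k hkl with h3 | h3
    · exact h3
    · exfalso
      apply h3
      have h4 : w.length / k = v.length := by
        rw [hlen]
        exact Nat.mul_div_cancel_left _ (Nat.pos_of_ne_zero hk0)
      have h5 : w.take v.length = v := by
        obtain ⟨m, rfl⟩ := Nat.exists_eq_succ_of_ne_zero hk0
        rw [← h2, List.replicate_succ, List.flatten_cons]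
        simp
      rw [candPow, h4, h5, h2]

theorem exists_npwB : ∃ np : List (ℕ × Bool) → Bool, Computable np ∧
    ∀ w, FreeGroup.IsCyclicallyReduced w → (np w = true ↔ NPw (FreeGroup.mk w)) := by
  have h1 : PrimrecRel fun (k : ℕ) (w : List (ℕ × Bool)) => k = 1 ∨ candPow w k ≠ w :=
    (Primrec.eq.comp Primrec.fst (Primrec.const 1)).or
      (Primrec.eq.comp (candPow_primrec.comp Primrec.snd Primrec.fst) Primrec.snd).not
  have h1' : PrimrecRel fun (n : ℕ) (w : List (ℕ × Bool)) =>
      ∀ k < n, k = 1 ∨ candPow w k ≠ w :=
    (h1.forall_mem_list.comp (Primrec.list_range.comp Primrec.fst) Primrec.snd).of_eq (by simp)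
  have h2 : PrimrecPred fun w : List (ℕ × Bool) =>
      ∀ k < w.length + 1, k = 1 ∨ candPow w k ≠ w :=
    h1'.comp (Primrec.succ.comp Primrec.list_length) Primrec.id
  obtain ⟨_, h3⟩ := h2
  refine ⟨_, h3.to_comp, fun w hw => ?_⟩
  rw [npw_iff w hw]
  simp

end M8

end Pool.Agent.ROR
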