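import Pool.Agent.ROR.MagDefs

/-!
# Level words (project ROR, MP_08b746_al, section M3)
-/

set_option autoImplicit false

namespace Pool.Agent.ROR

open FreeGroup (of)

section M3
variable {X : Type*} (c : X → ℤ)

theorem mk_cons_true {Y : Type*} (y : Y) (w : List (Y × Bool)) :
    FreeGroup.mk ((y, true) :: w) = of y * FreeGroup.mk w := by
  rw [FreeGroup.of, FreeGroup.mul_mk]; rfl

theorem mk_cons_false {Y : Type*} (y : Y) (w : List (Y × Bool)) :
    FreeGroup.mk ((y, false) :: w) = (of y)⁻¹ * FreeGroup.mk w := by
  rw [FreeGroup.of, FreeGroup.inv_mk, FreeGroup.mul_mk]; rfl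

theorem tau_of_none : tau c (of none) = Multiplicative.ofAdd 1 := by
  simp [tau]

theorem tau_of_some (x : X) : tau c (of (some x)) = Multiplicative.ofAdd (c x) := by
  simp [tau]

/-- additive form of the height of a word -/
def ht (w : List (Option X × Bool)) : ℤ := Multiplicative.toAdd (tau c (FreeGroup.mk w))

theorem ht_nil : ht c [] = 0 := by
  simp [ht, ← FreeGroup.one_eq_mk]

theorem ht_none_true (w : List (Option X × Bool)) : ht c ((none, true) :: w) = 1 + ht c w := by
  simp [ht, mk_cons_true, tau_of_none]

theorem ht_none_false (w : List (Option X × Bool)) : ht c ((none, false) :: w) = -1 + ht c w := by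
  simp [ht, mk_cons_false, tau_of_none]

theorem ht_some_true (x : X) (w : List (Option X × Bool)) :
    ht c ((some x, true) :: w) = c x + ht c w := by
  simp [ht, mk_cons_true, tau_of_some]

theorem ht_some_false (x : X) (w : List (Option X × Bool)) :
    ht c ((some x, false) :: w) = -c x + ht c w := by
  simp [ht, mk_cons_false, tau_of_some]

theorem lw_spec_aux (w : List (Option X × Bool)) : ∀ h : ℤ,
    iota c (FreeGroup.mk (lw c h w)) = st X ^ h * FreeGroup.mk w * st X ^ (-(h + ht c w)) := by
  induction w with
  | nil => intro h; simp [lw, ht_nil, ← FreeGroup.one_eq_mk]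
  | cons a w ih =>
    intro h
    obtain ⟨o, b⟩ := a
    cases o with
    | none =>
      cases b with
      | true =>
        rw [lw, ih, mk_cons_true, ht_none_true]
        rw [show -(h + 1 + ht c w) = -(h + (1 + ht c w)) by ring, zpow_add]
        simp only [zpow_one, mul_assoc]
      | false =>
        rw [lw, ih, mk_cons_false, ht_none_false]
        rw [show -(h - 1 + ht c w) = -(h + (-1 + ht c w)) by ring, sub_eq_add_neg, zpow_add]
        simp only [zpow_neg_one, mul_assoc]
    | some x =>
      cases b with
      | true =>
        rw [lw, mk_cons_true, map_mul, ih, mk_cons_true, ht_some_true]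
        rw [show -(h + c x + ht c w) = -(h + (c x + ht c w)) by ring]
        have : iota c (of (x, h)) = st X ^ h * of (some x) * st X ^ (-h - c x) := by simp [iota]
        rw [this, show -h - c x = -(h + c x) by ring, zpow_neg _ (h + c x)]
        simp only [mul_assoc, inv_mul_cancel_left]
      | false =>
        rw [lw, mk_cons_false, map_mul, ih, mk_cons_false, ht_some_false]
        rw [show -(h - c x + ht c w) = -(h + (-c x + ht c w)) by ring]
        have : iota c (of (x, h - c x)) = st X ^ (h - c x) * of (some x) * st X ^ (-h) := by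
          simp [iota]
        rw [map_inv, this, zpow_neg]
        simp only [mul_inv_rev, inv_inv, mul_assoc, inv_mul_cancel_left]

theorem lw_spec (h : ℤ) (w : List (Option X × Bool)) :
    iota c (FreeGroup.mk (lw c h w)) = st X ^ h * FreeGroup.mk w *
      st X ^ (-(h + Multiplicative.toAdd (tau c (FreeGroup.mk w)))) :=
  lw_spec_aux c w h

theorem lw_length (h : ℤ) (w : List (Option X × Bool)) : (lw c h w).length ≤ w.length := by
  induction w generalizing h with
  | nil => simp [lw]
  | cons a w ih =>
    obtain ⟨o, b⟩ := a
    cases o <;> cases b <;> simp only [lw, List.length_cons]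
    · exact (ih _).trans (Nat.le_succ _)
    · exact (ih _).trans (Nat.le_succ _)
    · exact Nat.succ_le_succ (ih _)
    · exact Nat.succ_le_succ (ih _)

theorem lw_length_lt (h : ℤ) (w : List (Option X × Bool)) (hs : ∃ b, (none, b) ∈ w) :
    (lw c h w).length < w.length := by
  induction w generalizing h with
  | nil => simp at hs
  | cons a w ih =>
    obtain ⟨o, b⟩ := a
    cases o with
    | none =>
      cases b <;> simp only [lw, List.length_cons] <;>
        exact Nat.lt_succ_of_le (lw_length c _ w)
    | some x =>
      have hs' : ∃ b, (none, b) ∈ w := by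
        obtain ⟨b', hb'⟩ := hs
        simp only [List.mem_cons, Prod.mk.injEq, reduceCtorEq, false_and, false_or] at hb'
        exact ⟨b', hb'⟩
      cases b <;> simp only [lw, List.length_cons] <;> exact Nat.succ_lt_succ (ih _ hs')

theorem lw_length_eq (h : ℤ) (w : List (Option X × Bool)) (hs : ∀ b, (none, b) ∉ w) :
    (lw c h w).length = w.length := by
  induction w generalizing h with
  | nil => simp [lw]
  | cons a w ih =>
    obtain ⟨o, b⟩ := a
    cases o with
    | none => exact absurd List.mem_cons_self (hs b)
    | some x =>
      have hs' : ∀ b, (none, b) ∉ w := fun b' hb' => hs b' (List.mem_cons_of_mem _ hb')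
      cases b <;> simp only [lw, List.length_cons] <;> rw [ih _ hs']

theorem mem_lw_fst (h : ℤ) (w : List (Option X × Bool)) (x : X) :
    (∃ b, (some x, b) ∈ w) ↔ ∃ j b, ((x, j), b) ∈ lw c h w := by
  induction w generalizing h with
  | nil => simp [lw]
  | cons a w ih =>
    obtain ⟨o, b⟩ := a
    cases o with
    | none =>
      have e : (∃ b', (some x, b') ∈ (none, b) :: w) ↔ ∃ b', (some x, b') ∈ w := by simp
      rw [e]
      cases b <;> simp only [lw] <;> exact ih _
    | some y =>
      by_cases hxy : x = y
      · subst hxy
        refine iff_of_true ⟨b, List.mem_cons_self⟩ ?_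
        cases b
        · exact ⟨_, false, by rw [lw]; exact List.mem_cons_self⟩
        · exact ⟨_, true, by rw [lw]; exact List.mem_cons_self⟩
      · have e : (∃ b', (some x, b') ∈ (some y, b) :: w) ↔ ∃ b', (some x, b') ∈ w := by
          simp [hxy]
        rw [e]
        cases b
        · rw [lw, ih (h - c y)]
          simp [hxy]
        · rw [lw, ih (h + c y)]
          simp [hxy]

/-- the level of a letter read at height `h` -/
def lev (h : ℤ) (x : X) (b : Bool) : ℤ := if b then h else h - c x

/-- the height after a letter read at height `h` -/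
def nxt (h : ℤ) (x : X) (b : Bool) : ℤ := if b then h + c x else h - c x

theorem lw_some (h : ℤ) (x : X) (b : Bool) (w : List (Option X × Bool)) :
    lw c h ((some x, b) :: w) = ((x, lev c h x b), b) :: lw c (nxt c h x b) w := by
  cases b <;> simp [lw, lev, nxt]

theorem lw_reduced_aux (w : List (Option X × Bool)) :
    ∀ (h : ℤ) (x : X) (b : Bool) (e : ℤ),
      (e = 0 → FreeGroup.IsReduced ((some x, b) :: w)) →
      (0 < e → FreeGroup.IsReduced ((none, true) :: w)) →
      (e < 0 → FreeGroup.IsReduced ((none, false) :: w)) →
      FreeGroup.IsReduced (((x, lev c h x b), b) :: lw c (nxt c h x b + e) w) := by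
  induction w with
  | nil => intro h x b e _ _ _; simp [lw, FreeGroup.IsReduced]
  | cons a w ih =>
    intro h x b e h0 hp hn
    have hred : FreeGroup.IsReduced (a :: w) := by
      rcases lt_trichotomy e 0 with he | he | he
      · exact (List.isChain_cons_cons.1 (hn he)).2
      · exact (List.isChain_cons_cons.1 (h0 he)).2
      · exact (List.isChain_cons_cons.1 (hp he)).2
    obtain ⟨o, b'⟩ := a
    cases o with
    | none =>
      cases b' with
      | true =>
        have he : 0 ≤ e := by
          by_contra hlt
          have := (List.isChain_cons_cons.1 (hn (not_le.1 hlt))).1 rfl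
          simp at this
        rw [lw, add_assoc]
        exact ih h x b (e + 1) (fun h' => by omega) (fun _ => hred) (fun h' => by omega)
      | false =>
        have he : e ≤ 0 := by
          by_contra hlt
          have := (List.isChain_cons_cons.1 (hp (not_le.1 hlt))).1 rfl
          simp at this
        rw [lw, show nxt c h x b + e - 1 = nxt c h x b + (e - 1) by ring]
        exact ih h x b (e - 1) (fun h' => by omega) (fun h' => by omega) (fun _ => hred)
    | some y =>
      rw [lw_some]
      refine List.isChain_cons_cons.2 ⟨?_, ?_⟩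
      · intro hxy
        simp only [Prod.mk.injEq] at hxy
        obtain ⟨rfl, hl⟩ := hxy
        by_cases he : e = 0
        · exact (List.isChain_cons_cons.1 (h0 he)).1 rfl
        · by_contra hb
          simp only at hb
          cases b <;> cases b' <;> simp [lev, nxt] at hl hb <;> omega
      · have := ih (nxt c h x b + e) y b' 0 (fun _ => hred) (fun h' => absurd h' (lt_irrefl 0))
          (fun h' => absurd h' (lt_irrefl 0))
        rwa [add_zero] at this

theorem lw_reduced (h : ℤ) (w : List (Option X × Bool)) (hw : FreeGroup.IsReduced w) :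
    FreeGroup.IsReduced (lw c h w) := by
  induction w generalizing h with
  | nil => simp [lw, FreeGroup.IsReduced]
  | cons a w ih =>
    have hw' : FreeGroup.IsReduced w := List.IsChain.tail hw
    obtain ⟨o, b⟩ := a
    cases o with
    | none => cases b <;> simp only [lw] <;> exact ih _ hw'
    | some x =>
      rw [lw_some]
      have := lw_reduced_aux c w h x b 0 (fun _ => hw) (fun h' => absurd h' (lt_irrefl 0))
          (fun h' => absurd h' (lt_irrefl 0))
      rwa [add_zero] at this

theorem lw_append (h : ℤ) (u v : List (Option X × Bool)) :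
    lw c h (u ++ v) = lw c h u ++ lw c (h + ht c u) v := by
  induction u generalizing h with
  | nil => simp [lw, ht_nil]
  | cons a u ih =>
    obtain ⟨o, b⟩ := a
    cases o with
    | none =>
      cases b with
      | true => rw [List.cons_append, lw, lw, ih, ht_none_true, add_assoc]
      | false =>
        rw [List.cons_append, lw, lw, ih, ht_none_false,
          show h - 1 + ht c u = h + (-1 + ht c u) by ring]
    | some x =>
      cases b with
      | true => rw [List.cons_append, lw, lw, ih, ht_some_true, add_assoc, List.cons_append]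
      | false =>
        rw [List.cons_append, lw, lw, ih, ht_some_false,
          show h - c x + ht c u = h + (-c x + ht c u) by ring, List.cons_append]

theorem lw_cycReduced (h : ℤ) (w : List (Option X × Bool))
    (hw : FreeGroup.IsCyclicallyReduced w) (ht : tau c (FreeGroup.mk w) = 1) :
    FreeGroup.IsCyclicallyReduced (lw c h w) := by
  have h0 : Pool.Agent.ROR.ht c w = 0 := by
    unfold Pool.Agent.ROR.ht
    rw [ht]; rfl
  have h2 : FreeGroup.IsReduced (w ++ w) := by
    have := (hw.flatten_replicate 2).1
    simpa [List.replicate_succ] using this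
  have h3 := lw_reduced c h (w ++ w) h2
  rw [lw_append, h0, add_zero] at h3
  exact ⟨lw_reduced c h w hw.1, (List.isChain_append.1 h3).2.2⟩

theorem lw_level (h : ℤ) (w : List (Option X × Bool)) (Λ : ℕ) (hc : ∀ x, (c x).natAbs ≤ Λ)
    (p : X × ℤ) (b : Bool) (hp : (p, b) ∈ lw c h w) :
    p.2.natAbs ≤ h.natAbs + (Λ + 1) * w.length := by
  induction w generalizing h with
  | nil => simp [lw] at hp
  | cons a w ih =>
    have key : (Λ + 1) * (a :: w).length = (Λ + 1) * w.length + (Λ + 1) := by
      rw [List.length_cons]; ring
    rw [key]
    obtain ⟨o, b'⟩ := a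
    cases o with
    | none =>
      cases b' with
      | true =>
        rw [lw] at hp
        have := ih _ hp
        omega
      | false =>
        rw [lw] at hp
        have := ih _ hp
        omega
    | some x =>
      have hx := hc x
      cases b' with
      | true =>
        rw [lw, List.mem_cons] at hp
        rcases hp with hp | hp
        · rw [Prod.mk.injEq] at hp
          rw [hp.1]
          simp only
          omega
        · have := ih _ hp
          omega
      | false =>
        rw [lw, List.mem_cons] at hp
        rcases hp with hp | hp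
        · rw [Prod.mk.injEq] at hp
          rw [hp.1]
          simp only
          omega
        · have := ih _ hp
          omega

theorem lw_shift (h n : ℤ) (w : List (Option X × Bool)) :
    lw c (h + n) w = (lw c h w).map fun p => ((p.1.1, p.1.2 + n), p.2) := by
  induction w generalizing h with
  | nil => simp [lw]
  | cons a w ih =>
    obtain ⟨o, b⟩ := a
    cases o with
    | none =>
      cases b with
      | true => rw [lw, lw, ← ih, show h + n + 1 = h + 1 + n by ring]
      | false => rw [lw, lw, ← ih, show h + n - 1 = h - 1 + n by ring]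
    | some x =>
      cases b with
      | true => rw [lw, lw, List.map_cons, ← ih, show h + n + c x = h + c x + n by ring]
      | false => rw [lw, lw, List.map_cons, ← ih, show h + n - c x = h - c x + n by ring]

theorem nlet_le_length {Y : Type*} (w : List (Y × Bool)) : nlet w ≤ w.length := by
  classical
  unfold nlet
  refine (List.toFinset_card_le _).trans ?_
  rw [List.length_map]

theorem nlet_eq {Y : Type*} [DecidableEq Y] (w : List (Y × Bool)) :
    nlet w = (w.map Prod.fst).toFinset.card := by
  unfold nlet
  refine congrArg Finset.card ?_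
  ext z
  simp only [List.mem_toFinset]

theorem mem_map_fst {Y : Type*} (w : List (Y × Bool)) (y : Y) :
    y ∈ w.map Prod.fst ↔ ∃ b, (y, b) ∈ w := by
  rw [List.mem_map]
  constructor
  · rintro ⟨⟨y', b⟩, h, rfl⟩
    exact ⟨b, h⟩
  · rintro ⟨b, h⟩
    exact ⟨(y, b), h, rfl⟩

theorem image_fst_lw [DecidableEq X] (h : ℤ) (w : List (X × Bool)) :
    ((lw c h (w.map fun p => (some p.1, p.2))).map Prod.fst).toFinset.image Prod.fst =
      (w.map Prod.fst).toFinset := by
  ext x
  have := mem_lw_fst c h (w.map fun p => (some p.1, p.2)) x
  simp only [Finset.mem_image, List.mem_toFinset, mem_map_fst]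
  constructor
  · rintro ⟨⟨x', j⟩, ⟨b, hb⟩, rfl⟩
    obtain ⟨b', hb'⟩ := this.2 ⟨j, b, hb⟩
    rw [List.mem_map] at hb'
    obtain ⟨⟨y, b''⟩, hy, hy'⟩ := hb'
    simp only [Prod.mk.injEq, Option.some.injEq] at hy'
    obtain ⟨rfl, rfl⟩ := hy'
    exact ⟨b'', hy⟩
  · rintro ⟨b, hb⟩
    obtain ⟨j, b', hj⟩ := this.1 ⟨b, List.mem_map.2 ⟨(x, b), hb, rfl⟩⟩
    exact ⟨(x, j), ⟨b', hj⟩, rfl⟩

/-- more letters if some letter has two levels -/
theorem nlet_lw (h : ℤ) (w : List (X × Bool)) :
    nlet w ≤ nlet (lw c h (w.map fun p => (some p.1, p.2))) := by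
  classical
  rw [nlet_eq, nlet_eq, ← image_fst_lw c h w]
  exact Finset.card_image_le

theorem nlet_lw_lt (h : ℤ) (w : List (X × Bool)) (x : X) (j j' : ℤ) (b b' : Bool) (hj : j ≠ j')
    (h1 : ((x, j), b) ∈ lw c h (w.map fun p => (some p.1, p.2)))
    (h2 : ((x, j'), b') ∈ lw c h (w.map fun p => (some p.1, p.2))) :
    nlet w < nlet (lw c h (w.map fun p => (some p.1, p.2))) := by
  classical
  rw [nlet_eq, nlet_eq, ← image_fst_lw c h w]
  refine lt_of_le_of_ne Finset.card_image_le fun heq => ?_
  have hinj := Finset.card_image_iff.1 heq
  have m1 : (x, j) ∈ (((lw c h (w.map fun p => (some p.1, p.2))).map Prod.fst).toFinset :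
      Set (X × ℤ)) := by
    rw [Finset.mem_coe, List.mem_toFinset, mem_map_fst]; exact ⟨b, h1⟩
  have m2 : (x, j') ∈ (((lw c h (w.map fun p => (some p.1, p.2))).map Prod.fst).toFinset :
      Set (X × ℤ)) := by
    rw [Finset.mem_coe, List.mem_toFinset, mem_map_fst]; exact ⟨b', h2⟩
  have := hinj m1 m2 rfl
  exact hj (Prod.mk.inj this).2

/-- restriction of a word to a set of letters -/
theorem exists_restrict {Y : Type*} (S : Set Y) (w : List (Y × Bool)) (h : ∀ p ∈ w, p.1 ∈ S) :
    ∃ w0 : List (S × Bool), w0.map (fun p => (p.1.1, p.2)) = w := by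
  induction w with
  | nil => exact ⟨[], rfl⟩
  | cons a w ih =>
    obtain ⟨w0, hw0⟩ := ih fun p hp => h p (List.mem_cons_of_mem _ hp)
    exact ⟨(⟨a.1, h a List.mem_cons_self⟩, a.2) :: w0, by rw [List.map_cons, hw0]⟩

theorem reduced_map {Y Z : Type*} (g : Y → Z) (hg : Function.Injective g)
    (w : List (Y × Bool)) : FreeGroup.IsReduced (w.map fun p => (g p.1, p.2)) ↔
      FreeGroup.IsReduced w := by
  unfold FreeGroup.IsReduced
  rw [List.isChain_map]
  simp only [hg.eq_iff]

theorem cycReduced_map {Y Z : Type*} (g : Y → Z) (hg : Function.Injective g)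
    (w : List (Y × Bool)) : FreeGroup.IsCyclicallyReduced (w.map fun p => (g p.1, p.2)) ↔
      FreeGroup.IsCyclicallyReduced w := by
  rw [FreeGroup.isCyclicallyReduced_iff, FreeGroup.isCyclicallyReduced_iff, reduced_map g hg]
  refine and_congr_right fun _ => ?_
  rw [List.getLast?_map, List.head?_map]
  constructor
  · intro H a ha b hb hab
    refine H (g a.1, a.2) ?_ (g b.1, b.2) ?_ (congrArg g hab)
    · rw [Option.mem_def, Option.map_eq_some_iff]
      exact ⟨a, ha, rfl⟩
    · rw [Option.mem_def, Option.map_eq_some_iff]
      exact ⟨b, hb, rfl⟩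
  · intro H a ha b hb hab
    rw [Option.mem_def, Option.map_eq_some_iff] at ha hb
    obtain ⟨a', ha', rfl⟩ := ha
    obtain ⟨b', hb', rfl⟩ := hb
    exact H a' ha' b' hb' (hg hab)

theorem nlet_map {Y Z : Type*} (g : Y → Z) (hg : Function.Injective g)
    (w : List (Y × Bool)) : nlet (w.map fun p => (g p.1, p.2)) = nlet w := by
  classical
  rw [nlet_eq, nlet_eq]
  have : ((w.map fun p => (g p.1, p.2)).map Prod.fst).toFinset =
      (w.map Prod.fst).toFinset.image g := by
    ext z
    simp
  rw [this, Finset.card_image_of_injective _ hg]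

open Classical in
theorem expo_of {Y : Type*} (x y : Y) :
    expo x (of y) = if y = x then Multiplicative.ofAdd 1 else 1 := by
  unfold expo
  rw [FreeGroup.lift_apply_of]

/-- exponent sums and the height -/
theorem expo_natAbs_le (x : X) (w : List (X × Bool)) :
    (Multiplicative.toAdd (expo x (FreeGroup.mk w))).natAbs ≤ w.length := by
  classical
  induction w with
  | nil => simp [← FreeGroup.one_eq_mk]
  | cons a w ih =>
    obtain ⟨y, b⟩ := a
    cases b with
    | true =>
      rw [mk_cons_true, map_mul, toAdd_mul, List.length_cons]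
      have : (Multiplicative.toAdd (expo x (of y))).natAbs ≤ 1 := by
        rw [expo_of]; split_ifs <;> simp
      omega
    | false =>
      rw [mk_cons_false, map_mul, toAdd_mul, List.length_cons, map_inv, toAdd_inv]
      have : (Multiplicative.toAdd (expo x (of y))).natAbs ≤ 1 := by
        rw [expo_of]; split_ifs <;> simp
      omega

theorem tau_map_some (u : FreeGroup X) (hS : ∀ x, c x = 0) : tau c (FreeGroup.map some u) = 1 := by
  have : (tau c).comp (FreeGroup.map some) = (1 : FreeGroup X →* Multiplicative ℤ) := by
    ext x
    simp [tau, hS]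
  exact DFunLike.congr_fun this u

theorem tau_zero (w : FreeGroup (Option X)) : tau (fun _ : X => (0 : ℤ)) w = expo none w := by
  classical
  have : tau (fun _ : X => (0 : ℤ)) = expo (none : Option X) := by
    ext o
    rw [expo_of]
    cases o <;> simp [tau]
  rw [this]

theorem tau_htw (u : FreeGroup X) (t a : X) (hta : t ≠ a) :
    tau (htw u t a) (FreeGroup.map some u) = 1 := by
  classical
  have key : (tau (htw u t a)).comp (FreeGroup.map some) =
      (zpowGroupHom (Multiplicative.toAdd (expo a u))).comp (expo t) *
        (zpowGroupHom (-Multiplicative.toAdd (expo t u))).comp (expo a) := by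
    ext x
    rw [MonoidHom.comp_apply, FreeGroup.map.of, tau_of_some, MonoidHom.mul_apply,
      MonoidHom.comp_apply, MonoidHom.comp_apply, expo_of, expo_of]
    by_cases hx : x = t
    · have hxa : x ≠ a := fun h => hta (hx.symm.trans h)
      rw [if_pos hx, if_neg hxa]
      simp [htw, hx, ← ofAdd_zsmul]
    · by_cases hxa : x = a
      · rw [if_neg hx, if_pos hxa]
        subst hxa
        simp [htw, Ne.symm hta, ← ofAdd_zsmul]
      · rw [if_neg hx, if_neg hxa]
        simp [htw, hx, hxa]
  have := DFunLike.congr_fun key u
  rw [MonoidHom.comp_apply] at this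
  rw [this, MonoidHom.mul_apply, MonoidHom.comp_apply, MonoidHom.comp_apply]
  apply Multiplicative.toAdd.injective
  simp [toAdd_mul, toAdd_zpow]
  ring

end M3

end Pool.Agent.ROR
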