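import Pool.Agent.ROR.MagDefs

/-!
# Words without progress, relators with distinct letters
-/

set_option autoImplicit false

namespace Pool.Agent.ROR

open FreeGroup (of)

section NoProgress

variable {X : Type*}

private def mcE (b : Bool) : ℤ := if b then 1 else -1

/-- the height of a word -/
private def mcH (c : X → ℤ) (l : List (X × Bool)) : ℤ := (l.map fun p => mcE p.2 * c p.1).sum

/-- the level of a letter which starts at height `h` -/
private def mcL (c : X → ℤ) (h : ℤ) (p : X × Bool) : ℤ := if p.2 then h else h - c p.1

private theorem mcH_cons (c : X → ℤ) (p : X × Bool) (l : List (X × Bool)) :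
    mcH c (p :: l) = mcE p.2 * c p.1 + mcH c l := by simp [mcH]

private theorem mcH_take_succ (c : X → ℤ) (w : List (X × Bool)) (i : ℕ) (hi : i < w.length) :
    mcH c (w.take (i + 1)) = mcH c (w.take i) + mcE w[i].2 * c w[i].1 := by
  unfold mcH
  rw [← List.take_concat_get' w i hi, List.map_append, List.sum_append]
  simp

private theorem mem_lw_aux (c : X → ℤ) : ∀ (w : List (X × Bool)) (h : ℤ) (i : ℕ)
    (hi : i < w.length),
    ((w[i].1, mcL c (h + mcH c (w.take i)) w[i]), w[i].2) ∈
      lw c h (w.map fun p => (some p.1, p.2)) := by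
  intro w
  induction w with
  | nil => intro h i hi; simp at hi
  | cons p w ih =>
    intro h i hi
    obtain ⟨x, b⟩ := p
    cases i with
    | zero =>
      cases b <;> simp [lw, mcL, mcH]
    | succ i =>
      have hi' : i < w.length := by simpa using hi
      have e1 : ((x, b) :: w)[i + 1] = w[i] := rfl
      cases b with
      | true =>
        have h1 := ih (h + c x) i hi'
        rw [e1, List.take_succ_cons, mcH_cons]
        simp only [mcE, if_true, one_mul, List.map_cons, lw]
        rw [← add_assoc]
        exact List.mem_cons_of_mem _ h1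
      | false =>
        have h1 := ih (h - c x) i hi'
        rw [e1, List.take_succ_cons, mcH_cons]
        simp only [mcE, Bool.false_eq_true, if_false, List.map_cons, lw]
        rw [show h + (-1 * c x + mcH c (w.take i)) = h - c x + mcH c (w.take i) by ring]
        exact List.mem_cons_of_mem _ h1

open Classical in
private theorem toAdd_expo (x : X) (w : List (X × Bool)) :
    Multiplicative.toAdd (expo x (FreeGroup.mk w)) =
      (w.map fun p => if p.1 = x then mcE p.2 else 0).sum := by
  induction w with
  | nil =>
    rw [← FreeGroup.one_eq_mk, map_one]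
    simp
  | cons p w ih =>
    have e : FreeGroup.mk (p :: w) = FreeGroup.mk [p] * FreeGroup.mk w := by
      rw [FreeGroup.mul_mk]
      rfl
    rw [e, map_mul, toAdd_mul, ih, List.map_cons, List.sum_cons]
    congr 1
    obtain ⟨y, b⟩ := p
    unfold expo
    rw [FreeGroup.lift_mk]
    simp only [List.map_cons, List.map_nil, List.prod_cons, List.prod_nil, mul_one]
    by_cases hy : y = x
    · subst hy
      cases b <;> simp [mcE]
    · cases b <;> simp [hy]

private theorem sum_supp (w : List (X × Bool)) (t a : X) (hta : t ≠ a) (F : X → ℤ)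
    (hF : ∀ x, x ≠ t → x ≠ a → F x = 0) :
    (w.map fun p => mcE p.2 * F p.1).sum =
      F t * Multiplicative.toAdd (expo t (FreeGroup.mk w)) +
        F a * Multiplicative.toAdd (expo a (FreeGroup.mk w)) := by
  classical
  rw [toAdd_expo, toAdd_expo, ← List.sum_map_mul_left, ← List.sum_map_mul_left,
    ← List.sum_map_add]
  congr 1
  apply List.map_congr_left
  intro p _
  by_cases h1 : p.1 = t
  · rw [if_pos h1, if_neg (by rw [h1]; exact hta), h1]
    ring
  · by_cases h2 : p.1 = a
    · rw [if_neg h1, if_pos h2, h2]
      ring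
    · rw [if_neg h1, if_neg h2, hF _ h1 h2]
      ring

/-- what a pair of letters without progress gives -/
private theorem pair_aux (w : List (X × Bool)) (t a : X) (hta : t ≠ a)
    (ht : ∃ b, (t, b) ∈ w) (ha : ∃ b, (a, b) ∈ w)
    (st : Multiplicative.toAdd (expo t (FreeGroup.mk w)) ≠ 0)
    (sa : Multiplicative.toAdd (expo a (FreeGroup.mk w)) ≠ 0)
    (hp : ∀ (x : X) (j j' : ℤ) (b b' : Bool),
        ((x, j), b) ∈ lw (htw (FreeGroup.mk w) t a) 0 (w.map fun p => (some p.1, p.2)) →
        ((x, j'), b') ∈ lw (htw (FreeGroup.mk w) t a) 0 (w.map fun p => (some p.1, p.2)) →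
        j = j') :
    ∃ (c J : X → ℤ) (Ht : ℕ → ℤ), c t = Multiplicative.toAdd (expo a (FreeGroup.mk w)) ∧
      c a = - Multiplicative.toAdd (expo t (FreeGroup.mk w)) ∧
      (∀ i (hi : i < w.length), Ht i = J w[i].1 + (if w[i].2 then 0 else c w[i].1) ∧
        Ht (i + 1) = J w[i].1 + (if w[i].2 then c w[i].1 else 0)) ∧
      Ht 0 = Ht w.length ∧
      ((Multiplicative.toAdd (expo a (FreeGroup.mk w)) =
          Multiplicative.toAdd (expo t (FreeGroup.mk w)) ∧
        J a = J t + Multiplicative.toAdd (expo t (FreeGroup.mk w))) ∨
       (Multiplicative.toAdd (expo a (FreeGroup.mk w)) =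
          - Multiplicative.toAdd (expo t (FreeGroup.mk w)) ∧ J a = J t)) := by
  classical
  set σt := Multiplicative.toAdd (expo t (FreeGroup.mk w)) with hσt
  set σa := Multiplicative.toAdd (expo a (FreeGroup.mk w)) with hσa
  set c : X → ℤ := htw (FreeGroup.mk w) t a with hc
  have hct : c t = σa := by simp [hc, htw, hσa]
  have hca : c a = - σt := by simp [hc, htw, hσt, hta.symm]
  have hc0 : ∀ x, x ≠ t → x ≠ a → c x = 0 := by
    intro x h1 h2
    simp [hc, htw, h1, h2]
  have hex : ∀ x, ∃ j : ℤ, ∀ i (hi : i < w.length), w[i].1 = x →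
      mcL c (mcH c (w.take i)) w[i] = j := by
    intro x
    by_cases h1 : ∃ i, ∃ hi : i < w.length, w[i].1 = x
    · obtain ⟨i, hi, hx⟩ := h1
      refine ⟨mcL c (mcH c (w.take i)) w[i], fun k hk hkx => ?_⟩
      have h2 := mem_lw_aux c w 0 i hi
      have h3 := mem_lw_aux c w 0 k hk
      rw [zero_add] at h2 h3
      rw [hx] at h2
      rw [hkx] at h3
      exact hp x _ _ _ _ h3 h2
    · refine ⟨0, fun k hk hkx => absurd ⟨k, hk, hkx⟩ h1⟩
  choose J hJ using hex
  have hJ' : ∀ i (hi : i < w.length), mcL c (mcH c (w.take i)) w[i] = J w[i].1 :=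
    fun i hi => hJ _ i hi rfl
  have hstep : ∀ i (hi : i < w.length),
      mcH c (w.take i) = J w[i].1 + (if w[i].2 then 0 else c w[i].1) ∧
        mcH c (w.take (i + 1)) = J w[i].1 + (if w[i].2 then c w[i].1 else 0) := by
    intro i hi
    have h1 := hJ' i hi
    have h2 := mcH_take_succ c w i hi
    unfold mcL at h1
    unfold mcE at h2
    rw [h2, ← h1]
    split_ifs <;> constructor <;> ring
  have htot : mcH c w = 0 := by
    unfold mcH
    rw [sum_supp w t a hta c hc0, hct, hca]
    ring
  -- the closed path
  have key : ∀ φ : ℤ → ℤ, ∀ k ≤ w.length,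
      ((w.take k).map fun p => mcE p.2 * (φ (J p.1 + c p.1) - φ (J p.1))).sum =
        φ (mcH c (w.take k)) - φ 0 := by
    intro φ k
    induction k with
    | zero => intro _; simp [mcH]
    | succ k ih =>
      intro hk
      have hk' : k < w.length := by omega
      rw [← List.take_concat_get' w k hk', List.map_append, List.sum_append, ih (by omega),
        List.take_concat_get' w k hk']
      obtain ⟨h1, h2⟩ := hstep k hk'
      rw [h2, h1]
      simp only [List.map_cons, List.map_nil, List.sum_cons, List.sum_nil, add_zero, mcE]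
      split_ifs <;> simp
  have key2 : ∀ φ : ℤ → ℤ, (φ (J t + σa) - φ (J t)) * σt + (φ (J a - σt) - φ (J a)) * σa = 0 := by
    intro φ
    have h1 := key φ w.length le_rfl
    rw [List.take_length, htot, sub_self,
      sum_supp w t a hta (fun x => φ (J x + c x) - φ (J x)) (by
        intro x h1 h2
        rw [hc0 x h1 h2, add_zero, sub_self])] at h1
    rw [hct, hca, ← sub_eq_add_neg] at h1
    exact h1
  refine ⟨c, J, fun i => mcH c (w.take i), hct, hca, fun i hi => hstep i hi, ?_, ?_⟩
  · simp only [List.take_zero, List.take_length]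
    rw [htot]
    simp [mcH]
  · have h1 := key2 fun z => if z = J t then 1 else 0
    have h2 : ¬ (J t + σa = J t) := by
      intro h
      exact sa (by linarith)
    simp only [h2, if_false, if_true] at h1
    by_cases h3 : J a - σt = J t
    · have h4 : ¬ J a = J t := by
        intro h
        exact st (by linarith)
      rw [if_pos h3, if_neg h4] at h1
      left
      constructor <;> linarith
    · rw [if_neg h3] at h1
      by_cases h4 : J a = J t
      · rw [if_pos h4] at h1
        right
        constructor
        · linarith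
        · exact h4
      · rw [if_neg h4] at h1
        exfalso
        apply st
        linarith

private theorem sum_nonpos_aux : ∀ l : List ℤ, (∀ z ∈ l, z ≤ 0) → l.sum ≤ 0 := by
  intro l
  induction l with
  | nil => intro _; simp
  | cons a l ih =>
    intro h
    rw [List.sum_cons]
    have h1 := h a List.mem_cons_self
    have h2 := ih fun z hz => h z (List.mem_cons_of_mem _ hz)
    omega

/-- the word as a sequence, periodic with period `w.length` -/
private def mcF [Inhabited X] (w : List (X × Bool)) (i : ℕ) : X × Bool :=
  w.getD (i % w.length) default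

private theorem mk_pow_of_periodic (F : ℕ → X × Bool) (g : ℕ) (hg : ∀ i, F (i + g) = F i) :
    ∀ q, FreeGroup.mk ((List.range (g * q)).map F) = FreeGroup.mk ((List.range g).map F) ^ q := by
  intro q
  induction q with
  | zero => simp [FreeGroup.one_eq_mk]
  | succ q ih =>
    have hq : ∀ j, F (g * q + j) = F j := by
      intro j
      clear ih
      induction q with
      | zero => simp
      | succ q ih =>
        rw [show g * (q + 1) + j = g * q + j + g by ring, hg, ih]
    rw [Nat.mul_succ, List.range_add, List.map_append, ← FreeGroup.mul_mk, ih, pow_succ]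
    congr 2
    rw [List.map_map]
    apply List.map_congr_left
    intro j _
    exact hq j

theorem nodup_of_no_progress (w : List (X × Bool)) (hw : FreeGroup.IsCyclicallyReduced w)
    (hne : w ≠ []) (hnp : NPw (FreeGroup.mk w))
    (hexp : (∃ x, ∀ p ∈ w, p.1 = x) ∨ ∀ p ∈ w, expo p.1 (FreeGroup.mk w) ≠ 1)
    (hprog : ∀ t a, (∃ b, (t, b) ∈ w) → (∃ b, (a, b) ∈ w) → t ≠ a →
      ∀ (x : X) (j j' : ℤ) (b b' : Bool),
        ((x, j), b) ∈ lw (htw (FreeGroup.mk w) t a) 0 (w.map fun p => (some p.1, p.2)) →
        ((x, j'), b') ∈ lw (htw (FreeGroup.mk w) t a) 0 (w.map fun p => (some p.1, p.2)) →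
        j = j') :
    (w.map Prod.fst).Nodup := by
  classical
  have hn : 0 < w.length := List.length_pos_iff.mpr hne
  have hred : ∀ i (hi : i + 1 < w.length), w[i].1 = w[i + 1].1 → w[i].2 = w[i + 1].2 := by
    have h1 := hw.1
    unfold FreeGroup.IsReduced at h1
    rw [List.isChain_iff_getElem] at h1
    intro i hi
    exact h1 i hi
  by_cases hone : ∃ x, ∀ p ∈ w, p.1 = x
  · -- one letter
    obtain ⟨x, hx⟩ := hone
    have h1 : ∀ i (hi : i < w.length), w[i] = w[0] := by
      intro i
      induction i with
      | zero => intro _; rfl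
      | succ i ih =>
        intro hi
        have h2 := ih (by omega)
        have h3 : w[i].1 = w[i + 1].1 := by
          rw [hx _ (List.getElem_mem _), hx _ (List.getElem_mem _)]
        have h4 := hred i hi h3
        rw [← h2]
        exact (Prod.ext h3 h4).symm
    have h2 : w = List.replicate w.length w[0] := by
      apply List.ext_getElem (by simp)
      intro i h3 h4
      rw [List.getElem_replicate]
      exact h1 i h3
    have h3 : ∀ (n : ℕ) (p : X × Bool), FreeGroup.mk (List.replicate n p) =
        FreeGroup.mk [p] ^ n := by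
      intro n p
      induction n with
      | zero => simp [FreeGroup.one_eq_mk]
      | succ n ih =>
        rw [List.replicate_succ', ← FreeGroup.mul_mk, ih, pow_succ]
    have h4 : w.length = 1 := by
      apply hnp (FreeGroup.mk [w[0]])
      rw [← h3, ← h2]
    obtain ⟨p, hp⟩ := List.length_eq_one_iff.mp h4
    rw [hp]
    simp
  · -- at least two letters
    have hexp' : ∀ i (hi : i < w.length),
        Multiplicative.toAdd (expo w[i].1 (FreeGroup.mk w)) ≠ 0 := by
      rcases hexp with h | h
      · exact absurd h hone
      · intro i hi h1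
        exact h _ (List.getElem_mem hi) (by
          rw [← ofAdd_toAdd (expo w[i].1 (FreeGroup.mk w)), h1]
          rfl)
    set σ : X → ℤ := fun x => Multiplicative.toAdd (expo x (FreeGroup.mk w)) with hσ
    have hpair : ∀ i (hi : i < w.length) k (hk : k < w.length), w[i].1 ≠ w[k].1 →
        ∃ (c J : X → ℤ) (Ht : ℕ → ℤ), c w[i].1 = σ w[k].1 ∧ c w[k].1 = - σ w[i].1 ∧
          (∀ i (hi : i < w.length), Ht i = J w[i].1 + (if w[i].2 then 0 else c w[i].1) ∧
            Ht (i + 1) = J w[i].1 + (if w[i].2 then c w[i].1 else 0)) ∧
          Ht 0 = Ht w.length ∧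
          ((σ w[k].1 = σ w[i].1 ∧ J w[k].1 = J w[i].1 + σ w[i].1) ∨
            (σ w[k].1 = - σ w[i].1 ∧ J w[k].1 = J w[i].1)) := by
      intro i hi k hk hik
      exact pair_aux w w[i].1 w[k].1 hik ⟨w[i].2, List.getElem_mem hi⟩
        ⟨w[k].2, List.getElem_mem hk⟩ (hexp' i hi) (hexp' k hk)
        (hprog _ _ ⟨w[i].2, List.getElem_mem hi⟩ ⟨w[k].2, List.getElem_mem hk⟩ hik)
    -- the next letter
    have hnx : ∀ i, i < w.length → (i + 1) % w.length < w.length := fun i _ => Nat.mod_lt _ hn
    have hHt : ∀ (Ht : ℕ → ℤ), Ht 0 = Ht w.length → ∀ i < w.length,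
        Ht ((i + 1) % w.length) = Ht (i + 1) := by
      intro Ht h0 i hi
      rcases Nat.lt_or_ge (i + 1) w.length with h1 | h1
      · rw [Nat.mod_eq_of_lt h1]
      · have h2 : i + 1 = w.length := by omega
        rw [h2, Nat.mod_self]
        exact h0
    have hredc : ∀ i (hi : i < w.length), w[i].1 = (w[(i + 1) % w.length]'(hnx i hi)).1 →
        w[i].2 = (w[(i + 1) % w.length]'(hnx i hi)).2 := by
      intro i hi
      rcases Nat.lt_or_ge (i + 1) w.length with h1 | h1
      · have h2 : (i + 1) % w.length = i + 1 := Nat.mod_eq_of_lt h1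
        simp only [h2]
        exact hred i h1
      · have h2 : (i + 1) % w.length = 0 := by
          have h3 : i + 1 = w.length := by omega
          rw [h3, Nat.mod_self]
        simp only [h2]
        have h3 := hw.2 w[w.length - 1] (by
          rw [List.getLast?_eq_getElem?, Option.mem_def, List.getElem?_eq_getElem]) w[0] (by
          rw [List.head?_eq_getElem?, Option.mem_def, List.getElem?_eq_getElem])
        have h4 : i = w.length - 1 := by omega
        subst h4
        exact h3
    -- all letters have the sign of the exponent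
    have hpos1 : ∀ i (hi : i < w.length), 0 < mcE w[i].2 * σ w[i].1 →
        0 < mcE (w[(i + 1) % w.length]'(hnx i hi)).2 *
          σ (w[(i + 1) % w.length]'(hnx i hi)).1 := by
      intro i hi h1
      have hi' := hnx i hi
      by_contra h2
      have hs1 := hexp' i hi
      have hs2 := hexp' _ hi'
      change σ w[i].1 ≠ 0 at hs1
      change σ (w[(i + 1) % w.length]).1 ≠ 0 at hs2
      by_cases h3 : w[i].1 = (w[(i + 1) % w.length]).1
      · have h4 := hredc i hi h3
        rw [← h3, ← h4] at h2
        exact h2 h1
      · obtain ⟨c, J, Ht, c1, c2, c3, c4, c5⟩ := hpair i hi _ hi' h3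
        have e1 := (c3 i hi).2
        have e2 := (c3 _ hi').1
        rw [hHt Ht c4 i hi, e1, c1, c2] at e2
        unfold mcE at h1 h2
        cases hb : w[i].2 <;> cases hb' : (w[(i + 1) % w.length]).2 <;>
          simp only [hb, hb', if_true, if_false, Bool.false_eq_true] at h1 h2 e2 <;>
          rcases c5 with ⟨c6, c7⟩ | ⟨c6, c7⟩ <;> omega
    have hpos0 : ∃ i, ∃ hi : i < w.length, 0 < mcE w[i].2 * σ w[i].1 := by
      by_contra h1
      push Not at h1
      have h2 := toAdd_expo w[0].1 w
      have h3 : σ w[0].1 * σ w[0].1 ≤ 0 := by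
        have h4 : σ w[0].1 * σ w[0].1 = (w.map fun p => if p.1 = w[0].1 then
            mcE p.2 * σ w[0].1 else 0).sum := by
          have h5 : σ w[0].1 = (w.map fun p => if p.1 = w[0].1 then mcE p.2 else 0).sum := h2
          conv_lhs => rw [h5]
          rw [← List.sum_map_mul_right]
          congr 1
          apply List.map_congr_left
          intro p _
          rw [← h5]
          split_ifs <;> simp
        rw [h4]
        apply sum_nonpos_aux
        intro z hz
        rw [List.mem_map] at hz
        obtain ⟨p, hp, rfl⟩ := hz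
        split_ifs with h6
        · obtain ⟨i, hi, rfl⟩ := List.getElem_of_mem hp
          rw [← h6]
          exact h1 i hi
        · exact le_rfl
      have h4 := hexp' 0 hn
      change σ w[0].1 ≠ 0 at h4
      have h5 := mul_self_pos.mpr h4
      omega
    have hpos : ∀ i (hi : i < w.length), 0 < mcE w[i].2 * σ w[i].1 := by
      obtain ⟨i0, hi0, h0⟩ := hpos0
      have h1 : ∀ k, 0 < mcE (w[(i0 + k) % w.length]'(Nat.mod_lt _ hn)).2 *
          σ (w[(i0 + k) % w.length]'(Nat.mod_lt _ hn)).1 := by
        intro k
        induction k with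
        | zero =>
          have h2 : (i0 + 0) % w.length = i0 := by rw [Nat.add_zero, Nat.mod_eq_of_lt hi0]
          simp only [h2]
          exact h0
        | succ k ih =>
          have h2 := hpos1 _ (Nat.mod_lt _ hn) ih
          have h3 : ((i0 + k) % w.length + 1) % w.length = (i0 + (k + 1)) % w.length := by
            rw [Nat.mod_add_mod]
            rfl
          simp only [h3] at h2
          exact h2
      intro i hi
      have h2 := h1 (i + w.length - i0)
      have h3 : (i0 + (i + w.length - i0)) % w.length = i := by
        rw [show i0 + (i + w.length - i0) = i + w.length by omega, Nat.add_mod_right,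
          Nat.mod_eq_of_lt hi]
      simp only [h3] at h2
      exact h2
    have hsgn : ∀ i (hi : i < w.length) k (hk : k < w.length), w[i].1 = w[k].1 →
        w[i].2 = w[k].2 := by
      intro i hi k hk hik
      have h1 := hpos i hi
      have h2 := hpos k hk
      rw [← hik] at h2
      unfold mcE at h1 h2
      cases hb : w[i].2 <;> cases hb' : w[k].2 <;> simp only [hb, hb', if_true, if_false,
        Bool.false_eq_true] at h1 h2 ⊢ <;> omega
    -- the next letter is determined
    have hdet : ∀ i (hi : i < w.length) k (hk : k < w.length), w[i].1 = w[k].1 →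
        (w[(i + 1) % w.length]'(hnx i hi)).1 = (w[(k + 1) % w.length]'(hnx k hk)).1 := by
      intro i hi k hk hik
      by_contra h3
      have hi' := hnx i hi
      have hk' := hnx k hk
      obtain ⟨c, J, Ht, c1, c2, c3, c4, c5⟩ := hpair _ hi' _ hk' h3
      have e1 := (c3 i hi).2
      have e2 := (c3 _ hi').1
      have e3 := (c3 k hk).2
      have e4 := (c3 _ hk').1
      rw [hHt Ht c4 i hi, e1, c1] at e2
      rw [hHt Ht c4 k hk, e3, c2, ← hik, ← hsgn i hi k hk hik] at e4
      have h1 := hpos _ hi'
      have h2 := hpos _ hk'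
      have hs1 := hexp' _ hi'
      change σ (w[(i + 1) % w.length]).1 ≠ 0 at hs1
      unfold mcE at h1 h2
      rw [e2] at e4
      cases hb : (w[(i + 1) % w.length]).2 <;> cases hb' : (w[(k + 1) % w.length]).2 <;>
        simp only [hb, hb', if_true, if_false, Bool.false_eq_true] at h1 h2 e4 <;>
        rcases c5 with ⟨c6, c7⟩ | ⟨c6, c7⟩ <;> omega
    -- the word is periodic
    have : Inhabited X := ⟨w[0].1⟩
    by_contra hnd
    rw [List.nodup_iff_getElem?_ne_getElem?] at hnd
    push Not at hnd
    obtain ⟨i, k, hik, hk, h1⟩ := hnd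
    rw [List.length_map] at hk
    have hi : i < w.length := by omega
    rw [List.getElem?_map, List.getElem?_map, List.getElem?_eq_getElem hi,
      List.getElem?_eq_getElem hk] at h1
    simp only [Option.map_some, Option.some.injEq] at h1
    set n := w.length with hndef
    have hF : ∀ m, mcF w m = w[m % n]'(Nat.mod_lt _ hn) := by
      intro m
      unfold mcF
      exact List.getD_eq_getElem _ _ (Nat.mod_lt _ hn)
    have hFn : ∀ m q, mcF w (m + n * q) = mcF w m := by
      intro m q
      unfold mcF
      rw [← hndef, Nat.add_mul_mod_self_left]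
    have h2 : ∀ m, (mcF w (i + m)).1 = (mcF w (k + m)).1 := by
      intro m
      induction m with
      | zero =>
        rw [hF, hF]
        have e1 : (i + 0) % n = i := by rw [Nat.add_zero, Nat.mod_eq_of_lt hi]
        have e2 : (k + 0) % n = k := by rw [Nat.add_zero, Nat.mod_eq_of_lt hk]
        simp only [e1, e2]
        exact h1
      | succ m ih =>
        rw [hF, hF] at ih
        have h3 := hdet _ (Nat.mod_lt _ hn) _ (Nat.mod_lt _ hn) ih
        rw [hF, hF]
        have e1 : ((i + m) % n + 1) % n = (i + (m + 1)) % n := by
          rw [Nat.mod_add_mod]; rfl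
        have e2 : ((k + m) % n + 1) % n = (k + (m + 1)) % n := by
          rw [Nat.mod_add_mod]; rfl
        simp only [← hndef, e1, e2] at h3
        exact h3
    have h3 : ∀ m, mcF w (i + m) = mcF w (k + m) := by
      intro m
      have h4 := h2 m
      rw [hF, hF] at h4 ⊢
      exact Prod.ext h4 (hsgn _ (Nat.mod_lt _ hn) _ (Nat.mod_lt _ hn) h4)
    set d := k - i with hd
    have h4 : ∀ m, mcF w (m + d) = mcF w m := by
      intro m
      have h5 := h3 (m + n * i - i)
      have hni : i ≤ n * i := Nat.le_mul_of_pos_left _ hn
      rw [show i + (m + n * i - i) = m + n * i by omega,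
        show k + (m + n * i - i) = m + d + n * i by omega, hFn, hFn] at h5
      exact h5.symm
    have h5 : ∀ q m, mcF w (m + d * q) = mcF w m := by
      intro q
      induction q with
      | zero => intro m; simp
      | succ q ih =>
        intro m
        rw [Nat.mul_succ, ← Nat.add_assoc, h4, ih]
    have hd0 : 0 < d := by omega
    have hdn : d < n := by omega
    set g := Nat.gcd d n with hg
    have hgd : g ≤ d := Nat.gcd_le_left _ hd0
    obtain ⟨m0, hm0⟩ := Nat.exists_mul_mod_eq_gcd (k := n) (n := d) (by omega)
    have h6 : ∀ m, mcF w (m + g) = mcF w m := by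
      intro m
      have h7 := h5 m0 m
      have h8 : mcF w (m + d * m0) = mcF w (m + g) := by
        rw [hg, ← hm0.2]
        unfold mcF
        rw [← hndef, Nat.add_mod_mod]
      rw [← h8, h7]
    obtain ⟨q, hq⟩ : g ∣ n := Nat.gcd_dvd_right d n
    have h7 : w = (List.range (g * q)).map (mcF w) := by
      rw [← hq]
      apply List.ext_getElem (by simp [← hndef])
      intro m h8 h9
      rw [List.getElem_map, List.getElem_range, hF]
      have e1 : m % n = m := Nat.mod_eq_of_lt h8
      simp only [e1]
    have h8 := mk_pow_of_periodic (mcF w) g h6 q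
    rw [← h7] at h8
    have h9 := hnp _ _ h8.symm
    rw [h9] at hq
    omega

end NoProgress

section Nodup

variable {X : Type*}

private theorem mc_len_mul (u v : FreeGroup X) : len (u * v) ≤ len u + len v := by
  classical exact FreeGroup.norm_mul_le u v

private theorem mc_len_inv (u : FreeGroup X) : len u⁻¹ = len u := by
  classical exact FreeGroup.norm_inv_eq

private theorem mc_len_mk (l : List (X × Bool)) : len (FreeGroup.mk l) ≤ l.length := by
  classical exact FreeGroup.norm_mk_le

private theorem mc_mk_toWord (u : FreeGroup X) : ∃ l : List (X × Bool), l.length = len u ∧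
    FreeGroup.mk l = u := by
  classical exact ⟨u.toWord, rfl, FreeGroup.mk_toWord⟩

private theorem mc_cprod_cons (r : FreeGroup X) (p : FreeGroup X × Bool)
    (l : List (FreeGroup X × Bool)) :
    cprod r (p :: l) = p.1 * (if p.2 then r else r⁻¹) * p.1⁻¹ * cprod r l := by
  simp [cprod]

private theorem mc_cprod_conj (r h : FreeGroup X) (l : List (FreeGroup X × Bool)) :
    cprod r (l.map fun p => (h * p.1, p.2)) = h * cprod r l * h⁻¹ := by
  induction l with
  | nil => simp [cprod]
  | cons p l ih =>
    rw [List.map_cons, mc_cprod_cons, ih, mc_cprod_cons]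
    group

theorem mag_of_nodup (w : List (X × Bool)) (hw : (w.map Prod.fst).Nodup) (L : ℕ)
    (hL : w.length ≤ L) (x : X) (b : Bool) (hx : (x, b) ∈ w) :
    Mag (fun n => (n + L + 2) ^ 2) (FreeGroup.mk w) x := by
  classical
  obtain ⟨p, q, rfl⟩ := List.append_of_mem hx
  have hpq : (∀ y ∈ p, y.1 ≠ x) ∧ ∀ y ∈ q, y.1 ≠ x := by
    rw [List.map_append, List.map_cons, List.nodup_append] at hw
    obtain ⟨-, h2, h3⟩ := hw
    rw [List.nodup_cons] at h2
    constructor
    · intro y hy
      exact h3 _ (List.mem_map_of_mem hy) _ List.mem_cons_self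
    · intro y hy h4
      apply h2.1
      exact List.mem_map.mpr ⟨y, hy, h4⟩
  have hlen : p.length + q.length ≤ L := by
    rw [List.length_append, List.length_cons] at hL
    omega
  set P := FreeGroup.mk p with hP
  set Q := FreeGroup.mk q with hQ
  set R := FreeGroup.mk (p ++ (x, b) :: q) with hR
  have hRe : R = P * FreeGroup.mk [(x, b)] * Q := by
    rw [hR, hP, hQ, FreeGroup.mul_mk, FreeGroup.mul_mk]
    congr 1
    simp
  set g := Q * P with hg
  have hglen : len g ≤ L := by
    have h1 : len g ≤ len Q + len P := mc_len_mul Q P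
    have h2 : len P ≤ p.length := mc_len_mk p
    have h3 : len Q ≤ q.length := mc_len_mk q
    omega
  set ρ : FreeGroup X →* FreeGroup X :=
    FreeGroup.lift fun y => if y = x then (if b then g⁻¹ else g) else of y with hρ
  have hρx : ρ (FreeGroup.mk [(x, b)]) = g⁻¹ := by
    rw [hρ, FreeGroup.lift_mk]
    cases b <;> simp
  have hρy : ∀ (y : X) (β : Bool), y ≠ x → ρ (FreeGroup.mk [(y, β)]) = FreeGroup.mk [(y, β)] := by
    intro y β hy
    rw [hρ, FreeGroup.lift_mk]
    cases β
    · simp only [List.map_cons, List.map_nil, List.prod_cons, List.prod_nil, mul_one, cond_false,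
        if_neg hy]
      rfl
    · simp only [List.map_cons, List.map_nil, List.prod_cons, List.prod_nil, mul_one, cond_true,
        if_neg hy]
      rfl
  have hmkc : ∀ (a : X × Bool) (l : List (X × Bool)), FreeGroup.mk (a :: l) =
      FreeGroup.mk [a] * FreeGroup.mk l := by
    intro a l
    rw [FreeGroup.mul_mk]
    rfl
  have hρl : ∀ l : List (X × Bool), (∀ y ∈ l, y.1 ≠ x) → ρ (FreeGroup.mk l) = FreeGroup.mk l := by
    intro l
    induction l with
    | nil => intro _; rw [← FreeGroup.one_eq_mk, map_one]
    | cons a l ih =>
      intro h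
      rw [hmkc, map_mul, ih fun y hy => h y (List.mem_cons_of_mem _ hy)]
      obtain ⟨y, β⟩ := a
      rw [hρy y β (h (y, β) List.mem_cons_self)]
  have hρR : ρ R = 1 := by
    rw [hRe, map_mul, map_mul, hρx, hP, hQ, hρl p hpq.1, hρl q hpq.2, ← hP, ← hQ, hg]
    group
  have hker : Subgroup.normalClosure {R} ≤ ρ.ker := by
    apply Subgroup.normalClosure_le_normal
    intro z hz
    rw [Set.mem_singleton_iff] at hz
    subst hz
    exact hρR
  have hρv : ∀ v ∈ Let ({x}ᶜ : Set X), ρ v = v := by
    intro v hv
    have h1 : Set.EqOn ρ (MonoidHom.id (FreeGroup X)) (of '' ({x}ᶜ : Set X)) := by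
      rintro z ⟨y, hy, rfl⟩
      exact hρy y true hy
    exact MonoidHom.eqOn_closure h1 hv
  -- lengths
  have hlet : ∀ a : X × Bool, len (ρ (FreeGroup.mk [a])) ≤ L + 1 := by
    rintro ⟨y, β⟩
    by_cases hy : y = x
    · subst hy
      by_cases hb : β = b
      · subst hb
        rw [hρx, mc_len_inv]
        omega
      · have h1 : FreeGroup.mk [(y, β)] = (FreeGroup.mk [(y, b)])⁻¹ := by
          rw [FreeGroup.inv_mk]
          have : β = !b := Bool.eq_not.mpr hb
          rw [this]
          rfl
        rw [h1, map_inv, hρx, inv_inv]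
        omega
    · rw [hρy y β hy]
      have := mc_len_mk [(y, β)]
      simp only [List.length_cons, List.length_nil] at this
      omega
  have hlenρ : ∀ l : List (X × Bool), len (ρ (FreeGroup.mk l)) ≤ l.length * (L + 1) := by
    intro l
    induction l with
    | nil =>
      rw [← FreeGroup.one_eq_mk, map_one]
      have := mc_len_mk ([] : List (X × Bool))
      rw [← FreeGroup.one_eq_mk] at this
      simpa using this
    | cons a l ih =>
      rw [hmkc, map_mul, List.length_cons]
      have h1 := mc_len_mul (ρ (FreeGroup.mk [a])) (ρ (FreeGroup.mk l))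
      have h2 := hlet a
      nlinarith
  -- the product of conjugates
  have harea : ∀ l : List (X × Bool), ∃ cs : List (FreeGroup X × Bool), cs.length ≤ l.length ∧
      (∀ c ∈ cs, len c.1 ≤ l.length * (L + 1) + L) ∧
        cprod R cs = FreeGroup.mk l * (ρ (FreeGroup.mk l))⁻¹ := by
    intro l
    induction l with
    | nil =>
      refine ⟨[], le_rfl, by simp, ?_⟩
      rw [← FreeGroup.one_eq_mk, map_one]
      simp [cprod]
    | cons a l ih =>
      obtain ⟨cs, h1, h2, h3⟩ := ih
      set h := ρ (FreeGroup.mk [a]) with hh
      have hcs : ∀ c ∈ cs.map (fun c => (h * c.1, c.2)),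
          len c.1 ≤ (l.length + 1) * (L + 1) + L := by
        intro c hc
        rw [List.mem_map] at hc
        obtain ⟨c', hc', rfl⟩ := hc
        have h4 := mc_len_mul h c'.1
        have h5 := hlet a
        have h6 := h2 c' hc'
        rw [← hh] at h5
        simp only
        nlinarith
      have htail : cprod R (cs.map fun c => (h * c.1, c.2)) =
          h * (FreeGroup.mk l * (ρ (FreeGroup.mk l))⁻¹) * h⁻¹ := by
        rw [mc_cprod_conj, h3]
      have hgoal : FreeGroup.mk (a :: l) * (ρ (FreeGroup.mk (a :: l)))⁻¹ =
          (FreeGroup.mk [a] * h⁻¹) * (h * (FreeGroup.mk l * (ρ (FreeGroup.mk l))⁻¹) * h⁻¹) := by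
        rw [hmkc, map_mul, ← hh]
        group
      rw [hgoal]
      obtain ⟨y, β⟩ := a
      by_cases hy : y = x
      · subst hy
        by_cases hb : β = b
        · subst hb
          refine ⟨(P⁻¹, true) :: cs.map (fun c => (h * c.1, c.2)), ?_, ?_, ?_⟩
          · simp only [List.length_cons, List.length_map]
            omega
          · intro c hc
            rcases List.mem_cons.mp hc with rfl | hc
            · simp only [List.length_cons]
              rw [mc_len_inv]
              have := mc_len_mk p
              nlinarith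
            · exact hcs c hc
          · rw [mc_cprod_cons, htail]
            congr 1
            simp only [if_true]
            rw [hh, hρx, hRe, hg]
            group
        · refine ⟨(Q, false) :: cs.map (fun c => (h * c.1, c.2)), ?_, ?_, ?_⟩
          · simp only [List.length_cons, List.length_map]
            omega
          · intro c hc
            rcases List.mem_cons.mp hc with rfl | hc
            · simp only [List.length_cons]
              have := mc_len_mk q
              nlinarith
            · exact hcs c hc
          · have h4 : FreeGroup.mk [(y, β)] = (FreeGroup.mk [(y, b)])⁻¹ := by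
              rw [FreeGroup.inv_mk]
              have : β = !b := Bool.eq_not.mpr hb
              rw [this]
              rfl
            rw [mc_cprod_cons, htail]
            congr 1
            simp only [Bool.false_eq_true, if_false]
            rw [hh, h4, map_inv, hρx, hRe, hg]
            group
      · refine ⟨cs.map (fun c => (h * c.1, c.2)), ?_, ?_, ?_⟩
        · simp only [List.length_cons, List.length_map]
          omega
        · intro c hc
          exact hcs c hc
        · rw [htail, hh, hρy y β hy, mul_inv_cancel, one_mul]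
  constructor
  · intro v hv hv2
    have h1 := hker hv2
    rw [MonoidHom.mem_ker, hρv v hv] at h1
    exact h1
  · intro n u v hu hv huv
    have h1 := hker huv
    rw [MonoidHom.mem_ker, map_mul, map_inv, hρv v hv, mul_inv_eq_one] at h1
    obtain ⟨l, hl, rfl⟩ := mc_mk_toWord u
    obtain ⟨cs, h2, h3, h4⟩ := harea l
    have h5 := hlenρ l
    have h6 : l.length ≤ n := by omega
    have h7 : l.length * (L + 1) + L ≤ (n + L + 2) ^ 2 := by
      have : l.length * (L + 1) ≤ n * (L + 1) := Nat.mul_le_mul_right _ h6
      nlinarith
    constructor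
    · simp only
      rw [← h1]
      omega
    · refine ⟨cs, ?_, ?_, ?_⟩
      · simp only
        have : n ≤ (n + L + 2) ^ 2 := by nlinarith
        omega
      · intro c hc
        refine ⟨(h3 c hc).trans h7, ?_⟩
        unfold Let
        rw [Set.image_univ, FreeGroup.closure_range_of]
        exact Subgroup.mem_top _
      · rw [h4, h1]

end Nodup

end Pool.Agent.ROR
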