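import Pool.Agent.ROR.Area
import Pool.Agent.ROR.Britton

/-!
# The Freiheitssatz with bounds through the shift (project ROR, M2b)
-/

set_option autoImplicit false

namespace Pool.Agent.ROR

open FreeGroup (of)

section M2b

variable {X : Type*} (c : X → ℤ)

private lemma ms_iota_of (p : X × ℤ) :
    iota c (of p) = st X ^ p.2 * of (some p.1) * st X ^ (-p.2 - c p.1) := by
  unfold iota
  rw [FreeGroup.lift_apply_of]

private lemma ms_tau_iota (u : FreeGroup (X × ℤ)) : tau c (iota c u) = 1 := by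
  have h : (tau c).comp (iota c) = 1 := by
    apply FreeGroup.ext_hom
    intro p
    rw [MonoidHom.comp_apply, ms_iota_of, map_mul, map_mul, map_zpow, map_zpow, MonoidHom.one_apply]
    unfold tau
    rw [FreeGroup.lift_apply_of, FreeGroup.lift_apply_of]
    apply Multiplicative.toAdd.injective
    simp only [toAdd_mul, toAdd_zpow, toAdd_ofAdd, toAdd_one, smul_eq_mul]
    ring
  exact DFunLike.congr_fun h u

private lemma ms_sh (n : ℤ) (u : FreeGroup (X × ℤ)) :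
    iota c (sh X n u) = st X ^ n * iota c u * st X ^ (-n) := by
  have h : (iota c).comp (sh X n) = (MulAut.conj (st X ^ n)).toMonoidHom.comp (iota c) := by
    apply FreeGroup.ext_hom
    intro p
    rw [MonoidHom.comp_apply, MonoidHom.comp_apply]
    unfold sh
    rw [FreeGroup.map.of, ms_iota_of, ms_iota_of]
    show st X ^ (p.2 + n) * of (some p.1) * st X ^ (-(p.2 + n) - c p.1) =
      st X ^ n * (st X ^ p.2 * of (some p.1) * st X ^ (-p.2 - c p.1)) * (st X ^ n)⁻¹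
    rw [← zpow_neg]
    have h1 : st X ^ (p.2 + n) = st X ^ n * st X ^ p.2 := by rw [← zpow_add]; congr 1; ring
    have h2 : st X ^ (-(p.2 + n) - c p.1) = st X ^ (-p.2 - c p.1) * st X ^ (-n) := by
      rw [← zpow_add]; congr 1; ring
    rw [h1, h2]
    simp only [mul_assoc]
  have h2 := DFunLike.congr_fun h u
  rw [zpow_neg]
  exact h2

private lemma ms_tau_le (Λ : ℕ) (hc : ∀ x, (c x).natAbs ≤ Λ) (u : FreeGroup (Option X)) :
    (Multiplicative.toAdd (tau c u)).natAbs ≤ (Λ + 1) * len u := by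
  obtain ⟨w, rfl, hw, -⟩ := exists_word u
  rw [← hw]
  clear hw
  induction w with
  | nil =>
    show (Multiplicative.toAdd (tau c 1)).natAbs ≤ _
    rw [map_one]
    simp
  | cons a w ih =>
    have h1 : (FreeGroup.mk (a :: w) : FreeGroup (Option X)) =
        FreeGroup.mk [a] * FreeGroup.mk w := by
      rw [FreeGroup.mul_mk]; rfl
    rw [h1, map_mul, toAdd_mul, List.length_cons]
    have h2 : (Multiplicative.toAdd (tau c (FreeGroup.mk [a]))).natAbs ≤ Λ + 1 := by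
      obtain ⟨o, b⟩ := a
      have h3 : (Multiplicative.toAdd (tau c (of o))).natAbs ≤ Λ + 1 := by
        unfold tau
        rw [FreeGroup.lift_apply_of]
        rcases o with _ | x
        · simp
        · have := hc x
          simp only [toAdd_ofAdd]
          omega
      cases b with
      | true => exact h3
      | false =>
        have h4 : (FreeGroup.mk [(o, false)] : FreeGroup (Option X)) = (of o)⁻¹ := rfl
        rw [h4, map_inv, toAdd_inv, Int.natAbs_neg]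
        exact h3
    refine (Int.natAbs_add_le _ _).trans ?_
    calc _ ≤ (Λ + 1) + (Λ + 1) * w.length := Nat.add_le_add h2 ih
      _ = (Λ + 1) * (w.length + 1) := by ring

/-- the decomposition of a word without the letter `x0` -/
private lemma ms_decomp (x0 : X) (v : FreeGroup (Option X))
    (hv : v ∈ Let ({some x0}ᶜ : Set (Option X))) :
    ∃ v' ∈ Let {p : X × ℤ | p.1 ≠ x0},
      v = iota c v' * st X ^ (Multiplicative.toAdd (tau c v)) := by
  induction hv using Subgroup.closure_induction with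
  | mem x hx =>
    obtain ⟨o, ho, rfl⟩ := hx
    rcases o with _ | z
    · refine ⟨1, Subgroup.one_mem _, ?_⟩
      have h1 : Multiplicative.toAdd (tau c (of none)) = 1 := by
        unfold tau
        rw [FreeGroup.lift_apply_of]
        rfl
      rw [h1, map_one, one_mul, zpow_one]
    · refine ⟨of (z, 0), Subgroup.subset_closure ⟨(z, 0), fun h => ho (congrArg some h), rfl⟩, ?_⟩
      have h1 : Multiplicative.toAdd (tau c (of (some z))) = c z := by
        unfold tau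
        rw [FreeGroup.lift_apply_of]
        rfl
      rw [h1, ms_iota_of]
      show _ = st X ^ (0 : ℤ) * of (some z) * st X ^ (-(0 : ℤ) - c z) * st X ^ c z
      rw [mul_assoc, ← zpow_add]
      simp
  | one =>
    refine ⟨1, Subgroup.one_mem _, ?_⟩
    simp
  | mul x y _ _ hx hy =>
    obtain ⟨x', hx', hx2⟩ := hx
    obtain ⟨y', hy', hy2⟩ := hy
    refine ⟨x' * sh X (Multiplicative.toAdd (tau c x)) y', Subgroup.mul_mem _ hx' ?_, ?_⟩
    · exact map_mem_let (fun p : X × ℤ => (p.1, p.2 + Multiplicative.toAdd (tau c x)))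
        (fun p hp => hp) hy'
    · rw [map_mul (iota c), ms_sh, map_mul (tau c), toAdd_mul, zpow_add]
      conv_lhs => rw [hx2, hy2]
      simp only [zpow_neg, mul_assoc, inv_mul_cancel_left]
  | inv x _ hx =>
    obtain ⟨x', hx', hx2⟩ := hx
    refine ⟨sh X (-(Multiplicative.toAdd (tau c x))) x'⁻¹,
      map_mem_let (fun p : X × ℤ => (p.1, p.2 + -(Multiplicative.toAdd (tau c x))))
        (fun p hp => hp) (Subgroup.inv_mem _ hx'), ?_⟩
    rw [ms_sh, map_inv (tau c), toAdd_inv, map_inv (iota c)]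
    conv_lhs => rw [hx2]
    simp only [mul_inv_rev, neg_neg, zpow_neg, mul_assoc, mul_inv_cancel, mul_one]

private lemma ms_incl (x0 : X) (i i' : ℤ) (T : Set (X × ℤ)) (hT : T ⊆ Y0 x0 i i')
    (v' : FreeGroup (X × ℤ)) (hv' : v' ∈ Let T) (y : Y0 x0 i i') (hy : y.1 ∉ T) :
    ∃ v'' : FreeGroup (Y0 x0 i i'), v'' ∈ Let ({y}ᶜ : Set (Y0 x0 i i')) ∧ incl _ v'' = v' := by
  have h0 : v' ∈ Let (Y0 x0 i i') := let_mono hT hv'
  obtain ⟨v'', h1, _⟩ := exists_map_eq_of_mem_let (Y0 x0 i i') h0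
  refine ⟨v'', ?_, h1⟩
  have h3 : FreeGroup.map (Subtype.val : Y0 x0 i i' → X × ℤ) v'' ∈ Let T := by
    have h4 : FreeGroup.map (Subtype.val : Y0 x0 i i' → X × ℤ) v'' = v' := h1
    rw [h4]
    exact hv'
  have h2 : v'' ∈ Let ((Subtype.val : Y0 x0 i i' → X × ℤ) ⁻¹' T) :=
    mem_let_of_map (Subtype.val : Y0 x0 i i' → X × ℤ) Subtype.val_injective T h3
  have h5 : ((Subtype.val : Y0 x0 i i' → X × ℤ) ⁻¹' T) ⊆ ({y}ᶜ : Set (Y0 x0 i i')) := by
    intro p hp hpy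
    have h6 : p = y := hpy
    subst h6
    exact hy hp
  exact let_mono h5 h2

private lemma ms_arith {Λ n Q q B : ℕ} (hQq : Q ≤ q) (hΛ : Λ ≤ q)
    (hn : (Λ + 1) * n ≤ q) (hP : (q + B + 2) + 3 * (q + B + 2) ^ 2 ≤ (q + B + 2) ^ 4) :
    (2 * Q + Λ + 1) * B + (Λ + 1) * n ≤ (q + B + 2) ^ 4 ∧
      Q + max B ((2 * Q + Λ + 1) * B) ≤ (q + B + 2) ^ 4 := by
  have h1 : (2 * Q + Λ + 1) * B ≤ (3 * q + 1) * B := Nat.mul_le_mul_right _ (by omega)
  have h2 : (3 * q + 1) * B ≤ 3 * (q + B + 2) ^ 2 := by nlinarith [Nat.zero_le q, Nat.zero_le B]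
  constructor
  · omega
  · have h3 : max B ((2 * Q + Λ + 1) * B) ≤ 3 * (q + B + 2) ^ 2 := by
      apply max_le
      · nlinarith [Nat.zero_le q, Nat.zero_le B]
      · omega
    omega

/-- the bound -/
private lemma ms_core (x0 : X) (i i' : ℤ) (hi : i ≤ i') (r0 : FreeGroup (Y0 x0 i i')) (Λ : ℕ)
    (hc : ∀ x, (c x).natAbs ≤ Λ) (hΛ : i.natAbs ≤ Λ) (hΛ' : i'.natAbs ≤ Λ)
    (hlr0 : r0 ∈ Let {p : Y0 x0 i i' | p.1.2.natAbs ≤ Λ})
    (B0 : ℕ → ℕ) (hB0 : Monotone B0)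
    (h1 : Mag B0 r0 (y0 x0 i i' i' hi le_rfl)) (h2 : Mag B0 r0 (y0 x0 i i' i le_rfl hi))
    (y : Y0 x0 i i') (hy : Mag B0 r0 y) (n : ℕ) (u v : FreeGroup (Option X)) (hu : len u ≤ n)
    (v'' : FreeGroup (Y0 x0 i i')) (hv'' : v'' ∈ Let ({y}ᶜ : Set (Y0 x0 i i'))) (e : ℤ)
    (he : e.natAbs ≤ (Λ + 1) * n) (hv : v = iota c (incl _ v'') * st X ^ e)
    (huv : u * v⁻¹ ∈ Subgroup.normalClosure {iota c (incl _ r0)}) :
    len v ≤ Bst Λ B0 n ∧ AreaLe (iota c (incl _ r0)) (Bst Λ B0 n) (u * v⁻¹) := by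
  set r := iota c (incl _ r0) with hr
  set n' := (Λ + 2) * n with hn'
  set m := n + Λ + 2 with hm
  set Q := (phiB B0)^[(n' + Λ + 2) ^ 4] ((n' + Λ + 2) ^ 4) with hQ
  set q := (phiB B0)^[m ^ 8] (m ^ 8) with hq
  have hmm : n' + Λ + 2 ≤ m ^ 2 := by
    rw [hn', hm]
    nlinarith [Nat.zero_le n, Nat.zero_le Λ]
  have h48 : (n' + Λ + 2) ^ 4 ≤ m ^ 8 := by
    calc (n' + Λ + 2) ^ 4 ≤ (m ^ 2) ^ 4 := Nat.pow_le_pow_left hmm 4
      _ = m ^ 8 := by ring
  have hQq : Q ≤ q := iter_phiB_mono hB0 h48 h48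
  have hm8 : m ^ 8 ≤ q := by
    have := iter_phiB_mono hB0 (Nat.zero_le (m ^ 8)) (le_refl (m ^ 8))
    simpa using this
  have hm2 : m ^ 2 ≤ m ^ 8 := Nat.pow_le_pow_right (by omega) (by norm_num)
  have hΛn : (Λ + 1) * n ≤ m ^ 2 := by
    rw [hm]
    nlinarith [Nat.zero_le n, Nat.zero_le Λ]
  have hΛQ : Λ ≤ Q := by
    have h3 := iter_phiB_mono hB0 (Nat.zero_le ((n' + Λ + 2) ^ 4)) (le_refl ((n' + Λ + 2) ^ 4))
    have h4 : (n' + Λ + 2) ≤ (n' + Λ + 2) ^ 4 := Nat.le_self_pow (by norm_num) _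
    have h5 : (n' + Λ + 2) ^ 4 ≤ Q := by simpa using h3
    omega
  have hlen : len (u * st X ^ (-e)) ≤ n' := by
    have h3 := len_mul_le u (st X ^ (-e))
    have h4 : len (st X ^ (-e)) ≤ e.natAbs := by
      have h5 := len_zpow_of_le (none : Option X) (-e)
      rwa [Int.natAbs_neg] at h5
    have h5 : n' = n + (Λ + 1) * n := by rw [hn']; ring
    calc _ ≤ len u + len (st X ^ (-e)) := h3
      _ ≤ n + (Λ + 1) * n := Nat.add_le_add hu (h4.trans he)
      _ = n' := h5.symm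
  have huv2 : u * st X ^ (-e) * (iota c (incl _ v''))⁻¹ = u * v⁻¹ := by
    rw [hv, mul_inv_rev, zpow_neg, mul_assoc]
  obtain ⟨h, hh1, hh2, hh3⟩ := britton_bound c x0 i i' hi r0 Λ hc hΛ hΛ' hlr0 B0 hB0 h1 h2 n'
    (u * st X ^ (-e)) hlen v'' (by rw [huv2]; exact huv)
  have hhv : h * v''⁻¹ ∈ Subgroup.normalClosure {r0} := by
    apply base_embeds c x0 i i' hi r0 B0 h1 h2
    have h3 := hh3.mem
    have h4 : iota c (incl _ (h * v''⁻¹)) =
        (u * st X ^ (-e) * (iota c (incl _ h))⁻¹)⁻¹ * (u * v⁻¹) := by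
      rw [← huv2]
      simp only [map_mul, map_inv, mul_inv_rev, inv_inv, mul_assoc, inv_mul_cancel_left]
    rw [h4]
    exact Subgroup.mul_mem _ (Subgroup.inv_mem _ h3) huv
  obtain ⟨hl, hA⟩ := hy.2 Q h v'' hh1 hv'' hhv
  set S : Set (Y0 x0 i i') := {p | p.1.2.natAbs ≤ Q} with hS
  have hsub : {p : Y0 x0 i i' | p.1.2.natAbs ≤ Λ} ⊆ S := fun p hp => le_trans hp hΛQ
  have hr0S : r0 ∈ Let S := let_mono hsub hlr0
  have hv''S : v'' ∈ Let S := hy.mem_let hr0S hh2 hv'' hhv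
  have hφ : ∀ p ∈ S, len (((iota c).comp (incl (Y0 x0 i i'))) (of p)) ≤ 2 * Q + Λ + 1 := by
    intro p hp
    rw [MonoidHom.comp_apply]
    unfold incl
    rw [FreeGroup.map.of, ms_iota_of]
    have h3 := len_mul_le (st X ^ p.1.2 * of (some p.1.1)) (st X ^ (-p.1.2 - c p.1.1))
    have h4 := len_mul_le (st X ^ p.1.2) (of (some p.1.1))
    have h5 : len (st X ^ p.1.2) ≤ p.1.2.natAbs := len_zpow_of_le (none : Option X) p.1.2
    have h6 : len (st X ^ (-p.1.2 - c p.1.1)) ≤ (-p.1.2 - c p.1.1).natAbs :=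
      len_zpow_of_le (none : Option X) (-p.1.2 - c p.1.1)
    have h7 := len_of (some p.1.1)
    have h8 := hc p.1.1
    have h9 : p.1.2.natAbs ≤ Q := hp
    have h10 : (-p.1.2 - c p.1.1).natAbs ≤ p.1.2.natAbs + (c p.1.1).natAbs := by omega
    omega
  have hlv : len (iota c (incl _ v'')) ≤ (2 * Q + Λ + 1) * B0 Q := by
    have h3 := len_hom_le ((iota c).comp (incl (Y0 x0 i i'))) S (2 * Q + Λ + 1) hφ v'' hv''S
    exact h3.trans (Nat.mul_le_mul_left _ hl)
  have hA2 : AreaLe r (max (B0 Q) ((2 * Q + Λ + 1) * B0 Q)) (iota c (incl _ (h * v''⁻¹))) := by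
    have h3 : AreaIn (S ∩ Set.univ) r0 (B0 Q) (h * v''⁻¹) :=
      hA.retract hr0S (Subgroup.mul_mem _ hh2 (Subgroup.inv_mem _ hv''S))
    exact h3.map ((iota c).comp (incl (Y0 x0 i i'))) (fun p hp => ⟨hφ p hp.1, let_univ _⟩)
  have hBq : B0 Q ≤ B0 q := hB0 hQq
  have hP := (phiB_le (B := B0) (q := q)).2.2
  have hPe : phiB B0 q = (q + B0 q + 2) ^ 4 := rfl
  have hfin : phiB B0 q ≤ Bst Λ B0 n := by
    have h3 : phiB B0 q = (phiB B0)^[m ^ 8 + 1] (m ^ 8) := by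
      rw [Function.iterate_succ_apply', hq]
    rw [h3]
    show _ ≤ (phiB B0)^[m ^ 8 + 3] (m ^ 8)
    exact iter_phiB_mono hB0 (Nat.add_le_add_left (by norm_num) _) le_rfl
  have har := ms_arith (Λ := Λ) (n := n) (Q := Q) (q := q) (B := B0 q) hQq
    (hΛQ.trans hQq) ((hΛn.trans hm2).trans hm8) (by rw [← hPe]; exact hP)
  rw [← hPe] at har
  have hle1 : (2 * Q + Λ + 1) * B0 Q ≤ (2 * Q + Λ + 1) * B0 q := Nat.mul_le_mul_left _ hBq
  constructor
  · refine le_trans ?_ hfin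
    rw [hv]
    have h3 := len_mul_le (iota c (incl _ v'')) (st X ^ e)
    have h4 : len (st X ^ e) ≤ e.natAbs := len_zpow_of_le (none : Option X) e
    have h5 := har.1
    calc _ ≤ len (iota c (incl _ v'')) + len (st X ^ e) := h3
      _ ≤ (2 * Q + Λ + 1) * B0 q + (Λ + 1) * n :=
        Nat.add_le_add (hlv.trans hle1) (h4.trans he)
      _ ≤ _ := h5
  · have h3 : u * v⁻¹ = (u * st X ^ (-e) * (iota c (incl _ h))⁻¹) *
        iota c (incl _ (h * v''⁻¹)) := by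
      rw [← huv2]
      simp only [map_mul, map_inv, mul_assoc, inv_mul_cancel_left]
    rw [h3]
    refine (AreaIn.mul hh3 hA2).mono (le_refl _) ?_
    refine le_trans ?_ hfin
    refine le_trans ?_ har.2
    exact Nat.add_le_add_left (max_le_max hBq hle1) _

theorem mag_shift (x0 : X) (i i' : ℤ) (hi : i ≤ i') (r0 : FreeGroup (Y0 x0 i i')) (Λ : ℕ)
    (hc : ∀ x, (c x).natAbs ≤ Λ) (hΛ : i.natAbs ≤ Λ) (hΛ' : i'.natAbs ≤ Λ)
    (hlr0 : r0 ∈ Let {p : Y0 x0 i i' | p.1.2.natAbs ≤ Λ})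
    (B0 : ℕ → ℕ) (hB0 : Monotone B0)
    (h1 : Mag B0 r0 (y0 x0 i i' i' hi le_rfl)) (h2 : Mag B0 r0 (y0 x0 i i' i le_rfl hi)) :
    Mag (Bst Λ B0) (iota c (incl _ r0)) (some x0) := by
  have hR : ∀ g ∈ Subgroup.normalClosure {iota c (incl _ r0)}, tau c g = 1 := by
    intro g hg
    have h3 : Subgroup.normalClosure {iota c (incl _ r0)} ≤ (tau c).ker := by
      apply Subgroup.normalClosure_le_normal
      rintro _ rfl
      exact ms_tau_iota c _
    exact h3 hg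
  have hT : {p : X × ℤ | p.1 ≠ x0} ⊆ Y0 x0 i i' := fun p hp h => absurd h hp
  constructor
  · intro v hv hvR
    obtain ⟨v', hv', hvv⟩ := ms_decomp c x0 v hv
    obtain ⟨v'', hv'', hvi⟩ := ms_incl x0 i i' _ hT v' hv' (y0 x0 i i' i' hi le_rfl)
      (fun h => h rfl)
    have h3 : Multiplicative.toAdd (tau c v) = 0 := by rw [hR v hvR]; rfl
    rw [h3, zpow_zero, mul_one] at hvv
    rw [← hvi] at hvv
    have h4 : v'' = 1 := by
      apply h1.1 v'' hv''
      apply base_embeds c x0 i i' hi r0 B0 h1 h2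
      rw [← hvv]
      exact hvR
    rw [hvv, h4, map_one, map_one]
  · intro n u v hu hv huv
    obtain ⟨v', hv', hvv⟩ := ms_decomp c x0 v hv
    obtain ⟨v'', hv'', hvi⟩ := ms_incl x0 i i' _ hT v' hv' (y0 x0 i i' i' hi le_rfl)
      (fun h => h rfl)
    have h3 : tau c v = tau c u := by
      have h4 := hR _ huv
      rw [map_mul, map_inv, mul_inv_eq_one] at h4
      exact h4.symm
    refine ms_core c x0 i i' hi r0 Λ hc hΛ hΛ' hlr0 B0 hB0 h1 h2 _ h1 n u v hu v'' hv''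
      (Multiplicative.toAdd (tau c v)) ?_ (by rw [hvi]; exact hvv) huv
    rw [h3]
    exact (ms_tau_le c Λ hc u).trans (Nat.mul_le_mul_left _ hu)

theorem mag_shift_none (x0 : X) (i i' : ℤ) (hi : i ≤ i') (r0 : FreeGroup (Y0 x0 i i')) (Λ : ℕ)
    (hΛ : i.natAbs ≤ Λ) (hΛ' : i'.natAbs ≤ Λ)
    (hlr0 : r0 ∈ Let {p : Y0 x0 i i' | p.1.2.natAbs ≤ Λ})
    (B0 : ℕ → ℕ) (hB0 : Monotone B0)
    (h1 : Mag B0 r0 (y0 x0 i i' i' hi le_rfl)) (h2 : Mag B0 r0 (y0 x0 i i' i le_rfl hi))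
    (h3 : i ≤ 0) (h4 : 0 ≤ i') (p : Y0 x0 i i') (hp : p.1.2 ≠ 0) (h5 : Mag B0 r0 p) :
    Mag (Bst Λ B0) (iota (fun _ => 0) (incl _ r0)) none := by
  have hT : {p : X × ℤ | p.2 = 0} ⊆ Y0 x0 i i' := by
    intro p (hp : p.2 = 0) _
    rw [hp]
    exact ⟨h3, h4⟩
  have hdec : ∀ v ∈ Let ({none}ᶜ : Set (Option X)), ∃ v'' : FreeGroup (Y0 x0 i i'),
      v'' ∈ Let ({p}ᶜ : Set (Y0 x0 i i')) ∧ v = iota (fun _ => 0) (incl _ v'') := by
    intro v hv
    have h6 : ∃ v' ∈ Let {p : X × ℤ | p.2 = 0}, v = iota (fun _ => 0) v' := by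
      induction hv using Subgroup.closure_induction with
      | mem x hx =>
        obtain ⟨o, ho, rfl⟩ := hx
        rcases o with _ | z
        · exact absurd rfl ho
        · refine ⟨of (z, 0), Subgroup.subset_closure ⟨(z, 0), rfl, rfl⟩, ?_⟩
          rw [ms_iota_of]
          simp
      | one => exact ⟨1, Subgroup.one_mem _, (map_one _).symm⟩
      | mul x y _ _ hx hy =>
        obtain ⟨x', hx', rfl⟩ := hx
        obtain ⟨y', hy', rfl⟩ := hy
        exact ⟨x' * y', Subgroup.mul_mem _ hx' hy', (map_mul _ _ _).symm⟩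
      | inv x _ hx =>
        obtain ⟨x', hx', rfl⟩ := hx
        exact ⟨x'⁻¹, Subgroup.inv_mem _ hx', (map_inv _ _).symm⟩
    obtain ⟨v', hv', rfl⟩ := h6
    obtain ⟨v'', hv'', hvi⟩ := ms_incl x0 i i' _ hT v' hv' p hp
    exact ⟨v'', hv'', by rw [hvi]⟩
  constructor
  · intro v hv hvR
    obtain ⟨v'', hv'', rfl⟩ := hdec v hv
    have h6 : v'' = 1 := by
      apply h5.1 v'' hv''
      exact base_embeds (fun _ => 0) x0 i i' hi r0 B0 h1 h2 _ hvR
    rw [h6, map_one, map_one]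
  · intro n u v hu hv huv
    obtain ⟨v'', hv'', hvi⟩ := hdec v hv
    exact ms_core (fun _ => 0) x0 i i' hi r0 Λ (fun _ => by simp) hΛ hΛ' hlr0 B0 hB0 h1 h2 p h5 n
      u v hu v'' hv'' 0 (by simp) (by rw [zpow_zero, mul_one]; exact hvi) huv

end M2b

end Pool.Agent.ROR
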