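import Pool.Agent.ROR.Area
import Pool.Agent.ROR.LevelWord
import Pool.Agent.ROR.MagShift
import Pool.Agent.ROR.MagC

/-!
# The recursion of the Magnus hierarchy (project ROR, M5)
-/

set_option autoImplicit false

namespace Pool.Agent.ROR

open FreeGroup (of)

section Aux

variable {X Y : Type*}

theorem MagMain_expo_map (e : X ≃ Y) (x : X) (u : FreeGroup X) :
    expo (e x) (FreeGroup.map e u) = expo x u := by
  classical
  have h : (expo (e x)).comp (FreeGroup.map e) = expo x := by
    ext y
    simp only [expo, MonoidHom.comp_apply, FreeGroup.map.of, FreeGroup.lift_apply_of,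
      EmbeddingLike.apply_eq_iff_eq]
  exact DFunLike.congr_fun h u

theorem MagMain_iota_zero (u : FreeGroup X) :
    iota (fun _ : X => (0 : ℤ)) (FreeGroup.map (fun x => (x, (0 : ℤ))) u) = FreeGroup.map some u := by
  have h : (iota (fun _ : X => (0 : ℤ))).comp (FreeGroup.map fun x => (x, (0 : ℤ))) =
      FreeGroup.map some := by
    ext y
    simp [iota]
  exact DFunLike.congr_fun h u

theorem MagMain_len_pow_le (v : FreeGroup X) (k : ℕ) : len (v ^ k) ≤ k * len v := by
  induction k with
  | zero => simp [len_one]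
  | succ k ih =>
    rw [pow_succ]
    refine (len_mul_le _ _).trans ?_
    rw [Nat.succ_mul]
    exact Nat.add_le_add_right ih _

theorem MagMain_len_pow (w : List (X × Bool)) (hw : FreeGroup.IsCyclicallyReduced w) (k : ℕ) :
    len (FreeGroup.mk w ^ k) = k * w.length := by
  have h1 : FreeGroup.mk w ^ k = FreeGroup.mk (List.replicate k w).flatten := by
    induction k with
    | zero => simp; rfl
    | succ k ih =>
      rw [pow_succ', ih, FreeGroup.mul_mk, List.replicate_succ, List.flatten_cons]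
  rw [h1, len_mk_eq (hw.flatten_replicate k).isReduced]
  simp

/-- the least and the greatest level of a letter -/
theorem MagMain_levels (W : List ((X × ℤ) × Bool)) (x0 : X) (hx : ∃ j b, ((x0, j), b) ∈ W) :
    ∃ i i' : ℤ, i ≤ i' ∧ (∃ b, ((x0, i), b) ∈ W) ∧ (∃ b, ((x0, i'), b) ∈ W) ∧
      ∀ p ∈ W, p.1 ∈ Y0 x0 i i' := by
  classical
  set F : Finset ℤ := ((W.filter fun p => p.1.1 = x0).map fun p => p.1.2).toFinset with hF
  have hmem : ∀ j, j ∈ F ↔ ∃ b, ((x0, j), b) ∈ W := by
    intro j
    rw [hF, List.mem_toFinset, List.mem_map]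
    constructor
    · rintro ⟨⟨⟨y, j'⟩, b⟩, hp, rfl⟩
      obtain ⟨h1, h2⟩ := List.mem_filter.1 hp
      have h3 : y = x0 := by simpa using h2
      subst h3
      exact ⟨b, h1⟩
    · rintro ⟨b, hb⟩
      exact ⟨((x0, j), b), List.mem_filter.2 ⟨hb, by simp⟩, rfl⟩
  have hne : F.Nonempty := by
    obtain ⟨j, b, hb⟩ := hx
    exact ⟨j, (hmem j).2 ⟨b, hb⟩⟩
  refine ⟨F.min' hne, F.max' hne, F.min'_le_max' hne, (hmem _).1 (F.min'_mem hne),
    (hmem _).1 (F.max'_mem hne), ?_⟩
  rintro ⟨⟨y, j⟩, b⟩ hp hy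
  simp only at hy
  subst hy
  have hj : j ∈ F := (hmem j).2 ⟨b, hp⟩
  exact ⟨F.min'_le j hj, F.le_max' j hj⟩

/-- conjugates of elements which are no proper powers -/
theorem MagMain_npw {G : Type*} [Group G] (φ : G →* FreeGroup Y) {r : G} {s : FreeGroup Y}
    (hs : NPw s) (g : FreeGroup Y) (h : φ r = g * s * g⁻¹) (a : G) (k : ℕ) (ha : a ^ k = r) :
    k = 1 := by
  refine hs (g⁻¹ * φ a * g) k ?_
  have h1 : (g⁻¹ * φ a * g) ^ k = g⁻¹ * (φ a) ^ k * g := by
    have := conj_pow (i := k) (a := g⁻¹) (b := φ a)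
    rw [inv_inv] at this
    exact this
  rw [h1, ← map_pow, ha, h]
  group

/-- one step of the hierarchy: the level word restricted to its letters -/
theorem MagMain_step (c : X → ℤ) (h : ℤ) (w : List (Option X × Bool))
    (hw : FreeGroup.IsCyclicallyReduced w) (ht : tau c (FreeGroup.mk w) = 1)
    (hnp : NPw (FreeGroup.mk w)) (Λ Λc : ℕ) (hc : ∀ x, (c x).natAbs ≤ Λc)
    (hΛ : h.natAbs + (Λc + 1) * w.length ≤ Λ) (x0 : X) (hx : ∃ j b, ((x0, j), b) ∈ lw c h w)
    (B0 : ℕ → ℕ)
    (IH : ∀ (S : Set (X × ℤ)) (w0 : List (S × Bool)), FreeGroup.IsCyclicallyReduced w0 →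
      NPw (FreeGroup.mk w0) → w0.length = (lw c h w).length → nlet w0 = nlet (lw c h w) →
      ∀ p b, (p, b) ∈ w0 → Mag B0 (FreeGroup.mk w0) p) :
    ∃ (i i' : ℤ) (hi : i ≤ i') (w0 : List (Y0 x0 i i' × Bool)),
      w0.map (fun p => (p.1.1, p.2)) = lw c h w ∧ i.natAbs ≤ Λ ∧ i'.natAbs ≤ Λ ∧
      FreeGroup.mk w0 ∈ Let {p : Y0 x0 i i' | p.1.2.natAbs ≤ Λ} ∧
      Mag B0 (FreeGroup.mk w0) (y0 x0 i i' i' hi le_rfl) ∧
      Mag B0 (FreeGroup.mk w0) (y0 x0 i i' i le_rfl hi) ∧
      (∀ p b, (p, b) ∈ w0 → Mag B0 (FreeGroup.mk w0) p) ∧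
      iota c (incl _ (FreeGroup.mk w0)) = st X ^ h * FreeGroup.mk w * (st X ^ h)⁻¹ := by
  obtain ⟨i, i', hi, ⟨b1, hb1⟩, ⟨b2, hb2⟩, hall⟩ := MagMain_levels (lw c h w) x0 hx
  obtain ⟨w0, hw0⟩ := exists_restrict (Y0 x0 i i') (lw c h w) hall
  have hlen : w0.length = (lw c h w).length := by rw [← hw0, List.length_map]
  have hnl : nlet w0 = nlet (lw c h w) := by
    rw [← hw0, nlet_map _ Subtype.val_injective]
  have hcyc : FreeGroup.IsCyclicallyReduced w0 := by
    rw [← cycReduced_map _ (Subtype.val_injective (p := fun p => p ∈ Y0 x0 i i')), hw0]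
    exact lw_cycReduced c h w hw ht
  have hincl : incl _ (FreeGroup.mk w0) = FreeGroup.mk (lw c h w) := by
    rw [← hw0]
    exact FreeGroup.map.mk
  have hiota : iota c (incl _ (FreeGroup.mk w0)) =
      st X ^ h * FreeGroup.mk w * (st X ^ h)⁻¹ := by
    rw [hincl, lw_spec, ht]
    simp
  have hnp0 : NPw (FreeGroup.mk w0) := by
    intro a k ha
    exact MagMain_npw ((iota c).comp (incl _)) hnp (st X ^ h) hiota a k ha
  have hmag := IH _ w0 hcyc hnp0 hlen hnl
  have hlev : ∀ p b, (p, b) ∈ lw c h w → p.2.natAbs ≤ Λ := fun p b hp =>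
    (lw_level c h w Λc hc p b hp).trans hΛ
  refine ⟨i, i', hi, w0, hw0, hlev _ _ hb1, hlev _ _ hb2, ?_, ?_, ?_, hmag, hiota⟩
  · apply mk_mem_let
    intro p hp
    refine hlev p.1.1 p.2 ?_
    rw [← hw0]
    exact List.mem_map.2 ⟨p, hp, rfl⟩
  · rw [← hw0, List.mem_map] at hb2
    obtain ⟨⟨p, b⟩, hp, he⟩ := hb2
    have he' : p = y0 x0 i i' i' hi le_rfl := Subtype.ext (congrArg Prod.fst he)
    rw [← he']
    exact hmag p b hp
  · rw [← hw0, List.mem_map] at hb1
    obtain ⟨⟨p, b⟩, hp, he⟩ := hb1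
    have he' : p = y0 x0 i i' i le_rfl hi := Subtype.ext (congrArg Prod.fst he)
    rw [← he']
    exact hmag p b hp

/-- the level word has a letter of level different from `0` -/
theorem MagMain_ne_zero (h : ℤ) (w : List (Option X × Bool))
    (hw : FreeGroup.IsCyclicallyReduced w) (hn : ∃ b, (none, b) ∈ w)
    (ht : tau (fun _ : X => (0 : ℤ)) (FreeGroup.mk w) = 1) :
    ∃ p ∈ lw (fun _ : X => (0 : ℤ)) h w, p.1.2 ≠ 0 := by
  by_contra hcon
  push Not at hcon
  set W := lw (fun _ : X => (0 : ℤ)) h w with hW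
  set W1 : List (X × Bool) := W.map fun p => (p.1.1, p.2) with hW1
  have h1 : W1.map (fun p => ((p.1, (0 : ℤ)), p.2)) = W := by
    rw [hW1, List.map_map]
    conv_rhs => rw [← List.map_id W]
    refine List.map_congr_left fun p hp => ?_
    obtain ⟨⟨y, j⟩, b⟩ := p
    have := hcon _ hp
    simp only at this
    subst this
    rfl
  have h2 : FreeGroup.map (fun x => (x, (0 : ℤ))) (FreeGroup.mk W1) = FreeGroup.mk W := by
    rw [FreeGroup.map.mk]
    congr 1
  have h3 := lw_spec (fun _ : X => (0 : ℤ)) h w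
  rw [← hW, ← h2, MagMain_iota_zero, ht] at h3
  set v := FreeGroup.map some (FreeGroup.mk W1) with hv
  have hlv : len v ≤ W.length := by
    rw [hv, len_map_of_injective _ (Option.some_injective X)]
    refine (len_mk_le W1).trans ?_
    rw [hW1, List.length_map]
  have hlt : W.length < w.length := lw_length_lt _ h w hn
  have h4 : FreeGroup.mk w = (st X ^ h)⁻¹ * v * st X ^ h := by
    rw [h3]
    simp only [toAdd_one, add_zero, zpow_neg]
    group
  have h5 : ∀ k : ℕ, FreeGroup.mk w ^ k = (st X ^ h)⁻¹ * v ^ k * st X ^ h := by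
    intro k
    rw [h4]
    have := conj_pow (i := k) (a := (st X ^ h)⁻¹) (b := v)
    rw [inv_inv] at this
    exact this
  set k := 2 * h.natAbs + 1 with hk
  have h6 := MagMain_len_pow w hw k
  rw [h5] at h6
  have h7 := len_mul_le ((st X ^ h)⁻¹ * v ^ k) (st X ^ h)
  have h8 := len_mul_le ((st X ^ h)⁻¹) (v ^ k)
  rw [len_inv] at h8
  have h9 : len (st X ^ h) ≤ h.natAbs := len_zpow_of_le none h
  have h10 := MagMain_len_pow_le v k
  have h11 : k * len v ≤ k * W.length := Nat.mul_le_mul_left k hlv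
  have h12 : k * W.length + k ≤ k * w.length := by
    have := Nat.mul_le_mul_left k (show W.length + 1 ≤ w.length from hlt)
    rwa [Nat.mul_succ] at this
  omega

end Aux

universe u

theorem mag_main (L : ℕ) (m : ℕ) : ∀ (X : Type u) (w : List (X × Bool)),
    FreeGroup.IsCyclicallyReduced w → NPw (FreeGroup.mk w) → w.length ≤ L →
    w.length * (L + 1) + (w.length - nlet w) ≤ m → ∀ x b, (x, b) ∈ w →
    Mag (Bf L m) (FreeGroup.mk w) x := by
  induction m with
  | zero =>
    intro X w _ _ _ hm x b hx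
    exfalso
    have h1 : 0 < w.length := List.length_pos_of_mem hx
    have h2 : 0 < w.length * (L + 1) := Nat.mul_pos h1 (Nat.succ_pos L)
    omega
  | succ m ih =>
    intro X w hw hnp hL hm x b hx
    have hmono : Monotone (Bf L m) := fun n n' h => Bf_mono L le_rfl h
    have hwne : w ≠ [] := List.ne_nil_of_mem hx
    have hpos : 0 < w.length := List.length_pos_of_mem hx
    by_cases hnd : (w.map Prod.fst).Nodup
    · exact (mag_of_nodup w hnd L hL x b hx).mono fun n =>
        Bf_mono L (m := 0) (m' := m + 1) (Nat.zero_le _) le_rfl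
    by_cases hA : ∃ t, (∃ b, (t, b) ∈ w) ∧ expo t (FreeGroup.mk w) = 1 ∧ ∃ p ∈ w, p.1 ≠ t
    · -- a letter with exponent sum zero
      obtain ⟨t, ⟨bt, hbt⟩, hexp, ⟨x1, b1⟩, hx1, hne1⟩ := hA
      classical
      set e : X ≃ Option {z : X // z ≠ t} := (Equiv.optionSubtypeNe t).symm with he
      have het : e t = none := by simp [he]
      have hes : ∀ (z : X) (hz : z ≠ t), e z = some ⟨z, hz⟩ := by
        intro z hz
        rw [he, Equiv.symm_apply_eq]
        simp
      set w' : List (Option {z : X // z ≠ t} × Bool) := w.map fun p => (e p.1, p.2) with hw'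
      have hmk : FreeGroup.mk w' = FreeGroup.map e (FreeGroup.mk w) := by
        rw [FreeGroup.map.mk]
      have hlen' : w'.length = w.length := by rw [hw', List.length_map]
      have hcyc' : FreeGroup.IsCyclicallyReduced w' := (cycReduced_map e e.injective w).2 hw
      have hmkback : FreeGroup.map e.symm (FreeGroup.mk w') = FreeGroup.mk w := by
        rw [hmk, FreeGroup.map.comp]
        have : (e.symm ∘ e : X → X) = id := by
          funext z
          simp
        rw [this, FreeGroup.map.id]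
      have hnp' : NPw (FreeGroup.mk w') := by
        intro g k hg
        refine hnp (FreeGroup.map e.symm g) k ?_
        rw [← map_pow, hg, hmkback]
      have htau : tau (fun _ : {z : X // z ≠ t} => (0 : ℤ)) (FreeGroup.mk w') = 1 := by
        rw [tau_zero, ← het, hmk, MagMain_expo_map, hexp]
      have hnone : ∃ b, ((none : Option {z : X // z ≠ t}), b) ∈ w' :=
        ⟨bt, List.mem_map.2 ⟨(t, bt), hbt, by rw [het]⟩⟩
      have hIH : ∀ h : ℤ, ∀ (S : Set ({z : X // z ≠ t} × ℤ)) (w0 : List (S × Bool)),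
          FreeGroup.IsCyclicallyReduced w0 →
          NPw (FreeGroup.mk w0) → w0.length = (lw (fun _ => (0 : ℤ)) h w').length →
          nlet w0 = nlet (lw (fun _ => (0 : ℤ)) h w') →
          ∀ p b, (p, b) ∈ w0 → Mag (Bf L m) (FreeGroup.mk w0) p := by
        intro h S w0 hc0 hn0 hl0 _
        have hlt : w0.length < w.length := by
          rw [hl0, ← hlen']
          exact lw_length_lt _ h w' hnone
        refine ih _ w0 hc0 hn0 (by omega) ?_
        have h1 : w0.length * (L + 1) + (L + 1) ≤ w.length * (L + 1) := by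
          have := Nat.mul_le_mul_right (L + 1) (show w0.length + 1 ≤ w.length from hlt)
          rwa [Nat.succ_mul] at this
        omega
      have hLL : 2 * L ≤ LL L := by
        unfold LL
        nlinarith
      by_cases hxt : x = t
      · -- the letter `t` itself
        subst hxt
        have hx1' : ∃ b, (some (⟨x1, hne1⟩ : {z : X // z ≠ x}), b) ∈ w' :=
          ⟨b1, List.mem_map.2 ⟨(x1, b1), hx1, by rw [hes x1 hne1]⟩⟩
        obtain ⟨i0, b0, hi0⟩ := (mem_lw_fst (fun _ => (0 : ℤ)) 0 w' _).1 hx1'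
        have hi0le : i0.natAbs ≤ L := by
          have := lw_level (fun _ => (0 : ℤ)) 0 w' 0 (fun _ => by simp) _ _ hi0
          simp only [Int.natAbs_zero, zero_add, one_mul] at this
          omega
        have h00 : (((⟨x1, hne1⟩ : {z : X // z ≠ x}), (0 : ℤ)), b0) ∈
            lw (fun _ => (0 : ℤ)) (-i0) w' := by
          have h1 := lw_shift (fun _ : {z : X // z ≠ x} => (0 : ℤ)) 0 (-i0) w'
          rw [zero_add] at h1
          rw [h1]
          exact List.mem_map.2 ⟨_, hi0, by simp⟩
        obtain ⟨i, i', hi, w0, hw0, hil, hil', hlet, hm1, hm2, hmall, hiota⟩ :=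
          MagMain_step (fun _ => (0 : ℤ)) (-i0) w' hcyc' htau hnp' (LL L) 0 (fun _ => by simp)
            (by rw [Int.natAbs_neg, hlen']; omega) _ ⟨0, b0, h00⟩ (Bf L m) (hIH (-i0))
        obtain ⟨⟨p, bp⟩, hp, hp0⟩ := MagMain_ne_zero (-i0) w' hcyc' hnone htau
        rw [← hw0] at hp h00
        obtain ⟨⟨q, bq⟩, hq, hqe⟩ := List.mem_map.1 hp
        obtain ⟨⟨q', bq'⟩, hq', hqe'⟩ := List.mem_map.1 h00
        have hq0 : q'.1 = ((⟨x1, hne1⟩ : {z : X // z ≠ x}), (0 : ℤ)) := congrArg Prod.fst hqe'
        have hrange := q'.2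
        rw [hq0] at hrange
        obtain ⟨h3, h4⟩ := hrange rfl
        have hqp : q.1 = p := congrArg Prod.fst hqe
        have hmag := mag_shift_none _ i i' hi (FreeGroup.mk w0) (LL L) hil hil' hlet (Bf L m)
          hmono hm1 hm2 h3 h4 q (by rw [hqp]; exact hp0) (hmall q bq hq)
        rw [hiota] at hmag
        have hmag2 := (hmag.conj (st _ ^ (-i0))⁻¹).equiv e.symm
        have hconj : (st {z : X // z ≠ x} ^ (-i0))⁻¹ * (st _ ^ (-i0) * FreeGroup.mk w' *
            (st _ ^ (-i0))⁻¹) * ((st _ ^ (-i0))⁻¹)⁻¹ = FreeGroup.mk w' := by group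
        rw [hconj, hmkback] at hmag2
        have hex : e.symm none = x := by rw [Equiv.symm_apply_eq, het]
        rw [hex] at hmag2
        refine hmag2.mono fun n => ?_
        have hlz : len ((st {z : X // z ≠ x} ^ (-i0))⁻¹) ≤ LL L := by
          rw [len_inv]
          refine (len_zpow_of_le none (-i0)).trans ?_
          rw [Int.natAbs_neg]
          omega
        show Bst (LL L) (Bf L m) n + _ ≤ Bst (LL L) (Bf L m) n + LL L
        omega
      · -- another letter
        have hx' : ∃ b, (some (⟨x, hxt⟩ : {z : X // z ≠ t}), b) ∈ w' :=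
          ⟨b, List.mem_map.2 ⟨(x, b), hx, by rw [hes x hxt]⟩⟩
        have hx2 := (mem_lw_fst (fun _ => (0 : ℤ)) 0 w' _).1 hx'
        obtain ⟨i, i', hi, w0, hw0, hil, hil', hlet, hm1, hm2, hmall, hiota⟩ :=
          MagMain_step (fun _ => (0 : ℤ)) 0 w' hcyc' htau hnp' (LL L) 0 (fun _ => by simp)
            (by rw [hlen']; simp; omega) _ hx2 (Bf L m) (hIH 0)
        have hmag := mag_shift (fun _ => (0 : ℤ)) _ i i' hi (FreeGroup.mk w0) (LL L)
          (fun _ => by simp) hil hil' hlet (Bf L m) hmono hm1 hm2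
        rw [hiota, zpow_zero, one_mul, inv_one, mul_one] at hmag
        have hmag2 := hmag.equiv e.symm
        rw [hmkback] at hmag2
        have hex : e.symm (some ⟨x, hxt⟩) = x := by rw [Equiv.symm_apply_eq, hes x hxt]
        rw [hex] at hmag2
        exact hmag2.mono fun n => Nat.le_add_right _ _
    · -- a new letter
      have hB : ∃ t a, (∃ b, (t, b) ∈ w) ∧ (∃ b, (a, b) ∈ w) ∧ t ≠ a ∧
          ∃ (y : X) (j j' : ℤ) (b b' : Bool),
          ((y, j), b) ∈ lw (htw (FreeGroup.mk w) t a) 0 (w.map fun p => (some p.1, p.2)) ∧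
          ((y, j'), b') ∈ lw (htw (FreeGroup.mk w) t a) 0 (w.map fun p => (some p.1, p.2)) ∧
          j ≠ j' := by
        by_contra hcon
        push Not at hcon
        apply hnd
        refine nodup_of_no_progress w hw hwne hnp ?_ ?_
        · by_cases hall : ∃ y, ∀ p ∈ w, p.1 = y
          · exact Or.inl hall
          · right
            intro p hp hexp
            push Not at hall
            obtain ⟨q, hq, hqp⟩ := hall p.1
            exact hA ⟨p.1, ⟨p.2, hp⟩, hexp, q, hq, hqp⟩
        · intro t a ht ha hta y j j' b b' h1 h2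
          obtain ⟨bt, hbt⟩ := ht
          obtain ⟨ba, hba⟩ := ha
          exact hcon t a ⟨bt, hbt⟩ ⟨ba, hba⟩ hta y j j' b b' h1 h2
      obtain ⟨t, a, -, -, hta, y, j, j', b', b'', hj, hj', hne⟩ := hB
      set c := htw (FreeGroup.mk w) t a with hc
      set w' : List (Option X × Bool) := w.map fun p => (some p.1, p.2) with hw'
      have hmk : FreeGroup.mk w' = FreeGroup.map some (FreeGroup.mk w) := by
        rw [FreeGroup.map.mk]
      have hlen' : w'.length = w.length := by rw [hw', List.length_map]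
      have hcyc' : FreeGroup.IsCyclicallyReduced w' :=
        (cycReduced_map some (Option.some_injective X) w).2 hw
      have htau : tau c (FreeGroup.mk w') = 1 := by
        rw [hmk]
        exact tau_htw (FreeGroup.mk w) t a hta
      have hnp' : NPw (FreeGroup.mk w') := by
        intro g k hg
        refine hnp ((FreeGroup.lift fun o : Option X => o.elim 1 of) g) k ?_
        rw [← map_pow, hg, hmk]
        have h1 : (FreeGroup.lift fun o : Option X => o.elim 1 of).comp (FreeGroup.map some) =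
            MonoidHom.id (FreeGroup X) := by
          ext z
          simp
        exact DFunLike.congr_fun h1 (FreeGroup.mk w)
      have hcb : ∀ z, (c z).natAbs ≤ L := by
        intro z
        rw [hc]
        unfold htw
        split_ifs
        · exact (expo_natAbs_le a w).trans hL
        · rw [Int.natAbs_neg]
          exact (expo_natAbs_le t w).trans hL
        · simp
      have hnone : ∀ b, ((none : Option X), b) ∉ w' := by
        intro b hb
        obtain ⟨p, _, hp⟩ := List.mem_map.1 hb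
        simp at hp
      have hlenW : (lw c 0 w').length = w.length := by
        rw [lw_length_eq c 0 w' hnone, hlen']
      have hnletW : nlet w < nlet (lw c 0 w') := nlet_lw_lt c 0 w y j j' b' b'' hne hj hj'
      have hx' : ∃ b, (some x, b) ∈ w' := ⟨b, List.mem_map.2 ⟨(x, b), hx, rfl⟩⟩
      have hx2 := (mem_lw_fst c 0 w' _).1 hx'
      have hLL : (L + 1) * w.length ≤ LL L := by
        have h1 : (L + 1) * w.length ≤ (L + 1) * L := Nat.mul_le_mul_left _ hL
        refine h1.trans ?_
        unfold LL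
        nlinarith
      have hLL' : L ≤ LL L := by
        unfold LL
        nlinarith
      obtain ⟨i, i', hi, w0, hw0, hil, hil', hlet, hm1, hm2, hmall, hiota⟩ :=
        MagMain_step c 0 w' hcyc' htau hnp' (LL L) L hcb
          (by rw [hlen']; simpa using hLL) _ hx2 (Bf L m) (by
            intro S w0 hc0 hn0 hl0 hnl
            refine ih _ w0 hc0 hn0 (by omega) ?_
            rw [hl0, hlenW, hnl]
            have h1 := nlet_le_length (lw c 0 w')
            rw [hlenW] at h1
            omega)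
      have hmag := mag_shift c x i i' hi (FreeGroup.mk w0) (LL L)
        (fun z => (hcb z).trans hLL') hil hil' hlet (Bf L m) hmono hm1 hm2
      rw [hiota, zpow_zero, one_mul, inv_one, mul_one, hmk] at hmag
      exact hmag.of_some.mono fun n => Nat.le_add_right _ _

theorem mem_ncl_iff {X : Type u} (w : List (X × Bool)) (hw : FreeGroup.IsCyclicallyReduced w)
    (hne : w ≠ []) (hnp : NPw (FreeGroup.mk w)) (u : FreeGroup X) :
    u ∈ Subgroup.normalClosure {FreeGroup.mk w} ↔
      AreaLe (FreeGroup.mk w) (Bf w.length ((w.length + 1) ^ 2) (len u)) u := by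
  obtain ⟨⟨x, b⟩, hx⟩ := List.exists_mem_of_ne_nil w hne
  refine (mag_main w.length ((w.length + 1) ^ 2) X w hw hnp le_rfl ?_ x b hx).mem_iff u
  have : (w.length + 1) ^ 2 = w.length * (w.length + 1) + w.length + 1 := by ring
  omega

end Pool.Agent.ROR
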