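import Pool.Agent.ROR.Area
import Pool.Agent.ROR.Bcomp
import Pool.Agent.ROR.MagMain
import Pool.Agent.RSMonic.SearchComp
import Pool.Agent.RSMonic.Test

/-!
# Computable membership tests for `⟨⟨r⟩⟩` and `[⟨⟨r⟩⟩, ⟨⟨r⟩⟩]` (project ROR, MP_08b746_al)
-/

set_option autoImplicit false

namespace Pool.Agent.ROR

open FreeGroup (of)

namespace MemC

open Pool.Agent.RSMonic (fox inv wordsLE mem_wordsLE mk_inv_eq mem_comm_ker_iff mk_eq_of_reduce_eq
  reduce_primrec inv_primrec signFlip_primrec wordsLE_primrec)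

abbrev Wd : Type := List (ℕ × Bool)

/-! ## the search -/

/-- the letters of `w` with both signs -/
def alphW (w : Wd) : Wd := w.flatMap fun z => [z, (z.1, !z.2)]

/-- words with signs -/
def pairsW (W : List Wd) : List (Wd × Bool) := W.flatMap fun g => [(g, true), (g, false)]

/-- the product of the conjugates `g r^{±1} g⁻¹` -/
def conc (r : Wd) (l : List (Wd × Bool)) : Wd :=
  l.flatMap fun p => p.1 ++ ((if p.2 then r else inv r) ++ inv p.1)

/-- `v` is a product of at most `N` conjugates with conjugators of length `≤ N` -/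
def memN (N : ℕ) (r v : Wd) : Bool :=
  decide (∃ l ∈ wordsLE (pairsW (wordsLE (alphW (r ++ v)) N)) N,
    FreeGroup.reduce (conc r l) = FreeGroup.reduce v)

theorem mk_conc (r : Wd) (l : List (Wd × Bool)) :
    FreeGroup.mk (conc r l) =
      cprod (FreeGroup.mk r) (l.map fun p => (FreeGroup.mk p.1, p.2)) := by
  induction l with
  | nil => rfl
  | cons p l ih =>
    have h1 : conc r (p :: l) = (p.1 ++ ((if p.2 then r else inv r) ++ inv p.1)) ++ conc r l := by
      unfold conc
      rw [List.flatMap_cons]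
    have h2 : cprod (FreeGroup.mk r) ((p :: l).map fun p => (FreeGroup.mk p.1, p.2)) =
        (FreeGroup.mk p.1 * (if p.2 then FreeGroup.mk r else (FreeGroup.mk r)⁻¹) *
          (FreeGroup.mk p.1)⁻¹) *
          cprod (FreeGroup.mk r) (l.map fun p => (FreeGroup.mk p.1, p.2)) := by
      unfold cprod
      rw [List.map_cons, List.map_cons, List.prod_cons]
    rw [h1, h2, ← FreeGroup.mul_mk, ih, ← FreeGroup.mul_mk, ← FreeGroup.mul_mk, mk_inv_eq]
    congr 1
    obtain ⟨g, b⟩ := p
    cases b
    · simp only [Bool.false_eq_true, if_false, mk_inv_eq, mul_assoc]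
    · simp only [if_true, mul_assoc]

theorem mem_alphW {w : Wd} {z : ℕ × Bool} (h : ∃ p ∈ w, p.1 = z.1) : z ∈ alphW w := by
  obtain ⟨p, hp, hpz⟩ := h
  unfold alphW
  rw [List.mem_flatMap]
  refine ⟨p, hp, ?_⟩
  obtain ⟨a, b⟩ := p
  obtain ⟨c, d⟩ := z
  simp only at hpz
  subst hpz
  cases b <;> cases d <;> simp

theorem mem_pairsW {W : List Wd} {p : Wd × Bool} (h : p.1 ∈ W) : p ∈ pairsW W := by
  unfold pairsW
  rw [List.mem_flatMap]
  refine ⟨p.1, h, ?_⟩
  obtain ⟨g, b⟩ := p
  cases b <;> simp

theorem fst_mem_of_mem_pairsW {W : List Wd} {p : Wd × Bool} (h : p ∈ pairsW W) : p.1 ∈ W := by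
  unfold pairsW at h
  rw [List.mem_flatMap] at h
  obtain ⟨g, hg, h⟩ := h
  simp only [List.mem_cons, List.not_mem_nil, or_false] at h
  rcases h with rfl | rfl <;> exact hg

theorem memN_iff (N : ℕ) (r v : Wd) :
    memN N r v = true ↔ AreaLe (FreeGroup.mk r) N (FreeGroup.mk v) := by
  unfold memN
  rw [decide_eq_true_eq]
  constructor
  · rintro ⟨l, hl, hlv⟩
    rw [mem_wordsLE] at hl
    refine ⟨l.map fun p => (FreeGroup.mk p.1, p.2), by simpa using hl.1, ?_, ?_⟩
    · intro p hp
      rw [List.mem_map] at hp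
      obtain ⟨q, hq, rfl⟩ := hp
      have h1 := fst_mem_of_mem_pairsW (hl.2 q hq)
      rw [mem_wordsLE] at h1
      exact ⟨(len_mk_le _).trans h1.1, let_univ _⟩
    · rw [← mk_conc]
      exact mk_eq_of_reduce_eq hlv
  · intro h
    have hr : FreeGroup.mk r ∈ Let {x : ℕ | ∃ p ∈ r ++ v, p.1 = x} :=
      mk_mem_let fun p hp => ⟨p, List.mem_append_left _ hp, rfl⟩
    have hv : FreeGroup.mk v ∈ Let {x : ℕ | ∃ p ∈ r ++ v, p.1 = x} :=
      mk_mem_let fun p hp => ⟨p, List.mem_append_right _ hp, rfl⟩
    obtain ⟨l, h1, h2, h3⟩ := AreaIn.retract h hr hv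
    choose wd hwd using fun g : FreeGroup ℕ => exists_word g
    refine ⟨l.map fun p => (wd p.1, p.2), ?_, ?_⟩
    · rw [mem_wordsLE]
      refine ⟨by simpa using h1, ?_⟩
      intro q hq
      rw [List.mem_map] at hq
      obtain ⟨p, hp, rfl⟩ := hq
      refine mem_pairsW ?_
      rw [mem_wordsLE]
      obtain ⟨h4, h5⟩ := h2 p hp
      obtain ⟨h6, h7, h8⟩ := hwd p.1
      refine ⟨by simpa only [h7] using h4, ?_⟩
      intro z hz
      rw [← h6] at h5
      exact mem_alphW (mem_of_mk_mem_let h8 h5 z hz).1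
    · have h9 : FreeGroup.mk (conc r (l.map fun p => (wd p.1, p.2))) = FreeGroup.mk v := by
        rw [mk_conc, List.map_map, ← h3]
        congr 1
        conv_rhs => rw [← List.map_id l]
        refine List.map_congr_left fun p _ => ?_
        simp only [Function.comp_apply, (hwd p.1).1, Prod.mk.eta, id]
      rw [← FreeGroup.toWord_mk, ← FreeGroup.toWord_mk, h9]

/-- the bound -/
def bd (r : Wd) (n : ℕ) : ℕ := Bf r.length ((r.length + 1) ^ 2) n

theorem memN_correct {r : Wd} (hr : FreeGroup.IsCyclicallyReduced r) (hne : r ≠ [])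
    (hnp : NPw (FreeGroup.mk r)) {N n : ℕ} (hN : bd r n ≤ N) {v : Wd} (hv : v.length ≤ n) :
    memN N r v = true ↔ FreeGroup.mk v ∈ Subgroup.normalClosure {FreeGroup.mk r} := by
  rw [memN_iff]
  constructor
  · exact fun h => AreaIn.mem h
  · intro h
    have h1 := (mem_ncl_iff r hr hne hnp _).1 h
    refine AreaIn.mono h1 (Set.subset_univ _) ?_
    exact (Bf_mono _ le_rfl ((len_mk_le v).trans hv)).trans hN

/-! ## the test for the commutator subgroup -/

/-- the `m`-th edge of the path `u` -/
def edgeM (u : Wd) (m : ℕ) : (Wd × ℕ) × Bool :=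
  ((u.take (if (u.getD m default).2 then m else m + 1), (u.getD m default).1),
    (u.getD m default).2)

def edgesM (u : Wd) : List ((Wd × ℕ) × Bool) := (List.range u.length).map (edgeM u)

/-- the same letter, and the vertices are congruent -/
def sameE (N : ℕ) (r : Wd) (e e' : Wd × ℕ) : Bool :=
  decide (e.2 = e'.2) && memN N r (e.1 ++ inv e'.1)

def commN (N : ℕ) (r u : Wd) : Bool :=
  memN N r u && decide (∀ e ∈ edgesM u,
    ((edgesM u).filter fun e' => sameE N r e'.1 e.1 = true ∧ e'.2 = true).length =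
      ((edgesM u).filter fun e' => sameE N r e'.1 e.1 = true ∧ e'.2 = false).length)

theorem edgesM_concat (u : Wd) (z : ℕ × Bool) :
    edgesM (u ++ [z]) = edgesM u ++ [((if z.2 then u else u ++ [z], z.1), z.2)] := by
  unfold edgesM
  rw [List.length_append, List.length_singleton, List.range_succ, List.map_append,
    List.map_singleton]
  congr 1
  · refine List.map_congr_left fun m hm => ?_
    rw [List.mem_range] at hm
    have h1 : (u ++ [z]).getD m default = u.getD m default := by
      rw [List.getD_eq_getElem?_getD, List.getD_eq_getElem?_getD, List.getElem?_append_left hm]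
    have h2 : ∀ j, j ≤ u.length → (u ++ [z]).take j = u.take j := fun j hj =>
      List.take_append_of_le_length hj
    unfold edgeM
    rw [h1, h2]
    split_ifs <;> omega
  · congr 1
    unfold edgeM
    have h1 : (u ++ [z]).getD u.length default = z := by
      rw [List.getD_eq_getElem?_getD, List.getElem?_append_right le_rfl]
      simp
    rw [h1]
    congr 2
    cases z.2 with
    | true => simp
    | false =>
      have : (u ++ [z]).take (u.length + 1) = u ++ [z] := by
        rw [List.take_of_length_le]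
        simp
      simp

theorem length_of_mem_edgesM {u : Wd} {e : (Wd × ℕ) × Bool} (h : e ∈ edgesM u) :
    e.1.1.length ≤ u.length := by
  unfold edgesM at h
  rw [List.mem_map] at h
  obtain ⟨m, _, rfl⟩ := h
  unfold edgeM
  simp

section Fox

variable {Γ : Type*} [Group Γ] (f : FreeGroup ℕ →* Γ)

open Classical in
/-- number of edges -/
noncomputable def cntG (L : List ((Wd × ℕ) × Bool)) (γ : Γ) (p : ℕ) (b : Bool) : ℤ :=
  ((L.filter fun e' => (e'.1.2 = p ∧ f (FreeGroup.mk e'.1.1) = γ) ∧ e'.2 = b).length : ℤ)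

theorem cntG_append (L L' : List ((Wd × ℕ) × Bool)) (γ : Γ) (p : ℕ) (b : Bool) :
    cntG f (L ++ L') γ p b = cntG f L γ p b + cntG f L' γ p b := by
  simp [cntG]

open Classical in
theorem cntG_singleton (e : (Wd × ℕ) × Bool) (γ : Γ) (p : ℕ) (b : Bool) :
    cntG f [e] γ p b =
      if (e.1.2 = p ∧ f (FreeGroup.mk e.1.1) = γ) ∧ e.2 = b then 1 else 0 := by
  unfold cntG
  rw [List.filter_singleton]
  by_cases h : (e.1.2 = p ∧ f (FreeGroup.mk e.1.1) = γ) ∧ e.2 = b
  · rw [if_pos h]
    simp [h]
  · rw [if_neg h]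
    have : decide ((e.1.2 = p ∧ f (FreeGroup.mk e.1.1) = γ) ∧ e.2 = b) = false :=
      decide_eq_false h
    rw [this]
    rfl

theorem coeff_fox (u : Wd) (p : ℕ) (γ : Γ) :
    (fox f (FreeGroup.mk u) p).coeff γ =
      cntG f (edgesM u) γ p true - cntG f (edgesM u) γ p false := by
  classical
  induction u using List.reverseRecOn with
  | nil =>
    have : (FreeGroup.mk [] : FreeGroup ℕ) = 1 := rfl
    rw [this, Pool.Agent.RSMonic.fox_one]
    simp [edgesM, cntG]
  | append_singleton u z ih =>
    rw [edgesM_concat, cntG_append, cntG_append, cntG_singleton, cntG_singleton,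
      ← FreeGroup.mul_mk, Pool.Agent.RSMonic.fox_mul, Finsupp.add_apply,
      MonoidAlgebra.coeff_add, Finsupp.add_apply, ih]
    obtain ⟨q, b⟩ := z
    cases b with
    | true =>
      have e1 : (FreeGroup.mk [(q, true)] : FreeGroup ℕ) = of q := rfl
      rw [e1, Pool.Agent.RSMonic.fox_of, Finsupp.smul_single, smul_eq_mul, mul_one,
        Finsupp.single_apply]
      by_cases hq : q = p
      · subst hq
        by_cases hγ : f (FreeGroup.mk u) = γ
        · subst hγ
          simp [MonoidAlgebra.of_apply]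
          ring
        · simp [MonoidAlgebra.of_apply, hγ]
      · simp [hq]
    | false =>
      have e1 : (FreeGroup.mk [(q, false)] : FreeGroup ℕ) = (of q)⁻¹ := rfl
      have e3 : f (FreeGroup.mk (u ++ [(q, false)])) = f (FreeGroup.mk u) * (f (of q))⁻¹ := by
        rw [← FreeGroup.mul_mk, map_mul, e1, map_inv]
      rw [e1, Pool.Agent.RSMonic.fox_inv, Pool.Agent.RSMonic.fox_of, smul_neg, ← mul_smul,
        ← map_mul, ← e3, Finsupp.smul_single, smul_eq_mul, mul_one, Finsupp.neg_apply,
        Finsupp.single_apply]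
      by_cases hq : q = p
      · subst hq
        by_cases hγ : f (FreeGroup.mk (u ++ [(q, false)])) = γ
        · subst hγ
          simp [MonoidAlgebra.of_apply]
          ring
        · simp [MonoidAlgebra.of_apply, hγ]
      · simp [hq]

theorem fox_eq_zero_iff (u : Wd) :
    fox f (FreeGroup.mk u) = 0 ↔
      ∀ (p : ℕ) (γ : Γ), cntG f (edgesM u) γ p true = cntG f (edgesM u) γ p false := by
  constructor
  · intro h0 p γ
    have := coeff_fox f u p γ
    rw [h0] at this
    simp at this
    linarith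
  · intro h0
    ext p γ
    rw [coeff_fox f u p γ, h0 p γ]
    simp

theorem cntG_eq_zero {L : List ((Wd × ℕ) × Bool)} {γ : Γ} {p : ℕ}
    (h : ∀ e ∈ L, ¬ (e.1.2 = p ∧ f (FreeGroup.mk e.1.1) = γ)) (b : Bool) :
    cntG f L γ p b = 0 := by
  classical
  unfold cntG
  rw [List.filter_eq_nil_iff.mpr]
  · rfl
  · intro e he
    simp only [decide_eq_true_eq]
    exact fun h' => h e he h'.1

/-- only the edges of the path matter -/
theorem fox_eq_zero_iff' (u : Wd) :
    fox f (FreeGroup.mk u) = 0 ↔ ∀ e ∈ edgesM u,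
      cntG f (edgesM u) (f (FreeGroup.mk e.1.1)) e.1.2 true =
        cntG f (edgesM u) (f (FreeGroup.mk e.1.1)) e.1.2 false := by
  rw [fox_eq_zero_iff]
  constructor
  · exact fun h e _ => h _ _
  · intro h p γ
    by_cases h1 : ∃ e ∈ edgesM u, e.1.2 = p ∧ f (FreeGroup.mk e.1.1) = γ
    · obtain ⟨e, he, rfl, rfl⟩ := h1
      exact h e he
    · push Not at h1
      rw [cntG_eq_zero f (fun e he h2 => h1 e he h2.1 h2.2),
        cntG_eq_zero f (fun e he h2 => h1 e he h2.1 h2.2)]

end Fox

theorem commN_correct {r : Wd} (hr : FreeGroup.IsCyclicallyReduced r) (hne : r ≠ [])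
    (hnp : NPw (FreeGroup.mk r)) (u : Wd) :
    commN (bd r (2 * u.length)) r u = true ↔
      FreeGroup.mk u ∈ ⁅Subgroup.normalClosure {FreeGroup.mk r},
        Subgroup.normalClosure {FreeGroup.mk r}⁆ := by
  classical
  set N := bd r (2 * u.length) with hN
  set R : Subgroup (FreeGroup ℕ) := Subgroup.normalClosure {FreeGroup.mk r} with hR
  set f : FreeGroup ℕ →* FreeGroup ℕ ⧸ R := QuotientGroup.mk' R with hf
  have hker : f.ker = R := QuotientGroup.ker_mk' R
  have hmem : ∀ g, g ∈ R ↔ f g = 1 := fun g => by rw [← MonoidHom.mem_ker, hker]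
  have h1 : FreeGroup.mk u ∈ ⁅R, R⁆ ↔ f (FreeGroup.mk u) = 1 ∧ fox f (FreeGroup.mk u) = 0 := by
    rw [← mem_comm_ker_iff f, hker]
  have h2 : ∀ e ∈ edgesM u, ∀ e' ∈ edgesM u, (sameE N r e'.1 e.1 = true ↔
      e'.1.2 = e.1.2 ∧ f (FreeGroup.mk e'.1.1) = f (FreeGroup.mk e.1.1)) := by
    intro e he e' he'
    unfold sameE
    rw [Bool.and_eq_true, decide_eq_true_eq, memN_correct hr hne hnp (n := 2 * u.length) le_rfl]
    · refine and_congr Iff.rfl ?_
      rw [← FreeGroup.mul_mk, mk_inv_eq, ← hR, hmem, map_mul, map_inv, mul_inv_eq_one]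
    · have h3 := length_of_mem_edgesM he
      have h4 := length_of_mem_edgesM he'
      have h5 : (inv e.1.1).length = e.1.1.length := by simp [inv]
      rw [List.length_append, h5]
      omega
  have h3 : ∀ e ∈ edgesM u, ∀ b : Bool,
      (((edgesM u).filter fun e' => sameE N r e'.1 e.1 = true ∧ e'.2 = b).length : ℤ) =
        cntG f (edgesM u) (f (FreeGroup.mk e.1.1)) e.1.2 b := by
    intro e he b
    unfold cntG
    congr 2
    refine List.filter_congr fun e' he' => ?_
    rw [decide_eq_decide, h2 e he e' he']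
  unfold commN
  rw [Bool.and_eq_true, decide_eq_true_eq, h1, fox_eq_zero_iff',
    memN_correct hr hne hnp (n := 2 * u.length) le_rfl (by omega)]
  refine and_congr ?_ ?_
  · exact hmem _
  · refine forall_congr' fun e => forall_congr' fun he => ?_
    rw [← h3 e he true, ← h3 e he false]
    exact Nat.cast_inj.symm

/-! ## computability -/

section Comp

open Primrec

theorem alphW_primrec : Primrec alphW :=
  list_flatMap Primrec.id
    (list_cons.comp snd (list_cons.comp (signFlip_primrec.comp snd) (const []))).to₂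

theorem pairsW_primrec : Primrec pairsW :=
  list_flatMap Primrec.id
    (list_cons.comp (Primrec.pair snd (const true))
      (list_cons.comp (Primrec.pair snd (const false)) (const []))).to₂

theorem conc_primrec : Primrec fun p : Wd × List (Wd × Bool) => conc p.1 p.2 := by
  unfold conc
  refine list_flatMap snd ?_
  have hr : Primrec fun q : (Wd × List (Wd × Bool)) × (Wd × Bool) => q.1.1 := fst.comp fst
  have hg : Primrec fun q : (Wd × List (Wd × Bool)) × (Wd × Bool) => q.2.1 := fst.comp snd
  have hb : Primrec fun q : (Wd × List (Wd × Bool)) × (Wd × Bool) => q.2.2 := snd.comp snd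
  exact (list_append.comp hg (list_append.comp
    (Primrec.ite (Primrec.eq.comp hb (const true)) hr (inv_primrec.comp hr))
    (inv_primrec.comp hg))).to₂

theorem memN_primrec : Primrec fun p : ℕ × Wd × Wd => memN p.1 p.2.1 p.2.2 := by
  unfold memN
  refine PrimrecPred.decide ?_
  have hR : PrimrecRel fun (l : List (Wd × Bool)) (p : ℕ × Wd × Wd) =>
      FreeGroup.reduce (conc p.2.1 l) = FreeGroup.reduce p.2.2 :=
    Primrec.eq.comp (reduce_primrec.comp (conc_primrec.comp
      (Primrec.pair (fst.comp (snd.comp snd)) fst)))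
      (reduce_primrec.comp (snd.comp (snd.comp snd)))
  have hW : Primrec fun p : ℕ × Wd × Wd => wordsLE (alphW (p.2.1 ++ p.2.2)) p.1 :=
    wordsLE_primrec.comp (alphW_primrec.comp (list_append.comp (fst.comp snd) (snd.comp snd))) fst
  exact (PrimrecRel.exists_mem_list hR).comp
    (wordsLE_primrec.comp (pairsW_primrec.comp hW) fst) Primrec.id

theorem edgeM_primrec : Primrec₂ edgeM := by
  unfold edgeM
  have hl : Primrec fun p : Wd × ℕ => p.1.getD p.2 default := (list_getD default).comp fst snd
  have hidx : Primrec fun p : Wd × ℕ => if (p.1.getD p.2 default).2 then p.2 else p.2 + 1 :=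
    Primrec.ite (Primrec.eq.comp (snd.comp hl) (const true)) snd (Primrec.succ.comp snd)
  exact (Primrec.pair (Primrec.pair (list_take.comp hidx fst) (fst.comp hl)) (snd.comp hl)).to₂

theorem edgesM_primrec : Primrec edgesM := by
  unfold edgesM
  exact list_map (list_range.comp list_length) edgeM_primrec

theorem sameE_primrec :
    Primrec fun p : (ℕ × Wd) × ((Wd × ℕ) × (Wd × ℕ)) => sameE p.1.1 p.1.2 p.2.1 p.2.2 := by
  unfold sameE
  refine Primrec.and.comp (PrimrecPred.decide (Primrec.eq.comp (snd.comp (fst.comp snd))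
    (snd.comp (snd.comp snd)))) ?_
  exact memN_primrec.comp (Primrec.pair (fst.comp fst) (Primrec.pair (snd.comp fst)
    (list_append.comp (fst.comp (fst.comp snd)) (inv_primrec.comp (fst.comp (snd.comp snd))))))

theorem countE_primrec (b : Bool) :
    Primrec₂ fun (L : List ((Wd × ℕ) × Bool)) (c : (ℕ × Wd) × (Wd × ℕ)) =>
      (L.filter fun e' => sameE c.1.1 c.1.2 e'.1 c.2 = true ∧ e'.2 = b).length := by
  have hR : PrimrecRel fun (e' : (Wd × ℕ) × Bool) (c : (ℕ × Wd) × (Wd × ℕ)) =>
      sameE c.1.1 c.1.2 e'.1 c.2 = true ∧ e'.2 = b := by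
    refine PrimrecPred.and ?_ ?_
    · exact Primrec.eq.comp (sameE_primrec.comp (Primrec.pair (fst.comp snd)
        (Primrec.pair (fst.comp fst) (snd.comp snd)))) (const true)
    · exact Primrec.eq.comp (snd.comp fst) (const b)
  exact list_length.comp (PrimrecRel.listFilter hR)

theorem commN_primrec : Primrec fun p : ℕ × Wd × Wd => commN p.1 p.2.1 p.2.2 := by
  unfold commN
  refine Primrec.and.comp memN_primrec (PrimrecPred.decide ?_)
  have hL : Primrec fun q : ((Wd × ℕ) × Bool) × (ℕ × Wd × Wd) => edgesM q.2.2.2 :=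
    edgesM_primrec.comp (snd.comp (snd.comp snd))
  have hc : Primrec fun q : ((Wd × ℕ) × Bool) × (ℕ × Wd × Wd) => ((q.2.1, q.2.2.1), q.1.1) :=
    Primrec.pair (Primrec.pair (fst.comp snd) (fst.comp (snd.comp snd))) (fst.comp fst)
  have hR : PrimrecRel fun (e : (Wd × ℕ) × Bool) (p : ℕ × Wd × Wd) =>
      ((edgesM p.2.2).filter fun e' => sameE p.1 p.2.1 e'.1 e.1 = true ∧ e'.2 = true).length =
      ((edgesM p.2.2).filter fun e' => sameE p.1 p.2.1 e'.1 e.1 = true ∧ e'.2 = false).length :=
    Primrec.eq.comp ((countE_primrec true).comp hL hc) ((countE_primrec false).comp hL hc)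
  exact (PrimrecRel.forall_mem_list hR).comp (edgesM_primrec.comp (snd.comp snd)) Primrec.id

theorem bd_computable {α : Type*} [Primcodable α] {g : α → Wd} {h : α → ℕ} (hg : Primrec g)
    (hh : Primrec h) : Computable fun a => bd (g a) (h a) := by
  have h1 : Primrec fun a => ((g a).length, (((g a).length + 1) ^ 2, h a)) := by
    have h2 : Primrec fun a => (g a).length := list_length.comp hg
    have h3 : Primrec fun a => (g a).length + 1 := Primrec.succ.comp h2
    have h4 : Primrec fun a => ((g a).length + 1) ^ 2 :=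
      (nat_mul.comp h3 h3).of_eq fun a => (pow_two _).symm
    exact Primrec.pair h2 (Primrec.pair h4 hh)
  exact Bf_computable.comp h1.to_comp

theorem computable_bd {F : ℕ × Wd × Wd → Bool} (hF : Primrec F) {g : Wd × Wd → ℕ}
    (hg : Computable g) : Computable fun p : Wd × Wd => F (g p, p) :=
  hF.to_comp.comp (hg.pair Computable.id)

end Comp

end MemC

open MemC in
/-- membership in `⟨⟨r⟩⟩` is decidable -/
theorem exists_memB : ∃ memB : List (ℕ × Bool) × List (ℕ × Bool) → Bool, Computable memB ∧
    ∀ r u, FreeGroup.IsCyclicallyReduced r → r ≠ [] → NPw (FreeGroup.mk r) →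
      (memB (r, u) = true ↔ FreeGroup.mk u ∈ Subgroup.normalClosure {FreeGroup.mk r}) := by
  refine ⟨fun p => memN (bd p.1 p.2.length) p.1 p.2, ?_, ?_⟩
  · have h1 : Computable fun p : Wd × Wd => bd p.1 p.2.length :=
      bd_computable Primrec.fst (Primrec.list_length.comp Primrec.snd)
    exact computable_bd memN_primrec h1
  · intro r u hr hne hnp
    exact memN_correct hr hne hnp (n := u.length) le_rfl le_rfl

open MemC in
/-- membership in `[⟨⟨r⟩⟩, ⟨⟨r⟩⟩]` is decidable -/
theorem exists_commB : ∃ commB : List (ℕ × Bool) × List (ℕ × Bool) → Bool, Computable commB ∧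
    ∀ r u, FreeGroup.IsCyclicallyReduced r → r ≠ [] → NPw (FreeGroup.mk r) →
      (commB (r, u) = true ↔ FreeGroup.mk u ∈ ⁅Subgroup.normalClosure {FreeGroup.mk r},
        Subgroup.normalClosure {FreeGroup.mk r}⁆) := by
  refine ⟨fun p => commN (bd p.1 (2 * p.2.length)) p.1 p.2, ?_, ?_⟩
  · have h1 : Computable fun p : Wd × Wd => bd p.1 (2 * p.2.length) :=
      bd_computable Primrec.fst (Primrec.nat_mul.comp (Primrec.const 2)
        (Primrec.list_length.comp Primrec.snd))
    exact computable_bd commN_primrec h1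
  · intro r u hr hne hnp
    exact commN_correct hr hne hnp u

end Pool.Agent.ROR
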