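import Pool.Agent.ROR.MagDefs
import Pool.Agent.RSMonic.Pres

/-!
# Transfer between the free groups of rank `n` and of countable rank (project ROR, final assembly)
-/

set_option autoImplicit false

namespace Pool.Agent.ROR

open FreeGroup (of)
open Pool.Agent.RSMonic

/-- the relator as an element of the free group on `x_0, …, x_{n-1}` (other letters are killed) -/
def relator (n : ℕ) (w : List (ℕ × Bool)) : FreeGroup (Fin n) :=
  FreeGroup.lift (fun i => if h : i < n then of (⟨i, h⟩ : Fin n) else 1) (FreeGroup.mk w)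

/-- the retraction of `F(ℕ)` onto the free group of rank `n` -/
def rho (n : ℕ) : FreeGroup ℕ →* FreeGroup (Fin n) :=
  FreeGroup.lift fun i => if h : i < n then of (⟨i, h⟩ : Fin n) else 1

/-- the inclusion -/
def inc (n : ℕ) : FreeGroup (Fin n) →* FreeGroup ℕ := FreeGroup.map fun i : Fin n => (i : ℕ)

theorem rho_inc (n : ℕ) (u : FreeGroup (Fin n)) : rho n (inc n u) = u := by
  have : (rho n).comp (inc n) = MonoidHom.id _ := by
    refine FreeGroup.ext_hom _ _ fun i => ?_
    rw [MonoidHom.comp_apply, inc, FreeGroup.map.of, rho, FreeGroup.lift_apply_of, dif_pos i.2]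
    rfl
  exact DFunLike.congr_fun this u

theorem relator_eq (n : ℕ) (w : List (ℕ × Bool)) : relator n w = rho n (FreeGroup.mk w) := rfl

section Gen

universe u v
variable {X : Type u} {Y : Type v}

theorem map_ncl_le (θ : FreeGroup X →* FreeGroup Y) (s : FreeGroup X) :
    (Subgroup.normalClosure {s}).map θ ≤ Subgroup.normalClosure {θ s} := by
  rw [Subgroup.map_le_iff_le_comap]
  refine Subgroup.normalClosure_le_normal ?_
  rintro _ rfl
  exact Subgroup.subset_normalClosure (Set.mem_singleton _)

theorem map_comm_le (θ : FreeGroup X →* FreeGroup Y) (s : FreeGroup X) :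
    (⁅Subgroup.normalClosure {s}, Subgroup.normalClosure {s}⁆ : Subgroup (FreeGroup X)).map θ ≤
      ⁅Subgroup.normalClosure {θ s}, Subgroup.normalClosure {θ s}⁆ := by
  rw [Subgroup.map_commutator]
  exact Subgroup.commutator_mono (map_ncl_le θ s) (map_ncl_le θ s)

theorem mem_ncl_transfer (φ : FreeGroup X →* FreeGroup Y) (ψ : FreeGroup Y →* FreeGroup X)
    (h : ∀ u, ψ (φ u) = u) (r u : FreeGroup X) :
    φ u ∈ Subgroup.normalClosure {φ r} ↔ u ∈ Subgroup.normalClosure {r} := by
  constructor
  · intro hu
    have h1 := map_ncl_le ψ (φ r) ⟨_, hu, rfl⟩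
    rw [h, h] at h1
    exact h1
  · intro hu
    exact map_ncl_le φ r ⟨_, hu, rfl⟩

theorem comm_transfer (φ : FreeGroup X →* FreeGroup Y) (ψ : FreeGroup Y →* FreeGroup X)
    (h : ∀ u, ψ (φ u) = u) (r u : FreeGroup X) :
    φ u ∈ ⁅Subgroup.normalClosure {φ r}, Subgroup.normalClosure {φ r}⁆ ↔
      u ∈ ⁅Subgroup.normalClosure {r}, Subgroup.normalClosure {r}⁆ := by
  constructor
  · intro hu
    have h1 := map_comm_le ψ (φ r) ⟨_, hu, rfl⟩
    rw [h, h] at h1
    exact h1
  · intro hu
    exact map_comm_le φ r ⟨_, hu, rfl⟩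

end Gen

/-- residual solvability passes to groups that embed -/
theorem rs_of_injective {G H : Type*} [Group G] [Group H] (f : G →* H)
    (hf : Function.Injective f) (h : RS H) : RS G := by
  intro x hx
  refine hf ?_
  rw [map_one]
  refine h _ fun k => ?_
  exact map_derivedSeries_le_derivedSeries f k ⟨x, hx k, rfl⟩

theorem inc_rho_mul (n : ℕ) (w : List (ℕ × Bool)) (u : FreeGroup ℕ) :
    inc n (rho n u) * u⁻¹ ∈ Subgroup.normalClosure
      (({FreeGroup.mk w} : Set (FreeGroup ℕ)) ∪ of '' Set.Ici n) := by
  set N := Subgroup.normalClosure (({FreeGroup.mk w} : Set (FreeGroup ℕ)) ∪ of '' Set.Ici n)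
    with hN
  have h1 : (QuotientGroup.mk' N).comp ((inc n).comp (rho n)) = QuotientGroup.mk' N := by
    refine FreeGroup.ext_hom _ _ fun i => ?_
    rw [MonoidHom.comp_apply, MonoidHom.comp_apply, rho, FreeGroup.lift_apply_of]
    split_ifs with hi
    · rw [inc, FreeGroup.map.of]
    · rw [map_one, map_one, eq_comm]
      refine (QuotientGroup.eq_one_iff _).2 ?_
      exact Subgroup.subset_normalClosure (Or.inr ⟨i, not_lt.1 hi, rfl⟩)
  have h2 : (QuotientGroup.mk' N) (inc n (rho n u) * u⁻¹) = 1 := by
    rw [map_mul, map_inv]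
    have := DFunLike.congr_fun h1 u
    rw [MonoidHom.comp_apply, MonoidHom.comp_apply] at this
    rw [this, mul_inv_cancel]
  rwa [← MonoidHom.mem_ker, QuotientGroup.ker_mk'] at h2

/-- the kernel of `F(ℕ) → F(Fin n)/⟨⟨relator⟩⟩` -/
theorem rho_mem_iff (n : ℕ) (w : List (ℕ × Bool)) (u : FreeGroup ℕ) :
    rho n u ∈ Subgroup.normalClosure {relator n w} ↔
      u ∈ Subgroup.normalClosure (({FreeGroup.mk w} : Set (FreeGroup ℕ)) ∪ of '' Set.Ici n) := by
  set N := Subgroup.normalClosure (({FreeGroup.mk w} : Set (FreeGroup ℕ)) ∪ of '' Set.Ici n)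
    with hN
  constructor
  · intro hu
    have h1 : Subgroup.normalClosure {relator n w} ≤ N.comap (inc n) := by
      refine Subgroup.normalClosure_le_normal ?_
      rintro _ rfl
      show inc n (relator n w) ∈ N
      have h2 := inc_rho_mul n w (FreeGroup.mk w)
      rw [← relator_eq] at h2
      have h3 : FreeGroup.mk w ∈ N := Subgroup.subset_normalClosure (Or.inl rfl)
      have h4 := N.mul_mem h2 h3
      rwa [inv_mul_cancel_right] at h4
    have h5 : inc n (rho n u) ∈ N := h1 hu
    have h6 := N.mul_mem (N.inv_mem (inc_rho_mul n w u)) h5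
    rw [mul_inv_rev, inv_inv, mul_assoc, inv_mul_cancel, mul_one] at h6
    exact h6
  · intro hu
    have h1 : N ≤ (Subgroup.normalClosure {relator n w}).comap (rho n) := by
      refine Subgroup.normalClosure_le_normal ?_
      rintro x (hx | ⟨i, hi, rfl⟩)
      · rw [Set.mem_singleton_iff] at hx
        subst hx
        exact Subgroup.subset_normalClosure rfl
      · show rho n (of i) ∈ Subgroup.normalClosure {relator n w}
        rw [rho, FreeGroup.lift_apply_of, dif_neg (not_lt.2 hi)]
        exact Subgroup.one_mem _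
    exact h1 hu

/-- the one-relator group of the problem is `F(Fin n)/⟨⟨relator⟩⟩` -/
theorem rs_oneRel_iff (n : ℕ) (w : List (ℕ × Bool)) :
    RS (OneRel n w) ↔ RS (FreeGroup (Fin n) ⧸ Subgroup.normalClosure {relator n w}) := by
  set N := Subgroup.normalClosure (({FreeGroup.mk w} : Set (FreeGroup ℕ)) ∪ of '' Set.Ici n)
    with hN
  constructor
  · refine rs_of_injective (H := FreeGroup ℕ ⧸ N)
      (QuotientGroup.lift _ ((QuotientGroup.mk' N).comp (inc n)) ?_) ?_
    · intro u hu
      refine (QuotientGroup.eq_one_iff _).2 ?_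
      rw [← rho_mem_iff, rho_inc]
      exact hu
    · rw [injective_iff_map_eq_one]
      intro a
      induction a using QuotientGroup.induction_on with
      | H u =>
        intro hu
        rw [QuotientGroup.lift_mk] at hu
        have h1 := (QuotientGroup.eq_one_iff _).1 hu
        rw [← rho_mem_iff, rho_inc] at h1
        exact (QuotientGroup.eq_one_iff _).2 h1
  · refine rs_of_injective (G := FreeGroup ℕ ⧸ N)
      (QuotientGroup.lift _ ((QuotientGroup.mk' _).comp (rho n)) ?_) ?_
    · intro u hu
      exact (QuotientGroup.eq_one_iff _).2 ((rho_mem_iff n w u).2 hu)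
    · rw [injective_iff_map_eq_one]
      intro a
      induction a using QuotientGroup.induction_on with
      | H u =>
        intro hu
        rw [QuotientGroup.lift_mk] at hu
        have h1 := (QuotientGroup.eq_one_iff _).1 hu
        exact (QuotientGroup.eq_one_iff _).2 ((rho_mem_iff n w u).1 h1)

end Pool.Agent.ROR
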