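import Pool.Agent.ROR.Struct
import Pool.Agent.ROR.CycComp
import Pool.Agent.ROR.MemComp
import Pool.Agent.ROR.CompList
import Pool.Agent.ROR.Transfer
import Pool.Agent.ROR.LevelWord
import Pool.Agent.RSMonic.Comp
import Pool.Agent.RSMonic.Test

/-!
# The decision procedure (project ROR, MP_08b746_al)
-/

set_option autoImplicit false

namespace Pool.Agent.ROR

open FreeGroup (of)
open Pool.Agent.RSMonic

/-- words over `ℕ` -/
abbrev Wo : Type := List (ℕ × Bool)

/-- a candidate certificate `(r', k, g, b)` -/
abbrev Ca : Type := Wo × ℕ × Wo × Bool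

/-! ## the candidates -/

/-- the letters of a word, with both signs -/
def alp (c : Wo) : Wo := c.flatMap fun z => [(z.1, true), (z.1, false)]

theorem mem_alp (c : Wo) (z : ℕ × Bool) : z ∈ alp c ↔ ∃ e, (z.1, e) ∈ c := by
  rw [alp, List.mem_flatMap]
  constructor
  · rintro ⟨y, hy, hz⟩
    refine ⟨y.2, ?_⟩
    simp only [List.mem_cons, List.not_mem_nil, or_false] at hz
    rcases hz with rfl | rfl <;> exact hy
  · rintro ⟨e, he⟩
    refine ⟨(z.1, e), he, ?_⟩
    obtain ⟨x, b⟩ := z
    cases b <;> simp

/-- all candidates -/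
def cands (c : Wo) : List Ca :=
  (wordsLE (alp c) c.length).flatMap fun r' => (List.range c.length).flatMap fun k =>
    (wordsLE (alp c) (2 * c.length)).flatMap fun g => [(r', k + 1, g, true), (r', k + 1, g, false)]

theorem mem_cands (c : Wo) (q : Ca) : q ∈ cands c ↔
    (q.1.length ≤ c.length ∧ ∀ a ∈ q.1, ∃ e, (a.1, e) ∈ c) ∧ (0 < q.2.1 ∧ q.2.1 ≤ c.length) ∧
      (q.2.2.1.length ≤ 2 * c.length ∧ ∀ a ∈ q.2.2.1, ∃ e, (a.1, e) ∈ c) := by
  obtain ⟨r', k, g, b⟩ := q
  simp only [cands, List.mem_flatMap, List.mem_range, List.mem_cons, List.not_mem_nil, or_false,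
    Prod.mk.injEq, mem_wordsLE]
  constructor
  · rintro ⟨r'', ⟨h1, h1'⟩, k', hk', g', ⟨h2, h2'⟩, h | h⟩
    · obtain ⟨rfl, rfl, rfl, _⟩ := h
      exact ⟨⟨h1, fun a ha => (mem_alp c a).1 (h1' a ha)⟩, ⟨Nat.succ_pos _, hk'⟩,
        ⟨h2, fun a ha => (mem_alp c a).1 (h2' a ha)⟩⟩
    · obtain ⟨rfl, rfl, rfl, _⟩ := h
      exact ⟨⟨h1, fun a ha => (mem_alp c a).1 (h1' a ha)⟩, ⟨Nat.succ_pos _, hk'⟩,
        ⟨h2, fun a ha => (mem_alp c a).1 (h2' a ha)⟩⟩
  · rintro ⟨⟨h1, h1'⟩, ⟨h3, h3'⟩, ⟨h2, h2'⟩⟩
    refine ⟨r', ⟨h1, fun a ha => (mem_alp c a).2 (h1' a ha)⟩, k - 1, by omega, g,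
      ⟨h2, fun a ha => (mem_alp c a).2 (h2' a ha)⟩, ?_⟩
    have : k - 1 + 1 = k := by omega
    cases b <;> simp [this]

open Primrec in
theorem alp_primrec : Primrec alp := by
  have h : Primrec₂ fun (_ : Wo) (z : ℕ × Bool) => ([(z.1, true), (z.1, false)] : Wo) :=
    (list_cons.comp (Primrec.pair (fst.comp snd) (const true))
      (list_cons.comp (Primrec.pair (fst.comp snd) (const false)) (const []))).to₂
  exact list_flatMap (f := fun c : Wo => c) Primrec.id h

open Primrec in
theorem cands_primrec : Primrec cands := by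
  have hlen : Primrec fun c : Wo => c.length := list_length
  have h1 : Primrec fun q : ((Wo × Wo) × ℕ) × Wo => q.1.1.2 := snd.comp (fst.comp fst)
  have h2 : Primrec fun q : ((Wo × Wo) × ℕ) × Wo => q.1.2 + 1 := succ.comp (snd.comp fst)
  have h3 : Primrec fun q : ((Wo × Wo) × ℕ) × Wo => q.2 := snd
  have e1 : Primrec₂ fun (q : (Wo × Wo) × ℕ) (g : Wo) =>
      ([(q.1.2, q.2 + 1, g, true), (q.1.2, q.2 + 1, g, false)] : List Ca) :=
    list_cons.comp (Primrec.pair h1 (Primrec.pair h2 (Primrec.pair h3 (const true))))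
      (list_cons.comp (Primrec.pair h1 (Primrec.pair h2 (Primrec.pair h3 (const false))))
        (const []))
  have f1 : Primrec fun q : (Wo × Wo) × ℕ => wordsLE (alp q.1.1) (2 * q.1.1.length) :=
    wordsLE_primrec.comp (alp_primrec.comp (fst.comp fst))
      (nat_mul.comp (const 2) (hlen.comp (fst.comp fst)))
  have e2 : Primrec₂ fun (q : Wo × Wo) (k : ℕ) =>
      (wordsLE (alp q.1) (2 * q.1.length)).flatMap fun g =>
        ([(q.2, k + 1, g, true), (q.2, k + 1, g, false)] : List Ca) := list_flatMap f1 e1
  have f2 : Primrec fun q : Wo × Wo => List.range q.1.length := list_range.comp (hlen.comp fst)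
  have e3 : Primrec₂ fun (c : Wo) (r' : Wo) => (List.range c.length).flatMap fun k =>
      (wordsLE (alp c) (2 * c.length)).flatMap fun g =>
        ([(r', k + 1, g, true), (r', k + 1, g, false)] : List Ca) := list_flatMap f2 e2
  exact list_flatMap (wordsLE_primrec.comp alp_primrec hlen) e3

/-! ## the certificate as a word -/

/-- `w ^ k` -/
def powW (w : Wo) (k : ℕ) : Wo := (List.range k).flatMap fun _ => w

theorem mk_powW (w : Wo) (k : ℕ) : FreeGroup.mk (powW w k) = FreeGroup.mk w ^ k := by
  induction k with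
  | zero => rfl
  | succ k ih =>
    have : powW w (k + 1) = powW w k ++ w := by
      rw [powW, powW, List.range_succ, List.flatMap_append]
      simp
    rw [this, pres_mk_append, ih, pow_succ]

/-- `c (g r'^{±k} g⁻¹)⁻¹` -/
def certW (c : Wo) (q : Ca) : Wo :=
  c ++ inv ((q.2.2.1 ++ powW (if q.2.2.2 then q.1 else inv q.1) q.2.1) ++ inv q.2.2.1)

theorem mk_certW (c : Wo) (q : Ca) : FreeGroup.mk (certW c q) = FreeGroup.mk c *
    (FreeGroup.mk q.2.2.1 * (if q.2.2.2 then FreeGroup.mk q.1 else (FreeGroup.mk q.1)⁻¹) ^ q.2.1 *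
      (FreeGroup.mk q.2.2.1)⁻¹)⁻¹ := by
  rw [certW, pres_mk_append, pres_mk_inv, pres_mk_append, pres_mk_append, mk_powW, pres_mk_inv]
  congr 4
  split_ifs
  · rfl
  · rw [pres_mk_inv]

open Primrec in
theorem powW_primrec : Primrec₂ powW := by
  have h : Primrec₂ fun (p : Wo × ℕ) (_ : ℕ) => p.1 := (fst.comp fst).to₂
  exact (list_flatMap (list_range.comp snd) h).to₂

open Primrec in
theorem certW_primrec : Primrec₂ certW := by
  unfold certW
  have hg : Primrec fun p : Wo × Ca => p.2.2.2.1 := fst.comp (snd.comp (snd.comp snd))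
  have hr : Primrec fun p : Wo × Ca => p.2.1 := fst.comp snd
  have hk : Primrec fun p : Wo × Ca => p.2.2.1 := fst.comp (snd.comp snd)
  have hb : Primrec fun p : Wo × Ca => p.2.2.2.2 := snd.comp (snd.comp (snd.comp snd))
  refine list_append.comp fst (inv_primrec.comp (list_append.comp (list_append.comp hg ?_)
    (inv_primrec.comp hg)))
  exact powW_primrec.comp (Primrec.ite (Primrec.eq.comp hb (const true)) hr (inv_primrec.comp hr)) hk

/-! ## the algorithm -/

section Alg

variable (memB commB : Wo × Wo → Bool) (cyc : Wo → Wo) (cr np : Wo → Bool)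

/-- the candidate is a certificate -/
def isC (c : Wo) (q : Ca) : Bool :=
  ((cr q.1 && !(decide (q.1 = []))) && np q.1) && commB (q.1, certW c q)

/-- the decision for a cyclically reduced word -/
def algC (c : Wo) : Option Bool :=
  if c = [] then some true
  else if np c = false then none
  else if (cands c).any (fun q => (isC commB cr np c q && decide (q.2.1 = 1)) && !memB (c, q.1)) = true
    then some false
  else if (cands c).all (fun q => !isC commB cr np c q || memB (c, q.1)) = true then some true
  else none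

/-- the algorithm -/
def alg (p : ℕ × Wo) : Option Bool := algC memB commB cr np (cyc (p.2.filter fun z => z.1 < p.1))

variable {memB commB : Wo × Wo → Bool} {cyc : Wo → Wo} {cr np : Wo → Bool}

open Computable in
theorem isC_computable (h2 : Computable commB) (h4 : Computable cr) (h5 : Computable np) :
    Computable₂ (isC commB cr np) := by
  have hq : Computable fun p : Wo × Ca => p.2.1 := fst.comp snd
  have hd : Computable fun p : Wo × Ca => !(decide (p.2.1 = [])) :=
    (Primrec.not.comp (PrimrecPred.decide (Primrec.eq.comp (Primrec.fst.comp Primrec.snd)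
      (Primrec.const [])))).to_comp
  exact Primrec.and.to_comp.comp (Primrec.and.to_comp.comp (Primrec.and.to_comp.comp
    (h4.comp hq) hd) (h5.comp hq)) (h2.comp (Computable.pair hq certW_primrec.to_comp))

open Computable in
theorem algC_computable (h1 : Computable memB) (h2 : Computable commB)
    (h4 : Computable cr) (h5 : Computable np) : Computable (algC memB commB cr np) := by
  have hC := isC_computable h2 h4 h5
  have hm : Computable₂ fun (c : Wo) (q : Ca) => memB (c, q.1) :=
    h1.comp (Computable.pair fst (fst.comp snd))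
  have hk : Computable₂ fun (c : Wo) (q : Ca) => decide (q.2.1 = 1) :=
    (PrimrecPred.decide (Primrec.eq.comp (Primrec.fst.comp (Primrec.snd.comp Primrec.snd))
      (Primrec.const 1))).to_comp
  have hany := computable_any (P := fun (c : Wo) (q : Ca) =>
    (isC commB cr np c q && decide (q.2.1 = 1)) && !memB (c, q.1))
    (Primrec.and.to_comp.comp (Primrec.and.to_comp.comp hC hk) (Primrec.not.to_comp.comp hm))
    cands_primrec.to_comp
  have hall := computable_all (P := fun (c : Wo) (q : Ca) => !isC commB cr np c q || memB (c, q.1))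
    (Primrec.or.to_comp.comp (Primrec.not.to_comp.comp hC) hm) cands_primrec.to_comp
  have hnil : Computable fun c : Wo => decide (c = []) :=
    (PrimrecPred.decide (Primrec.eq.comp Primrec.id (Primrec.const []))).to_comp
  refine (Computable.cond hnil (Computable.const (some true)) (Computable.cond h5
    (Computable.cond hany (Computable.const (some false))
      (Computable.cond hall (Computable.const (some true)) (Computable.const none)))
    (Computable.const none))).of_eq fun c => ?_
  rw [algC]
  by_cases hc : c = []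
  · simp [hc]
  · cases hn : np c <;>
    cases ha : (cands c).any (fun q => (isC commB cr np c q && decide (q.2.1 = 1)) &&
      !memB (c, q.1)) <;>
    cases hb : (cands c).all (fun q => !isC commB cr np c q || memB (c, q.1)) <;>
    simp [hc]

theorem alg_computable (h1 : Computable memB) (h2 : Computable commB) (h3 : Computable cyc)
    (h4 : Computable cr) (h5 : Computable np) : Computable (alg memB commB cyc cr np) := by
  refine (algC_computable h1 h2 h4 h5).comp (h3.comp (Primrec.to_comp ?_))
  refine (PrimrecRel.listFilter (R := fun (z : ℕ × Bool) (n : ℕ) => z.1 < n) ?_).comp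
    Primrec.snd Primrec.fst
  exact Primrec.nat_lt.comp (Primrec.fst.comp Primrec.fst) Primrec.snd

end Alg

end Pool.Agent.ROR
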