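import Pool.Agent.RSMonic.Sep

/-!
# Residual properties of one-relator groups: definitions (project ROR, MP_08b746_al)
-/

set_option autoImplicit false

namespace Pool.Agent.ROR

open FreeGroup (of)
open Pool.Agent.RSMonic (fox)

/-- `Γ` is locally indicable: a finitely generated nontrivial subgroup maps onto `ℤ`. -/
def LI (Γ : Type*) [Group Γ] : Prop :=
  ∀ S : Finset Γ, (∃ s ∈ S, s ≠ 1) →
    ∃ l : Subgroup.closure (S : Set Γ) →* Multiplicative ℤ, ∃ s, ∃ hs : s ∈ S,
      l ⟨s, Subgroup.subset_closure hs⟩ ≠ 1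

section Words

variable {X Γ : Type*} [Group Γ]

/-- the vertices of the path with label `w` starting at `γ` in the Cayley graph (without the end). -/
def verts (f : FreeGroup X →* Γ) : Γ → List (X × Bool) → List Γ
  | _, [] => []
  | γ, a :: w => γ :: verts f (γ * f (FreeGroup.mk [a])) w

/-- `ker f` is the normal closure of `w`, and the closed path of `w` is simple. -/
def Good (f : FreeGroup X →* Γ) (w : List (X × Bool)) : Prop :=
  w ≠ [] ∧ (verts f 1 w).Nodup ∧ f.ker = Subgroup.normalClosure {FreeGroup.mk w}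

/-- `ker f` is generated by `y` as a normal subgroup modulo `[ker f, ker f]`. -/
def Cyc (f : FreeGroup X →* Γ) (y : FreeGroup X) : Prop :=
  f y = 1 ∧ f.ker ≤ Subgroup.normalClosure {y} ⊔ ⁅f.ker, f.ker⁆

end Words

section Norm

variable {X Γ : Type*} [Group Γ]

/-- the `ℓ¹`-norm of an element of the group ring -/
noncomputable def nrm1 (a : MonoidAlgebra ℤ Γ) : ℕ := a.coeff.sum fun _ z => z.natAbs

/-- the `ℓ¹`-norm -/
noncomputable def nrm (d : X →₀ MonoidAlgebra ℤ Γ) : ℕ := d.sum fun _ a => nrm1 a

/-- the exponent sum of the letter `x` -/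
noncomputable def expo (x : X) : FreeGroup X →* Multiplicative ℤ := by
  classical exact FreeGroup.lift fun y => if y = x then Multiplicative.ofAdd 1 else 1

end Norm

section Shift

variable {X : Type*} (c : X → ℤ)

/-- the letter `s` -/
abbrev st (X : Type*) : FreeGroup (Option X) := of none

/-- `x_j ↦ s^j x s^{-j-c_x}` -/
def iota : FreeGroup (X × ℤ) →* FreeGroup (Option X) :=
  FreeGroup.lift fun p => st X ^ p.2 * of (some p.1) * st X ^ (-p.2 - c p.1)

/-- the height `s ↦ 1`, `x ↦ c_x`. -/
def tau : FreeGroup (Option X) →* Multiplicative ℤ :=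
  FreeGroup.lift fun o => Multiplicative.ofAdd (match o with | none => 1 | some x => c x)

/-- the shift `x_j ↦ x_{j+n}` -/
def sh (X : Type*) (n : ℤ) : FreeGroup (X × ℤ) →* FreeGroup (X × ℤ) :=
  FreeGroup.map fun p => (p.1, p.2 + n)

/-- the letters `x0_j` (`i ≤ j ≤ i'`) and all `z_j` for `z ≠ x0` -/
def Y0 (x0 : X) (i i' : ℤ) : Set (X × ℤ) := {p | p.1 = x0 → i ≤ p.2 ∧ p.2 ≤ i'}

/-- inclusion of the free factor on a set of letters -/
def incl {Y : Type*} (S : Set Y) : FreeGroup S →* FreeGroup Y := FreeGroup.map Subtype.val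

/-- the free factor of `F(S)` generated by all letters except `y` -/
def without {Y : Type*} {S : Set Y} (y : Y) : Subgroup (FreeGroup S) :=
  Subgroup.closure (of '' {p : S | p.1 ≠ y})

end Shift

section Tower

variable {G : Type*} [Group G]

/-- the next term `{x ∈ N : x^e ∈ [N,N]R for some e ≥ 1}` of the rational derived series modulo `R`
(as a set; it is a subgroup, see `Tower`). -/
def nextSet (R N : Subgroup G) : Set G := {x | x ∈ N ∧ ∃ e : ℕ, 0 < e ∧ x ^ e ∈ ⁅N, N⁆ ⊔ R}

/-- the rational derived series modulo `R` -/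
def rser (R : Subgroup G) : ℕ → Subgroup G
  | 0 => ⊤
  | m + 1 => Subgroup.closure (nextSet R (rser R m))

/-- its intersection -/
def rres (R : Subgroup G) : Subgroup G := ⨅ m, rser R m

end Tower

end Pool.Agent.ROR
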