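import Mathlib
import Pool.Agent.ROR.Defs

/-!
# A finite test for relators which are proper powers modulo `[E, E]`

`Psi p z0 z1` is the Fox derivative with respect to `x_0` over the group ring of `ℤ` modulo `p`,
written as a homomorphism into affine maps of `ℤ → ZMod p`.
-/

set_option autoImplicit false

namespace Pool.Agent.RODens

/-- the translation of functions on `ℤ` by `a` -/
def shiftP (p : ℕ) (a : ℤ) : Equiv.Perm (ℤ → ZMod p) where
  toFun v := fun m => v (m - a)
  invFun v := fun m => v (m + a)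
  left_inv v := by funext m; simp
  right_inv v := by funext m; simp

/-- adding `f` -/
def transP (p : ℕ) (f : ℤ → ZMod p) : Equiv.Perm (ℤ → ZMod p) where
  toFun v := f + v
  invFun v := v - f
  left_inv v := by simp
  right_inv v := by simp

theorem shiftP_apply (p : ℕ) (a : ℤ) (v : ℤ → ZMod p) (m : ℤ) : shiftP p a v m = v (m - a) := rfl

theorem transP_apply (p : ℕ) (f v : ℤ → ZMod p) (m : ℤ) : transP p f v m = f m + v m := rfl

theorem shiftP_inv (p : ℕ) (a : ℤ) (v : ℤ → ZMod p) (m : ℤ) : (shiftP p a)⁻¹ v m = v (m + a) := rfl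

theorem transP_inv (p : ℕ) (f v : ℤ → ZMod p) (m : ℤ) : (transP p f)⁻¹ v m = v m - f m := rfl

/-- the affine maps with translation part `f` and linear part the shift by `a` -/
def Form {p : ℕ} (σ : Equiv.Perm (ℤ → ZMod p)) (a : ℤ) : Prop :=
  ∃ f : ℤ → ZMod p, ∀ v m, σ v m = f m + v (m - a)

theorem Form.one {p : ℕ} : Form (1 : Equiv.Perm (ℤ → ZMod p)) 0 :=
  ⟨0, fun v m => by simp⟩

theorem Form.mul {p : ℕ} {σ τ : Equiv.Perm (ℤ → ZMod p)} {a b : ℤ} (h : Form σ a)
    (h' : Form τ b) : Form (σ * τ) (a + b) := by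
  obtain ⟨f, hf⟩ := h
  obtain ⟨g, hg⟩ := h'
  refine ⟨fun m => f m + g (m - a), fun v m => ?_⟩
  rw [Equiv.Perm.mul_apply, hf, hg, add_assoc, sub_sub]

theorem Form.inv {p : ℕ} {σ : Equiv.Perm (ℤ → ZMod p)} {a : ℤ} (h : Form σ a) :
    Form σ⁻¹ (-a) := by
  obtain ⟨f, hf⟩ := h
  refine ⟨fun m => - f (m + a), fun v m => ?_⟩
  have h2 := hf (σ⁻¹ v) (m + a)
  have h3 : σ (σ⁻¹ v) = v := σ.apply_symm_apply v
  rw [h3] at h2
  rw [add_sub_cancel_right] at h2
  rw [sub_neg_eq_add, h2]
  ring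

/-- the homomorphism -/
def Psi (n p : ℕ) (z0 z1 : ℤ) : FreeGroup (Fin n) →* Equiv.Perm (ℤ → ZMod p) :=
  FreeGroup.lift fun i => if i.val = 0 then transP p (Pi.single 0 1) * shiftP p z1
    else if i.val = 1 then shiftP p (-z0) else 1

/-- its linear part -/
def Lam (n : ℕ) (z0 z1 : ℤ) : FreeGroup (Fin n) →* Multiplicative ℤ :=
  FreeGroup.lift fun i => Multiplicative.ofAdd (if i.val = 0 then z1
    else if i.val = 1 then -z0 else 0)

/-- the exponent sum of `x_j` -/
def ex (n j : ℕ) : FreeGroup (Fin n) →* Multiplicative ℤ :=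
  FreeGroup.lift fun i => Multiplicative.ofAdd (if i.val = j then 1 else 0)

theorem form_psi (n p : ℕ) (z0 z1 : ℤ) (g : FreeGroup (Fin n)) :
    Form (Psi n p z0 z1 g) (Multiplicative.toAdd (Lam n z0 z1 g)) := by
  have hof : ∀ i : Fin n, Form (Psi n p z0 z1 (FreeGroup.of i))
      (Multiplicative.toAdd (Lam n z0 z1 (FreeGroup.of i))) := by
    intro i
    simp only [Psi, Lam, FreeGroup.lift_apply_of, toAdd_ofAdd]
    by_cases h0 : i.val = 0
    · rw [if_pos h0, if_pos h0]
      refine ⟨Pi.single 0 1, fun v m => ?_⟩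
      rw [Equiv.Perm.mul_apply, transP_apply, shiftP_apply]
    · rw [if_neg h0, if_neg h0]
      by_cases h1 : i.val = 1
      · rw [if_pos h1, if_pos h1]
        exact ⟨0, fun v m => by rw [shiftP_apply]; simp⟩
      · rw [if_neg h1, if_neg h1]
        exact Form.one
  refine FreeGroup.induction_on g ?_ hof ?_ ?_
  · simpa using Form.one
  · intro i hi
    simpa using hi.inv
  · intro x y hx hy
    rw [MonoidHom.map_mul, MonoidHom.map_mul, toAdd_mul]
    exact hx.mul hy

theorem Form.comm {p : ℕ} {σ τ : Equiv.Perm (ℤ → ZMod p)} (h : Form σ 0) (h' : Form τ 0) :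
    σ * τ = τ * σ := by
  obtain ⟨f, hf⟩ := h
  obtain ⟨g, hg⟩ := h'
  ext v m
  simp only [Equiv.Perm.mul_apply, hf, hg, sub_zero]
  ring_nf

theorem Form.pow_apply {p : ℕ} {σ : Equiv.Perm (ℤ → ZMod p)} {f : ℤ → ZMod p}
    (hf : ∀ v m, σ v m = f m + v (m - 0)) (k : ℕ) (v : ℤ → ZMod p) (m : ℤ) :
    (σ ^ k) v m = (k : ZMod p) * f m + v m := by
  induction k generalizing v with
  | zero => simp
  | succ k ih =>
    rw [pow_succ, Equiv.Perm.mul_apply, ih, hf, sub_zero]
    push_cast
    ring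

theorem Form.pow_eq_one {p : ℕ} {σ : Equiv.Perm (ℤ → ZMod p)} (h : Form σ 0) {k : ℕ}
    (hk : p ∣ k) : σ ^ k = 1 := by
  obtain ⟨f, hf⟩ := h
  ext v m
  rw [Form.pow_apply hf, (ZMod.natCast_eq_zero_iff k p).2 hk]
  simp

theorem lam_eq (n : ℕ) (z0 z1 : ℤ) (g : FreeGroup (Fin n)) :
    Multiplicative.toAdd (Lam n z0 z1 g) =
      z1 * Multiplicative.toAdd (ex n 0 g) - z0 * Multiplicative.toAdd (ex n 1 g) := by
  have hof : ∀ i : Fin n, Multiplicative.toAdd (Lam n z0 z1 (FreeGroup.of i)) =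
      z1 * Multiplicative.toAdd (ex n 0 (FreeGroup.of i)) -
        z0 * Multiplicative.toAdd (ex n 1 (FreeGroup.of i)) := by
    intro i
    simp only [Lam, ex, FreeGroup.lift_apply_of, toAdd_ofAdd]
    by_cases h0 : i.val = 0
    · simp [h0]
    · by_cases h1 : i.val = 1
      · simp [h1]
      · simp [h0, h1]
  refine FreeGroup.induction_on g ?_ hof ?_ ?_
  · simp
  · intro i hi
    rw [MonoidHom.map_inv, MonoidHom.map_inv, MonoidHom.map_inv, toAdd_inv, toAdd_inv,
      toAdd_inv, hi]; ring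
  · intro x y hx hy
    rw [MonoidHom.map_mul, MonoidHom.map_mul, MonoidHom.map_mul, toAdd_mul, toAdd_mul,
      toAdd_mul, hx, hy]; ring

/-- a homomorphism to `ℤ` which kills the relator kills `E` -/
theorem rres_le_ker {G : Type*} [Group G] (φ : G →* Multiplicative ℤ) (r : G) (hr : φ r = 1) :
    ROR.rres (Subgroup.normalClosure {r}) ≤ φ.ker := by
  refine (iInf_le _ 1).trans ?_
  rw [ROR.rser, Subgroup.closure_le]
  rintro x ⟨-, e, he, hx⟩
  have h1 : ⁅ROR.rser (Subgroup.normalClosure {r}) 0, ROR.rser (Subgroup.normalClosure {r}) 0⁆ ⊔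
      Subgroup.normalClosure {r} ≤ φ.ker := by
    refine sup_le ?_ ?_
    · rw [Subgroup.commutator_le]
      intro a _ b _
      rw [MonoidHom.mem_ker, map_commutatorElement, commutatorElement_eq_one_iff_mul_comm, mul_comm]
    · refine Subgroup.normalClosure_le_normal ?_
      simpa using hr
  have h2 := h1 hx
  rw [MonoidHom.mem_ker, map_pow] at h2
  rw [SetLike.mem_coe, MonoidHom.mem_ker]
  have h3 : (e : ℤ) * Multiplicative.toAdd (φ x) = 0 := by
    have := congrArg Multiplicative.toAdd h2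
    simpa using this
  rcases mul_eq_zero.1 h3 with h4 | h4
  · omega
  · exact Multiplicative.toAdd.injective (by simpa using h4)

/-- if the relator is a proper power modulo `[E, E]` then for a prime `p` the exponent sum of
`x_0` is divisible by `p` and the relator is killed by `Psi` -/
theorem psi_of_power (n : ℕ) (r y : FreeGroup (Fin n)) (k : ℕ)
    (hy : y ∈ ROR.rres (Subgroup.normalClosure {r}))
    (h : r * (y ^ k)⁻¹ ∈ ⁅ROR.rres (Subgroup.normalClosure {r}),
      ROR.rres (Subgroup.normalClosure {r})⁆) (p : ℕ) (hp : p ∣ k) :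
    (p : ℤ) ∣ Multiplicative.toAdd (ex n 0 r) ∧
      Psi n p (Multiplicative.toAdd (ex n 0 r)) (Multiplicative.toAdd (ex n 1 r)) r = 1 := by
  set z0 := Multiplicative.toAdd (ex n 0 r) with hz0
  set z1 := Multiplicative.toAdd (ex n 1 r) with hz1
  set E := ROR.rres (Subgroup.normalClosure {r}) with hE
  have hlr : Lam n z0 z1 r = 1 := by
    apply Multiplicative.toAdd.injective
    rw [lam_eq, ← hz0, ← hz1, toAdd_one]
    ring
  have hEk : E ≤ (Lam n z0 z1).ker := rres_le_ker _ _ hlr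
  have hform : ∀ g ∈ E, Form (Psi n p z0 z1 g) 0 := by
    intro g hg
    have h1 := form_psi n p z0 z1 g
    rw [(MonoidHom.mem_ker.1 (hEk hg))] at h1
    simpa using h1
  have hcomm : ⁅E, E⁆ ≤ (Psi n p z0 z1).ker := by
    rw [Subgroup.commutator_le]
    intro a ha b hb
    rw [MonoidHom.mem_ker, map_commutatorElement, commutatorElement_eq_one_iff_mul_comm]
    exact (hform a ha).comm (hform b hb)
  have hcomm0 : ⁅E, E⁆ ≤ (ex n 0).ker := by
    rw [Subgroup.commutator_le]
    intro a _ b _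
    rw [MonoidHom.mem_ker, map_commutatorElement, commutatorElement_eq_one_iff_mul_comm, mul_comm]
  have hr : r = (r * (y ^ k)⁻¹) * y ^ k := by group
  constructor
  · have h1 : ex n 0 r = ex n 0 y ^ k := by
      conv_lhs => rw [hr]
      rw [map_mul, MonoidHom.mem_ker.1 (hcomm0 h), one_mul, map_pow]
    rw [hz0, h1, toAdd_pow]
    simp only [nsmul_eq_mul]
    exact Dvd.dvd.mul_right (Int.natCast_dvd_natCast.2 hp) _
  · conv_lhs => rw [hr]
    rw [map_mul, MonoidHom.mem_ker.1 (hcomm h), one_mul, map_pow]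
    exact (hform y hy).pow_eq_one hp

end Pool.Agent.RODens
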