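import Pool.Agent.ROR.DensA

/-!
# Variants of a window have different images
-/

set_option autoImplicit false

namespace Pool.Agent.RODens

variable {n : ℕ}

/-- `x_1 x_0 x_0⁻¹ x_1` or `x_0 x_1 x_0⁻¹ x_1` -/
def blk (a b : Fin n) (c : Bool) : List (Fin n × Bool) :=
  if c then [(b, true), (a, true), (a, false), (b, true)]
  else [(a, true), (b, true), (a, false), (b, true)]

/-- a window -/
def pat (a b : Fin n) : List Bool → List (Fin n × Bool)
  | [] => []
  | c :: ε => blk a b c ++ pat a b ε

theorem length_blk (a b : Fin n) (c : Bool) : (blk a b c).length = 4 := by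
  cases c <;> rfl

theorem length_pat (a b : Fin n) (ε : List Bool) : (pat a b ε).length = 4 * ε.length := by
  induction ε with
  | nil => rfl
  | cons c ε ih => rw [pat, List.length_append, length_blk, ih, List.length_cons]; ring

theorem pat_inj (a b : Fin n) (hab : a ≠ b) : ∀ ε ε' : List Bool, pat a b ε = pat a b ε' → ε = ε' := by
  intro ε
  induction ε with
  | nil =>
    intro ε' h
    have h1 := congrArg List.length h
    rw [length_pat, length_pat] at h1
    exact (List.length_eq_zero_iff.1 (by simpa using h1.symm)).symm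
  | cons c ε ih =>
    intro ε' h
    cases ε' with
    | nil =>
      have h1 := congrArg List.length h
      rw [length_pat, length_pat] at h1
      simp at h1
    | cons c' ε' =>
      rw [pat, pat] at h
      obtain ⟨h1, h2⟩ := List.append_inj h (by rw [length_blk, length_blk])
      rw [ih ε' h2]
      congr 1
      cases c <;> cases c' <;> simp_all [blk]

theorem mk_blk_true (a b : Fin n) : FreeGroup.mk (blk a b true) =
    FreeGroup.of b * FreeGroup.of a * (FreeGroup.of a)⁻¹ * FreeGroup.of b := rfl

theorem mk_blk_false (a b : Fin n) : FreeGroup.mk (blk a b false) =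
    FreeGroup.of a * FreeGroup.of b * (FreeGroup.of a)⁻¹ * FreeGroup.of b := rfl

/-- the translation part of a block -/
def cc (p : ℕ) (s : ℤ) (c : Bool) (m : ℤ) : ZMod p :=
  if c then 0 else (Pi.single 0 1 : ℤ → ZMod p) m - (Pi.single 0 1 : ℤ → ZMod p) (m - s)

/-- the translation part of a window -/
def dd (p : ℕ) (s : ℤ) : List Bool → ℤ → ZMod p
  | [], _ => 0
  | c :: ε, m => cc p s c m + dd p s ε (m - 2 * s)

theorem psi_blk (p : ℕ) (z0 z1 : ℤ) (a b : Fin n) (ha : a.val = 0) (hb : b.val = 1) (c : Bool)
    (v : ℤ → ZMod p) (m : ℤ) :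
    Psi n p z0 z1 (FreeGroup.mk (blk a b c)) v m = cc p (-z0) c m + v (m - 2 * (-z0)) := by
  have hA : Psi n p z0 z1 (FreeGroup.of a) = transP p (Pi.single 0 1) * shiftP p z1 := by
    rw [Psi, FreeGroup.lift_apply_of, if_pos ha]
  have hB : Psi n p z0 z1 (FreeGroup.of b) = shiftP p (-z0) := by
    rw [Psi, FreeGroup.lift_apply_of, if_neg (by omega), if_pos hb]
  cases c with
  | true =>
    rw [mk_blk_true, map_mul, map_mul, map_mul, map_inv, hA, hB]
    simp only [Equiv.Perm.mul_apply, mul_inv_rev, shiftP_apply, transP_apply, shiftP_inv,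
      transP_inv, cc, if_true, zero_add]
    ring_nf
  | false =>
    rw [mk_blk_false, map_mul, map_mul, map_mul, map_inv, hA, hB]
    simp only [Equiv.Perm.mul_apply, mul_inv_rev, shiftP_apply, transP_apply, shiftP_inv,
      transP_inv, cc]
    rw [if_neg (by simp)]
    ring_nf

theorem psi_pat (p : ℕ) (z0 z1 : ℤ) (a b : Fin n) (ha : a.val = 0) (hb : b.val = 1)
    (ε : List Bool) (v : ℤ → ZMod p) (m : ℤ) :
    Psi n p z0 z1 (FreeGroup.mk (pat a b ε)) v m =
      dd p (-z0) ε m + v (m - 2 * ε.length * (-z0)) := by
  induction ε generalizing m with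
  | nil =>
    rw [pat, ← FreeGroup.one_eq_mk, map_one, dd]
    simp
  | cons c ε ih =>
    rw [pat, ← FreeGroup.mul_mk, map_mul, Equiv.Perm.mul_apply, psi_blk p z0 z1 a b ha hb, ih, dd,
      add_assoc]
    congr 2
    rw [List.length_cons]
    push_cast
    ring_nf

theorem dd_neg (p : ℕ) (s : ℤ) (hs : s ≠ 0) (ε : List Bool) (j : ℤ) (hj : j < 0) :
    dd p s ε (j * s) = 0 := by
  induction ε generalizing j with
  | nil => rfl
  | cons c ε ih =>
    rw [dd, show j * s - 2 * s = (j - 2) * s by ring, ih (j - 2) (by omega), add_zero, cc]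
    cases c with
    | true => simp
    | false =>
      have h1 : j * s ≠ 0 := mul_ne_zero (by omega) hs
      have h2 : j * s - s ≠ 0 := by
        rw [show j * s - s = (j - 1) * s by ring]
        exact mul_ne_zero (by omega) hs
      rw [if_neg (by simp), Pi.single_eq_of_ne h1, Pi.single_eq_of_ne h2, sub_zero]

theorem dd_inj (p : ℕ) (hp : 1 < p) (s : ℤ) (hs : s ≠ 0) : ∀ ε ε' : List Bool,
    ε.length = ε'.length → (∀ m, dd p s ε m = dd p s ε' m) → ε = ε' := by
  haveI : Fact (1 < p) := ⟨hp⟩
  have h0 : ∀ (c : Bool) (ε : List Bool), dd p s (c :: ε) 0 = if c then 0 else 1 := by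
    intro c ε
    have h1 := dd_neg p s hs ε (-2) (by norm_num)
    rw [dd, show (0 : ℤ) - 2 * s = (-2) * s by ring, h1, add_zero, cc]
    cases c with
    | true => rfl
    | false =>
      rw [if_neg (by simp), if_neg (by simp), Pi.single_eq_same,
        Pi.single_eq_of_ne (by simpa using hs), sub_zero]
  intro ε
  induction ε with
  | nil =>
    intro ε' h _
    exact (List.length_eq_zero_iff.1 h.symm).symm
  | cons c ε ih =>
    intro ε' h hd
    cases ε' with
    | nil => simp at h
    | cons c' ε' =>
      have hc : c = c' := by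
        have h1 := hd 0
        rw [h0, h0] at h1
        cases c <;> cases c' <;> simp_all
      subst hc
      rw [ih ε' (by simpa using h) fun m => ?_]
      have h1 := hd (m + 2 * s)
      rw [dd, dd, add_sub_cancel_right] at h1
      exact add_left_cancel h1

theorem ex_pat (j : ℕ) (a b : Fin n) (ε ε' : List Bool) (h : ε.length = ε'.length) :
    ex n j (FreeGroup.mk (pat a b ε)) = ex n j (FreeGroup.mk (pat a b ε')) := by
  have hb : ∀ c c', ex n j (FreeGroup.mk (blk a b c)) = ex n j (FreeGroup.mk (blk a b c')) := by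
    have h1 : ex n j (FreeGroup.mk (blk a b true)) = ex n j (FreeGroup.mk (blk a b false)) := by
      rw [mk_blk_true, mk_blk_false, map_mul, map_mul, map_mul, map_mul, map_mul, map_mul,
        mul_comm (ex n j (FreeGroup.of b)) (ex n j (FreeGroup.of a))]
    intro c c'
    cases c <;> cases c' <;> first | rfl | exact h1 | exact h1.symm
  induction ε generalizing ε' with
  | nil =>
    rw [List.length_eq_zero_iff.1 h.symm]
  | cons c ε ih =>
    cases ε' with
    | nil => simp at h
    | cons c' ε' =>
      rw [pat, pat, ← FreeGroup.mul_mk, ← FreeGroup.mul_mk, map_mul, map_mul, hb c c',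
        ih ε' (by simpa using h)]

theorem ex_natAbs_le (j : ℕ) (w : List (Fin n × Bool)) :
    (Multiplicative.toAdd (ex n j (FreeGroup.mk w))).natAbs ≤ w.length := by
  induction w with
  | nil => rw [← FreeGroup.one_eq_mk]; simp
  | cons x w ih =>
    have h1 : FreeGroup.mk (x :: w) = FreeGroup.mk [x] * FreeGroup.mk w := by
      rw [FreeGroup.mul_mk, List.singleton_append]
    have h2 : (Multiplicative.toAdd (ex n j (FreeGroup.mk [x]))).natAbs ≤ 1 := by
      obtain ⟨i, c⟩ := x
      have hof : (Multiplicative.toAdd (ex n j (FreeGroup.of i))).natAbs ≤ 1 := by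
        rw [ex, FreeGroup.lift_apply_of, toAdd_ofAdd]
        split_ifs <;> simp
      cases c with
      | true => exact hof
      | false =>
        have h3 : FreeGroup.mk [(i, false)] = (FreeGroup.of i)⁻¹ := rfl
        rw [h3, map_inv, toAdd_inv, Int.natAbs_neg]
        exact hof
    rw [h1, map_mul, toAdd_mul, List.length_cons]
    refine (Int.natAbs_add_le _ _).trans ?_
    omega

end Pool.Agent.RODens
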