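import Mathlib

/-!
# Counting words which contain no window, or few bad variants in a window
-/

set_option autoImplicit false

namespace Pool.Agent.RODens

open Finset

variable {α ι : Type} [Fintype α] [Fintype ι]

/-- the number of words of length `L` in `S` -/
noncomputable def cnt (L : ℕ) (S : Set (List α)) : ℝ :=
  ∑ v : Fin L → α, S.indicator (fun _ => (1 : ℝ)) (List.ofFn v)

theorem cnt_le (L : ℕ) (S : Set (List α)) : cnt L S ≤ (Fintype.card α : ℝ) ^ L := by
  have h : cnt L S ≤ ∑ _v : Fin L → α, (1 : ℝ) :=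
    Finset.sum_le_sum fun v _ => Set.indicator_le_self' (fun _ _ => zero_le_one) _
  refine h.trans_eq ?_
  rw [Finset.sum_const, Finset.card_univ, Fintype.card_fun, Fintype.card_fin]
  simp

theorem cnt_add (m L : ℕ) (S : Set (List α)) :
    cnt (m + L) S = ∑ u : Fin m → α, cnt L {w | List.ofFn u ++ w ∈ S} := by
  rw [cnt, ← Equiv.sum_comp (Fin.appendEquiv m L), Fintype.sum_prod_type]
  refine Finset.sum_congr rfl fun u _ => Finset.sum_congr rfl fun v _ => ?_
  have h : List.ofFn (Fin.appendEquiv m L (u, v)) = List.ofFn u ++ List.ofFn v :=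
    List.ofFn_fin_append u v
  rw [h]
  rfl

theorem count_bound (m : ℕ) (pt : ι → List α) (hlen : ∀ i, (pt i).length = m)
    (hinj : Function.Injective pt) (N : ℕ) (hM : 0 < Fintype.card ι) :
    ∀ (q L : ℕ) (S : Set (List α)), m * q ≤ L →
      (∀ A B : List α, A.length + m + B.length = L →
        ∑ i, S.indicator (fun _ => (1 : ℝ)) (A ++ pt i ++ B) ≤ N) →
      cnt L S ≤ (Fintype.card α : ℝ) ^ L *
        ((1 - (Fintype.card ι : ℝ) / (Fintype.card α : ℝ) ^ m) ^ q +
          (N : ℝ) / (Fintype.card ι : ℝ)) := by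
  classical
  intro q
  induction q with
  | zero =>
    intro L S _ _
    refine (cnt_le L S).trans ?_
    rw [pow_zero]
    have h : (0 : ℝ) ≤ (N : ℝ) / (Fintype.card ι : ℝ) := by positivity
    nlinarith [show (0 : ℝ) ≤ (Fintype.card α : ℝ) ^ L from by positivity]
  | succ q ih =>
    intro L S hL hS
    obtain ⟨L', rfl⟩ : ∃ L', L = m + L' := ⟨L - m, by
      have : m ≤ m * (q + 1) := Nat.le_mul_of_pos_right m (Nat.succ_pos q)
      omega⟩
    have hL' : m * q ≤ L' := by rw [mul_add, mul_one] at hL; omega
    set K : ℝ := (Fintype.card α : ℝ) ^ m with hK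
    set M : ℝ := (Fintype.card ι : ℝ) with hMdef
    have hM0 : 0 < M := by rw [hMdef]; exact_mod_cast hM
    -- the windows
    let f : ι → (Fin m → α) := fun i => fun j => (pt i).get (Fin.cast (hlen i).symm j)
    have hf : ∀ i, List.ofFn (f i) = pt i := by
      intro i
      apply List.ext_get
      · simp [hlen i]
      · intro k h1 h2
        simp [f]
    have hfinj : Function.Injective f := fun i j hij => hinj (by rw [← hf i, ← hf j, hij])
    have hcard : (Fintype.card (Fin m → α) : ℝ) = K := by
      rw [Fintype.card_fun, Fintype.card_fin, Nat.cast_pow]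
    have hMK : M ≤ K := by
      rw [← hcard, hMdef]
      exact_mod_cast Fintype.card_le_of_injective f hfinj
    have hK0 : 0 < K := hM0.trans_le hMK
    rw [cnt_add]
    have hsplit : ∑ u : Fin m → α, cnt L' {w | List.ofFn u ++ w ∈ S} =
        ∑ u ∈ univ.image f, cnt L' {w | List.ofFn u ++ w ∈ S} +
          ∑ u ∈ (univ.image f)ᶜ, cnt L' {w | List.ofFn u ++ w ∈ S} :=
      (Finset.sum_add_sum_compl _ _).symm
    rw [hsplit]
    have h1 : ∑ u ∈ univ.image f, cnt L' {w | List.ofFn u ++ w ∈ S} ≤
        N * (Fintype.card α : ℝ) ^ L' := by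
      rw [Finset.sum_image fun i _ j _ h => hfinj h]
      simp only [cnt]
      rw [Finset.sum_comm]
      have : ∀ v ∈ (univ : Finset (Fin L' → α)),
          ∑ i, Set.indicator {w | List.ofFn (f i) ++ w ∈ S} (fun _ => (1 : ℝ)) (List.ofFn v) ≤
            N := by
        intro v _
        have h2 := hS [] (List.ofFn v) (by simp)
        refine le_trans (le_of_eq (Finset.sum_congr rfl fun i _ => ?_)) h2
        simp only [List.nil_append, Set.indicator, Set.mem_setOf_eq, hf]
      refine (Finset.sum_le_sum this).trans_eq ?_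
      rw [Finset.sum_const, Finset.card_univ, Fintype.card_fun, Fintype.card_fin, nsmul_eq_mul,
        Nat.cast_pow, mul_comm]
    have h2 : ∑ u ∈ (univ.image f)ᶜ, cnt L' {w | List.ofFn u ++ w ∈ S} ≤
        (K - M) * ((Fintype.card α : ℝ) ^ L' * ((1 - M / K) ^ q + (N : ℝ) / M)) := by
      have : ∀ u ∈ (univ.image f)ᶜ, cnt L' {w | List.ofFn u ++ w ∈ S} ≤
          (Fintype.card α : ℝ) ^ L' * ((1 - M / K) ^ q + (N : ℝ) / M) := by
        intro u _
        refine ih L' _ hL' fun A B hAB => ?_
        have h3 := hS (List.ofFn u ++ A) B (by simp; omega)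
        refine le_trans (le_of_eq (Finset.sum_congr rfl fun i _ => ?_)) h3
        simp only [Set.indicator, Set.mem_setOf_eq, List.append_assoc]
      refine (Finset.sum_le_sum this).trans_eq ?_
      rw [Finset.sum_const, Finset.card_compl, Finset.card_image_of_injective _ hfinj,
        Finset.card_univ, nsmul_eq_mul, Nat.cast_sub (Fintype.card_le_of_injective f hfinj), hcard]
    refine (add_le_add h1 h2).trans_eq ?_
    rw [pow_add, ← hK, pow_succ]
    field_simp
    ring

end Pool.Agent.RODens
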