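import Pool.Agent.ROR.DensB
import Pool.Agent.ROR.DensC

/-!
# Few variants of a window are bad
-/

set_option autoImplicit false

namespace Pool.Agent.RODens

open Finset

/-- the words whose value is a proper power modulo `[E, E]` -/
def Bad (n : ℕ) : Set (List (Fin n × Bool)) :=
  {w | ∃ y ∈ ROR.rres (Subgroup.normalClosure {FreeGroup.mk w}), ∃ k : ℕ, 2 ≤ k ∧
    FreeGroup.mk w * (y ^ k)⁻¹ ∈ ⁅ROR.rres (Subgroup.normalClosure {FreeGroup.mk w}),
      ROR.rres (Subgroup.normalClosure {FreeGroup.mk w})⁆}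

/-- bad words with nonzero exponent sum in `x_0` -/
def Bad1 (n : ℕ) : Set (List (Fin n × Bool)) :=
  {w | w ∈ Bad n ∧ Multiplicative.toAdd (ex n 0 (FreeGroup.mk w)) ≠ 0}

/-- words with exponent sum zero in `x_0` -/
def Bad2 (n : ℕ) : Set (List (Fin n × Bool)) :=
  {w | Multiplicative.toAdd (ex n 0 (FreeGroup.mk w)) = 0}

theorem card_primeFactors_le (z : ℕ) (hz : z ≠ 0) : z.primeFactors.card ≤ Nat.log 2 z := by
  have h1 : 2 ^ z.primeFactors.card ≤ ∏ p ∈ z.primeFactors, p :=
    Finset.pow_card_le_prod _ _ _ fun p hp => (Nat.prime_of_mem_primeFactors hp).two_le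
  have h2 : ∏ p ∈ z.primeFactors, p ≤ z :=
    Nat.le_of_dvd (Nat.pos_of_ne_zero hz) (Nat.prod_primeFactors_dvd z)
  exact (Nat.le_log_iff_pow_le (by norm_num) hz).2 (h1.trans h2)

/-- the window given by `ε` -/
def win {n : ℕ} (a b : Fin n) (r : ℕ) (ε : Fin r → Bool) : List (Fin n × Bool) :=
  pat a b (List.ofFn ε)

theorem length_win {n : ℕ} (a b : Fin n) (r : ℕ) (ε : Fin r → Bool) :
    (win a b r ε).length = 4 * r := by
  rw [win, length_pat, List.length_ofFn]

theorem win_inj {n : ℕ} (a b : Fin n) (hab : a ≠ b) (r : ℕ) :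
    Function.Injective (win a b r) := fun ε ε' h =>
  List.ofFn_injective (pat_inj a b hab _ _ h)

theorem few_bad {n : ℕ} (a b : Fin n) (ha : a.val = 0) (hb : b.val = 1) (r L : ℕ)
    (A B : List (Fin n × Bool)) (hL : A.length + 4 * r + B.length = L) :
    ∑ ε : Fin r → Bool, (Bad1 n).indicator (fun _ => (1 : ℝ)) (A ++ win a b r ε ++ B) ≤
      (Nat.log 2 L : ℕ) := by
  classical
  -- the exponent sums do not depend on `ε`
  have hex : ∀ (j : ℕ) (ε ε' : Fin r → Bool), ex n j (FreeGroup.mk (A ++ win a b r ε ++ B)) =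
      ex n j (FreeGroup.mk (A ++ win a b r ε' ++ B)) := by
    intro j ε ε'
    rw [← FreeGroup.mul_mk, ← FreeGroup.mul_mk, ← FreeGroup.mul_mk, ← FreeGroup.mul_mk,
      MonoidHom.map_mul, MonoidHom.map_mul, MonoidHom.map_mul, MonoidHom.map_mul, win, win, ex_pat j a b (List.ofFn ε) (List.ofFn ε') (by simp)]
  set z0 := Multiplicative.toAdd (ex n 0 (FreeGroup.mk (A ++ win a b r (fun _ => true) ++ B)))
    with hz0
  set z1 := Multiplicative.toAdd (ex n 1 (FreeGroup.mk (A ++ win a b r (fun _ => true) ++ B)))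
    with hz1
  have hz0' : ∀ ε, Multiplicative.toAdd (ex n 0 (FreeGroup.mk (A ++ win a b r ε ++ B))) = z0 :=
    fun ε => by rw [hex 0 ε (fun _ => true)]
  have hz1' : ∀ ε, Multiplicative.toAdd (ex n 1 (FreeGroup.mk (A ++ win a b r ε ++ B))) = z1 :=
    fun ε => by rw [hex 1 ε (fun _ => true)]
  have hsum : ∑ ε : Fin r → Bool, (Bad1 n).indicator (fun _ => (1 : ℝ)) (A ++ win a b r ε ++ B) =
      ((univ.filter fun ε : Fin r → Bool => A ++ win a b r ε ++ B ∈ Bad1 n).card : ℝ) := by
    rw [Finset.card_filter]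
    push_cast
    refine Finset.sum_congr rfl fun ε _ => ?_
    rw [Set.indicator]
  rw [hsum]
  by_cases h0 : z0 = 0
  · rw [Finset.card_eq_zero.2 ?_]
    · simp
    · rw [Finset.filter_eq_empty_iff]
      intro ε _ h
      exact h.2 ((hz0' ε).trans h0)
  -- a prime for every bad variant
  have hprime : ∀ ε : Fin r → Bool, A ++ win a b r ε ++ B ∈ Bad1 n → ∃ p : ℕ, p.Prime ∧
      (p : ℤ) ∣ z0 ∧ Psi n p z0 z1 (FreeGroup.mk (A ++ win a b r ε ++ B)) = 1 := by
    rintro ε ⟨⟨y, hy, k, hk, h⟩, -⟩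
    obtain ⟨p, hp, hpk⟩ := Nat.exists_prime_and_dvd (show k ≠ 1 by omega)
    obtain ⟨h1, h2⟩ := psi_of_power n _ y k hy h p hpk
    rw [hz0' ε, hz1' ε] at h2
    rw [hz0' ε] at h1
    exact ⟨p, hp, h1, h2⟩
  let g : (Fin r → Bool) → ℕ := fun ε => if h : A ++ win a b r ε ++ B ∈ Bad1 n then
    (hprime ε h).choose else 0
  have hg : ∀ ε (h : A ++ win a b r ε ++ B ∈ Bad1 n), (g ε).Prime ∧ (g ε : ℤ) ∣ z0 ∧
      Psi n (g ε) z0 z1 (FreeGroup.mk (A ++ win a b r ε ++ B)) = 1 := by
    intro ε h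
    have : g ε = (hprime ε h).choose := dif_pos h
    rw [this]
    exact (hprime ε h).choose_spec
  have hcard : (univ.filter fun ε : Fin r → Bool => A ++ win a b r ε ++ B ∈ Bad1 n).card ≤
      z0.natAbs.primeFactors.card := by
    refine Finset.card_le_card_of_injOn g ?_ ?_
    · intro ε hε
      have h := (Finset.mem_filter.1 hε).2
      obtain ⟨h1, h2, -⟩ := hg ε h
      exact Nat.mem_primeFactors.2 ⟨h1, Int.natCast_dvd.1 h2, Int.natAbs_ne_zero.2 h0⟩
    · intro ε hε ε' hε' he
      have h := hg ε (Finset.mem_filter.1 hε).2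
      have h' := hg ε' (Finset.mem_filter.1 hε').2
      rw [← he] at h'
      obtain ⟨hp, -, h2⟩ := h
      obtain ⟨-, -, h2'⟩ := h'
      have h3 : Psi n (g ε) z0 z1 (FreeGroup.mk (win a b r ε)) =
          Psi n (g ε) z0 z1 (FreeGroup.mk (win a b r ε')) := by
        rw [← FreeGroup.mul_mk, ← FreeGroup.mul_mk, map_mul, map_mul] at h2 h2'
        have h4 := h2.trans h2'.symm
        exact mul_left_cancel (mul_right_cancel h4)
      refine List.ofFn_injective (dd_inj (g ε) hp.one_lt (-z0) (neg_ne_zero.2 h0) _ _ (by simp)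
        fun m => ?_)
      have h5 := congrFun (congrArg (fun σ : Equiv.Perm (ℤ → ZMod (g ε)) => σ 0) h3) m
      simp only [win] at h5
      rw [psi_pat _ _ _ a b ha hb, psi_pat _ _ _ a b ha hb] at h5
      simpa using h5
  have hle : z0.natAbs ≤ L := by
    have h := ex_natAbs_le 0 (A ++ win a b r (fun _ => true) ++ B)
    rw [← hz0, List.length_append, List.length_append, length_win, hL] at h
    exact h
  have h6 := card_primeFactors_le z0.natAbs (Int.natAbs_ne_zero.2 h0)
  have h7 : Nat.log 2 z0.natAbs ≤ Nat.log 2 L := Nat.log_mono_right hle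
  exact_mod_cast (hcard.trans h6).trans h7

/-- windows with different exponent sums -/
def win2 {n : ℕ} (a b : Fin n) (M : ℕ) (j : Fin M) : List (Fin n × Bool) :=
  List.replicate j.val (a, true) ++ List.replicate (M - j.val) (b, true)

theorem length_win2 {n : ℕ} (a b : Fin n) (M : ℕ) (j : Fin M) : (win2 a b M j).length = M := by
  rw [win2, List.length_append, List.length_replicate, List.length_replicate]
  omega

theorem ex_replicate {n : ℕ} (a : Fin n) (k : ℕ) :
    Multiplicative.toAdd (ex n 0 (FreeGroup.mk (List.replicate k (a, true)))) =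
      if a.val = 0 then (k : ℤ) else 0 := by
  induction k with
  | zero =>
    rw [List.replicate_zero, ← FreeGroup.one_eq_mk]
    simp
  | succ k ih =>
    have h1 : FreeGroup.mk (List.replicate (k + 1) (a, true)) =
        FreeGroup.of a * FreeGroup.mk (List.replicate k (a, true)) := rfl
    rw [h1, map_mul, toAdd_mul, ih, ex, FreeGroup.lift_apply_of, toAdd_ofAdd]
    split_ifs
    · push_cast; ring
    · ring

theorem ex_win2 {n : ℕ} (a b : Fin n) (ha : a.val = 0) (hb : b.val = 1) (M : ℕ) (j : Fin M) :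
    Multiplicative.toAdd (ex n 0 (FreeGroup.mk (win2 a b M j))) = (j.val : ℤ) := by
  rw [win2, ← FreeGroup.mul_mk, map_mul, toAdd_mul, ex_replicate, ex_replicate, if_pos ha,
    if_neg (by omega), add_zero]

theorem win2_inj {n : ℕ} (a b : Fin n) (ha : a.val = 0) (hb : b.val = 1) (M : ℕ) :
    Function.Injective (win2 a b M) := by
  intro i j h
  have h1 := ex_win2 a b ha hb M i
  rw [h, ex_win2 a b ha hb M j] at h1
  exact Fin.ext (by exact_mod_cast h1.symm)

theorem few_bad2 {n : ℕ} (a b : Fin n) (ha : a.val = 0) (hb : b.val = 1) (M : ℕ)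
    (A B : List (Fin n × Bool)) :
    ∑ j : Fin M, (Bad2 n).indicator (fun _ => (1 : ℝ)) (A ++ win2 a b M j ++ B) ≤ (1 : ℕ) := by
  classical
  have hsum : ∑ j : Fin M, (Bad2 n).indicator (fun _ => (1 : ℝ)) (A ++ win2 a b M j ++ B) =
      ((univ.filter fun j : Fin M => A ++ win2 a b M j ++ B ∈ Bad2 n).card : ℝ) := by
    rw [Finset.card_filter]
    push_cast
    refine Finset.sum_congr rfl fun ε _ => ?_
    rw [Set.indicator]
  rw [hsum]
  have h1 : (univ.filter fun j : Fin M => A ++ win2 a b M j ++ B ∈ Bad2 n).card ≤ 1 := by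
    rw [Finset.card_le_one]
    intro i hi j hj
    have h2 := (Finset.mem_filter.1 hi).2
    have h3 := (Finset.mem_filter.1 hj).2
    simp only [Bad2, Set.mem_ofPred_eq] at h2 h3
    rw [← FreeGroup.mul_mk, ← FreeGroup.mul_mk, MonoidHom.map_mul, MonoidHom.map_mul,
      toAdd_mul, toAdd_mul, ex_win2 a b ha hb] at h2 h3
    exact Fin.ext (by omega)
  exact_mod_cast h1

end Pool.Agent.RODens
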