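import Pool.Agent.ROR.DensD

/-!
# Almost all words are not proper powers modulo `[E, E]`
-/

set_option autoImplicit false

namespace Pool.Agent.RODens

open Finset Filter

theorem bad_le (n L : ℕ) : cnt L (Bad n) ≤ cnt L (Bad1 n) + cnt L (Bad2 n) := by
  rw [cnt, cnt, cnt, ← Finset.sum_add_distrib]
  refine Finset.sum_le_sum fun v _ => ?_
  by_cases h : List.ofFn v ∈ Bad n
  · rw [Set.indicator_of_mem h]
    by_cases h0 : Multiplicative.toAdd (ex n 0 (FreeGroup.mk (List.ofFn v))) = 0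
    · rw [Set.indicator_of_mem (show List.ofFn v ∈ Bad2 n from h0)]
      have : (0 : ℝ) ≤ (Bad1 n).indicator (fun _ => (1 : ℝ)) (List.ofFn v) :=
        Set.indicator_nonneg (fun _ _ => zero_le_one) _
      linarith
    · rw [Set.indicator_of_mem (show List.ofFn v ∈ Bad1 n from ⟨h, h0⟩)]
      have : (0 : ℝ) ≤ (Bad2 n).indicator (fun _ => (1 : ℝ)) (List.ofFn v) :=
        Set.indicator_nonneg (fun _ _ => zero_le_one) _
      linarith
  · rw [Set.indicator_of_notMem h]
    have h1 : (0 : ℝ) ≤ (Bad1 n).indicator (fun _ => (1 : ℝ)) (List.ofFn v) :=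
      Set.indicator_nonneg (fun _ _ => zero_le_one) _
    have h2 : (0 : ℝ) ≤ (Bad2 n).indicator (fun _ => (1 : ℝ)) (List.ofFn v) :=
      Set.indicator_nonneg (fun _ _ => zero_le_one) _
    linarith

/-- `(1 - x)^q ≤ 1 / (q x)` -/
theorem pow_le_inv (x : ℝ) (q : ℕ) (hx0 : 0 < x) (hx1 : x ≤ 1) (hq : 0 < q) :
    (1 - x) ^ q ≤ 1 / (q * x) := by
  have h1 : (1 - x) ^ q ≤ Real.exp (-x) ^ q :=
    pow_le_pow_left₀ (by linarith) (Real.one_sub_le_exp_neg x) q
  have h2 : Real.exp (-x) ^ q = Real.exp (-(q * x)) := by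
    rw [← Real.exp_nat_mul]; ring_nf
  have h3 : (q : ℝ) * x ≤ Real.exp (q * x) := by
    have := Real.add_one_le_exp ((q : ℝ) * x)
    linarith
  have hqx : 0 < (q : ℝ) * x := mul_pos (by exact_mod_cast hq) hx0
  rw [h2, Real.exp_neg] at h1
  refine h1.trans ?_
  rw [inv_eq_one_div]
  exact one_div_le_one_div_of_le hqx h3

theorem bad2_small (n : ℕ) (hn : 2 ≤ n) (δ : ℝ) (hδ : 0 < δ) :
    ∀ᶠ L : ℕ in atTop, cnt L (Bad2 n) ≤ δ * (Fintype.card (Fin n × Bool) : ℝ) ^ L := by
  obtain ⟨M, hM⟩ := exists_nat_gt (2 / δ)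
  have hM0 : 0 < M := by
    have : (0 : ℝ) < M := (by positivity : (0 : ℝ) < 2 / δ).trans hM
    exact_mod_cast this
  have hMr : (0 : ℝ) < M := by exact_mod_cast hM0
  set c : ℝ := (Fintype.card (Fin n × Bool) : ℝ) with hc
  have hc1 : 1 ≤ c := by
    rw [hc]
    simp only [Fintype.card_prod, Fintype.card_fin, Fintype.card_bool]
    have : (2 : ℝ) ≤ n := by exact_mod_cast hn
    push_cast
    linarith
  set x : ℝ := (Fintype.card (Fin M) : ℝ) / c ^ M with hx
  let a : Fin n := ⟨0, by omega⟩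
  let b : Fin n := ⟨1, by omega⟩
  have hcard : (Fintype.card (Fin M) : ℝ) ≤ c ^ M := by
    let f : Fin M → (Fin M → Fin n × Bool) := fun j => fun i =>
      (win2 a b M j).get (Fin.cast (length_win2 a b M j).symm i)
    have hf : ∀ i, List.ofFn (f i) = win2 a b M i := by
      intro i
      apply List.ext_get
      · simp [length_win2]
      · intro k h1 h2
        simp [f]
    have hfinj : Function.Injective f := fun i j hij =>
      win2_inj a b rfl rfl M (by rw [← hf i, ← hf j, hij])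
    have h := Fintype.card_le_of_injective f hfinj
    rw [Fintype.card_fun, Fintype.card_fin] at h
    rw [Fintype.card_fin, hc]
    exact_mod_cast h
  have hx0 : 0 < x := by
    rw [hx, Fintype.card_fin]
    positivity
  have hx1 : x ≤ 1 := by
    rw [hx]
    exact div_le_one_of_le₀ hcard (by positivity)
  obtain ⟨Q, hQ⟩ := exists_nat_gt (2 / (δ * x))
  have hQ0 : 0 < Q := by
    have : (0 : ℝ) < Q := (by positivity : (0 : ℝ) < 2 / (δ * x)).trans hQ
    exact_mod_cast this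
  filter_upwards [eventually_ge_atTop (M * Q)] with L hL
  have h1 := count_bound (α := Fin n × Bool) M (win2 a b M) (length_win2 a b M)
    (win2_inj a b rfl rfl M) 1 (by simpa using hM0) Q L (Bad2 n) hL
    (fun A B _ => few_bad2 a b rfl rfl M A B)
  rw [← hc, ← hx] at h1
  refine h1.trans ?_
  rw [mul_comm δ]
  refine mul_le_mul_of_nonneg_left ?_ (by positivity)
  have h2 := pow_le_inv x Q hx0 hx1 hQ0
  have h3 : 1 / ((Q : ℝ) * x) ≤ δ / 2 := by
    have hQr : (0 : ℝ) < Q := by exact_mod_cast hQ0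
    rw [div_le_div_iff₀ (by positivity) (by norm_num)]
    rw [div_lt_iff₀ (by positivity)] at hQ
    linarith
  have h4 : ((1 : ℕ) : ℝ) / (Fintype.card (Fin M) : ℝ) ≤ δ / 2 := by
    rw [Fintype.card_fin, div_le_div_iff₀ hMr (by norm_num)]
    rw [div_lt_iff₀ hδ] at hM
    push_cast
    linarith
  linarith

theorem eventually_two_pow (D : ℕ) : ∀ᶠ t : ℕ in atTop, D * t ≤ 2 ^ t := by
  have h : Tendsto (fun t : ℕ => (t : ℝ) / 2 ^ t) atTop (nhds 0) := by
    have := tendsto_pow_const_div_const_pow_of_one_lt 1 (show (1 : ℝ) < 2 by norm_num)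
    simpa using this
  have h2 : ∀ᶠ t : ℕ in atTop, (t : ℝ) / 2 ^ t < 1 / (D + 1) :=
    h.eventually_lt_const (by positivity)
  filter_upwards [h2] with t ht
  rw [div_lt_div_iff₀ (by positivity) (by positivity)] at ht
  have h3 : (D : ℝ) * t ≤ 2 ^ t := by nlinarith [show (0 : ℝ) ≤ (t : ℝ) from Nat.cast_nonneg t]
  exact_mod_cast h3

theorem bad1_small (n : ℕ) (hn : 2 ≤ n) (δ : ℝ) (hδ : 0 < δ) :
    ∀ᶠ L : ℕ in atTop, cnt L (Bad1 n) ≤ δ * (Fintype.card (Fin n × Bool) : ℝ) ^ L := by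
  set c : ℕ := Fintype.card (Fin n × Bool) with hc
  have hc2 : 2 ≤ c := by
    rw [hc]
    simp only [Fintype.card_prod, Fintype.card_fin, Fintype.card_bool]
    omega
  let a : Fin n := ⟨0, by omega⟩
  let b : Fin n := ⟨1, by omega⟩
  have hab : a ≠ b := fun h => by
    have := congrArg Fin.val h
    simp [a, b] at this
  -- for large `t`
  obtain ⟨D, hD⟩ : ∃ D : ℕ, 16 * c ^ 8 ≤ 2 ^ D := ⟨16 * c ^ 8, (Nat.lt_two_pow_self).le⟩
  have hlim : Tendsto (fun t : ℕ => (3 : ℝ) * (1 / 2) ^ t) atTop (nhds 0) := by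
    have := (tendsto_pow_atTop_nhds_zero_of_lt_one (show (0 : ℝ) ≤ 1 / 2 by norm_num)
      (by norm_num)).const_mul 3
    simpa using this
  have ht : ∀ᶠ t : ℕ in atTop, 1 ≤ t ∧ D * t ≤ 2 ^ t ∧ (3 : ℝ) * (1 / 2) ^ t < δ :=
    (eventually_ge_atTop 1).and ((eventually_two_pow D).and (hlim.eventually_lt_const hδ))
  have hlog : Tendsto (fun L : ℕ => Nat.log 2 (Nat.log 2 L)) atTop atTop := by
    have h1 : Tendsto (Nat.log 2) atTop atTop := by
      refine tendsto_atTop_mono' atTop (f₁ := Nat.log 2) ?_ ?_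
      · exact Eventually.of_forall fun _ => le_rfl
      · refine tendsto_atTop.2 fun k => ?_
        filter_upwards [eventually_ge_atTop (2 ^ k)] with L hL
        exact (Nat.le_log_iff_pow_le (by norm_num) (by
          have : 0 < 2 ^ k := by positivity
          omega)).2 hL
    exact h1.comp h1
  filter_upwards [hlog.eventually ht, eventually_ge_atTop 4] with L hL hL4
  obtain ⟨h1, h2, h3⟩ := hL
  set t : ℕ := Nat.log 2 (Nat.log 2 L) with htdef
  have hlog0 : Nat.log 2 L ≠ 0 := by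
    intro h
    rw [htdef, h] at h1
    simp at h1
  -- `2^(2^t) ≤ L` and `log L < 2^(t+1)`
  have h4 : 2 ^ t ≤ Nat.log 2 L := Nat.pow_log_le_self 2 hlog0
  have h5 : 2 ^ (2 ^ t) ≤ L := (Nat.pow_le_pow_right (by norm_num) h4).trans
    (Nat.pow_log_le_self 2 (by omega))
  have h6 : Nat.log 2 L < 2 ^ (t + 1) := Nat.lt_pow_succ_log_self (by norm_num) _
  -- the number of windows
  set r : ℕ := 2 * t with hr
  set m : ℕ := 4 * r with hm
  set q : ℕ := 2 ^ t * c ^ m with hq
  have hmq : m * q ≤ L := by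
    have e1 : m * q ≤ (16 * c ^ 8) ^ t := by
      have e2 : (16 * c ^ 8) ^ t = 8 ^ t * (2 ^ t * c ^ m) := by
        rw [mul_pow, ← pow_mul, hm, hr, show 4 * (2 * t) = 8 * t by ring, ← mul_assoc, ← mul_pow]
        norm_num
      rw [e2, hq]
      refine Nat.mul_le_mul_right _ ?_
      rw [hm, hr]
      have e3 : ∀ s : ℕ, 1 ≤ s → 4 * (2 * s) ≤ 8 ^ s := by
        intro s hs
        induction s, hs using Nat.le_induction with
        | base => norm_num
        | succ s hs ih => rw [pow_succ]; omega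
      exact e3 t h1
    refine e1.trans ?_
    calc (16 * c ^ 8) ^ t ≤ (2 ^ D) ^ t := Nat.pow_le_pow_left hD t
      _ = 2 ^ (D * t) := by rw [pow_mul]
      _ ≤ 2 ^ (2 ^ t) := Nat.pow_le_pow_right (by norm_num) h2
      _ ≤ L := h5
  have hM0 : 0 < Fintype.card (Fin r → Bool) := Fintype.card_pos
  have h7 := count_bound (α := Fin n × Bool) m (win a b r) (length_win a b r)
    (win_inj a b hab r) (Nat.log 2 L) hM0 q L (Bad1 n) hmq
    (fun A B hAB => few_bad a b rfl rfl r L A B hAB)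
  refine h7.trans ?_
  rw [← hc, mul_comm δ]
  refine mul_le_mul_of_nonneg_left ?_ (by positivity)
  have hcardr : (Fintype.card (Fin r → Bool) : ℝ) = 4 ^ t := by
    rw [Fintype.card_fun, Fintype.card_fin, Fintype.card_bool, hr, pow_mul]
    norm_num
  rw [hcardr]
  have hcr : (2 : ℝ) ≤ c := by exact_mod_cast hc2
  have hx1 : (4 : ℝ) ^ t / (c : ℝ) ^ m ≤ 1 := by
    refine div_le_one_of_le₀ ?_ (by positivity)
    rw [hm, hr, show 4 * (2 * t) = 8 * t by ring, pow_mul]
    refine pow_le_pow_left₀ (by norm_num) ?_ t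
    calc (4 : ℝ) = 2 ^ 2 := by norm_num
      _ ≤ (c : ℝ) ^ 2 := pow_le_pow_left₀ (by norm_num) hcr 2
      _ ≤ (c : ℝ) ^ 8 := pow_le_pow_right₀ (by linarith) (by norm_num)
  have hq0 : 0 < q := by
    rw [hq]
    positivity
  have h8 := pow_le_inv ((4 : ℝ) ^ t / (c : ℝ) ^ m) q (by positivity) hx1 hq0
  have h9 : 1 / ((q : ℝ) * ((4 : ℝ) ^ t / (c : ℝ) ^ m)) ≤ (1 / 2) ^ t := by
    have e1 : (q : ℝ) * ((4 : ℝ) ^ t / (c : ℝ) ^ m) = 2 ^ t * 4 ^ t := by
      rw [hq]
      push_cast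
      field_simp
    rw [e1, one_div_pow]
    refine one_div_le_one_div_of_le (by positivity) ?_
    nlinarith [show (0 : ℝ) < 2 ^ t from by positivity, one_le_pow₀ (show (1 : ℝ) ≤ 4 by norm_num)
      (n := t)]
  have h10 : ((Nat.log 2 L : ℕ) : ℝ) / 4 ^ t ≤ 2 * (1 / 2) ^ t := by
    have e1 : ((Nat.log 2 L : ℕ) : ℝ) ≤ 2 * 2 ^ t := by
      have : Nat.log 2 L ≤ 2 * 2 ^ t := by rw [pow_succ] at h6; omega
      exact_mod_cast this
    rw [div_le_iff₀ (by positivity)]
    refine e1.trans_eq ?_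
    rw [show (4 : ℝ) = 2 * 2 by norm_num, mul_pow, one_div_pow]
    field_simp
  linarith

/-- the proportion of the bad words of length `L` tends to `0` -/
theorem bad_small (n : ℕ) (hn : 2 ≤ n) (δ : ℝ) (hδ : 0 < δ) :
    ∀ᶠ L : ℕ in atTop, cnt L (Bad n) ≤ δ * (Fintype.card (Fin n × Bool) : ℝ) ^ L := by
  filter_upwards [bad1_small n hn (δ / 2) (by positivity),
    bad2_small n hn (δ / 2) (by positivity)] with L h1 h2
  have := bad_le n L
  nlinarith

end Pool.Agent.RODens
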