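import Pool.Agent.ROR.DensE
import Pool.Agent.ROR.Transfer

/-!
# The proportion of the words with the answer unknown
-/

set_option autoImplicit false

namespace Pool.Agent.RODens

open Finset Filter

/-- a word in `x_0, …, x_{n-1}` as a list of letters -/
def wordOf {n : ℕ} (l : List (Fin n × Bool)) : List (ℕ × Bool) := l.map fun x => (x.1.val, x.2)

theorem relator_wordOf {n : ℕ} (l : List (Fin n × Bool)) :
    ROR.relator n (wordOf l) = FreeGroup.mk l := by
  have h1 : FreeGroup.mk (wordOf l) = FreeGroup.map (fun i : Fin n => i.val) (FreeGroup.mk l) := by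
    rw [FreeGroup.map.mk]
    rfl
  rw [ROR.relator, h1]
  have h2 : (FreeGroup.lift (fun i => if h : i < n then FreeGroup.of (⟨i, h⟩ : Fin n) else 1)).comp
      (FreeGroup.map (fun i : Fin n => i.val)) = MonoidHom.id _ := by
    ext i
    simp
  exact DFunLike.congr_fun h2 (FreeGroup.mk l)

theorem tendsto_unknown (f : ℕ × List (ℕ × Bool) → Option Bool)
    (hf : ∀ (n : ℕ) (w : List (ℕ × Bool)), f (n, w) = none →
      ∃ y ∈ ROR.rres (Subgroup.normalClosure {ROR.relator n w}), ∃ k : ℕ, 2 ≤ k ∧
        ROR.relator n w * (y ^ k)⁻¹ ∈ ⁅ROR.rres (Subgroup.normalClosure {ROR.relator n w}),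
          ROR.rres (Subgroup.normalClosure {ROR.relator n w})⁆)
    (n : ℕ) (hn : 2 ≤ n) :
    Tendsto (fun L : ℕ => ((univ.filter fun v : Fin L → Fin n × Bool =>
      f (n, wordOf (List.ofFn v)) = none).card : ℝ) / (2 * n) ^ L) atTop (nhds 0) := by
  have hle : ∀ L : ℕ, ((univ.filter fun v : Fin L → Fin n × Bool =>
      f (n, wordOf (List.ofFn v)) = none).card : ℝ) ≤ cnt L (Bad n) := by
    intro L
    rw [Finset.card_filter, cnt]
    push_cast
    refine Finset.sum_le_sum fun v _ => ?_
    split_ifs with h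
    · rw [Set.indicator_of_mem]
      obtain ⟨y, hy, k, hk, hyk⟩ := hf n _ h
      rw [relator_wordOf] at hy hyk
      exact ⟨y, hy, k, hk, hyk⟩
    · exact Set.indicator_nonneg (fun _ _ => zero_le_one) _
  have hcard : (Fintype.card (Fin n × Bool) : ℝ) = 2 * n := by
    simp only [Fintype.card_prod, Fintype.card_fin, Fintype.card_bool]
    push_cast
    ring
  have hn0 : (0 : ℝ) < 2 * n := by
    have : (2 : ℝ) ≤ n := by exact_mod_cast hn
    linarith
  rw [Metric.tendsto_atTop]
  intro δ hδ
  obtain ⟨L0, hL0⟩ := Filter.eventually_atTop.1 (bad_small n hn (δ / 2) (by positivity))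
  refine ⟨L0, fun L hL => ?_⟩
  have h1 := (hle L).trans (hL0 L hL)
  rw [hcard] at h1
  rw [Real.dist_eq, sub_zero, abs_of_nonneg (by positivity), div_lt_iff₀ (by positivity)]
  refine h1.trans_lt ?_
  have : (0 : ℝ) < (2 * n) ^ L := by positivity
  nlinarith

end Pool.Agent.RODens
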