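import Pool.Agent.ROR.Defs
import Pool.Agent.RSMonic.UP

/-!
# Division in the rational group ring along a tower (project ROR, P12)
-/

set_option autoImplicit false
set_option linter.unusedSectionVars false

namespace Pool.Agent.ROR

open FreeGroup (of)
open Pool.Agent.RSMonic

attribute [-simp] MonoidAlgebra.of_apply

section DivisionAux

variable {G Γ : Type*} [Group G] [Group Γ]

/-- the part of degree `v` -/
noncomputable def Division_cmp (h : G → ℤ) (v : ℤ) : MonoidAlgebra ℚ G →+ MonoidAlgebra ℚ G :=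
  ((MonoidAlgebra.coeffAddEquiv (R := ℚ) (M := G)).symm.toAddMonoidHom.comp
    (Finsupp.filterAddHom fun g => h g = v)).comp
    (MonoidAlgebra.coeffAddEquiv (R := ℚ) (M := G)).toAddMonoidHom

theorem Division_coeff_cmp (h : G → ℤ) (v : ℤ) (x : MonoidAlgebra ℚ G) :
    (Division_cmp h v x).coeff = x.coeff.filter fun g => h g = v := rfl

theorem Division_cmp_single (h : G → ℤ) (v : ℤ) (g : G) (r : ℚ) :
    Division_cmp h v (MonoidAlgebra.single g r) =
      if h g = v then MonoidAlgebra.single g r else 0 := by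
  apply MonoidAlgebra.coeff_injective
  rw [Division_coeff_cmp, MonoidAlgebra.coeff_single]
  split_ifs with hg
  · rw [Finsupp.filter_single_of_pos (fun g => h g = v) hg, MonoidAlgebra.coeff_single]
  · rw [Finsupp.filter_single_of_neg (fun g => h g = v) hg, MonoidAlgebra.coeff_zero]

theorem Division_cmp_mul_single (h : G → ℤ) (s : G) (r : ℚ) (e : ℤ)
    (hs : ∀ g, h (g * s) = h g + e) (v : ℤ) (x : MonoidAlgebra ℚ G) :
    Division_cmp h v (x * MonoidAlgebra.single s r) =
      Division_cmp h (v - e) x * MonoidAlgebra.single s r := by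
  induction x using MonoidAlgebra.induction_linear with
  | zero => simp
  | add x y hx hy => rw [add_mul, map_add, hx, hy, map_add, add_mul]
  | single g q =>
    rw [MonoidAlgebra.single_mul_single, Division_cmp_single, Division_cmp_single, hs]
    by_cases hg : h g = v - e
    · rw [if_pos (by omega), if_pos hg, MonoidAlgebra.single_mul_single]
    · rw [if_neg (by omega), if_neg hg, zero_mul]

theorem Division_cmp_cmp (h : G → ℤ) (v w : ℤ) (x : MonoidAlgebra ℚ G) :
    Division_cmp h v (Division_cmp h w x) = if v = w then Division_cmp h w x else 0 := by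
  induction x using MonoidAlgebra.induction_linear with
  | zero => simp
  | add x y hx hy =>
    rw [map_add, map_add, hx, hy]
    split_ifs
    · rfl
    · rw [add_zero]
  | single g q =>
    rw [Division_cmp_single]
    by_cases hg : h g = w
    · rw [if_pos hg, Division_cmp_single, hg]
      by_cases hv : v = w
      · rw [if_pos hv.symm, if_pos hv]
      · rw [if_neg (fun h => hv h.symm), if_neg hv]
    · rw [if_neg hg, map_zero, ite_self]

/-- an element whose components all vanish is zero -/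
theorem Division_eq_zero (h : G → ℤ) (x : MonoidAlgebra ℚ G)
    (hx : ∀ v, Division_cmp h v x = 0) : x = 0 := by
  apply MonoidAlgebra.coeff_injective
  ext g
  have h1 := congrArg (fun z : MonoidAlgebra ℚ G => z.coeff g) (hx (h g))
  simp only [Division_coeff_cmp, MonoidAlgebra.coeff_zero, Finsupp.coe_zero, Pi.zero_apply] at h1 ⊢
  rwa [Finsupp.filter_apply_pos (fun g' => h g' = h g) _ rfl] at h1

theorem Division_exists_of_ne (h : G → ℤ) (v : ℤ) (x : MonoidAlgebra ℚ G)
    (hx : Division_cmp h v x ≠ 0) : ∃ g ∈ x.coeff.support, h g = v := by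
  by_contra hcon
  push Not at hcon
  apply hx
  apply MonoidAlgebra.coeff_injective
  ext g
  rw [Division_coeff_cmp, MonoidAlgebra.coeff_zero, Finsupp.filter_apply, Finsupp.coe_zero,
    Pi.zero_apply]
  split_ifs with hg
  · by_contra h0
    exact hcon g (Finsupp.mem_support_iff.2 h0) hg
  · rfl

/-- the same element with the opposite grading -/
theorem Division_cmp_neg (h : G → ℤ) (v : ℤ) :
    Division_cmp (fun g => -h g) v = Division_cmp h (-v) := by
  refine AddMonoidHom.ext fun x => ?_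
  apply MonoidAlgebra.coeff_injective
  ext g
  rw [Division_coeff_cmp, Division_coeff_cmp, Finsupp.filter_apply, Finsupp.filter_apply]
  by_cases hh : h g = -v
  · rw [if_pos (by omega), if_pos hh]
  · rw [if_neg (by omega), if_neg hh]

theorem Division_mul_sum (x : MonoidAlgebra ℚ G) (π : Γ →* G) (δ : MonoidAlgebra ℚ Γ) :
    x * MonoidAlgebra.mapDomainRingHom ℚ π δ =
      ∑ s ∈ δ.coeff.support, x * MonoidAlgebra.single (π s) (δ.coeff s) := by
  conv_lhs => rw [← MonoidAlgebra.sum_coeff_single δ]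
  rw [Finsupp.sum, map_sum, Finset.mul_sum]
  refine Finset.sum_congr rfl fun s _ => ?_
  congr 1
  exact MonoidAlgebra.mapDomain_single

theorem Division_cmp_map (π : Γ →* G) (h : Γ → ℤ) (h' : G → ℤ) (hh : ∀ g, h' (π g) = h g) (v : ℤ)
    (x : MonoidAlgebra ℚ Γ) :
    Division_cmp h' v (MonoidAlgebra.mapDomainRingHom ℚ π x) =
      MonoidAlgebra.mapDomainRingHom ℚ π (Division_cmp h v x) := by
  induction x using MonoidAlgebra.induction_linear with
  | zero => simp
  | add x y hx hy => rw [map_add, map_add, hx, hy, map_add, map_add]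
  | single g q =>
    have h1 : ∀ (g : Γ) (q : ℚ), MonoidAlgebra.mapDomainRingHom ℚ π (MonoidAlgebra.single g q) =
      MonoidAlgebra.single (π g) q := fun g q => MonoidAlgebra.mapDomain_single
    rw [h1, Division_cmp_single, Division_cmp_single, hh]
    split_ifs
    · rw [h1]
    · rw [map_zero]

/-- the component of highest possible degree of a product -/
theorem Division_top (π : Γ →* G) (h' : G → ℤ) (l : Γ → ℤ) (δ : MonoidAlgebra ℚ Γ)
    (hl : ∀ s ∈ δ.coeff.support, ∀ g, h' (g * π s) = h' g + l s) (d : ℤ)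
    (hd : ∀ s ∈ δ.coeff.support, l s ≤ d) (x : MonoidAlgebra ℚ G) (v : ℤ)
    (hx : ∀ w, v < w → Division_cmp h' w x = 0) :
    Division_cmp h' (v + d) (x * MonoidAlgebra.mapDomainRingHom ℚ π δ) =
      Division_cmp h' v x * MonoidAlgebra.mapDomainRingHom ℚ π (Division_cmp l d δ) := by
  have h1 : MonoidAlgebra.mapDomainRingHom ℚ π (Division_cmp l d δ) =
      ∑ s ∈ δ.coeff.support, if l s = d then MonoidAlgebra.single (π s) (δ.coeff s) else 0 := by
    conv_lhs => rw [← MonoidAlgebra.sum_coeff_single δ]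
    rw [Finsupp.sum, map_sum, map_sum]
    refine Finset.sum_congr rfl fun s _ => ?_
    rw [Division_cmp_single]
    split_ifs
    · exact MonoidAlgebra.mapDomain_single
    · rw [map_zero]
  rw [h1, Division_mul_sum, map_sum, Finset.mul_sum]
  refine Finset.sum_congr rfl fun s hs => ?_
  rw [Division_cmp_mul_single h' (π s) _ (l s) (hl s hs)]
  by_cases he : l s = d
  · rw [if_pos he, he, add_sub_cancel_right]
  · rw [if_neg he, mul_zero, hx _ (by have := hd s hs; omega), zero_mul]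

/-- a bound for the degrees of a quotient -/
theorem Division_bound [NoZeroDivisors (MonoidAlgebra ℚ G)] (π : Γ →* G) (h' : G → ℤ) (h : Γ → ℤ)
    (hh : ∀ g, h' (π g) = h g) (l : Γ → ℤ) (δ : MonoidAlgebra ℚ Γ)
    (hl : ∀ s ∈ δ.coeff.support, ∀ g, h' (g * π s) = h' g + l s) (d : ℤ)
    (hd : ∀ s ∈ δ.coeff.support, l s ≤ d)
    (hne : MonoidAlgebra.mapDomainRingHom ℚ π (Division_cmp l d δ) ≠ 0)
    (a : MonoidAlgebra ℚ Γ) (B : ℤ) (hB : ∀ g ∈ a.coeff.support, h g ≤ B)
    (x : MonoidAlgebra ℚ G) (hx : x * MonoidAlgebra.mapDomainRingHom ℚ π δ =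
      MonoidAlgebra.mapDomainRingHom ℚ π a) (w : ℤ) (hw : B - d < w) :
    Division_cmp h' w x = 0 := by
  by_contra hcon
  have hxne : x.coeff.support.Nonempty := by
    obtain ⟨g, hg, _⟩ := Division_exists_of_ne h' w x hcon
    exact ⟨g, hg⟩
  obtain ⟨g0, hg0, hmax⟩ := Finset.exists_max_image x.coeff.support h' hxne
  have htop : ∀ w', h' g0 < w' → Division_cmp h' w' x = 0 := by
    intro w' hw'
    by_contra hne'
    obtain ⟨g, hg, hg'⟩ := Division_exists_of_ne h' w' x hne'
    have := hmax g hg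
    omega
  have hwle : w ≤ h' g0 := by
    by_contra hlt
    exact hcon (htop w (by omega))
  have hne0 : Division_cmp h' (h' g0) x ≠ 0 := by
    intro h0
    have h1 := congrArg (fun z : MonoidAlgebra ℚ G => z.coeff g0) h0
    simp only [Division_coeff_cmp, MonoidAlgebra.coeff_zero, Finsupp.coe_zero,
      Pi.zero_apply] at h1
    rw [Finsupp.filter_apply_pos (fun g' => h' g' = h' g0) _ rfl] at h1
    exact Finsupp.mem_support_iff.1 hg0 h1
  have h2 := Division_top π h' l δ hl d hd x (h' g0) htop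
  have h3 : Division_cmp h' (h' g0 + d) (x * MonoidAlgebra.mapDomainRingHom ℚ π δ) ≠ 0 := by
    rw [h2]
    exact mul_ne_zero hne0 hne
  rw [hx, Division_cmp_map π h h' hh] at h3
  have h4 : Division_cmp h (h' g0 + d) a ≠ 0 := fun h0 => h3 (by rw [h0, map_zero])
  obtain ⟨g, hg, hg'⟩ := Division_exists_of_ne h _ a h4
  have := hB g hg
  omega

/-- the component of extreme degree has fewer terms -/
theorem Division_card_cmp_lt (l : Γ → ℤ) (δ : MonoidAlgebra ℚ Γ) (d : ℤ)
    (h : ∃ s ∈ δ.coeff.support, l s ≠ d) :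
    (Division_cmp l d δ).coeff.support.card < δ.coeff.support.card := by
  obtain ⟨s, hs, hsd⟩ := h
  apply Finset.card_lt_card
  rw [Division_coeff_cmp, Finsupp.support_filter]
  refine ⟨Finset.filter_subset _ _, fun hsub => ?_⟩
  exact hsd (Finset.mem_filter.1 (hsub hs)).2

theorem Division_cmp_ne (l : Γ → ℤ) (δ : MonoidAlgebra ℚ Γ) (d : ℤ)
    (h : ∃ s ∈ δ.coeff.support, l s = d) : Division_cmp l d δ ≠ 0 := by
  obtain ⟨s, hs, hsd⟩ := h
  intro h0
  have h1 := congrArg (fun z : MonoidAlgebra ℚ Γ => z.coeff s) h0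
  simp only [Division_coeff_cmp, MonoidAlgebra.coeff_zero, Finsupp.coe_zero,
    Pi.zero_apply] at h1
  rw [Finsupp.filter_apply_pos (fun g' => l g' = d) _ hsd] at h1
  exact Finsupp.mem_support_iff.1 hs h1

end DivisionAux

section DivisionTower

/-- rational functionals separate the points of a torsion-free abelian group -/
theorem Division_functional {A : Type*} [CommGroup A]
    (hA : ∀ (a : A) (e : ℕ), e ≠ 0 → a ^ e = 1 → a = 1) (a : A) (ha : a ≠ 1) :
    ∃ φ : A → ℚ, (∀ x y, φ (x * y) = φ x + φ y) ∧ φ a ≠ 0 := by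
  have htf : IsAddTorsionFree (Additive A) := by
    refine ⟨fun n hn x y hxy => ?_⟩
    have hxy' : n • x = n • y := hxy
    have h0 : n • (x - y) = 0 := by rw [nsmul_sub, hxy', sub_self]
    have h1 : (Additive.toMul (x - y)) ^ n = 1 := by
      have := congrArg Additive.toMul h0
      simpa using this
    have h2 := hA _ n hn h1
    have h3 : x - y = 0 := by
      have := congrArg Additive.ofMul h2
      simpa using this
    exact sub_eq_zero.mp h3
  have hv : DivisibleHull.coeAddMonoidHom (Additive A) (Additive.ofMul a) ≠ 0 := by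
    intro h0
    have h1 : DivisibleHull.coeAddMonoidHom (Additive A) (Additive.ofMul a) =
        DivisibleHull.coeAddMonoidHom (Additive A) 0 := by rw [h0, map_zero]
    have h2 : Additive.ofMul a = 0 := DivisibleHull.coe_injective h1
    exact ha (by simpa using congrArg Additive.toMul h2)
  have hf : ∃ f : Module.Dual ℚ (DivisibleHull (Additive A)),
      f (DivisibleHull.coeAddMonoidHom (Additive A) (Additive.ofMul a)) ≠ 0 := by
    by_contra hcon
    push Not at hcon
    exact hv ((Module.forall_dual_apply_eq_zero_iff ℚ _).1 hcon)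
  obtain ⟨f, hf⟩ := hf
  refine ⟨fun x => f (DivisibleHull.coeAddMonoidHom (Additive A) (Additive.ofMul x)), ?_, hf⟩
  intro x y
  simp only [ofMul_mul, map_add]

variable {Γ : Type*} [Group Γ] (N : ℕ → Subgroup Γ) [∀ m, (N m).Normal]

theorem Division_uniqueProds (h0 : N 0 = ⊤) (hanti : Antitone N)
    (hcomm : ∀ m, ⁅N m, N m⁆ ≤ N (m + 1))
    (htf : ∀ (m : ℕ) (x : Γ) (e : ℕ), e ≠ 0 → x ∈ N m → x ^ e ∈ N (m + 1) → x ∈ N (m + 1))
    (m : ℕ) : UniqueProds (Γ ⧸ N m) := by
  induction m with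
  | zero =>
    have hs : Subsingleton (Γ ⧸ N 0) := by
      refine ⟨fun p q => ?_⟩
      obtain ⟨x, rfl⟩ := QuotientGroup.mk_surjective p
      obtain ⟨y, rfl⟩ := QuotientGroup.mk_surjective q
      rw [QuotientGroup.eq, h0]
      exact Subgroup.mem_top _
    refine ⟨fun {A B} hA hB => ?_⟩
    obtain ⟨a, ha⟩ := hA
    obtain ⟨b, hb⟩ := hB
    exact ⟨a, ha, b, hb, UniqueMul.of_subsingleton⟩
  | succ m ih =>
    let f : Γ ⧸ N (m + 1) →* Γ ⧸ N m :=
      QuotientGroup.map (N (m + 1)) (N m) (MonoidHom.id _) (hanti (Nat.le_succ m))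
    refine uniqueProds_of_ext f ih ?_
    have hmem : ∀ p : Γ ⧸ N (m + 1), p ∈ f.ker →
        ∃ x ∈ N m, (QuotientGroup.mk x : Γ ⧸ N (m + 1)) = p := by
      intro p hp
      obtain ⟨x, rfl⟩ := QuotientGroup.mk_surjective p
      refine ⟨x, ?_, rfl⟩
      rw [MonoidHom.mem_ker] at hp
      exact (QuotientGroup.eq_one_iff x).mp hp
    have hcm : ∀ p q : f.ker, p * q = q * p := by
      rintro ⟨p, hp⟩ ⟨q, hq⟩
      obtain ⟨x, hx, rfl⟩ := hmem p hp
      obtain ⟨y, hy, rfl⟩ := hmem q hq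
      apply Subtype.ext
      simp only [Subgroup.coe_mul]
      rw [← QuotientGroup.mk_mul, ← QuotientGroup.mk_mul, QuotientGroup.eq]
      have h1 := hcomm m
        (Subgroup.commutator_mem_commutator ((N m).inv_mem hy) ((N m).inv_mem hx))
      have h2 : (x * y)⁻¹ * (y * x) = y⁻¹ * x⁻¹ * y⁻¹⁻¹ * x⁻¹⁻¹ := by group
      rw [h2]
      exact h1
    let _ : CommGroup f.ker := { (inferInstance : Group f.ker) with mul_comm := hcm }
    refine uniqueProds_of_torsionFree (A := f.ker) ?_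
    rintro ⟨p, hp⟩ e he hpe
    obtain ⟨x, hx, rfl⟩ := hmem p hp
    apply Subtype.ext
    have h1 : (QuotientGroup.mk x : Γ ⧸ N (m + 1)) ^ e = 1 :=
      congrArg Subtype.val hpe
    rw [← QuotientGroup.mk_pow, QuotientGroup.eq_one_iff] at h1
    exact (QuotientGroup.eq_one_iff x).mpr (htf m x e he hx h1)

/-- a nonzero element is nonzero at all high levels -/
theorem Division_sep (hanti : Antitone N) (hbot : ∀ x, (∀ m, x ∈ N m) → x = 1)
    (x : MonoidAlgebra ℚ Γ) (hx : x ≠ 0) : ∃ m1, ∀ m ≥ m1,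
      MonoidAlgebra.mapDomainRingHom ℚ (QuotientGroup.mk' (N m)) x ≠ 0 := by
  classical
  have hsep : ∀ γ γ' : Γ, γ ≠ γ' → ∃ m, ∀ m' ≥ m,
      (QuotientGroup.mk' (N m')) γ ≠ (QuotientGroup.mk' (N m')) γ' := by
    intro g g' hne
    have h1 : ∃ m, g⁻¹ * g' ∉ N m := by
      by_contra hcon
      push Not at hcon
      exact hne (inv_mul_eq_one.1 (hbot _ hcon))
    obtain ⟨m, hm⟩ := h1
    refine ⟨m, fun m' hm' heq => hm (hanti hm' ?_)⟩
    exact QuotientGroup.eq.1 heq
  choose! M hM using hsep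
  set S := x.coeff.support with hS
  refine ⟨(S ×ˢ S).sup fun p => M p.1 p.2, fun m hm h0 => hx ?_⟩
  have hinj : Set.InjOn (QuotientGroup.mk' (N m)) (S : Set Γ) := by
    intro γ hγ γ' hγ' heq
    by_contra hne
    refine hM γ γ' hne m (le_trans ?_ hm) heq
    exact Finset.le_sup (f := fun p : Γ × Γ => M p.1 p.2)
      (Finset.mem_product.2 ⟨hγ, hγ'⟩ : (γ, γ') ∈ S ×ˢ S)
  have h1 : Finsupp.mapDomain (QuotientGroup.mk' (N m)) x.coeff = 0 := by
    have := congrArg MonoidAlgebra.coeff h0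
    simpa using this
  have h2 : x.coeff = 0 := by
    refine Finsupp.mapDomain_injOn (S : Set Γ) hinj ?_ ?_ ?_
    · simp [hS]
    · simp
    · rw [h1, Finsupp.mapDomain_zero]
  exact MonoidAlgebra.coeff_injective (by rw [h2]; rfl)

/-- an integral degree, nonconstant on a given finite set -/
theorem Division_grading (h0 : N 0 = ⊤) (hanti : Antitone N)
    (hcomm : ∀ m, ⁅N m, N m⁆ ≤ N (m + 1))
    (htf : ∀ (m : ℕ) (x : Γ) (e : ℕ), e ≠ 0 → x ∈ N m → x ^ e ∈ N (m + 1) → x ∈ N (m + 1))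
    (hbot : ∀ x, (∀ m, x ∈ N m) → x = 1) (S : Finset Γ) (h1S : (1 : Γ) ∈ S)
    (hS : ∃ s ∈ S, s ≠ 1) : ∃ (c : ℕ) (h l : Γ → ℤ), (∀ s ∈ S, ∀ g, h (g * s) = h g + l s) ∧
      (∀ g, ∀ n ∈ N c, h (g * n) = h g) ∧ ∃ s ∈ S, ∃ s' ∈ S, l s ≠ l s' := by
  classical
  have hex : ∃ m, ∃ s ∈ S, s ∉ N m := by
    obtain ⟨s, hs, hs1⟩ := hS
    by_contra hcon
    push Not at hcon
    exact hs1 (hbot s fun m => hcon m s hs)
  obtain ⟨c', hc'⟩ : ∃ c', Nat.find hex = c' + 1 := by
    refine ⟨Nat.find hex - 1, ?_⟩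
    have : Nat.find hex ≠ 0 := by
      intro hz
      obtain ⟨s, _, hs⟩ := Nat.find_spec hex
      rw [hz, h0] at hs
      exact hs (Subgroup.mem_top _)
    omega
  obtain ⟨s2, hs2, hs2'⟩ := Nat.find_spec hex
  rw [hc'] at hs2'
  have hSc : ∀ s ∈ S, s ∈ N c' := by
    intro s hs
    by_contra hcon
    exact Nat.find_min hex (m := c') (by omega) ⟨s, hs, hcon⟩
  -- the quotient
  set K' : Subgroup (N c') := (N (c' + 1)).subgroupOf (N c') with hK'
  have hcm : ∀ p q : N c' ⧸ K', p * q = q * p := by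
    intro p q
    obtain ⟨x, rfl⟩ := QuotientGroup.mk_surjective p
    obtain ⟨y, rfl⟩ := QuotientGroup.mk_surjective q
    rw [← QuotientGroup.mk_mul, ← QuotientGroup.mk_mul, QuotientGroup.eq, hK',
      Subgroup.mem_subgroupOf]
    have h1 := hcomm c'
      (Subgroup.commutator_mem_commutator ((N c').inv_mem y.2) ((N c').inv_mem x.2))
    have h2 : (((x * y)⁻¹ * (y * x) : N c') : Γ) =
        (y : Γ)⁻¹ * (x : Γ)⁻¹ * (y : Γ)⁻¹⁻¹ * (x : Γ)⁻¹⁻¹ := by
      push_cast
      group
    rw [h2]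
    exact h1
  let _ : CommGroup (N c' ⧸ K') := { (inferInstance : Group (N c' ⧸ K')) with mul_comm := hcm }
  have htfQ : ∀ (a : N c' ⧸ K') (e : ℕ), e ≠ 0 → a ^ e = 1 → a = 1 := by
    intro a e he hae
    obtain ⟨x, rfl⟩ := QuotientGroup.mk_surjective a
    have h1 : ((x ^ e : N c') : N c' ⧸ K') = 1 := hae
    rw [QuotientGroup.eq_one_iff, hK', Subgroup.mem_subgroupOf] at h1
    refine (QuotientGroup.eq_one_iff x).2 ?_
    rw [hK', Subgroup.mem_subgroupOf]
    exact htf c' x e he x.2 (by simpa using h1)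
  have hs2ne : (QuotientGroup.mk ⟨s2, hSc s2 hs2⟩ : N c' ⧸ K') ≠ 1 := by
    intro h1
    rw [QuotientGroup.eq_one_iff, hK', Subgroup.mem_subgroupOf] at h1
    exact hs2' h1
  obtain ⟨φ, hφ, hφ2⟩ := Division_functional htfQ _ hs2ne
  have hφ1 : φ 1 = 0 := by
    have := hφ 1 1
    rw [mul_one] at this
    linarith
  set L : Γ → ℚ := fun g => if hg : g ∈ N c' then φ (QuotientGroup.mk ⟨g, hg⟩) else 0 with hL
  have hLmul : ∀ x ∈ N c', ∀ y ∈ N c', L (x * y) = L x + L y := by
    intro x hx y hy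
    simp only [hL]
    rw [dif_pos ((N c').mul_mem hx hy), dif_pos hx, dif_pos hy, ← hφ, ← QuotientGroup.mk_mul]
    rfl
  have hLzero : ∀ n ∈ N (c' + 1), L n = 0 := by
    intro n hn
    have hn' : n ∈ N c' := hanti (Nat.le_succ c') hn
    simp only [hL]
    rw [dif_pos hn']
    have h1 : (QuotientGroup.mk ⟨n, hn'⟩ : N c' ⧸ K') = 1 := by
      rw [QuotientGroup.eq_one_iff, hK', Subgroup.mem_subgroupOf]
      exact hn
    rw [h1, hφ1]
  have hL2 : L s2 ≠ 0 := by
    simp only [hL]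
    rw [dif_pos (hSc s2 hs2)]
    exact hφ2
  -- clearing denominators
  set D : ℕ := ∏ s ∈ S, (L s).den with hD
  have hD0 : (D : ℚ) ≠ 0 := by
    rw [Nat.cast_ne_zero, hD]
    exact Finset.prod_ne_zero_iff.2 fun s _ => (L s).den_nz
  have hint : ∀ s ∈ S, ((⌊(D : ℚ) * L s⌋ : ℤ) : ℚ) = (D : ℚ) * L s := by
    intro s hs
    obtain ⟨q, hq⟩ := Finset.dvd_prod_of_mem (fun s => (L s).den) hs
    have h1 : (D : ℚ) * L s = ((q * (L s).num : ℤ) : ℚ) := by
      have h2 : (D : ℚ) = (L s).den * q := by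
        rw [hD, hq]
        push_cast
        rfl
      rw [h2]
      push_cast
      have h3 : ((L s).den : ℚ) * L s = (L s).num := Rat.den_mul_eq_num (L s)
      calc ((L s).den : ℚ) * q * L s = q * (((L s).den : ℚ) * L s) := by ring
        _ = q * (L s).num := by rw [h3]
    rw [h1, Int.floor_intCast]
  set t : Γ → Γ := fun g => (QuotientGroup.mk g : Γ ⧸ N c').out with ht
  have htm : ∀ g, (t g)⁻¹ * g ∈ N c' := by
    intro g
    rw [← QuotientGroup.eq]
    exact QuotientGroup.out_eq' _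
  have htt : ∀ g, ∀ s ∈ N c', t (g * s) = t g := by
    intro g s hs
    simp only [ht]
    congr 1
    rw [QuotientGroup.eq]
    have : (g * s)⁻¹ * g = s⁻¹ := by group
    rw [this]
    exact (N c').inv_mem hs
  refine ⟨c' + 1, fun g => ⌊(D : ℚ) * L ((t g)⁻¹ * g)⌋, fun s => ⌊(D : ℚ) * L s⌋, ?_, ?_, ?_⟩
  · intro s hs g
    simp only
    rw [htt g s (hSc s hs), ← mul_assoc, hLmul _ (htm g) s (hSc s hs), mul_add, ← hint s hs,
      Int.floor_add_intCast, hint s hs]
  · intro g n hn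
    have hn' : n ∈ N c' := hanti (Nat.le_succ c') hn
    simp only
    rw [htt g n hn', ← mul_assoc, hLmul _ (htm g) n hn', hLzero n hn, add_zero]
  · refine ⟨s2, hs2, 1, h1S, fun heq => ?_⟩
    have h1 : L 1 = 0 := hLzero 1 (N (c' + 1)).one_mem
    simp only [h1, mul_zero, Int.floor_zero] at heq
    have h2 := hint s2 hs2
    rw [heq] at h2
    push_cast at h2
    exact mul_ne_zero hD0 hL2 h2.symm

/-- the main induction, the case `1 ∈ supp δ` given the result for smaller supports -/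
theorem Division_step (h0 : N 0 = ⊤) (hanti : Antitone N)
    (hcomm : ∀ m, ⁅N m, N m⁆ ≤ N (m + 1))
    (htf : ∀ (m : ℕ) (x : Γ) (e : ℕ), e ≠ 0 → x ∈ N m → x ^ e ∈ N (m + 1) → x ∈ N (m + 1))
    (hbot : ∀ x, (∀ m, x ∈ N m) → x = 1) (δ : MonoidAlgebra ℚ Γ)
    (h1 : (1 : Γ) ∈ δ.coeff.support) (h2 : ∃ s ∈ δ.coeff.support, s ≠ 1)
    (ih : ∀ δ' : MonoidAlgebra ℚ Γ, δ' ≠ 0 → δ'.coeff.support.card < δ.coeff.support.card →
      ∀ (a : MonoidAlgebra ℚ Γ) (m0 : ℕ), (∀ m ≥ m0, ∃ lam : MonoidAlgebra ℚ (Γ ⧸ N m),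
        lam * MonoidAlgebra.mapDomainRingHom ℚ (QuotientGroup.mk' (N m)) δ' =
          MonoidAlgebra.mapDomainRingHom ℚ (QuotientGroup.mk' (N m)) a) →
      ∃ lam : MonoidAlgebra ℚ Γ, lam * δ' = a)
    (a : MonoidAlgebra ℚ Γ) (m0 : ℕ) (h : ∀ m ≥ m0, ∃ lam : MonoidAlgebra ℚ (Γ ⧸ N m),
      lam * MonoidAlgebra.mapDomainRingHom ℚ (QuotientGroup.mk' (N m)) δ =
        MonoidAlgebra.mapDomainRingHom ℚ (QuotientGroup.mk' (N m)) a) :
    ∃ lam : MonoidAlgebra ℚ Γ, lam * δ = a := by
  classical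
  have hUP := Division_uniqueProds N h0 hanti hcomm htf
  obtain ⟨c, g, l, hgl, hgc, s1, hs1, s1', hs1', hne⟩ :=
    Division_grading N h0 hanti hcomm htf hbot δ.coeff.support h1 h2
  have hsupp : δ.coeff.support.Nonempty := ⟨1, h1⟩
  obtain ⟨sM, hsM, hmax⟩ := Finset.exists_max_image δ.coeff.support l hsupp
  obtain ⟨sm, hsm, hmin⟩ := Finset.exists_min_image δ.coeff.support l hsupp
  have hlt : l sm < l sM := by
    have e1 := hmax s1 hs1
    have e2 := hmax s1' hs1'
    have e3 := hmin s1 hs1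
    have e4 := hmin s1' hs1'
    omega
  set d := l sM with hd
  set δ1 := Division_cmp l d δ with hδ1
  have hδ1ne : δ1 ≠ 0 := Division_cmp_ne l δ d ⟨sM, hsM, rfl⟩
  have hδ1card : δ1.coeff.support.card < δ.coeff.support.card :=
    Division_card_cmp_lt l δ d ⟨sm, hsm, hlt.ne⟩
  set δ2 := Division_cmp (fun s => -l s) (-l sm) δ with hδ2
  have hδ2ne : δ2 ≠ 0 := Division_cmp_ne (fun s => -l s) δ (-l sm) ⟨sm, hsm, rfl⟩
  obtain ⟨m1, hm1⟩ := Division_sep N hanti hbot δ1 hδ1ne
  obtain ⟨m2, hm2⟩ := Division_sep N hanti hbot δ2 hδ2ne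
  set m3 := max (max m0 c) (max m1 m2) with hm3
  -- the degree at the levels
  set gq : ∀ m, Γ ⧸ N m → ℤ := fun m q => g q.out with hgq
  have hgq1 : ∀ m ≥ m3, ∀ x, gq m (QuotientGroup.mk' (N m) x) = g x := by
    intro m hm x
    simp only [hgq, QuotientGroup.mk'_apply]
    have hx : x⁻¹ * (QuotientGroup.mk x : Γ ⧸ N m).out ∈ N m := by
      rw [← QuotientGroup.eq]
      exact (QuotientGroup.out_eq' _).symm
    have hx' := hanti (show c ≤ m by omega) hx
    have := hgc x _ hx'
    rwa [mul_inv_cancel_left] at this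
  have hgq2 : ∀ m ≥ m3, ∀ s ∈ δ.coeff.support, ∀ q,
      gq m (q * QuotientGroup.mk' (N m) s) = gq m q + l s := by
    intro m hm s hs q
    obtain ⟨x, rfl⟩ := QuotientGroup.mk'_surjective (N m) q
    rw [← map_mul, hgq1 m hm, hgq1 m hm, hgl s hs]
  -- the bounds for the degrees
  obtain ⟨B, hB⟩ : ∃ B : ℤ, ∀ x ∈ a.coeff.support, g x ≤ B := by
    obtain ⟨B, hB⟩ := (a.coeff.support.image g).bddAbove
    exact ⟨B, fun x hx => hB (Finset.mem_coe.2 (Finset.mem_image_of_mem g hx))⟩
  obtain ⟨B', hB'⟩ : ∃ B : ℤ, ∀ x ∈ a.coeff.support, -g x ≤ B := by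
    obtain ⟨B, hB⟩ := (a.coeff.support.image fun x => -g x).bddAbove
    exact ⟨B, fun x hx => hB (Finset.mem_coe.2 (Finset.mem_image_of_mem (fun x => -g x) hx))⟩
  set u : ℤ := -(B' + l sm) with hu
  -- inner induction
  have inner : ∀ (k : ℕ) (a : MonoidAlgebra ℚ Γ),
      (∀ m ≥ m3, ∃ lam : MonoidAlgebra ℚ (Γ ⧸ N m),
        lam * MonoidAlgebra.mapDomainRingHom ℚ (QuotientGroup.mk' (N m)) δ =
          MonoidAlgebra.mapDomainRingHom ℚ (QuotientGroup.mk' (N m)) a ∧
        ∀ w, (w < u ∨ u + k ≤ w) → Division_cmp (gq m) w lam = 0) →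
      ∃ lam : MonoidAlgebra ℚ Γ, lam * δ = a := by
    intro k
    induction k with
    | zero =>
      intro a ha
      have ha0 : a = 0 := by
        by_contra hane
        obtain ⟨m4, hm4⟩ := Division_sep N hanti hbot a hane
        obtain ⟨lam, hlam, hdeg⟩ := ha (max m3 m4) (le_max_left _ _)
        have hz : lam = 0 := Division_eq_zero (gq (max m3 m4)) lam fun w => hdeg w (by omega)
        rw [hz, zero_mul] at hlam
        exact hm4 _ (le_max_right _ _) hlam.symm
      exact ⟨0, by rw [ha0, zero_mul]⟩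
    | succ k ihk =>
      intro a ha
      set v : ℤ := u + k with hv
      have htop : ∀ m ≥ m3, ∀ lam : MonoidAlgebra ℚ (Γ ⧸ N m),
          lam * MonoidAlgebra.mapDomainRingHom ℚ (QuotientGroup.mk' (N m)) δ =
            MonoidAlgebra.mapDomainRingHom ℚ (QuotientGroup.mk' (N m)) a →
          (∀ w, (w < u ∨ u + (k + 1 : ℕ) ≤ w) → Division_cmp (gq m) w lam = 0) →
          Division_cmp (gq m) v lam *
            MonoidAlgebra.mapDomainRingHom ℚ (QuotientGroup.mk' (N m)) δ1 =
            MonoidAlgebra.mapDomainRingHom ℚ (QuotientGroup.mk' (N m))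
              (Division_cmp g (v + d) a) := by
        intro m hm lam hlam hdeg
        rw [← Division_cmp_map (QuotientGroup.mk' (N m)) g (gq m) (hgq1 m hm), ← hlam]
        exact (Division_top (QuotientGroup.mk' (N m)) (gq m) l δ (hgq2 m hm) d
          (fun s hs => hmax s hs) lam v (fun w hw => hdeg w (by right; push_cast; omega))).symm
      obtain ⟨Λ1, hΛ1⟩ := ih δ1 hδ1ne hδ1card (Division_cmp g (v + d) a) m3 (by
        intro m hm
        obtain ⟨lam, hlam, hdeg⟩ := ha m hm
        exact ⟨_, htop m hm lam hlam hdeg⟩)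
      obtain ⟨Λ2, hΛ2⟩ := ihk (a - Λ1 * δ) (by
        intro m hm
        obtain ⟨lam, hlam, hdeg⟩ := ha m hm
        have hUPm := hUP m
        have e1 := htop m hm lam hlam hdeg
        rw [← hΛ1, map_mul] at e1
        have e2 : Division_cmp (gq m) v lam =
            MonoidAlgebra.mapDomainRingHom ℚ (QuotientGroup.mk' (N m)) Λ1 := by
          have e3 := hm1 m (by omega)
          exact mul_right_cancel₀ e3 e1
        refine ⟨lam - MonoidAlgebra.mapDomainRingHom ℚ (QuotientGroup.mk' (N m)) Λ1, ?_, ?_⟩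
        · rw [sub_mul, hlam, map_sub, map_mul]
        · intro w hw
          rw [map_sub, ← e2, Division_cmp_cmp]
          by_cases hwv : w = v
          · rw [if_pos hwv, hwv, sub_self]
          · rw [if_neg hwv, sub_zero]
            apply hdeg
            push_cast
            omega)
      exact ⟨Λ2 + Λ1, by rw [add_mul, hΛ2, sub_add_cancel]⟩
  refine inner (B - d - u + 1).toNat a ?_
  intro m hm
  obtain ⟨lam, hlam⟩ := h m (by omega)
  have hUPm := hUP m
  refine ⟨lam, hlam, ?_⟩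
  intro w hw
  rcases hw with hw | hw
  · have e1 := Division_bound (QuotientGroup.mk' (N m)) (fun q => -gq m q) (fun x => -g x)
      (fun x => by rw [hgq1 m hm]) (fun s => -l s) δ
      (fun s hs q => by rw [hgq2 m hm s hs]; ring) (-l sm)
      (fun s hs => by have := hmin s hs; omega) (hm2 m (by omega)) a B' hB' lam hlam
      (-w) (by omega)
    rw [Division_cmp_neg, neg_neg] at e1
    exact e1
  · exact Division_bound (QuotientGroup.mk' (N m)) (gq m) g (hgq1 m hm) l δ (hgq2 m hm) d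
      (fun s hs => hmax s hs) (hm1 m (by omega)) a B hB lam hlam w (by omega)

/-- the main induction -/
theorem Division_main (h0 : N 0 = ⊤) (hanti : Antitone N)
    (hcomm : ∀ m, ⁅N m, N m⁆ ≤ N (m + 1))
    (htf : ∀ (m : ℕ) (x : Γ) (e : ℕ), e ≠ 0 → x ∈ N m → x ^ e ∈ N (m + 1) → x ∈ N (m + 1))
    (hbot : ∀ x, (∀ m, x ∈ N m) → x = 1) (n : ℕ) : ∀ δ : MonoidAlgebra ℚ Γ, δ ≠ 0 →
      δ.coeff.support.card < n →
      ∀ (a : MonoidAlgebra ℚ Γ) (m0 : ℕ), (∀ m ≥ m0, ∃ lam : MonoidAlgebra ℚ (Γ ⧸ N m),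
        lam * MonoidAlgebra.mapDomainRingHom ℚ (QuotientGroup.mk' (N m)) δ =
          MonoidAlgebra.mapDomainRingHom ℚ (QuotientGroup.mk' (N m)) a) →
      ∃ lam : MonoidAlgebra ℚ Γ, lam * δ = a := by
  classical
  induction n with
  | zero => exact fun δ _ hlt => absurd hlt (Nat.not_lt_zero _)
  | succ n ih =>
    intro δ hδ hcard a m0 h
    have hne : δ.coeff.support.Nonempty := by
      rw [Finsupp.support_nonempty_iff]
      exact fun hz => hδ (MonoidAlgebra.coeff_injective (by rw [hz]; rfl))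
    obtain ⟨s0, hs0⟩ := hne
    set δ' := δ * MonoidAlgebra.single s0⁻¹ 1 with hδ'
    have hinv : (MonoidAlgebra.single s0⁻¹ 1 : MonoidAlgebra ℚ Γ) * MonoidAlgebra.single s0 1 = 1 := by
      rw [MonoidAlgebra.single_mul_single, inv_mul_cancel, mul_one]
      rfl
    have hinv' : (MonoidAlgebra.single s0 1 : MonoidAlgebra ℚ Γ) * MonoidAlgebra.single s0⁻¹ 1 = 1 := by
      rw [MonoidAlgebra.single_mul_single, mul_inv_cancel, mul_one]
      rfl
    have hback : δ' * MonoidAlgebra.single s0 1 = δ := by rw [hδ', mul_assoc, hinv, mul_one]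
    have hcoef : ∀ x, δ'.coeff x = δ.coeff (x * s0) := by
      intro x
      rw [hδ', MonoidAlgebra.coeff_mul_single_eq_coeff_mul (x * s0)
        (fun m' _ => ⟨fun h => by rw [← h]; group, fun h => by rw [h]; group⟩), mul_one]
    have h1 : (1 : Γ) ∈ δ'.coeff.support := by
      rw [Finsupp.mem_support_iff, hcoef, one_mul]
      exact Finsupp.mem_support_iff.1 hs0
    have hcard' : δ'.coeff.support.card = δ.coeff.support.card := by
      refine Finset.card_bij (fun x _ => x * s0) ?_ ?_ ?_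
      · intro x hx
        rw [Finsupp.mem_support_iff] at hx ⊢
        rwa [hcoef] at hx
      · intro x _ y _ hxy
        exact mul_right_cancel hxy
      · intro y hy
        refine ⟨y * s0⁻¹, ?_, by group⟩
        rw [Finsupp.mem_support_iff] at hy ⊢
        rw [hcoef]
        have : y * s0⁻¹ * s0 = y := by group
        rwa [this]
    have h' : ∀ m ≥ m0, ∃ lam : MonoidAlgebra ℚ (Γ ⧸ N m),
        lam * MonoidAlgebra.mapDomainRingHom ℚ (QuotientGroup.mk' (N m)) δ' =
          MonoidAlgebra.mapDomainRingHom ℚ (QuotientGroup.mk' (N m))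
            (a * MonoidAlgebra.single s0⁻¹ 1) := by
      intro m hm
      obtain ⟨lam, hlam⟩ := h m hm
      exact ⟨lam, by rw [hδ', map_mul, ← mul_assoc, hlam, map_mul]⟩
    have key : ∃ lam : MonoidAlgebra ℚ Γ, lam * δ' = a * MonoidAlgebra.single s0⁻¹ 1 := by
      by_cases hs : ∃ s ∈ δ'.coeff.support, s ≠ 1
      · exact Division_step N h0 hanti hcomm htf hbot δ' h1 hs
          (fun δ'' hne hlt => ih δ'' hne (by omega)) _ m0 h'
      · push Not at hs
        have hsingle : δ' = MonoidAlgebra.single 1 (δ'.coeff 1) := by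
          apply MonoidAlgebra.coeff_injective
          rw [MonoidAlgebra.coeff_single]
          ext x
          by_cases hx : x = 1
          · rw [hx, Finsupp.single_eq_same]
          · rw [Finsupp.single_eq_of_ne hx]
            by_contra hne
            exact hx (hs x (Finsupp.mem_support_iff.2 hne))
        have hc : δ'.coeff 1 ≠ 0 := Finsupp.mem_support_iff.1 h1
        obtain ⟨r, hr⟩ : ∃ r, r = δ'.coeff 1 := ⟨_, rfl⟩
        rw [← hr] at hsingle hc
        have hone : (MonoidAlgebra.single 1 r⁻¹ : MonoidAlgebra ℚ Γ) * MonoidAlgebra.single 1 r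
            = 1 := by
          rw [MonoidAlgebra.single_mul_single, mul_one, inv_mul_cancel₀ hc]
          rfl
        exact ⟨a * MonoidAlgebra.single s0⁻¹ 1 * MonoidAlgebra.single 1 r⁻¹, by
          rw [hsingle, mul_assoc, hone, mul_one]⟩
    obtain ⟨lam, hlam⟩ := key
    refine ⟨lam, ?_⟩
    rw [← hback, ← mul_assoc, hlam, mul_assoc, hinv, mul_one]

end DivisionTower

/-- P12: division along a tower of torsion-free abelian factors -/
theorem division {Γ : Type*} [Group Γ] (N : ℕ → Subgroup Γ) [∀ m, (N m).Normal] (h0 : N 0 = ⊤)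
    (hanti : Antitone N) (hcomm : ∀ m, ⁅N m, N m⁆ ≤ N (m + 1))
    (htf : ∀ (m : ℕ) (x : Γ) (e : ℕ), e ≠ 0 → x ∈ N m → x ^ e ∈ N (m + 1) → x ∈ N (m + 1))
    (hbot : ∀ x, (∀ m, x ∈ N m) → x = 1) (δ a : MonoidAlgebra ℚ Γ) (hδ : δ ≠ 0)
    (h : ∀ m, ∃ lam : MonoidAlgebra ℚ (Γ ⧸ N m),
      lam * MonoidAlgebra.mapDomainRingHom ℚ (QuotientGroup.mk' (N m)) δ =
        MonoidAlgebra.mapDomainRingHom ℚ (QuotientGroup.mk' (N m)) a) :
    ∃ lam : MonoidAlgebra ℚ Γ, lam * δ = a :=
  Division_main N h0 hanti hcomm htf hbot _ δ hδ (Nat.lt_succ_self _) a 0 fun m _ => h m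

end Pool.Agent.ROR
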