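import Pool.Agent.ROR.Defs

/-!
# Fox calculus: cycles, spans, conjugation, sub-alphabets (project ROR, package P3a)
-/

set_option autoImplicit false

namespace Pool.Agent.ROR

open FreeGroup (of)
open Pool.Agent.RSMonic

attribute [-simp] MonoidAlgebra.of_apply

section Aux

variable {Γ : Type*} {A : Type*} [AddCommGroup A]

theorem lin_mem (g : Γ → A) (S : AddSubgroup A) (a : MonoidAlgebra ℤ Γ)
    (h : ∀ γ ∈ a.coeff.support, g γ ∈ S) : lin g a ∈ S := by
  have h1 : lin g a = a.coeff.sum fun γ z => z • g γ := by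
    simp [lin, Finsupp.liftAddHom_apply]
    rfl
  rw [h1]
  exact S.sum_mem fun γ hγ => S.zsmul_mem (h γ hγ) _

theorem lin_of_self [Monoid Γ] (a : MonoidAlgebra ℤ Γ) :
    lin (fun γ => MonoidAlgebra.of ℤ Γ γ) a = a := by
  have : lin (fun γ => MonoidAlgebra.of ℤ Γ γ) = AddMonoidHom.id (MonoidAlgebra ℤ Γ) :=
    addHom_ext_of fun γ => by rw [lin_of]; rfl
  rw [this]
  rfl

variable {X : Type*} [Group Γ]

/-- a section of `f` on its range -/
theorem exists_section (f : FreeGroup X →* Γ) :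
    ∃ s : Γ → FreeGroup X, ∀ γ ∈ f.range, f (s γ) = γ := by
  classical
  refine ⟨fun γ => if h : γ ∈ f.range then h.choose else 1, fun γ h => ?_⟩
  simp only [dif_pos h]
  exact h.choose_spec

/-- elements of the group ring supported on the range of `f` -/
def rng (f : FreeGroup X →* Γ) : AddSubgroup (MonoidAlgebra ℤ Γ) where
  carrier := {a | ∀ g, g ∉ f.range → a.coeff g = 0}
  zero_mem' := by intro g _; simp
  add_mem' := by
    intro a b ha hb g hg
    rw [MonoidAlgebra.coeff_add, Finsupp.add_apply, ha g hg, hb g hg, add_zero]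
  neg_mem' := by
    intro a ha g hg
    rw [MonoidAlgebra.coeff_neg, Finsupp.neg_apply, ha g hg, neg_zero]

theorem mem_rng (f : FreeGroup X →* Γ) (a : MonoidAlgebra ℤ Γ) :
    a ∈ rng f ↔ ∀ g, g ∉ f.range → a.coeff g = 0 := Iff.rfl

theorem mem_rng' (f : FreeGroup X →* Γ) (a : MonoidAlgebra ℤ Γ) :
    a ∈ rng f ↔ ∀ g ∈ a.coeff.support, g ∈ f.range := by
  rw [mem_rng]
  constructor
  · intro h g hg
    by_contra hn
    exact (Finsupp.mem_support_iff.1 hg) (h g hn)
  · intro h g hg
    by_contra hn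
    exact hg (h g (Finsupp.mem_support_iff.2 hn))

theorem of_mul_mem_rng (f : FreeGroup X →* Γ) {γ : Γ} (hγ : γ ∈ f.range) {a : MonoidAlgebra ℤ Γ}
    (ha : a ∈ rng f) : MonoidAlgebra.of ℤ Γ γ * a ∈ rng f := by
  intro g hg
  rw [MonoidAlgebra.of_apply, MonoidAlgebra.coeff_single_mul_apply, one_mul]
  refine ha _ fun h => hg ?_
  have := f.range.mul_mem hγ h
  rwa [mul_inv_cancel_left] at this

end Aux

section P3
variable {X Y Γ Γ' : Type*} [Group Γ] [Group Γ']

theorem fox_mem_rng (f : FreeGroup X →* Γ) (u : FreeGroup X) : ∀ x : X, fox f u x ∈ rng f := by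
  classical
  have hone : (1 : MonoidAlgebra ℤ Γ) ∈ rng f := by
    rw [mem_rng']
    intro g hg
    have := MonoidAlgebra.support_coeff_one_subset hg
    rw [Finset.mem_one] at this
    rw [this]
    exact f.range.one_mem
  induction u using FreeGroup.induction_on with
  | C1 =>
    intro x
    rw [fox_one, Finsupp.zero_apply]
    exact (rng f).zero_mem
  | of y =>
    intro x
    rw [fox_of, Finsupp.single_apply]
    split_ifs
    · exact hone
    · exact (rng f).zero_mem
  | inv_of y hy =>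
    intro x
    rw [fox_inv, Finsupp.neg_apply, Finsupp.smul_apply, smul_eq_mul]
    exact (rng f).neg_mem (of_mul_mem_rng f (f.range.inv_mem ⟨_, rfl⟩) (hy x))
  | mul a b ha hb =>
    intro x
    rw [fox_mul, Finsupp.add_apply, Finsupp.smul_apply, smul_eq_mul]
    exact (rng f).add_mem (ha x) (of_mul_mem_rng f ⟨_, rfl⟩ (hb x))

/-- T3: cycles supported in the range are Fox derivatives of elements of the kernel -/
theorem exists_fox_eq (f : FreeGroup X →* Γ) (c : X →₀ MonoidAlgebra ℤ Γ)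
    (hs : ∀ x, ∀ g ∈ (c x).coeff.support, g ∈ f.range)
    (hc : (c.sum fun x a => a * (MonoidAlgebra.of ℤ Γ (f (of x)) - 1)) = 0) :
    ∃ u, f u = 1 ∧ fox f u = c := by
  classical
  obtain ⟨s, hsec⟩ := exists_section f
  let Im : AddSubgroup (X →₀ MonoidAlgebra ℤ Γ) :=
    { carrier := {d | ∃ u, f u = 1 ∧ fox f u = d}
      zero_mem' := ⟨1, map_one f, fox_one f⟩
      add_mem' := by
        rintro _ _ ⟨u, hu, rfl⟩ ⟨v, hv, rfl⟩
        exact ⟨u * v, by rw [map_mul, hu, hv, one_mul], by rw [fox_mul, hu, map_one, one_smul]⟩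
      neg_mem' := by
        rintro _ ⟨u, hu, rfl⟩
        exact ⟨u⁻¹, by rw [map_inv, hu, inv_one], by rw [fox_inv, hu, inv_one, map_one, one_smul]⟩ }
  let Λ : MonoidAlgebra ℤ Γ →+ (X →₀ MonoidAlgebra ℤ Γ) := lin fun g => fox f (s g)
  let T : X → MonoidAlgebra ℤ Γ →+ (X →₀ MonoidAlgebra ℤ Γ) := fun x =>
    lin fun g => fox f (s g) + Finsupp.single x (MonoidAlgebra.of ℤ Γ g) - fox f (s (g * f (of x)))
  have hT : ∀ x a, T x a = Finsupp.single x a -
      Λ (a * (MonoidAlgebra.of ℤ Γ (f (of x)) - 1)) := by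
    intro x a
    have : T x = Finsupp.singleAddHom x -
        Λ.comp (AddMonoidHom.mulRight (MonoidAlgebra.of ℤ Γ (f (of x)) - 1)) := by
      refine addHom_ext_of fun g => ?_
      simp only [T, Λ, AddMonoidHom.sub_apply, AddMonoidHom.comp_apply,
        AddMonoidHom.mulRight_apply, mul_sub, mul_one, map_sub, ← map_mul, lin_of,
        Finsupp.singleAddHom_apply]
      abel
    rw [this]
    rfl
  have hmem : ∀ x, T x (c x) ∈ Im := by
    intro x
    refine lin_mem _ _ _ fun g hg => ?_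
    have hgr : g ∈ f.range := hs x g hg
    have hgx : g * f (of x) ∈ f.range := f.range.mul_mem hgr ⟨_, rfl⟩
    refine ⟨s g * of x * (s (g * f (of x)))⁻¹, ?_, ?_⟩
    · rw [map_mul, map_mul, map_inv, hsec _ hgr, hsec _ hgx, mul_inv_cancel]
    · rw [fox_mul, fox_mul, fox_inv, map_mul, hsec _ hgr, hsec _ hgx, smul_neg, ← mul_smul,
        ← map_mul, mul_inv_cancel, map_one, one_smul, fox_of, Finsupp.smul_single, smul_eq_mul,
        mul_one, sub_eq_add_neg]
  have hsum : (c.sum fun x a => T x a) = c := by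
    have h1 : (c.sum fun x a => T x a) = (c.sum fun x a => Finsupp.single x a) -
        c.sum fun x a => Λ (a * (MonoidAlgebra.of ℤ Γ (f (of x)) - 1)) := by
      rw [← Finsupp.sum_sub]
      exact Finsupp.sum_congr fun x _ => hT x _
    have h2 : (c.sum fun x a => Λ (a * (MonoidAlgebra.of ℤ Γ (f (of x)) - 1))) = 0 := by
      rw [← map_finsuppSum, hc, map_zero]
    rw [h1, h2, sub_zero, Finsupp.sum_single]
  have : c ∈ Im := by
    rw [← hsum]
    exact Im.sum_mem fun x _ => hmem x
  exact this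

theorem fox_support_range (f : FreeGroup X →* Γ) (u : FreeGroup X) (x : X) :
    ∀ g ∈ (fox f u x).coeff.support, g ∈ f.range :=
  (mem_rng' f _).1 (fox_mem_rng f u x)

theorem fox_conj (f : FreeGroup X →* Γ) (g u : FreeGroup X) (hu : f u = 1) :
    fox f (g * u * g⁻¹) = MonoidAlgebra.of ℤ Γ (f g) • fox f u := by
  rw [fox_mul, fox_mul, fox_inv, map_mul, hu, mul_one, smul_neg, ← mul_smul, ← map_mul,
    mul_inv_cancel, map_one, one_smul]
  abel

theorem fox_mem_span (f : FreeGroup X →* Γ) (S : Set (FreeGroup X)) (hS : ∀ y ∈ S, f y = 1)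
    (u : FreeGroup X) (hu : u ∈ Subgroup.normalClosure S ⊔ ⁅f.ker, f.ker⁆) :
    fox f u ∈ Submodule.span (MonoidAlgebra ℤ Γ) (fox f '' S) := by
  let T : Subgroup (FreeGroup X) :=
    { carrier := {u | f u = 1 ∧ fox f u ∈ Submodule.span (MonoidAlgebra ℤ Γ) (fox f '' S)}
      one_mem' := ⟨map_one f, by rw [fox_one]; exact Submodule.zero_mem _⟩
      mul_mem' := by
        rintro a b ⟨ha, ha'⟩ ⟨hb, hb'⟩
        refine ⟨by rw [map_mul, ha, hb, one_mul], ?_⟩
        rw [fox_mul, ha, map_one, one_smul]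
        exact Submodule.add_mem _ ha' hb'
      inv_mem' := by
        rintro a ⟨ha, ha'⟩
        refine ⟨by rw [map_inv, ha, inv_one], ?_⟩
        rw [fox_inv, ha, inv_one, map_one, one_smul]
        exact Submodule.neg_mem _ ha' }
  have : T.Normal := by
    constructor
    rintro a ⟨ha, ha'⟩ g
    refine ⟨by rw [map_mul, map_mul, ha, mul_one, map_inv, mul_inv_cancel], ?_⟩
    rw [fox_conj f g a ha]
    exact Submodule.smul_mem _ _ ha'
  have h1 : Subgroup.normalClosure S ≤ T := by
    apply Subgroup.normalClosure_le_normal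
    intro y hy
    exact ⟨hS y hy, Submodule.subset_span ⟨y, hy, rfl⟩⟩
  have h2 : ⁅f.ker, f.ker⁆ ≤ T := by
    intro a ha
    refine ⟨?_, ?_⟩
    · have h3 : ⁅f.ker, f.ker⁆ ≤ f.ker := Subgroup.commutator_le_left _ _
      exact h3 ha
    · rw [fox_eq_zero_of_mem f ha]
      exact Submodule.zero_mem _
  exact ((sup_le h1 h2) hu).2

theorem Cyc.fox_eq {f : FreeGroup X →* Γ} {y : FreeGroup X} (h : Cyc f y) {u : FreeGroup X}
    (hu : f u = 1) : ∃ lam : MonoidAlgebra ℤ Γ, fox f u = lam • fox f y := by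
  have h1 : u ∈ Subgroup.normalClosure {y} ⊔ ⁅f.ker, f.ker⁆ := h.2 hu
  have h2 := fox_mem_span f {y} (by rintro _ rfl; exact h.1) u h1
  rw [Set.image_singleton, Submodule.mem_span_singleton] at h2
  obtain ⟨lam, hl⟩ := h2
  exact ⟨lam, hl.symm⟩

/-- restriction of the coefficients to the range of `f` -/
noncomputable def res (f : FreeGroup X →* Γ) (a : MonoidAlgebra ℤ Γ) : MonoidAlgebra ℤ Γ := by
  classical exact MonoidAlgebra.ofCoeff (a.coeff.filter (· ∈ f.range))

theorem res_mem (f : FreeGroup X →* Γ) (a : MonoidAlgebra ℤ Γ) : res f a ∈ rng f := by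
  classical
  intro g hg
  rw [res, MonoidAlgebra.coeff_ofCoeff]
  exact Finsupp.filter_apply_neg _ _ hg

theorem res_mul_eq (f : FreeGroup X →* Γ) (a b : MonoidAlgebra ℤ Γ) (hb : b ∈ rng f)
    (hab : a * b ∈ rng f) : res f a * b = a * b := by
  classical
  ext g
  have hz : ∀ h, h ∈ f.range → g ∉ f.range → b.coeff (h⁻¹ * g) = 0 := by
    intro h hh hg
    refine hb _ fun hm => hg ?_
    have := f.range.mul_mem hh hm
    rwa [mul_inv_cancel_left] at this
  have hz' : ∀ h, h ∉ f.range → g ∈ f.range → b.coeff (h⁻¹ * g) = 0 := by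
    intro h hh hg
    refine hb _ fun hm => hh ?_
    have := f.range.mul_mem hm (f.range.inv_mem hg)
    rw [mul_assoc, mul_inv_cancel, mul_one] at this
    exact (inv_mem_iff).1 this
  by_cases hg : g ∈ f.range
  · rw [MonoidAlgebra.coeff_mul_apply_left, MonoidAlgebra.coeff_mul_apply_left]
    rw [res, MonoidAlgebra.coeff_ofCoeff, Finsupp.sum, Finsupp.sum, Finsupp.support_filter]
    rw [Finset.sum_congr rfl (g := fun h => a.coeff h * b.coeff (h⁻¹ * g))]
    · refine Finset.sum_filter_of_ne fun h _ hne => ?_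
      by_contra hh
      exact hne (by rw [hz' h hh hg, mul_zero])
    · intro h hh
      rw [Finset.mem_filter] at hh
      rw [Finsupp.filter_apply_pos _ _ hh.2]
  · rw [hab g hg, MonoidAlgebra.coeff_mul_apply_left]
    refine Finset.sum_eq_zero fun h hh => ?_
    have hh' : h ∈ f.range := (mem_rng' f _).1 (res_mem f a) h hh
    show (res f a).coeff h * b.coeff (h⁻¹ * g) = 0
    rw [hz h hh' hg, mul_zero]

/-- converse of `Cyc.fox_eq`; `lam` may have support outside the range of `f` -/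
theorem mem_of_fox_smul (f : FreeGroup X →* Γ) (y u : FreeGroup X) (hy : f y = 1) (hu : f u = 1)
    (lam : MonoidAlgebra ℤ Γ) (h : fox f u = lam • fox f y) :
    u ∈ Subgroup.normalClosure {y} ⊔ ⁅f.ker, f.ker⁆ := by
  have h1 : fox f u = res f lam • fox f y := by
    ext1 x
    rw [Finsupp.smul_apply, smul_eq_mul]
    have hx : fox f u x = lam * fox f y x := by
      rw [h, Finsupp.smul_apply, smul_eq_mul]
    rw [res_mul_eq f lam _ (fox_mem_rng f y x) (by rw [← hx]; exact fox_mem_rng f u x), hx]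
  let Im : AddSubgroup (MonoidAlgebra ℤ Γ) :=
    { carrier := {a | ∃ w ∈ Subgroup.normalClosure {y}, f w = 1 ∧ fox f w = a • fox f y}
      zero_mem' := ⟨1, Subgroup.one_mem _, map_one f, by rw [fox_one, zero_smul]⟩
      add_mem' := by
        rintro a b ⟨u, hu, hu1, hu'⟩ ⟨v, hv, hv1, hv'⟩
        refine ⟨u * v, Subgroup.mul_mem _ hu hv, by rw [map_mul, hu1, hv1, one_mul], ?_⟩
        rw [fox_mul, hu1, map_one, one_smul, hu', hv', add_smul]
      neg_mem' := by
        rintro a ⟨u, hu, hu1, hu'⟩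
        refine ⟨u⁻¹, Subgroup.inv_mem _ hu, by rw [map_inv, hu1, inv_one], ?_⟩
        rw [fox_inv, hu1, inv_one, map_one, one_smul, hu', neg_smul] }
  have h2 : res f lam ∈ Im := by
    rw [← lin_of_self (res f lam)]
    refine lin_mem _ _ _ fun γ hγ => ?_
    obtain ⟨g, rfl⟩ := (mem_rng' f _).1 (res_mem f lam) γ hγ
    refine ⟨g * y * g⁻¹, ?_, ?_, fox_conj f g y hy⟩
    · exact Subgroup.normalClosure_normal.conj_mem _
        (Subgroup.subset_normalClosure (Set.mem_singleton y)) g
    · rw [map_mul, map_mul, hy, mul_one, map_inv, mul_inv_cancel]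
  obtain ⟨w, hw, hw1, hw'⟩ := h2
  have h3 : fox f (u * w⁻¹) = 0 :=
    fox_mul_inv_of_eq f (by rw [hu, hw1]) (by rw [h1, hw'])
  have h4 : u * w⁻¹ ∈ ⁅f.ker, f.ker⁆ :=
    mem_of_fox_eq_zero f (by rw [map_mul, map_inv, hu, hw1, inv_one, one_mul]) h3
  have h5 : u = (u * w⁻¹) * w := by rw [inv_mul_cancel_right]
  rw [h5]
  exact Subgroup.mul_mem _ (Subgroup.mem_sup_right h4) (Subgroup.mem_sup_left hw)

theorem fox_incl_eq (S : Set Y) (f : FreeGroup Y →* Γ) (u : FreeGroup S) :
    fox f (incl S u) = Finsupp.mapDomain Subtype.val (fox (f.comp (incl S)) u) := by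
  rw [fox_chain]
  refine Finsupp.sum_congr fun p _ => ?_
  rw [incl, FreeGroup.map.of, fox_of, Finsupp.smul_single, smul_eq_mul, mul_one]

theorem fox_incl (S : Set Y) (f : FreeGroup Y →* Γ) (u : FreeGroup S) (p : S) :
    fox f (incl S u) p.1 = fox (f.comp (incl S)) u p := by
  rw [fox_incl_eq, Finsupp.mapDomain_apply Subtype.val_injective]

theorem fox_incl_not_mem (S : Set Y) (f : FreeGroup Y →* Γ) (u : FreeGroup S) (y : Y)
    (hy : y ∉ S) : fox f (incl S u) y = 0 := by
  rw [fox_incl_eq]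
  refine Finsupp.mapDomain_of_notMem_range _ _ ?_
  rintro ⟨p, rfl⟩
  exact hy p.2

theorem nrm_fox_incl (S : Set Y) (f : FreeGroup Y →* Γ) (u : FreeGroup S) :
    nrm (fox f (incl S u)) = nrm (fox (f.comp (incl S)) u) ∧
    (fox f (incl S u)).support.card = (fox (f.comp (incl S)) u).support.card := by
  classical
  rw [fox_incl_eq]
  constructor
  · rw [nrm, nrm, Finsupp.sum_mapDomain_index_inj Subtype.val_injective]
  · rw [Finsupp.mapDomain_support_of_injective Subtype.val_injective,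
      Finset.card_image_of_injective _ Subtype.val_injective]

end P3

end Pool.Agent.ROR
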