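import Pool.Agent.ROR.FoxExt
import Pool.Agent.ROR.LIRing

/-!
# Fox calculus: norms and good words (project ROR, package P3b)
-/

set_option autoImplicit false

namespace Pool.Agent.ROR

open FreeGroup (of)
open Pool.Agent.RSMonic

attribute [-simp] MonoidAlgebra.of_apply

section Nrm

set_option linter.unusedSectionVars false

variable {X Γ : Type*} [Group Γ]

theorem fg_nrm1_eq_sum (a : MonoidAlgebra ℤ Γ) :
    nrm1 a = ∑ g ∈ a.coeff.support, (a.coeff g).natAbs := rfl

theorem fg_nrm1_zero : nrm1 (0 : MonoidAlgebra ℤ Γ) = 0 := by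
  rw [fg_nrm1_eq_sum, MonoidAlgebra.coeff_zero, Finsupp.support_zero, Finset.sum_empty]

theorem fg_nrm1_pos {a : MonoidAlgebra ℤ Γ} (ha : a ≠ 0) : 0 < nrm1 a := by
  rw [fg_nrm1_eq_sum]
  have h : a.coeff ≠ 0 := fun h => ha (MonoidAlgebra.coeff_injective (by rw [h]; rfl))
  obtain ⟨g, hg⟩ := Finsupp.support_nonempty_iff.2 h
  exact Finset.sum_pos' (fun _ _ => Nat.zero_le _)
    ⟨g, hg, Int.natAbs_pos.2 (Finsupp.mem_support_iff.1 hg)⟩

theorem fg_nrm1_eq_zero {a : MonoidAlgebra ℤ Γ} : nrm1 a = 0 ↔ a = 0 := by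
  constructor
  · intro h
    by_contra ha
    exact (fg_nrm1_pos ha).ne' h
  · rintro rfl
    exact fg_nrm1_zero

theorem fg_nrm1_single_mul (g : Γ) {ε : ℤ} (hε : IsUnit ε) (a : MonoidAlgebra ℤ Γ) :
    nrm1 (MonoidAlgebra.single g ε * a) = nrm1 a := by
  rw [fg_nrm1_eq_sum, fg_nrm1_eq_sum]
  have hn : ∀ z : ℤ, (ε * z).natAbs = z.natAbs := fun z => by
    rw [Int.natAbs_mul, Int.isUnit_iff_natAbs_eq.1 hε, one_mul]
  have h0 : ∀ z : ℤ, ε * z ≠ 0 ↔ z ≠ 0 := fun z => by
    rw [← Int.natAbs_ne_zero, hn, Int.natAbs_ne_zero]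
  refine Finset.sum_nbij' (fun h => g⁻¹ * h) (fun h => g * h) ?_ ?_ ?_ ?_ ?_
  · intro h hh
    rw [Finsupp.mem_support_iff, MonoidAlgebra.coeff_single_mul_apply, h0] at hh
    exact Finsupp.mem_support_iff.2 hh
  · intro h hh
    rw [Finsupp.mem_support_iff, MonoidAlgebra.coeff_single_mul_apply, h0, inv_mul_cancel_left]
    exact Finsupp.mem_support_iff.1 hh
  · intro h _
    exact mul_inv_cancel_left g h
  · intro h _
    exact inv_mul_cancel_left g h
  · intro h _
    rw [MonoidAlgebra.coeff_single_mul_apply, hn]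

theorem fg_nrm_eq_sum (d : X →₀ MonoidAlgebra ℤ Γ) : nrm d = ∑ x ∈ d.support, nrm1 (d x) := rfl

theorem nrm_unit_smul (g : Γ) (ε : ℤ) (hε : IsUnit ε) (d : X →₀ MonoidAlgebra ℤ Γ) :
    nrm (MonoidAlgebra.single g ε • d) = nrm d ∧
      (MonoidAlgebra.single g ε • d).support = d.support := by
  have hs : (MonoidAlgebra.single g ε • d).support = d.support := by
    ext x
    rw [Finsupp.mem_support_iff, Finsupp.mem_support_iff, Finsupp.smul_apply, smul_eq_mul,
      not_iff_not, ← fg_nrm1_eq_zero, fg_nrm1_single_mul g hε, fg_nrm1_eq_zero]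
  refine ⟨?_, hs⟩
  rw [fg_nrm_eq_sum, fg_nrm_eq_sum, hs]
  refine Finset.sum_congr rfl fun x _ => ?_
  rw [Finsupp.smul_apply, smul_eq_mul, fg_nrm1_single_mul g hε]

theorem nrm_of_smul (g : Γ) (d : X →₀ MonoidAlgebra ℤ Γ) :
    nrm (MonoidAlgebra.of ℤ Γ g • d) = nrm d ∧
      (MonoidAlgebra.of ℤ Γ g • d).support = d.support := by
  rw [MonoidAlgebra.of_apply]
  exact nrm_unit_smul g 1 isUnit_one d

theorem card_support_le_nrm (d : X →₀ MonoidAlgebra ℤ Γ) : d.support.card ≤ nrm d := by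
  rw [fg_nrm_eq_sum, Finset.card_eq_sum_ones]
  exact Finset.sum_le_sum fun x hx => fg_nrm1_pos (Finsupp.mem_support_iff.1 hx)

theorem fg_nrm1_eq_sum_of_subset (a : MonoidAlgebra ℤ Γ) (S : Finset Γ) (h : a.coeff.support ⊆ S) :
    nrm1 a = ∑ g ∈ S, (a.coeff g).natAbs := by
  rw [fg_nrm1_eq_sum]
  exact Finset.sum_subset h fun g _ hg => by rw [Finsupp.notMem_support_iff.1 hg]; rfl

theorem fg_nrm1_add_le (a b : MonoidAlgebra ℤ Γ) : nrm1 (a + b) ≤ nrm1 a + nrm1 b := by
  classical
  rw [fg_nrm1_eq_sum_of_subset (a + b) (a.coeff.support ∪ b.coeff.support)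
      (by rw [MonoidAlgebra.coeff_add]; exact Finsupp.support_add),
    fg_nrm1_eq_sum_of_subset a (a.coeff.support ∪ b.coeff.support) Finset.subset_union_left,
    fg_nrm1_eq_sum_of_subset b (a.coeff.support ∪ b.coeff.support) Finset.subset_union_right,
    ← Finset.sum_add_distrib]
  refine Finset.sum_le_sum fun g _ => ?_
  rw [MonoidAlgebra.coeff_add, Finsupp.add_apply]
  exact Int.natAbs_add_le _ _

theorem fg_nrm_eq_sum_of_subset (d : X →₀ MonoidAlgebra ℤ Γ) (S : Finset X) (h : d.support ⊆ S) :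
    nrm d = ∑ x ∈ S, nrm1 (d x) := by
  rw [fg_nrm_eq_sum]
  exact Finset.sum_subset h fun x _ hx => by rw [Finsupp.notMem_support_iff.1 hx, fg_nrm1_zero]

theorem fg_nrm_add_le (d e : X →₀ MonoidAlgebra ℤ Γ) : nrm (d + e) ≤ nrm d + nrm e := by
  classical
  rw [fg_nrm_eq_sum_of_subset (d + e) (d.support ∪ e.support) Finsupp.support_add,
    fg_nrm_eq_sum_of_subset d (d.support ∪ e.support) Finset.subset_union_left,
    fg_nrm_eq_sum_of_subset e (d.support ∪ e.support) Finset.subset_union_right,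
    ← Finset.sum_add_distrib]
  refine Finset.sum_le_sum fun x _ => ?_
  rw [Finsupp.add_apply]
  exact fg_nrm1_add_le _ _

theorem fg_sum_le_nrm (d : X →₀ MonoidAlgebra ℤ Γ) (P : Finset ((_ : X) × Γ)) :
    ∑ p ∈ P, ((d p.1).coeff p.2).natAbs ≤ nrm d := by
  have h : nrm d = ∑ p ∈ d.support.sigma fun x => (d x).coeff.support,
      ((d p.1).coeff p.2).natAbs := by
    rw [Finset.sum_sigma]
    rfl
  rw [h]
  refine Finset.sum_le_sum_of_ne_zero fun p _ hp => ?_
  have h1 : (d p.1).coeff p.2 ≠ 0 := fun h => hp (by rw [h]; rfl)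
  rw [Finset.mem_sigma]
  refine ⟨?_, Finsupp.mem_support_iff.2 h1⟩
  rw [Finsupp.mem_support_iff]
  intro h2
  rw [h2] at h1
  exact h1 rfl

theorem fg_fox_letter (f : FreeGroup X →* Γ) (x : X) (b : Bool) :
    fox f (FreeGroup.mk [(x, b)]) = Finsupp.single x
      (MonoidAlgebra.single (if b = true then 1 else (f (of x))⁻¹) (if b = true then 1 else -1)) := by
  cases b with
  | true =>
    have h : (FreeGroup.mk [(x, true)] : FreeGroup X) = of x := rfl
    rw [h, fox_of, if_pos rfl, if_pos rfl, MonoidAlgebra.one_def]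
  | false =>
    have h : (FreeGroup.mk [(x, false)] : FreeGroup X) = (of x)⁻¹ := rfl
    rw [h, fox_inv, fox_of, if_neg (by simp), if_neg (by simp), Finsupp.smul_single, smul_eq_mul,
      mul_one, MonoidAlgebra.of_apply, ← Finsupp.single_neg, ← MonoidAlgebra.single_neg]

theorem fg_map_letter (f : FreeGroup X →* Γ) (x : X) (b : Bool) :
    f (FreeGroup.mk [(x, b)]) = if b = true then f (of x) else (f (of x))⁻¹ := by
  cases b with
  | true => rfl
  | false =>
    have h : (FreeGroup.mk [(x, false)] : FreeGroup X) = (of x)⁻¹ := rfl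
    rw [h, map_inv, if_neg (by simp)]

theorem fg_nrm_letter_le (f : FreeGroup X →* Γ) (a : X × Bool) :
    nrm (fox f (FreeGroup.mk [a])) ≤ 1 := by
  classical
  obtain ⟨x, b⟩ := a
  rw [fg_fox_letter, fg_nrm_eq_sum_of_subset _ {x} Finsupp.support_single_subset, Finset.sum_singleton,
    Finsupp.single_eq_same]
  rw [fg_nrm1_eq_sum_of_subset _ {if b = true then (1 : Γ) else (f (of x))⁻¹}
    (by rw [MonoidAlgebra.coeff_single]; exact Finsupp.support_single_subset),
    Finset.sum_singleton, MonoidAlgebra.coeff_single, Finsupp.single_eq_same]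
  cases b <;> simp

theorem fg_mk_cons (a : X × Bool) (w : List (X × Bool)) :
    (FreeGroup.mk (a :: w) : FreeGroup X) = FreeGroup.mk [a] * FreeGroup.mk w := by
  rw [FreeGroup.mul_mk]
  rfl

theorem nrm_fox_le (f : FreeGroup X →* Γ) (w : List (X × Bool)) :
    nrm (fox f (FreeGroup.mk w)) ≤ w.length := by
  induction w with
  | nil =>
    have h : (FreeGroup.mk [] : FreeGroup X) = 1 := rfl
    rw [h, fox_one, fg_nrm_eq_sum, Finsupp.support_zero, Finset.sum_empty]
    exact Nat.zero_le _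
  | cons a w ih =>
    rw [fg_mk_cons, fox_mul, List.length_cons]
    refine (fg_nrm_add_le _ _).trans ?_
    rw [(nrm_of_smul _ _).1]
    have := fg_nrm_letter_le f a
    omega

/-- a nontrivial kernel has a nonzero Fox derivative of its generator -/
theorem Cyc.fox_ne_zero {f : FreeGroup X →* Γ} {y : FreeGroup X} (h : Cyc f y) (hk : f.ker ≠ ⊥) :
    fox f y ≠ 0 := by
  intro h0
  apply hk
  apply perfect_eq_bot
  have h1 : y ∈ ⁅f.ker, f.ker⁆ := mem_of_fox_eq_zero f h.1 h0
  have h2 : Subgroup.normalClosure {y} ≤ ⁅f.ker, f.ker⁆ :=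
    Subgroup.normalClosure_le_normal (Set.singleton_subset_iff.2 h1)
  exact h.2.trans (sup_le h2 le_rfl)

end Nrm

section Words

variable {X Γ : Type*} [Group Γ]

/-- the vertices of the path of `w` -/
def fg_vt (f : FreeGroup X →* Γ) (w : List (X × Bool)) (i : ℕ) : Γ := f (FreeGroup.mk (w.take i))

theorem fg_vt_zero (f : FreeGroup X →* Γ) (w : List (X × Bool)) : fg_vt f w 0 = 1 := by
  unfold fg_vt
  rw [List.take_zero]
  exact map_one f

theorem fg_verts_eq (f : FreeGroup X →* Γ) (γ : Γ) (w : List (X × Bool)) :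
    verts f γ w = (List.range w.length).map fun i => γ * fg_vt f w i := by
  induction w generalizing γ with
  | nil => rfl
  | cons a w ih =>
    rw [verts, ih, List.length_cons, List.range_succ_eq_map, List.map_cons, List.map_map, fg_vt_zero,
      mul_one]
    congr 1
    apply List.map_congr_left
    intro i _
    simp only [Function.comp_apply]
    unfold fg_vt
    rw [Nat.succ_eq_add_one, List.take_succ_cons, fg_mk_cons a (List.take i w), map_mul, mul_assoc]

theorem fg_vt_succ (f : FreeGroup X →* Γ) (w : List (X × Bool)) (i : ℕ) (h : i < w.length) :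
    fg_vt f w (i + 1) = fg_vt f w i * f (FreeGroup.mk [w[i]]) := by
  unfold fg_vt
  rw [← map_mul, FreeGroup.mul_mk, List.take_append_getElem h]

theorem fg_vt_inj {f : FreeGroup X →* Γ} {w : List (X × Bool)} (h : (verts f 1 w).Nodup) {i j : ℕ}
    (hi : i < w.length) (hj : j < w.length) (hij : fg_vt f w i = fg_vt f w j) : i = j := by
  rw [fg_verts_eq] at h
  have h1 := List.inj_on_of_nodup_map h (List.mem_range.2 hi) (List.mem_range.2 hj)
  apply h1
  simp only [one_mul]
  exact hij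

/-- the start of the edge number `i` -/
def fg_eg (f : FreeGroup X →* Γ) (w : List (X × Bool)) (i : ℕ) (h : i < w.length) : Γ :=
  if (w[i]).2 = true then fg_vt f w i else fg_vt f w (i + 1)

open Classical in
/-- the contribution of the edge number `i` -/
noncomputable def fg_el (f : FreeGroup X →* Γ) (w : List (X × Bool)) (i : ℕ) :
    X →₀ MonoidAlgebra ℤ Γ :=
  if h : i < w.length then Finsupp.single (w[i]).1
    (MonoidAlgebra.single (fg_eg f w i h) (if (w[i]).2 = true then 1 else -1)) else 0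

theorem fg_el_eq (f : FreeGroup X →* Γ) (w : List (X × Bool)) (i : ℕ) (h : i < w.length) :
    fg_el f w i = MonoidAlgebra.of ℤ Γ (fg_vt f w i) • fox f (FreeGroup.mk [w[i]]) := by
  unfold fg_el fg_eg
  rw [dif_pos h, fg_vt_succ f w i h]
  rcases hw : w[i] with ⟨x, b⟩
  rw [fg_fox_letter, fg_map_letter, Finsupp.smul_single, smul_eq_mul, MonoidAlgebra.of_apply,
    MonoidAlgebra.single_mul_single, one_mul]
  cases b <;> simp

theorem fg_fox_take (f : FreeGroup X →* Γ) (w : List (X × Bool)) (k : ℕ) (hk : k ≤ w.length) :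
    fox f (FreeGroup.mk (w.take k)) = ∑ i ∈ Finset.range k, fg_el f w i := by
  induction k with
  | zero =>
    rw [List.take_zero, Finset.range_zero, Finset.sum_empty]
    exact fox_one f
  | succ k ih =>
    have h : k < w.length := hk
    rw [Finset.sum_range_succ, ← ih h.le, fg_el_eq f w k h, ← List.take_append_getElem h,
      ← FreeGroup.mul_mk, fox_mul]
    rfl

theorem fg_fox_sum (f : FreeGroup X →* Γ) (w : List (X × Bool)) :
    fox f (FreeGroup.mk w) = ∑ i ∈ Finset.range w.length, fg_el f w i := by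
  rw [← fg_fox_take f w w.length le_rfl, List.take_length]

theorem fg_coeff_fox (f : FreeGroup X →* Γ) (w : List (X × Bool))
    (hinj : ∀ (i j : ℕ) (hi : i < w.length) (hj : j < w.length), (w[i]).1 = (w[j]).1 →
      fg_eg f w i hi = fg_eg f w j hj → i = j) (j : ℕ) (hj : j < w.length) :
    (fox f (FreeGroup.mk w) (w[j]).1).coeff (fg_eg f w j hj) = if (w[j]).2 = true then 1 else -1 := by
  classical
  rw [fg_fox_sum, Finsupp.finsetSum_apply]
  have h1 : (∑ i ∈ Finset.range w.length, fg_el f w i (w[j]).1).coeff =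
      ∑ i ∈ Finset.range w.length, (fg_el f w i (w[j]).1).coeff := by
    exact map_sum (MonoidAlgebra.coeffAddEquiv (R := ℤ) (M := Γ)).toAddMonoidHom _ _
  rw [h1, Finsupp.finsetSum_apply, Finset.sum_eq_single j]
  · unfold fg_el
    rw [dif_pos hj, Finsupp.single_eq_same, MonoidAlgebra.coeff_single, Finsupp.single_eq_same]
  · intro i hi hij
    rw [Finset.mem_range] at hi
    unfold fg_el
    rw [dif_pos hi, Finsupp.single_apply]
    split_ifs with h2
    · rw [MonoidAlgebra.coeff_single, Finsupp.single_apply, if_neg]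
      intro h3
      exact hij (hinj i j hi hj h2 h3)
    · rw [MonoidAlgebra.coeff_single, Finsupp.single_apply, if_neg]
      intro h3
      exact hij (hinj i j hi hj h2 h3)
    · rfl
  · intro h2
    exact absurd (Finset.mem_range.2 hj) h2

theorem Good.map_eq_one {f : FreeGroup X →* Γ} {w : List (X × Bool)} (h : Good f w) :
    f (FreeGroup.mk w) = 1 := by
  have h1 : FreeGroup.mk w ∈ f.ker := by
    rw [h.2.2]
    exact Subgroup.subset_normalClosure rfl
  exact h1

theorem Good.fg_vt_length {f : FreeGroup X →* Γ} {w : List (X × Bool)} (h : Good f w) :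
    fg_vt f w w.length = 1 := by
  unfold fg_vt
  rw [List.take_length]
  exact h.map_eq_one

theorem Good.fg_mk_ne_one {f : FreeGroup X →* Γ} {w : List (X × Bool)} (h : Good f w)
    (hk : f.ker ≠ ⊥) : (FreeGroup.mk w : FreeGroup X) ≠ 1 := by
  intro h1
  apply hk
  rw [h.2.2, h1]
  rw [eq_bot_iff]
  exact Subgroup.normalClosure_le_normal (by simp)

theorem Good.fg_vt_eq {f : FreeGroup X →* Γ} {w : List (X × Bool)} (h : Good f w) {i j : ℕ}
    (hi : i ≤ w.length) (hj : j ≤ w.length) (hij : fg_vt f w i = fg_vt f w j) :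
    i = j ∨ (i = 0 ∧ j = w.length) ∨ (i = w.length ∧ j = 0) := by
  have h0 : 0 < w.length := List.length_pos_iff.2 h.1
  rcases hi.lt_or_eq with hi | hi
  · rcases hj.lt_or_eq with hj | hj
    · exact Or.inl (fg_vt_inj h.2.1 hi hj hij)
    · right
      left
      rw [hj, h.fg_vt_length, ← fg_vt_zero f w] at hij
      exact ⟨fg_vt_inj h.2.1 hi h0 hij, hj⟩
  · rcases hj.lt_or_eq with hj | hj
    · right
      right
      rw [hi, h.fg_vt_length, ← fg_vt_zero f w] at hij
      exact ⟨hi, (fg_vt_inj h.2.1 h0 hj hij).symm⟩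
    · left
      rw [hi, hj]

theorem fg_vt_succ_true {f : FreeGroup X →* Γ} {w : List (X × Bool)} {i : ℕ} (h : i < w.length)
    (hb : (w[i]).2 = true) : fg_vt f w (i + 1) = fg_vt f w i * f (of (w[i]).1) := by
  have h1 : f (FreeGroup.mk [w[i]]) = f (of (w[i]).1) := by
    rw [← Prod.eta w[i], fg_map_letter, if_pos hb]
  rw [fg_vt_succ f w i h, h1]

theorem fg_vt_succ_false {f : FreeGroup X →* Γ} {w : List (X × Bool)} {i : ℕ} (h : i < w.length)
    (hb : (w[i]).2 = false) : fg_vt f w (i + 1) = fg_vt f w i * (f (of (w[i]).1))⁻¹ := by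
  have h1 : f (FreeGroup.mk [w[i]]) = (f (of (w[i]).1))⁻¹ := by
    rw [← Prod.eta w[i], fg_map_letter, if_neg (by simp [hb])]
  rw [fg_vt_succ f w i h, h1]

theorem fg_eg_true {f : FreeGroup X →* Γ} {w : List (X × Bool)} {i : ℕ} (h : i < w.length)
    (hb : (w[i]).2 = true) : fg_eg f w i h = fg_vt f w i := if_pos hb

theorem fg_eg_false {f : FreeGroup X →* Γ} {w : List (X × Bool)} {i : ℕ} (h : i < w.length)
    (hb : (w[i]).2 = false) : fg_eg f w i h = fg_vt f w (i + 1) := if_neg (by simp [hb])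

theorem Good.fg_not_opp {f : FreeGroup X →* Γ} {w : List (X × Bool)} (h : Good f w)
    (hk : f.ker ≠ ⊥) {i j : ℕ} (hi : i < w.length) (hj : j < w.length)
    (hx : (w[i]).1 = (w[j]).1) (hbi : (w[i]).2 = true) (hbj : (w[j]).2 = false) :
    fg_eg f w i hi ≠ fg_eg f w j hj := by
  intro he
  rw [fg_eg_true hi hbi, fg_eg_false hj hbj] at he
  have h1 := fg_vt_succ_true (f := f) hi hbi
  have h2 := fg_vt_succ_false (f := f) hj hbj
  have h3 : fg_vt f w (i + 1) = fg_vt f w j := by
    rw [h1, he, h2, hx, inv_mul_cancel_right]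
  have h4 := h.fg_vt_eq hi.le hj he
  have h5 := h.fg_vt_eq hi hj.le h3
  have hne : i ≠ j := by
    rintro rfl
    rw [hbi] at hbj
    simp at hbj
  have h6 : w.length = 2 ∧ i + j = 1 := by omega
  obtain ⟨a, b, rfl⟩ := List.length_eq_two.1 h6.1
  apply h.fg_mk_ne_one hk
  have h7 : (i = 0 ∧ j = 1) ∨ (i = 1 ∧ j = 0) := by omega
  have h8 : (FreeGroup.mk [a, b] : FreeGroup X) = FreeGroup.mk [a] * FreeGroup.mk [b] := rfl
  obtain ⟨a1, a2⟩ := a
  obtain ⟨b1, b2⟩ := b
  rcases h7 with ⟨rfl, rfl⟩ | ⟨rfl, rfl⟩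
  · simp only [List.getElem_cons_zero, List.getElem_cons_succ] at hx hbi hbj
    subst hx hbi hbj
    rw [h8]
    exact mul_inv_cancel (of _)
  · simp only [List.getElem_cons_zero, List.getElem_cons_succ] at hx hbi hbj
    subst hx hbi hbj
    rw [h8]
    exact inv_mul_cancel (of _)

theorem Good.fg_inj {f : FreeGroup X →* Γ} {w : List (X × Bool)} (h : Good f w)
    (hk : f.ker ≠ ⊥) (i j : ℕ) (hi : i < w.length) (hj : j < w.length)
    (hx : (w[i]).1 = (w[j]).1) (he : fg_eg f w i hi = fg_eg f w j hj) : i = j := by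
  rcases hbi : (w[i]).2 with _ | _
  · rcases hbj : (w[j]).2 with _ | _
    · rw [fg_eg_false hi hbi, fg_eg_false hj hbj, fg_vt_succ_false hi hbi, fg_vt_succ_false hj hbj, hx] at he
      exact fg_vt_inj h.2.1 hi hj (mul_right_cancel he)
    · exact absurd he.symm (h.fg_not_opp hk hj hi hx.symm hbj hbi)
  · rcases hbj : (w[j]).2 with _ | _
    · exact absurd he (h.fg_not_opp hk hi hj hx hbi hbj)
    · rw [fg_eg_true hi hbi, fg_eg_true hj hbj] at he
      exact fg_vt_inj h.2.1 hi hj he

theorem Good.nrm_eq {f : FreeGroup X →* Γ} {w : List (X × Bool)} (h : Good f w)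
    (hk : f.ker ≠ ⊥) : nrm (fox f (FreeGroup.mk w)) = w.length := by
  classical
  apply le_antisymm (nrm_fox_le f w)
  let q : Fin w.length → ((_ : X) × Γ) := fun i => ⟨(w[(i : ℕ)]).1, fg_eg f w i i.2⟩
  have hq : Function.Injective q := by
    intro i j hij
    have h1 : (w[(i : ℕ)]).1 = (w[(j : ℕ)]).1 := congrArg Sigma.fst hij
    have h2 : fg_eg f w i i.2 = fg_eg f w j j.2 := congrArg Sigma.snd hij
    exact Fin.ext (h.fg_inj hk i j i.2 j.2 h1 h2)
  have h3 := fg_sum_le_nrm (fox f (FreeGroup.mk w)) (Finset.univ.image q)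
  rw [Finset.sum_image (fun i _ j _ hij => hq hij)] at h3
  refine le_trans (le_of_eq ?_) h3
  have h4 : ∀ i : Fin w.length,
      ((fox f (FreeGroup.mk w) (q i).1).coeff (q i).2).natAbs = 1 := by
    intro i
    have h5 := fg_coeff_fox f w (h.fg_inj hk) i i.2
    show ((fox f (FreeGroup.mk w) (w[(i : ℕ)]).1).coeff (fg_eg f w i i.2)).natAbs = 1
    rw [h5]
    split_ifs <;> rfl
  rw [Finset.sum_congr rfl fun i _ => h4 i, Finset.sum_const, Finset.card_univ, Fintype.card_fin,
    smul_eq_mul, mul_one]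

theorem Good.letter {f : FreeGroup X →* Γ} {w : List (X × Bool)} (h : Good f w)
    (hk : f.ker ≠ ⊥) {x : X} {b : Bool} (hx : (x, b) ∈ w) : fox f (FreeGroup.mk w) x ≠ 0 := by
  obtain ⟨i, hi, hw⟩ := List.mem_iff_getElem.1 hx
  have h1 := fg_coeff_fox f w (h.fg_inj hk) i hi
  rw [hw] at h1
  simp only at h1
  intro h0
  rw [h0, MonoidAlgebra.coeff_zero, Finsupp.zero_apply] at h1
  cases b <;> simp at h1

theorem Good.reduced {f : FreeGroup X →* Γ} {w : List (X × Bool)} (h : Good f w)
    (hk : f.ker ≠ ⊥) : FreeGroup.IsCyclicallyReduced w := by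
  refine ⟨?_, ?_⟩
  · unfold FreeGroup.IsReduced
    rw [List.isChain_iff_getElem]
    intro i hi hx
    by_contra hb
    have hi' : i < w.length := by omega
    have he : fg_eg f w i hi' = fg_eg f w (i + 1) hi := by
      rcases hbi : (w[i]).2 with _ | _
      · rcases hbj : (w[i + 1]).2 with _ | _
        · exact absurd (hbi.trans hbj.symm) hb
        · rw [fg_eg_false hi' hbi, fg_eg_true hi hbj]
      · rcases hbj : (w[i + 1]).2 with _ | _
        · rw [fg_eg_true hi' hbi, fg_eg_false hi hbj, fg_vt_succ_false hi hbj, fg_vt_succ_true hi' hbi, hx,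
            mul_inv_cancel_right]
        · exact absurd (hbi.trans hbj.symm) hb
    have := h.fg_inj hk i (i + 1) hi' hi hx he
    omega
  · intro a ha b hb hx
    by_contra hne
    have h0 : 0 < w.length := List.length_pos_iff.2 h.1
    have hl : w.length - 1 < w.length := by omega
    have ha' : w[w.length - 1] = a := by
      rw [List.getLast?_eq_getElem?, List.getElem?_eq_getElem hl] at ha
      simpa using ha
    have hb' : w[0] = b := by
      rw [List.head?_eq_getElem?, List.getElem?_eq_getElem h0] at hb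
      simpa using hb
    subst ha' hb'
    have hs : w.length - 1 + 1 = w.length := by omega
    have he : fg_eg f w (w.length - 1) hl = fg_eg f w 0 h0 := by
      rcases hbi : (w[w.length - 1]).2 with _ | _
      · rcases hbj : (w[0]).2 with _ | _
        · exact absurd (hbi.trans hbj.symm) hne
        · rw [fg_eg_false hl hbi, fg_eg_true h0 hbj, hs, h.fg_vt_length, fg_vt_zero]
      · rcases hbj : (w[0]).2 with _ | _
        · rw [fg_eg_true hl hbi, fg_eg_false h0 hbj, fg_vt_succ_false h0 hbj, fg_vt_zero, one_mul]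
          have h1 := fg_vt_succ_true (f := f) hl hbi
          rw [hs, h.fg_vt_length, hx] at h1
          exact eq_inv_of_mul_eq_one_left h1.symm
        · exact absurd (hbi.trans hbj.symm) hne
    have h2 := h.fg_inj hk _ _ hl h0 hx he
    apply hne
    simp only [h2]

theorem Good.fg_cyc {f : FreeGroup X →* Γ} {w : List (X × Bool)} (h : Good f w) :
    Cyc f (FreeGroup.mk w) :=
  ⟨h.map_eq_one, by rw [← h.2.2]; exact le_sup_left⟩

theorem Good.fox_unit (hΓ : LI Γ) {f : FreeGroup X →* Γ} {w : List (X × Bool)} (h : Good f w)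
    {y : FreeGroup X} (hy : Cyc f y) (hk : f.ker ≠ ⊥) :
    ∃ (g : Γ) (ε : ℤ), IsUnit ε ∧
      fox f (FreeGroup.mk w) = MonoidAlgebra.single g ε • fox f y := by
  obtain ⟨u, hu⟩ := hy.fox_eq h.map_eq_one
  obtain ⟨v, hv⟩ := h.fg_cyc.fox_eq hy.1
  have hz := hΓ.noZeroDivisors ℤ
  have h0 : fox f (FreeGroup.mk w) ≠ 0 := h.fg_cyc.fox_ne_zero hk
  obtain ⟨x, hx⟩ := Finsupp.ne_iff.1 h0
  rw [Finsupp.zero_apply] at hx
  have h1 : (u * v - 1) * fox f (FreeGroup.mk w) x = 0 := by
    have h2 : fox f (FreeGroup.mk w) = (u * v) • fox f (FreeGroup.mk w) := by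
      rw [mul_smul, ← hv, ← hu]
    have h3 : fox f (FreeGroup.mk w) x = (u * v) * fox f (FreeGroup.mk w) x := by
      conv_lhs => rw [h2]
      rw [Finsupp.smul_apply, smul_eq_mul]
    rw [sub_mul, one_mul, ← h3, sub_self]
  have h2 : u * v = 1 := by
    rcases mul_eq_zero.1 h1 with h3 | h3
    · exact sub_eq_zero.1 h3
    · exact absurd h3 hx
  rw [MonoidAlgebra.one_def] at h2
  obtain ⟨g', ε', hε', hu'⟩ := hΓ.unit isUnit_one h2
  exact ⟨g', ε', hε', by rw [hu, hu']⟩

end Words

end Pool.Agent.ROR
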