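import Pool.Agent.ROR.Defs
import Mathlib.GroupTheory.FreeGroup.CyclicallyReduced

/-!
# Quantitative word problem for one-relator groups: definitions (project ROR, MP_08b746_al)
-/

set_option autoImplicit false

namespace Pool.Agent.ROR

open FreeGroup (of)

section Area

variable {X : Type*}

/-- length of the reduced word -/
noncomputable def len (u : FreeGroup X) : ℕ := by
  classical exact u.toWord.length

/-- the subgroup generated by a set of letters -/
def Let (S : Set X) : Subgroup (FreeGroup X) := Subgroup.closure (of '' S)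

/-- `∏ g r^{±1} g⁻¹` -/
def cprod (r : FreeGroup X) (l : List (FreeGroup X × Bool)) : FreeGroup X :=
  (l.map fun p => p.1 * (if p.2 then r else r⁻¹) * p.1⁻¹).prod

/-- `u` is a product of at most `N` conjugates of `r^{±1}` with conjugators of length `≤ N` in the
letters `S`. -/
def AreaIn (S : Set X) (r : FreeGroup X) (N : ℕ) (u : FreeGroup X) : Prop :=
  ∃ l : List (FreeGroup X × Bool), l.length ≤ N ∧ (∀ p ∈ l, len p.1 ≤ N ∧ p.1 ∈ Let S) ∧
    cprod r l = u

/-- no condition on the letters -/
def AreaLe (r : FreeGroup X) (N : ℕ) (u : FreeGroup X) : Prop := AreaIn Set.univ r N u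

/-- `X ∖ x` generates a free subgroup of `F(X)/⟨⟨r⟩⟩` (Freiheitssatz), and membership in it can be
decided with the bound `B`. -/
def Mag (B : ℕ → ℕ) (r : FreeGroup X) (x : X) : Prop :=
  (∀ v ∈ Let ({x}ᶜ : Set X), v ∈ Subgroup.normalClosure {r} → v = 1) ∧
  ∀ (n : ℕ) (u v : FreeGroup X), len u ≤ n → v ∈ Let ({x}ᶜ : Set X) →
    u * v⁻¹ ∈ Subgroup.normalClosure {r} → len v ≤ B n ∧ AreaLe r (B n) (u * v⁻¹)

/-- `r` is no proper power -/
def NPw (r : FreeGroup X) : Prop := ∀ (g : FreeGroup X) (k : ℕ), g ^ k = r → k = 1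

end Area

section Bounds

/-- one step of the bound -/
def phiB (B : ℕ → ℕ) (q : ℕ) : ℕ := (q + B q + 2) ^ 4

/-- the bound after one step of the Magnus hierarchy -/
def Bst (Λ : ℕ) (B : ℕ → ℕ) (n : ℕ) : ℕ := (phiB B)^[(n + Λ + 2) ^ 8 + 3] ((n + Λ + 2) ^ 8)

/-- bound for the levels -/
def LL (L : ℕ) : ℕ := 2 * (L + 2) ^ 2

/-- the bounds -/
def Bf (L : ℕ) : ℕ → ℕ → ℕ
  | 0 => fun n => (n + L + 2) ^ 2
  | m + 1 => fun n => Bst (LL L) (Bf L m) n + LL L

end Bounds

section LevelWord

variable {X : Type*} (c : X → ℤ)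

/-- the level word of a word which begins at height `h` -/
def lw : ℤ → List (Option X × Bool) → List ((X × ℤ) × Bool)
  | _, [] => []
  | h, (none, true) :: w => lw (h + 1) w
  | h, (none, false) :: w => lw (h - 1) w
  | h, (some x, true) :: w => ((x, h), true) :: lw (h + c x) w
  | h, (some x, false) :: w => ((x, h - c x), false) :: lw (h - c x) w

/-- number of different letters -/
noncomputable def nlet {Y : Type*} (w : List (Y × Bool)) : ℕ := by
  classical exact (w.map Prod.fst).toFinset.card

end LevelWord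

/-- the height with `t ↦ expo a y`, `a ↦ - expo t y`, other letters `↦ 0` -/
noncomputable def htw {X : Type*} (y : FreeGroup X) (t a : X) (x : X) : ℤ := by
  classical exact if x = t then Multiplicative.toAdd (expo a y)
    else if x = a then - Multiplicative.toAdd (expo t y) else 0

end Pool.Agent.ROR
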