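import Pool.Agent.ROR.Tower
import Pool.Agent.ROR.Transfer

/-!
# Monic relators are not proper powers modulo `[E, E]` (project ROR, final assembly)
-/

set_option autoImplicit false

namespace Pool.Agent.ROR

open FreeGroup (of)
open Pool.Agent.RSMonic

attribute [-simp] MonoidAlgebra.of_apply

/-- the conjugate `t^{-l} x_j t^l`, `t = x_0`. -/
def mlev (j l : ℕ) : FreeGroup ℕ := (FreeGroup.of 0)⁻¹ ^ l * FreeGroup.of j * FreeGroup.of 0 ^ l

/-- `r = (t^{-K} a t^K) v⁻¹` for some `K` and some product `v` of elements `(t^{-l} x_j t^l)^{±1}` with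
`1 ≤ j < n`, `l ≥ 0`, and `l < K` if `j = 1`. -/
def MonicForm (n : ℕ) (r : FreeGroup ℕ) : Prop :=
  ∃ K : ℕ, ∃ v ∈ Subgroup.closure {x : FreeGroup ℕ | ∃ j l : ℕ, 1 ≤ j ∧ j < n ∧ (j = 1 → l < K) ∧
    x = mlev j l}, r = mlev 1 K * v⁻¹

/-- `r` or `r⁻¹` becomes of monic form under an automorphism (fixing the generators `x_i`, `i ≥ n`). -/
def Monic (n : ℕ) (r : FreeGroup ℕ) : Prop :=
  2 ≤ n ∧ ∃ α : FreeGroup ℕ ≃* FreeGroup ℕ, (∀ i, n ≤ i → α (FreeGroup.of i) = FreeGroup.of i) ∧
    (MonicForm n (α r) ∨ MonicForm n (α r)⁻¹)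

theorem of_one_int : MonoidAlgebra.of ℤ (Multiplicative ℤ) 1 = 1 := map_one _

/-- the exponent of `t = x_0` -/
def tau0 : FreeGroup ℕ →* Multiplicative ℤ :=
  FreeGroup.lift fun i => if i = 0 then Multiplicative.ofAdd 1 else 1

theorem tau0_zero : tau0 (of 0) = Multiplicative.ofAdd 1 := by
  rw [tau0, FreeGroup.lift_apply_of, if_pos rfl]

theorem tau0_ne {i : ℕ} (hi : i ≠ 0) : tau0 (of i) = 1 := by
  rw [tau0, FreeGroup.lift_apply_of, if_neg hi]

theorem tau0_lev {j l : ℕ} (hj : j ≠ 0) : tau0 (mlev j l) = 1 := by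
  rw [mlev, map_mul, map_mul, map_pow, map_pow, map_inv, tau0_ne hj, mul_one, inv_pow,
    inv_mul_cancel]

theorem fox_pow_one (l : ℕ) : fox tau0 (of 0 ^ l) 1 = 0 := by
  induction l with
  | zero => rw [pow_zero, fox_one, Finsupp.zero_apply]
  | succ l ih =>
    rw [pow_succ, fox_mul, Finsupp.add_apply, ih, zero_add, Finsupp.smul_apply, fox_of,
      Finsupp.single_eq_of_ne (by decide), smul_zero]

theorem fox_lev (j l : ℕ) (hj : j ≠ 0) : fox tau0 (mlev j l) 1 =
    if j = 1 then MonoidAlgebra.of ℤ _ (Multiplicative.ofAdd (-(l : ℤ))) else 0 := by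
  have h1 : fox tau0 ((of 0)⁻¹ ^ l) 1 = 0 := by
    rw [inv_pow, fox_inv, Finsupp.neg_apply, Finsupp.smul_apply, fox_pow_one, smul_zero, neg_zero]
  have h2 : tau0 ((of 0)⁻¹ ^ l) = Multiplicative.ofAdd (-(l : ℤ)) := by
    rw [map_pow, map_inv, tau0_zero]
    apply Multiplicative.toAdd.injective
    simp
  rw [mlev, fox_mul, fox_mul, Finsupp.add_apply, Finsupp.add_apply, h1, zero_add,
    Finsupp.smul_apply, Finsupp.smul_apply, fox_pow_one, smul_zero, add_zero, h2, fox_of,
    Finsupp.single_apply]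
  split_ifs
  · rw [smul_eq_mul, mul_one]
  · rw [smul_zero]

/-- the coefficient of the monic letter -/
theorem fox_monicForm (n : ℕ) (r : FreeGroup ℕ) (h : MonicForm n r) :
    tau0 r = 1 ∧ ∃ γ, (fox tau0 r 1).coeff γ = 1 := by
  obtain ⟨K, v, hv, rfl⟩ := h
  have h1 : tau0 v = 1 ∧ (fox tau0 v 1).coeff (Multiplicative.ofAdd (-(K : ℤ))) = 0 := by
    induction hv using Subgroup.closure_induction with
    | mem x hx =>
      obtain ⟨j, l, h1, h2, h3, rfl⟩ := hx
      refine ⟨tau0_lev (by omega), ?_⟩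
      rw [fox_lev j l (by omega)]
      split_ifs with hj
      · rw [MonoidAlgebra.of_apply, MonoidAlgebra.coeff_single, Finsupp.single_eq_of_ne]
        intro h
        have h4 := Multiplicative.ofAdd.injective h
        have := h3 hj
        omega
      · simp
    | one =>
      refine ⟨map_one _, ?_⟩
      rw [fox_one]
      simp
    | mul x y _ _ hx hy =>
      refine ⟨by rw [map_mul, hx.1, hy.1, mul_one], ?_⟩
      rw [fox_mul, hx.1, of_one_int, one_smul, Finsupp.add_apply, MonoidAlgebra.coeff_add,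
        Finsupp.add_apply, hx.2, hy.2, add_zero]
    | inv x _ hx =>
      refine ⟨by rw [map_inv, hx.1, inv_one], ?_⟩
      rw [fox_inv, hx.1, inv_one, of_one_int, one_smul, Finsupp.neg_apply, MonoidAlgebra.coeff_neg,
        Finsupp.neg_apply, hx.2, neg_zero]
  refine ⟨?_, Multiplicative.ofAdd (-(K : ℤ)), ?_⟩
  · rw [map_mul, map_inv, h1.1, tau0_lev one_ne_zero, inv_one, mul_one]
  · rw [fox_mul, fox_inv, h1.1, tau0_lev one_ne_zero, inv_one, of_one_int, one_smul, one_smul,
      Finsupp.add_apply, Finsupp.neg_apply, MonoidAlgebra.coeff_add, MonoidAlgebra.coeff_neg,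
      Finsupp.add_apply, Finsupp.neg_apply, h1.2, neg_zero, add_zero, fox_lev 1 K one_ne_zero,
      if_pos rfl, MonoidAlgebra.of_apply, MonoidAlgebra.coeff_single, Finsupp.single_eq_same]

/-- monic relators are not proper powers modulo `[E, E]` -/
theorem monic_not_pow (n : ℕ) (w : List (ℕ × Bool)) (h : Monic n (FreeGroup.mk w))
    (y : FreeGroup (Fin n)) (hy : y ∈ rres (Subgroup.normalClosure {relator n w})) (k : ℕ)
    (hk : 2 ≤ k) :
    relator n w * (y ^ k)⁻¹ ∉ ⁅rres (Subgroup.normalClosure {relator n w}),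
      rres (Subgroup.normalClosure {relator n w})⁆ := by
  intro hyk
  obtain ⟨hn, α, hα, hm⟩ := h
  let β : FreeGroup (Fin n) →* FreeGroup ℕ := α.toMonoidHom.comp (inc n)
  -- `β (relator n w)` and `α (mk w)` have the same image
  have hT : ∀ u, tau0 (β (rho n u)) = tau0 (α u) := by
    intro u
    have h1 : (tau0.comp (β.comp (rho n))) = tau0.comp α.toMonoidHom := by
      refine FreeGroup.ext_hom _ _ fun i => ?_
      show tau0 (α (inc n (rho n (of i)))) = tau0 (α (of i))
      by_cases hi : i < n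
      · rw [rho, FreeGroup.lift_apply_of, dif_pos hi, inc, FreeGroup.map.of]
      · rw [rho, FreeGroup.lift_apply_of, dif_neg hi, map_one, map_one, map_one,
          hα i (not_lt.1 hi), tau0_ne (by omega)]
    exact DFunLike.congr_fun h1 u
  have hD : ∀ u, fox tau0 (β (rho n u)) 1 = fox tau0 (α u) 1 := by
    intro u
    refine crossed_ext (M := MonoidAlgebra ℤ (Multiplicative ℤ)) (tau0.comp α.toMonoidHom)
      (fun u => fox tau0 (β (rho n u)) 1) (fun u => fox tau0 (α u) 1) ?_ ?_ ?_ u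
    · intro a b
      show fox tau0 (β (rho n (a * b))) 1 = fox tau0 (β (rho n a)) 1 +
        MonoidAlgebra.of ℤ _ (tau0 (α a)) • fox tau0 (β (rho n b)) 1
      rw [map_mul, map_mul, fox_mul, Finsupp.add_apply, Finsupp.smul_apply, hT]
    · intro a b
      show fox tau0 (α (a * b)) 1 = fox tau0 (α a) 1 +
        MonoidAlgebra.of ℤ _ (tau0 (α a)) • fox tau0 (α b) 1
      rw [map_mul, fox_mul, Finsupp.add_apply, Finsupp.smul_apply]
    · intro i
      show fox tau0 (α (inc n (rho n (of i)))) 1 = fox tau0 (α (of i)) 1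
      by_cases hi : i < n
      · rw [rho, FreeGroup.lift_apply_of, dif_pos hi, inc, FreeGroup.map.of]
      · rw [rho, FreeGroup.lift_apply_of, dif_neg hi, map_one (inc n), map_one α, fox_one,
          hα i (not_lt.1 hi), fox_of, Finsupp.single_eq_of_ne (by omega), Finsupp.zero_apply]
  have h0 : tau0 (β (relator n w)) = 1 ∧ ∃ γ, (fox tau0 (β (relator n w)) 1).coeff γ = 1 ∨
      (fox tau0 (β (relator n w)) 1).coeff γ = -1 := by
    rw [relator_eq, hT, hD]
    rcases hm with hm | hm
    · obtain ⟨h1, γ, h2⟩ := fox_monicForm n _ hm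
      exact ⟨h1, γ, Or.inl h2⟩
    · obtain ⟨h1, γ, h2⟩ := fox_monicForm n _ hm
      have h1' : tau0 (α (FreeGroup.mk w)) = 1 := by
        rw [← inv_inv (α (FreeGroup.mk w)), map_inv, h1, inv_one]
      refine ⟨h1', γ, Or.inr ?_⟩
      rw [fox_inv, h1', inv_one, of_one_int, one_smul, Finsupp.neg_apply, MonoidAlgebra.coeff_neg,
        Finsupp.neg_apply] at h2
      rw [← h2, neg_neg]
  obtain ⟨hr1, γ, hγ⟩ := h0
  set E := rres (Subgroup.normalClosure {relator n w}) with hE
  -- `E` lies in the kernel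
  have hEker : E ≤ (tau0.comp β).ker := by
    intro x hx
    have h1 := (mem_rser_succ _ 0 x).1 ((mem_rres _ x).1 hx 1)
    obtain ⟨-, e, he, hxe⟩ := h1
    have h2 : ⁅rser (Subgroup.normalClosure {relator n w}) 0,
        rser (Subgroup.normalClosure {relator n w}) 0⁆ ⊔ Subgroup.normalClosure {relator n w} ≤
          (tau0.comp β).ker := by
      refine sup_le ?_ ?_
      · exact (Subgroup.commutator_mono le_top le_top).trans
          (Abelianization.commutator_subset_ker _)
      · refine Subgroup.normalClosure_le_normal ?_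
        rintro _ rfl
        exact hr1
    have h3 : (tau0.comp β) (x ^ e) = 1 := h2 hxe
    rw [map_pow] at h3
    show (tau0.comp β) x = 1
    have h4 := congrArg Multiplicative.toAdd h3
    rw [toAdd_pow, toAdd_one, smul_eq_zero] at h4
    rcases h4 with h4 | h4
    · omega
    · exact Multiplicative.toAdd.injective (by rw [h4, toAdd_one])
  have hz : fox tau0 (β (relator n w * (y ^ k)⁻¹)) = 0 := by
    refine fox_eq_zero_of_mem tau0 ?_
    have h1 : (⁅E, E⁆).map β ≤ ⁅tau0.ker, tau0.ker⁆ := by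
      rw [Subgroup.map_commutator]
      have h2 : E.map β ≤ tau0.ker := by
        rintro _ ⟨x, hx, rfl⟩
        exact hEker hx
      exact Subgroup.commutator_mono h2 h2
    exact h1 ⟨_, hyk, rfl⟩
  have hy1 : tau0 (β y) = 1 := hEker hy
  rw [map_mul, map_inv, map_pow, fox_mul, fox_inv, hr1, map_pow, hy1, one_pow, inv_one, of_one_int,
    one_smul, one_smul, fox_pow_of_eq_one tau0 hy1] at hz
  have h5 := congrArg (fun t => (t 1).coeff γ) hz
  simp only [Finsupp.add_apply, Finsupp.neg_apply, Finsupp.smul_apply, Finsupp.zero_apply,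
    MonoidAlgebra.coeff_add, MonoidAlgebra.coeff_neg, coeff_nsmul_apply, MonoidAlgebra.coeff_zero]
    at h5
  have h6 : (k : ℤ) ∣ (fox tau0 (β (relator n w)) 1).coeff γ := ⟨(fox tau0 (β y) 1).coeff γ, by
    linarith⟩
  have h7 : (k : ℤ) ∣ 1 := by
    rcases hγ with h | h
    · rwa [h] at h6
    · rw [h] at h6
      exact (Int.dvd_neg).1 h6
  have := Int.le_of_dvd one_pos h7
  omega

end Pool.Agent.ROR
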