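import Pool.Agent.ROR.Defs

/-!
# The shift embedding `iota` (project ROR, package P4)
-/

set_option autoImplicit false

namespace Pool.Agent.ROR

open FreeGroup (of)
open Pool.Agent.RSMonic

attribute [-simp] MonoidAlgebra.of_apply

section P4
variable {X Γ : Type*} [Group Γ] (c : X → ℤ)

theorem iota_of (p : X × ℤ) :
    iota c (of p) = st X ^ p.2 * of (some p.1) * st X ^ (-p.2 - c p.1) := by
  simp [iota]

theorem sh_of (n : ℤ) (p : X × ℤ) : sh X n (of p) = of (p.1, p.2 + n) := by
  simp [sh]

theorem tau_st : tau c (st X) = Multiplicative.ofAdd 1 := by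
  simp [tau]

theorem tau_some (x : X) : tau c (of (some x)) = Multiplicative.ofAdd (c x) := by
  simp [tau]

theorem toAdd_tau_st_zpow (n : ℤ) : Multiplicative.toAdd (tau c (st X ^ n)) = n := by
  rw [map_zpow, tau_st, toAdd_zpow, toAdd_ofAdd]
  simp

theorem iota_sh (n : ℤ) (u : FreeGroup (X × ℤ)) :
    iota c (sh X n u) = st X ^ n * iota c u * st X ^ (-n) := by
  have h : (iota c).comp (sh X n) = (MulAut.conj (st X ^ n)).toMonoidHom.comp (iota c) := by
    ext p
    simp only [MonoidHom.comp_apply, sh_of, iota_of, MulEquiv.toMonoidHom_eq_coe,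
      MonoidHom.coe_coe, MulAut.conj_apply]
    group
  have h1 := DFunLike.congr_fun h u
  simp only [MonoidHom.comp_apply, MulEquiv.toMonoidHom_eq_coe, MonoidHom.coe_coe,
    MulAut.conj_apply] at h1
  rw [h1, zpow_neg]

theorem tau_iota (u : FreeGroup (X × ℤ)) : tau c (iota c u) = 1 := by
  have h : (tau c).comp (iota c) = 1 := by
    ext p
    simp only [MonoidHom.comp_apply, iota_of, map_mul, map_zpow, tau_st, tau_some,
      MonoidHom.one_apply]
    rw [← ofAdd_zsmul, ← ofAdd_zsmul, ← ofAdd_add, ← ofAdd_add]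
    simp
  exact DFunLike.congr_fun h u

/-- the shift automorphisms -/
def shAut (X : Type*) : Multiplicative ℤ →* MulAut (FreeGroup (X × ℤ)) where
  toFun n :=
    { toFun := sh X (Multiplicative.toAdd n)
      invFun := sh X (-(Multiplicative.toAdd n))
      left_inv := by
        intro u
        have h : (sh X (-(Multiplicative.toAdd n))).comp (sh X (Multiplicative.toAdd n)) =
            MonoidHom.id _ := by
          ext p
          simp [sh_of]
        exact DFunLike.congr_fun h u
      right_inv := by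
        intro u
        have h : (sh X (Multiplicative.toAdd n)).comp (sh X (-(Multiplicative.toAdd n))) =
            MonoidHom.id _ := by
          ext p
          simp [sh_of]
        exact DFunLike.congr_fun h u
      map_mul' := map_mul _ }
  map_one' := by
    ext u
    have h : sh X (Multiplicative.toAdd (1 : Multiplicative ℤ)) = MonoidHom.id _ := by
      ext p
      simp [sh_of]
    exact DFunLike.congr_fun h u
  map_mul' := by
    intro m n
    ext u
    have h : sh X (Multiplicative.toAdd (m * n)) =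
        (sh X (Multiplicative.toAdd m)).comp (sh X (Multiplicative.toAdd n)) := by
      ext p
      simp only [sh_of, toAdd_mul, MonoidHom.comp_apply]
      congr 2
      ring
    exact DFunLike.congr_fun h u

theorem shAut_apply (n : Multiplicative ℤ) (u : FreeGroup (X × ℤ)) :
    shAut X n u = sh X (Multiplicative.toAdd n) u := rfl

theorem iota_injective : Function.Injective (iota c) := by
  let Θ : FreeGroup (Option X) →* FreeGroup (X × ℤ) ⋊[shAut X] Multiplicative ℤ :=
    FreeGroup.lift fun o => match o with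
      | none => SemidirectProduct.inr (Multiplicative.ofAdd 1)
      | some x => SemidirectProduct.inl (of (x, 0)) *
          SemidirectProduct.inr (Multiplicative.ofAdd (c x))
  have hs : Θ (st X) = SemidirectProduct.inr (Multiplicative.ofAdd 1) := by simp [Θ]
  have hx : ∀ x, Θ (of (some x)) = SemidirectProduct.inl (of (x, 0)) *
          SemidirectProduct.inr (Multiplicative.ofAdd (c x)) := by intro x; simp [Θ]
  have hz : ∀ n : ℤ, Θ (st X) ^ n = SemidirectProduct.inr (Multiplicative.ofAdd n) := by
    intro n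
    rw [hs, ← map_zpow (SemidirectProduct.inr :
      Multiplicative ℤ →* FreeGroup (X × ℤ) ⋊[shAut X] Multiplicative ℤ)]
    congr 1
    rw [← ofAdd_zsmul]
    simp
  have h : Θ.comp (iota c) = SemidirectProduct.inl := by
    ext p
    · simp only [MonoidHom.comp_apply, iota_of, map_mul, map_zpow, hz, hx]
      simp only [SemidirectProduct.mul_left, SemidirectProduct.left_inr,
        SemidirectProduct.right_inr, SemidirectProduct.left_inl, SemidirectProduct.right_inl,
        SemidirectProduct.mul_right, one_mul, mul_one, map_one]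
      rw [shAut_apply, sh_of]
      simp
    · simp only [MonoidHom.comp_apply, iota_of, map_mul, map_zpow, hz, hx]
      simp only [SemidirectProduct.right_inr, SemidirectProduct.right_inl,
        SemidirectProduct.mul_right, one_mul]
      rw [← ofAdd_add, ← ofAdd_add]
      simp
  intro u v huv
  have h1 := congrArg Θ huv
  have h2 := DFunLike.congr_fun h u
  have h3 := DFunLike.congr_fun h v
  simp only [MonoidHom.comp_apply] at h2 h3
  rw [h2, h3] at h1
  exact SemidirectProduct.inl_injective h1

/-- every element is `iota u * s^{tau v}` -/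
theorem exists_iota (v : FreeGroup (Option X)) :
    ∃ u, v = iota c u * st X ^ (Multiplicative.toAdd (tau c v)) := by
  induction v using FreeGroup.induction_on with
  | C1 => exact ⟨1, by simp⟩
  | of o =>
    cases o with
    | none => exact ⟨1, by rw [tau_st]; simp⟩
    | some x =>
      refine ⟨of (x, 0), ?_⟩
      rw [tau_some, iota_of]
      simp
  | inv_of o ho =>
    obtain ⟨u, hu⟩ := ho
    set n := Multiplicative.toAdd (tau c (of o)) with hn
    refine ⟨sh X (-n) u⁻¹, ?_⟩
    rw [iota_sh, map_inv (tau c), toAdd_inv, ← hn, hu, map_inv]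
    group
  | mul a b ha hb =>
    obtain ⟨u, hu⟩ := ha
    obtain ⟨w, hw⟩ := hb
    set n := Multiplicative.toAdd (tau c a) with hn
    set m := Multiplicative.toAdd (tau c b) with hm
    refine ⟨u * sh X n w, ?_⟩
    rw [map_mul (iota c), iota_sh, map_mul (tau c), toAdd_mul, ← hn, ← hm, hu, hw]
    group

theorem iota_range : (iota c).range = (tau c).ker := by
  apply le_antisymm
  · rintro _ ⟨u, rfl⟩
    exact tau_iota c u
  · intro v hv
    obtain ⟨u, hu⟩ := exists_iota c v
    rw [MonoidHom.mem_ker] at hv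
    rw [hv, toAdd_one, zpow_zero, mul_one] at hu
    exact ⟨u, hu.symm⟩

theorem fox_sh (f : FreeGroup (Option X) →* Γ) (n : ℤ) (u : FreeGroup (X × ℤ)) (x : X) (j : ℤ) :
    fox (f.comp (iota c)) (sh X n u) (x, j) = MonoidAlgebra.of ℤ Γ (f (st X) ^ n) *
      fox (f.comp (iota c)) u (x, j - n) * MonoidAlgebra.of ℤ Γ (f (st X) ^ (-n)) := by
  classical
  have hg : ∀ u, (f.comp (iota c)) (sh X n u) =
      f (st X) ^ n * (f.comp (iota c)) u * f (st X) ^ (-n) := by
    intro u
    rw [MonoidHom.comp_apply, iota_sh, map_mul, map_mul, map_zpow, map_zpow,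
      MonoidHom.comp_apply]
  have hS : MonoidAlgebra.of ℤ Γ (f (st X) ^ (-n)) * MonoidAlgebra.of ℤ Γ (f (st X) ^ n) = 1 := by
    rw [← map_mul, ← zpow_add, neg_add_cancel, zpow_zero, map_one]
  have hS' : MonoidAlgebra.of ℤ Γ (f (st X) ^ n) * MonoidAlgebra.of ℤ Γ (f (st X) ^ (-n)) = 1 := by
    rw [← map_mul, ← zpow_add, add_neg_cancel, zpow_zero, map_one]
  have hof : ∀ y : X × ℤ, fox (f.comp (iota c)) (sh X n (of y)) (x, j) =
      MonoidAlgebra.of ℤ Γ (f (st X) ^ n) *
      fox (f.comp (iota c)) (of y) (x, j - n) * MonoidAlgebra.of ℤ Γ (f (st X) ^ (-n)) := by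
    intro y
    rw [sh_of, fox_of, fox_of, Finsupp.single_apply, Finsupp.single_apply]
    by_cases h : y = (x, j - n)
    · subst h
      rw [if_pos (by simp), if_pos rfl, mul_one, hS']
    · rw [if_neg h, if_neg, mul_zero, zero_mul]
      intro h'
      apply h
      rw [Prod.ext_iff] at h' ⊢
      simp only at h' ⊢
      exact ⟨h'.1, by rw [← h'.2]; ring⟩
  induction u using FreeGroup.induction_on with
  | C1 => simp
  | of y => exact hof y
  | inv_of y _ =>
    have h1 : sh X n (of y)⁻¹ = (sh X n (of y))⁻¹ := map_inv _ _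
    have h2 : fox (f.comp (iota c)) (sh X n (of y)⁻¹) (x, j) =
      MonoidAlgebra.of ℤ Γ (f (st X) ^ n) *
      fox (f.comp (iota c)) (of y)⁻¹ (x, j - n) * MonoidAlgebra.of ℤ Γ (f (st X) ^ (-n)) := by
      rw [h1, fox_inv, fox_inv, Finsupp.neg_apply, Finsupp.neg_apply, Finsupp.smul_apply,
        Finsupp.smul_apply, smul_eq_mul, smul_eq_mul, hof, hg]
      have h3 : (f (st X) ^ n * (f.comp (iota c)) (of y) * f (st X) ^ (-n))⁻¹ =
          f (st X) ^ n * ((f.comp (iota c)) (of y))⁻¹ * f (st X) ^ (-n) := by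
        rw [mul_inv_rev, mul_inv_rev, zpow_neg, inv_inv, mul_assoc]
      rw [h3, map_mul, map_mul, mul_neg, neg_mul]
      congr 1
      simp only [mul_assoc]
      rw [← mul_assoc (MonoidAlgebra.of ℤ Γ (f (st X) ^ (-n))), hS, one_mul]
    exact h2
  | mul a b ha hb =>
    rw [map_mul (sh X n), fox_mul, fox_mul, Finsupp.add_apply, Finsupp.add_apply,
      Finsupp.smul_apply, Finsupp.smul_apply, smul_eq_mul, smul_eq_mul, ha, hb, hg, map_mul,
      map_mul, mul_add, add_mul]
    congr 1
    simp only [mul_assoc]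
    rw [← mul_assoc (MonoidAlgebra.of ℤ Γ (f (st X) ^ (-n))), hS, one_mul]

theorem fox_st_zpow (f : FreeGroup (Option X) →* Γ) (n : ℤ) (x : X) :
    fox f (st X ^ n) (some x) = 0 := by
  classical
  let T : Subgroup (FreeGroup (Option X)) :=
    { carrier := {u | fox f u (some x) = 0}
      one_mem' := by simp
      mul_mem' := by
        intro a b ha hb
        show fox f (a * b) (some x) = 0
        rw [fox_mul, Finsupp.add_apply, Finsupp.smul_apply, ha, hb, smul_zero, add_zero]
      inv_mem' := by
        intro a ha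
        show fox f a⁻¹ (some x) = 0
        rw [fox_inv, Finsupp.neg_apply, Finsupp.smul_apply, ha, smul_zero, neg_zero] }
  have h : st X ∈ T := by
    show fox f (of none) (some x) = 0
    rw [fox_of, Finsupp.single_apply, if_neg (by simp)]
  exact T.zpow_mem h n

open Classical in
theorem fox_iota (f : FreeGroup (Option X) →* Γ) (u : FreeGroup (X × ℤ)) (x : X) :
    fox f (iota c u) (some x) = (fox (f.comp (iota c)) u).sum fun p a =>
      if p.1 = x then a * MonoidAlgebra.of ℤ Γ (f (st X) ^ p.2) else 0 := by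
  rw [fox_chain, Finsupp.sum_apply]
  refine Finsupp.sum_congr fun p _ => ?_
  rw [Finsupp.smul_apply, smul_eq_mul, iota_of, fox_mul, fox_mul, Finsupp.add_apply,
    Finsupp.add_apply, Finsupp.smul_apply, Finsupp.smul_apply, fox_st_zpow, fox_st_zpow,
    smul_zero, add_zero, zero_add, fox_of, Finsupp.single_apply, map_zpow]
  by_cases h : p.1 = x
  · rw [if_pos (by rw [h]), if_pos h, smul_eq_mul, mul_one]
  · rw [if_neg (by simpa using h), if_neg h, smul_zero, mul_zero]

theorem mem_range_of_coeff (f : FreeGroup X →* Γ) (u : FreeGroup X) (x : X) :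
    ∀ g, (fox f u x).coeff g ≠ 0 → g ∈ f.range := by
  classical
  induction u using FreeGroup.induction_on with
  | C1 => intro g hg; simp at hg
  | of y =>
    intro g hg
    rw [fox_of, Finsupp.single_apply] at hg
    split_ifs at hg with h
    · by_contra hn
      apply hg
      rw [MonoidAlgebra.one_def, MonoidAlgebra.coeff_single, Finsupp.single_apply, if_neg]
      rintro rfl
      exact hn f.range.one_mem
    · simp at hg
  | inv_of y hy =>
    intro g hg
    rw [fox_inv, Finsupp.neg_apply, Finsupp.smul_apply, smul_eq_mul, MonoidAlgebra.coeff_neg,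
      Finsupp.neg_apply, neg_ne_zero, MonoidAlgebra.of_apply,
      MonoidAlgebra.coeff_single_mul_apply, one_mul, inv_inv] at hg
    have h1 := hy _ hg
    have h2 : f (pure y) ∈ f.range := ⟨_, rfl⟩
    exact (Subgroup.mul_mem_cancel_left _ h2).1 h1
  | mul a b ha hb =>
    intro g hg
    rw [fox_mul, Finsupp.add_apply, MonoidAlgebra.coeff_add, Finsupp.add_apply] at hg
    by_cases h : (fox f a x).coeff g = 0
    · rw [h, zero_add, Finsupp.smul_apply, smul_eq_mul, MonoidAlgebra.of_apply,
        MonoidAlgebra.coeff_single_mul_apply, one_mul] at hg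
      have h1 := hb _ hg
      have h2 : (f a)⁻¹ ∈ f.range := f.range.inv_mem ⟨_, rfl⟩
      exact (Subgroup.mul_mem_cancel_left _ h2).1 h1
    · exact ha g h

theorem level_eq (f : FreeGroup (Option X) →* Γ) (hf : f.ker ≤ (tau c).ker)
    {v v' : FreeGroup (Option X)} (h : f v = f v') : tau c v = tau c v' := by
  have h1 : v * v'⁻¹ ∈ f.ker := by rw [MonoidHom.mem_ker, map_mul, map_inv, h, mul_inv_cancel]
  have h2 := hf h1
  rw [MonoidHom.mem_ker, map_mul, map_inv, mul_inv_eq_one] at h2
  exact h2

theorem coeff_mul_of (a : MonoidAlgebra ℤ Γ) (g h : Γ) :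
    (a * MonoidAlgebra.of ℤ Γ g).coeff h = a.coeff (h * g⁻¹) := by
  rw [MonoidAlgebra.of_apply, MonoidAlgebra.coeff_mul_single_apply, mul_one]

theorem level_of_coeff (f : FreeGroup (Option X) →* Γ) (hf : f.ker ≤ (tau c).ker)
    (u : FreeGroup (X × ℤ)) (p : X × ℤ) (v : FreeGroup (Option X)) (k : ℤ)
    (h : (fox (f.comp (iota c)) u p).coeff (f v * (f (st X) ^ k)⁻¹) ≠ 0) :
    Multiplicative.toAdd (tau c v) = k := by
  obtain ⟨w, hw⟩ := mem_range_of_coeff (f.comp (iota c)) u p _ h
  have h1 : f (iota c w) = f (v * (st X ^ k)⁻¹) := by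
    rw [map_mul, map_inv, map_zpow]
    exact hw
  have h2 := level_eq c f hf h1
  rw [tau_iota, map_mul, map_inv] at h2
  have h3 := congrArg Multiplicative.toAdd h2
  rw [toAdd_one, toAdd_mul, toAdd_inv, toAdd_tau_st_zpow] at h3
  linarith

theorem coeff_iota (f : FreeGroup (Option X) →* Γ) (hf : f.ker ≤ (tau c).ker)
    (u : FreeGroup (X × ℤ)) (x : X) (v : FreeGroup (Option X)) :
    (fox f (iota c u) (some x)).coeff (f v) =
      (fox (f.comp (iota c)) u (x, Multiplicative.toAdd (tau c v))).coeff
        (f v * f (st X) ^ (-(Multiplicative.toAdd (tau c v)))) := by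
  classical
  rw [fox_iota, Finsupp.sum]
  have hsum : ∀ (s : Finset (X × ℤ)) (F : X × ℤ → MonoidAlgebra ℤ Γ),
      (∑ p ∈ s, F p).coeff (f v) = ∑ p ∈ s, (F p).coeff (f v) := by
    intro s F
    induction s using Finset.induction_on with
    | empty => simp
    | insert a s ha ih =>
      rw [Finset.sum_insert ha, Finset.sum_insert ha, MonoidAlgebra.coeff_add, Finsupp.add_apply,
        ih]
  rw [hsum, Finset.sum_eq_single (x, Multiplicative.toAdd (tau c v))]
  · rw [if_pos rfl, coeff_mul_of, zpow_neg]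
  · intro p _ hp
    by_cases hx : p.1 = x
    · rw [if_pos hx, coeff_mul_of]
      by_contra hne
      apply hp
      have := level_of_coeff c f hf u p v p.2 hne
      rw [this, ← hx]
    · rw [if_neg hx]
      simp
  · intro hp
    rw [Finsupp.notMem_support_iff] at hp
    rw [hp, zero_mul, if_pos rfl]
    simp

theorem mem_support_iota (f : FreeGroup (Option X) →* Γ) (hf : f.ker ≤ (tau c).ker)
    (u : FreeGroup (X × ℤ)) (x : X) (v : FreeGroup (Option X)) :
    f v ∈ (fox f (iota c u) (some x)).coeff.support ↔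
      f v * f (st X) ^ (-(Multiplicative.toAdd (tau c v))) ∈
        (fox (f.comp (iota c)) u (x, Multiplicative.toAdd (tau c v))).coeff.support := by
  rw [Finsupp.mem_support_iff, Finsupp.mem_support_iff, coeff_iota c f hf]

theorem fst_mem_support (f : FreeGroup (Option X) →* Γ) (hf : f.ker ≤ (tau c).ker)
    (u : FreeGroup (X × ℤ)) (x : X) :
    some x ∈ (fox f (iota c u)).support ↔ ∃ j, (x, j) ∈ (fox (f.comp (iota c)) u).support := by
  classical
  constructor
  · intro h
    by_contra hn
    push Not at hn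
    rw [Finsupp.mem_support_iff] at h
    apply h
    rw [fox_iota, Finsupp.sum]
    refine Finset.sum_eq_zero fun p hp => ?_
    rw [if_neg]
    intro hx
    apply hn p.2
    rw [← hx]
    exact hp
  · rintro ⟨j, hj⟩
    rw [Finsupp.mem_support_iff] at hj ⊢
    have h1 : (fox (f.comp (iota c)) u (x, j)).coeff ≠ 0 := by
      intro h
      exact hj (MonoidAlgebra.coeff_injective (by rw [h]; rfl))
    obtain ⟨γ, hγ⟩ := Finsupp.ne_iff.1 h1
    rw [Finsupp.zero_apply] at hγ
    obtain ⟨w, hw⟩ := mem_range_of_coeff (f.comp (iota c)) u (x, j) γ hγ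
    have h2 : Multiplicative.toAdd (tau c (iota c w * st X ^ j)) = j := by
      rw [map_mul, tau_iota, one_mul, toAdd_tau_st_zpow]
    have h3 := coeff_iota c f hf u x (iota c w * st X ^ j)
    rw [h2] at h3
    intro h0
    rw [h0] at h3
    apply hγ
    have h4 : f (iota c w * st X ^ j) * f (st X) ^ (-j) = γ := by
      rw [map_mul, map_zpow, mul_assoc, ← zpow_add, add_neg_cancel, zpow_zero, mul_one]
      exact hw
    rw [h4] at h3
    rw [← h3]
    simp

section Norm

theorem nrm1_zero : nrm1 (0 : MonoidAlgebra ℤ Γ) = 0 := by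
  simp [nrm1]

theorem nrm1_add_of_disjoint {a b : MonoidAlgebra ℤ Γ}
    (h : Disjoint a.coeff.support b.coeff.support) : nrm1 (a + b) = nrm1 a + nrm1 b := by
  classical
  rw [nrm1, MonoidAlgebra.coeff_add, Finsupp.sum_add_index_of_disjoint h]
  rfl

omit [Group Γ] in
theorem coeff_sum_apply {ι : Type*} (s : Finset ι) (a : ι → MonoidAlgebra ℤ Γ) (g : Γ) :
    (∑ i ∈ s, a i).coeff g = ∑ i ∈ s, (a i).coeff g := by
  classical
  induction s using Finset.induction_on with
  | empty => simp
  | insert i s hi ih =>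
    rw [Finset.sum_insert hi, Finset.sum_insert hi, MonoidAlgebra.coeff_add, Finsupp.add_apply, ih]

theorem nrm1_sum_of_disjoint {ι : Type*} (s : Finset ι) (a : ι → MonoidAlgebra ℤ Γ)
    (h : ∀ i ∈ s, ∀ j ∈ s, ∀ g, (a i).coeff g ≠ 0 → (a j).coeff g ≠ 0 → i = j) :
    nrm1 (∑ i ∈ s, a i) = ∑ i ∈ s, nrm1 (a i) := by
  classical
  induction s using Finset.induction_on with
  | empty => simp [nrm1_zero]
  | insert i s hi ih =>
    rw [Finset.sum_insert hi, Finset.sum_insert hi, nrm1_add_of_disjoint, ih]
    · intro j hj k hk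
      exact h j (Finset.mem_insert_of_mem hj) k (Finset.mem_insert_of_mem hk)
    · rw [Finset.disjoint_left]
      intro g hg hg'
      rw [Finsupp.mem_support_iff] at hg hg'
      rw [coeff_sum_apply] at hg'
      obtain ⟨j, hj, hne⟩ := Finset.exists_ne_zero_of_sum_ne_zero hg'
      have := h i (Finset.mem_insert_self _ _) j (Finset.mem_insert_of_mem hj) g hg hne
      subst this
      exact hi hj

omit [Group Γ] in
theorem nrm1_eq_sum (a : MonoidAlgebra ℤ Γ) (s : Finset Γ) (hs : a.coeff.support ⊆ s) :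
    nrm1 a = ∑ g ∈ s, (a.coeff g).natAbs :=
  Finsupp.sum_of_support_subset _ hs _ (by simp)

theorem nrm1_mul_of (a : MonoidAlgebra ℤ Γ) (g : Γ) :
    nrm1 (a * MonoidAlgebra.of ℤ Γ g) = nrm1 a := by
  classical
  rw [nrm1_eq_sum a _ subset_rfl,
    nrm1_eq_sum (a * MonoidAlgebra.of ℤ Γ g) (a.coeff.support.image (· * g))]
  · rw [Finset.sum_image (by intro x _ y _ h; exact mul_right_cancel h)]
    refine Finset.sum_congr rfl fun x _ => ?_
    rw [coeff_mul_of, mul_inv_cancel_right]
  · intro h hh
    rw [Finsupp.mem_support_iff, coeff_mul_of] at hh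
    rw [Finset.mem_image]
    exact ⟨h * g⁻¹, Finsupp.mem_support_iff.2 hh, by simp⟩

theorem nrm_eq_sum {Y : Type*} (d : Y →₀ MonoidAlgebra ℤ Γ) (s : Finset Y) (hs : d.support ⊆ s) :
    nrm d = ∑ y ∈ s, nrm1 (d y) :=
  Finsupp.sum_of_support_subset _ hs _ (by simp [nrm1_zero])

end Norm

theorem nrm1_iota (f : FreeGroup (Option X) →* Γ) (hf : f.ker ≤ (tau c).ker)
    (u : FreeGroup (X × ℤ)) (x : X) [DecidableEq X] :
    nrm1 (fox f (iota c u) (some x)) =
      ∑ p ∈ (fox (f.comp (iota c)) u).support with p.1 = x, nrm1 (fox (f.comp (iota c)) u p) := by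
  classical
  have h : fox f (iota c u) (some x) =
      ∑ p ∈ (fox (f.comp (iota c)) u).support with p.1 = x,
        fox (f.comp (iota c)) u p * MonoidAlgebra.of ℤ Γ (f (st X) ^ p.2) := by
    rw [fox_iota, Finsupp.sum, Finset.sum_filter]
    refine Finset.sum_congr rfl fun p _ => ?_
    by_cases hx : p.1 = x
    · rw [if_pos hx, if_pos hx]
    · rw [if_neg hx, if_neg hx]
  rw [h, nrm1_sum_of_disjoint]
  · exact Finset.sum_congr rfl fun p _ => nrm1_mul_of _ _
  · intro p hp q hq g hg hg'
    rw [coeff_mul_of] at hg hg'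
    rw [Finset.mem_filter] at hp hq
    obtain ⟨w, hw⟩ := mem_range_of_coeff (f.comp (iota c)) u p _ hg
    have h1 : g = f (iota c w * st X ^ p.2) := by
      rw [map_mul, map_zpow, ← MonoidHom.comp_apply, hw, inv_mul_cancel_right]
    rw [h1] at hg hg'
    have h2 := level_of_coeff c f hf u p _ _ hg
    have h3 := level_of_coeff c f hf u q _ _ hg'
    exact Prod.ext (by rw [hp.2, hq.2]) (by rw [← h2, ← h3])

theorem nrm_iota (f : FreeGroup (Option X) →* Γ) (hf : f.ker ≤ (tau c).ker)
    (u : FreeGroup (X × ℤ)) : nrm (fox f (iota c u)) =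
      nrm (fox (f.comp (iota c)) u) + nrm1 (fox f (iota c u) none) := by
  classical
  set T : Finset X := (fox (f.comp (iota c)) u).support.image Prod.fst with hT
  have h1 : (fox f (iota c u)).support ⊆ Finset.insertNone T := by
    intro o ho
    rw [Finset.mem_insertNone]
    intro x hx
    rw [Option.mem_def] at hx
    subst hx
    obtain ⟨j, hj⟩ := (fst_mem_support c f hf u x).1 ho
    rw [hT, Finset.mem_image]
    exact ⟨(x, j), hj, rfl⟩
  rw [nrm_eq_sum _ _ h1, Finset.sum_insertNone, add_comm]
  congr 1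
  rw [nrm_eq_sum (fox (f.comp (iota c)) u) _ subset_rfl]
  rw [← Finset.sum_fiberwise_of_maps_to (s := (fox (f.comp (iota c)) u).support) (t := T)
    (g := Prod.fst) (fun p hp => Finset.mem_image_of_mem _ hp)]
  exact Finset.sum_congr rfl fun x _ => nrm1_iota c f hf u x

theorem map_iota_normal (M : Subgroup (FreeGroup (X × ℤ))) [hM : M.Normal]
    (hsh : ∀ (n : ℤ), ∀ m ∈ M, sh X n m ∈ M) : (M.map (iota c)).Normal := by
  constructor
  rintro _ ⟨m, hm, rfl⟩ v
  obtain ⟨u, hu⟩ := exists_iota c v
  set n := Multiplicative.toAdd (tau c v) with hn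
  refine ⟨u * sh X n m * u⁻¹, hM.conj_mem _ (hsh n m hm) u, ?_⟩
  rw [hu, map_mul, map_mul, iota_sh, map_inv]
  group

theorem Cyc.shift (f : FreeGroup (Option X) →* Γ) (hf : f.ker ≤ (tau c).ker)
    {y : FreeGroup (X × ℤ)} (h : Cyc f (iota c y)) :
    (f.comp (iota c)).ker ≤ Subgroup.normalClosure (Set.range fun n : ℤ => sh X n y) ⊔
      ⁅(f.comp (iota c)).ker, (f.comp (iota c)).ker⁆ := by
  set M := Subgroup.normalClosure (Set.range fun n : ℤ => sh X n y) with hM
  have hsh : ∀ (n : ℤ), ∀ m ∈ M, sh X n m ∈ M := by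
    intro n
    have h1 : M ≤ M.comap (sh X n) := by
      apply Subgroup.normalClosure_le_normal
      rintro _ ⟨k, rfl⟩
      show sh X n (sh X k y) ∈ M
      have h2 : sh X n (sh X k y) = sh X (k + n) y := by
        have h3 : (sh X n).comp (sh X k) = sh X (k + n) := by
          ext p
          simp only [MonoidHom.comp_apply, sh_of]
          rw [add_assoc]
        exact DFunLike.congr_fun h3 y
      rw [h2]
      exact Subgroup.subset_normalClosure ⟨k + n, rfl⟩
    exact fun m hm => h1 hm
  have hn : (M.map (iota c)).Normal := map_iota_normal c M hsh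
  have h1 : Subgroup.normalClosure {iota c y} ≤ M.map (iota c) := by
    apply Subgroup.normalClosure_le_normal
    rintro _ rfl
    refine ⟨y, Subgroup.subset_normalClosure ⟨0, ?_⟩, rfl⟩
    have h3 : sh X 0 = MonoidHom.id _ := by
      ext p
      simp [sh_of]
    show sh X 0 y = y
    rw [h3]
    rfl
  have h2 : f.ker = ((f.comp (iota c)).ker).map (iota c) := by
    apply le_antisymm
    · intro v hv
      have h3 : v ∈ (iota c).range := by
        rw [iota_range]
        exact hf hv
      obtain ⟨u, rfl⟩ := h3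
      exact ⟨u, hv, rfl⟩
    · rintro _ ⟨u, hu, rfl⟩
      exact hu
  intro u hu
  have h3 : iota c u ∈ f.ker := hu
  have h4 := h.2 h3
  have h5 : Subgroup.normalClosure {iota c y} ⊔ ⁅f.ker, f.ker⁆ ≤
      (M ⊔ ⁅(f.comp (iota c)).ker, (f.comp (iota c)).ker⁆).map (iota c) := by
    rw [Subgroup.map_sup, Subgroup.map_commutator, ← h2]
    exact sup_le_sup_right h1 _
  obtain ⟨w, hw, hwu⟩ := h5 h4
  have h6 : w = u := iota_injective c hwu
  rw [← h6]
  exact hw

end P4

end Pool.Agent.ROR
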