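import Pool.Agent.ROR.LIGroup
import Pool.Agent.ROR.LIRing
import Pool.Agent.ROR.FoxExt
import Pool.Agent.ROR.FoxGood
import Pool.Agent.ROR.Shift

/-!
# One algebraic step of the Magnus hierarchy (project ROR, P7)
-/

set_option autoImplicit false

namespace Pool.Agent.ROR

open FreeGroup (of)
open Pool.Agent.RSMonic

attribute [-simp] MonoidAlgebra.of_apply

section Restrict

variable {Γ : Type*}

/-- restriction of the coefficients to the set `P` -/
noncomputable def rC (P : Γ → Prop) (a : MonoidAlgebra ℤ Γ) : MonoidAlgebra ℤ Γ := by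
  classical exact MonoidAlgebra.ofCoeff (a.coeff.filter P)

theorem rC_pos {P : Γ → Prop} {g : Γ} (h : P g) (a : MonoidAlgebra ℤ Γ) :
    (rC P a).coeff g = a.coeff g := by
  classical
  rw [rC, MonoidAlgebra.coeff_ofCoeff]
  exact Finsupp.filter_apply_pos _ _ h

theorem rC_neg {P : Γ → Prop} {g : Γ} (h : ¬ P g) (a : MonoidAlgebra ℤ Γ) :
    (rC P a).coeff g = 0 := by
  classical
  rw [rC, MonoidAlgebra.coeff_ofCoeff]
  exact Finsupp.filter_apply_neg _ _ h

/-- as an additive map -/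
noncomputable def rCHom (P : Γ → Prop) : MonoidAlgebra ℤ Γ →+ MonoidAlgebra ℤ Γ where
  toFun := rC P
  map_zero' := by
    ext g
    by_cases h : P g
    · rw [rC_pos h]
    · rw [rC_neg h]; rfl
  map_add' a b := by
    ext g
    by_cases h : P g
    · rw [rC_pos h, MonoidAlgebra.coeff_add, MonoidAlgebra.coeff_add, Finsupp.add_apply,
        Finsupp.add_apply, rC_pos h, rC_pos h]
    · rw [rC_neg h, MonoidAlgebra.coeff_add, Finsupp.add_apply, rC_neg h, rC_neg h, add_zero]

theorem rC_zero (P : Γ → Prop) : rC P (0 : MonoidAlgebra ℤ Γ) = 0 := (rCHom P).map_zero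

theorem rC_support (P : Γ → Prop) (a : MonoidAlgebra ℤ Γ) :
    (rC P a).coeff.support ⊆ a.coeff.support := by
  intro g hg
  rw [Finsupp.mem_support_iff] at hg ⊢
  by_cases h : P g
  · rwa [rC_pos h] at hg
  · rw [rC_neg h] at hg; exact absurd rfl hg

theorem rC_of (P : Γ → Prop) [Group Γ] (g h : Γ) (hP : P (g * h) ↔ P g) :
    rC P (MonoidAlgebra.of ℤ Γ g) * MonoidAlgebra.of ℤ Γ h =
      rC P (MonoidAlgebra.of ℤ Γ g * MonoidAlgebra.of ℤ Γ h) := by
  have key : ∀ g : Γ, rC P (MonoidAlgebra.of ℤ Γ g) =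
      (by classical exact if P g then MonoidAlgebra.of ℤ Γ g else 0) := by
    intro g
    classical
    ext k
    by_cases hk : P k
    · rw [rC_pos hk]
      split_ifs with hg
      · rfl
      · rw [MonoidAlgebra.of_apply, MonoidAlgebra.coeff_single, Finsupp.single_apply, if_neg]
        · rfl
        · rintro rfl; exact hg hk
    · rw [rC_neg hk]
      split_ifs with hg
      · rw [MonoidAlgebra.of_apply, MonoidAlgebra.coeff_single, Finsupp.single_apply, if_neg]
        rintro rfl; exact hk hg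
      · rfl
  rw [← map_mul, key, key]
  by_cases hg : P g
  · rw [if_pos hg, if_pos (hP.2 hg), map_mul]
  · rw [if_neg hg, if_neg (fun h' => hg (hP.1 h')), zero_mul]

theorem rC_mul_of (P : Γ → Prop) [Group Γ] (h : Γ) (hP : ∀ g, P (g * h) ↔ P g)
    (a : MonoidAlgebra ℤ Γ) :
    rC P (a * MonoidAlgebra.of ℤ Γ h) = rC P a * MonoidAlgebra.of ℤ Γ h := by
  have : (rCHom P).comp (AddMonoidHom.mulRight (MonoidAlgebra.of ℤ Γ h)) =
      (AddMonoidHom.mulRight (MonoidAlgebra.of ℤ Γ h)).comp (rCHom P) := by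
    refine addHom_ext_of fun g => ?_
    exact (rC_of P g h (hP g)).symm
  exact DFunLike.congr_fun this a

end Restrict

section P7
variable {X Γ : Type*} [Group Γ] (c : X → ℤ)

/-- the `n`-th shift of the Fox derivative: all Fox derivatives of elements of the kernel are
combinations of the shifts -/
theorem exists_shift_comb (f : FreeGroup (Option X) →* Γ) (hf : f.ker ≤ (tau c).ker)
    (y : FreeGroup (X × ℤ)) (hy : Cyc f (iota c y)) (u : FreeGroup (X × ℤ))
    (hu : f (iota c u) = 1) :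
    ∃ lam : ℤ →₀ MonoidAlgebra ℤ Γ, ∀ x j, fox (f.comp (iota c)) u (x, j) =
      lam.sum fun n a => a * (MonoidAlgebra.of ℤ Γ (f (st X) ^ n) *
        fox (f.comp (iota c)) y (x, j - n) * MonoidAlgebra.of ℤ Γ (f (st X) ^ (-n))) := by
  have h1 := Cyc.shift c f hf hy
  have h2 : ∀ z ∈ Set.range fun n : ℤ => sh X n y, (f.comp (iota c)) z = 1 := by
    rintro _ ⟨n, rfl⟩
    rw [MonoidHom.comp_apply]
    show f (iota c (sh X n y)) = 1
    rw [iota_sh, map_mul, map_mul, hy.1, mul_one, ← map_mul, ← zpow_add, add_neg_cancel, zpow_zero,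
      map_one]
  have h3 := fox_mem_span (f.comp (iota c)) _ h2 u (h1 hu)
  rw [← Set.range_comp, Finsupp.mem_span_range_iff_exists_finsupp] at h3
  obtain ⟨lam, hl⟩ := h3
  refine ⟨lam, fun x j => ?_⟩
  rw [← hl, Finsupp.sum, Finsupp.sum, Finsupp.finsetSum_apply]
  refine Finset.sum_congr rfl fun n _ => ?_
  rw [Finsupp.smul_apply, smul_eq_mul, Function.comp_apply, fox_sh]

theorem of_mul_ne_zero {a : MonoidAlgebra ℤ Γ} (ha : a ≠ 0) (g h : Γ) :
    MonoidAlgebra.of ℤ Γ g * a * MonoidAlgebra.of ℤ Γ h ≠ 0 := by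
  intro h0
  apply ha
  have : a = MonoidAlgebra.of ℤ Γ g⁻¹ * (MonoidAlgebra.of ℤ Γ g * a * MonoidAlgebra.of ℤ Γ h) *
      MonoidAlgebra.of ℤ Γ h⁻¹ := by
    rw [mul_assoc (MonoidAlgebra.of ℤ Γ g), ← mul_assoc (MonoidAlgebra.of ℤ Γ g⁻¹), ← map_mul,
      inv_mul_cancel, map_one, one_mul, mul_assoc, ← map_mul, mul_inv_cancel, map_one, mul_one]
  rw [this, h0, mul_zero, zero_mul]

/-- (F2): if the levels of `x0` lie in `[i, i']`, only the shift `0` occurs -/
theorem exists_smul_of_levels (hΓ : LI Γ) (f : FreeGroup (Option X) →* Γ)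
    (hf : f.ker ≤ (tau c).ker) (y : FreeGroup (X × ℤ)) (hy : Cyc f (iota c y)) (x0 : X) (i i' : ℤ)
    (hi : fox (f.comp (iota c)) y (x0, i) ≠ 0) (hi' : fox (f.comp (iota c)) y (x0, i') ≠ 0)
    (hr : ∀ j, fox (f.comp (iota c)) y (x0, j) ≠ 0 → i ≤ j ∧ j ≤ i')
    (u : FreeGroup (X × ℤ)) (hu : f (iota c u) = 1)
    (hl : ∀ j, fox (f.comp (iota c)) u (x0, j) ≠ 0 → i ≤ j ∧ j ≤ i') :
    ∃ lam : MonoidAlgebra ℤ Γ, fox (f.comp (iota c)) u = lam • fox (f.comp (iota c)) y := by
  have := hΓ.noZeroDivisors ℤ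
  obtain ⟨lam, hlam⟩ := exists_shift_comb c f hf y hy u hu
  -- the extreme shifts
  have hmax : ∀ N ∈ lam.support, (∀ n ∈ lam.support, n ≤ N) → N ≤ 0 := by
    intro N hN hle
    by_contra hpos
    have h1 : fox (f.comp (iota c)) u (x0, i' + N) = lam N * (MonoidAlgebra.of ℤ Γ (f (st X) ^ N) *
        fox (f.comp (iota c)) y (x0, i') * MonoidAlgebra.of ℤ Γ (f (st X) ^ (-N))) := by
      rw [hlam, Finsupp.sum, Finset.sum_eq_single N]
      · rw [add_sub_cancel_right]
      · intro n hn hne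
        have h2 : fox (f.comp (iota c)) y (x0, i' + N - n) = 0 := by
          by_contra h3
          have := hr _ h3
          have := hle n hn
          omega
        rw [h2, mul_zero, zero_mul, mul_zero]
      · intro h; exact absurd hN h
    have h2 : fox (f.comp (iota c)) u (x0, i' + N) ≠ 0 := by
      rw [h1]
      exact mul_ne_zero (Finsupp.mem_support_iff.1 hN) (of_mul_ne_zero hi' _ _)
    have := hl _ h2
    omega
  have hmin : ∀ N ∈ lam.support, (∀ n ∈ lam.support, N ≤ n) → 0 ≤ N := by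
    intro N hN hle
    by_contra hneg
    have h1 : fox (f.comp (iota c)) u (x0, i + N) = lam N * (MonoidAlgebra.of ℤ Γ (f (st X) ^ N) *
        fox (f.comp (iota c)) y (x0, i) * MonoidAlgebra.of ℤ Γ (f (st X) ^ (-N))) := by
      rw [hlam, Finsupp.sum, Finset.sum_eq_single N]
      · rw [add_sub_cancel_right]
      · intro n hn hne
        have h2 : fox (f.comp (iota c)) y (x0, i + N - n) = 0 := by
          by_contra h3
          have := hr _ h3
          have := hle n hn
          omega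
        rw [h2, mul_zero, zero_mul, mul_zero]
      · intro h; exact absurd hN h
    have h2 : fox (f.comp (iota c)) u (x0, i + N) ≠ 0 := by
      rw [h1]
      exact mul_ne_zero (Finsupp.mem_support_iff.1 hN) (of_mul_ne_zero hi _ _)
    have := hl _ h2
    omega
  have h0 : ∀ n ∈ lam.support, n = 0 := by
    intro n hn
    have hne : lam.support.Nonempty := ⟨n, hn⟩
    have h1 := hmax _ (lam.support.max'_mem hne) (fun m hm => lam.support.le_max' m hm)
    have h2 := hmin _ (lam.support.min'_mem hne) (fun m hm => lam.support.min'_le m hm)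
    have h3 := lam.support.le_max' n hn
    have h4 := lam.support.min'_le n hn
    omega
  refine ⟨lam 0, ?_⟩
  ext1 p
  obtain ⟨x, j⟩ := p
  rw [Finsupp.smul_apply, smul_eq_mul, hlam, Finsupp.sum, Finset.sum_eq_single 0]
  · rw [neg_zero, zpow_zero, map_one, one_mul, mul_one, sub_zero]
  · intro n hn hne
    exact absurd (h0 n hn) hne
  · intro h
    rw [Finsupp.notMem_support_iff.1 h, zero_mul]

/-- (F3): the Freiheitssatz -/
theorem ker_inf_without (hΓ : LI Γ) (f : FreeGroup (Option X) →* Γ)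
    (hf : f.ker ≤ (tau c).ker) (y : FreeGroup (X × ℤ)) (hy : Cyc f (iota c y)) (x0 : X) (i i' : ℤ)
    (hi : fox (f.comp (iota c)) y (x0, i) ≠ 0) (hi' : fox (f.comp (iota c)) y (x0, i') ≠ 0)
    (hr : ∀ j, fox (f.comp (iota c)) y (x0, j) ≠ 0 → i ≤ j ∧ j ≤ i') (k : ℤ)
    (hk : fox (f.comp (iota c)) y (x0, k) ≠ 0) :
    ((f.comp (iota c)).comp (incl (Y0 x0 i i'))).ker ⊓ without (x0, k) = ⊥ := by
  have := hΓ.noZeroDivisors ℤ
  set W : Set (X × ℤ) := {p | p ∈ Y0 x0 i i' ∧ p ≠ (x0, k)} with hW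
  have hWS : W ⊆ Y0 x0 i i' := fun p hp => hp.1
  have hbot : ((f.comp (iota c)).comp (incl W)).ker = ⊥ := by
    refine perfect_eq_bot _ fun u hu => ?_
    have hu1 : f (iota c (incl W u)) = 1 := hu
    obtain ⟨lam, hlam⟩ := exists_smul_of_levels c hΓ f hf y hy x0 i i' hi hi' hr (incl W u) hu1
      (fun j hj => by
        by_contra h
        refine hj (fox_incl_not_mem W _ u (x0, j) fun hm => h (hm.1 rfl)))
    have h0 : lam * fox (f.comp (iota c)) y (x0, k) = 0 := by
      have h1 := fox_incl_not_mem W (f.comp (iota c)) u (x0, k) (fun hm => hm.2 rfl)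
      rw [hlam, Finsupp.smul_apply, smul_eq_mul] at h1
      exact h1
    have h1 : lam = 0 := (mul_eq_zero.1 h0).resolve_right hk
    refine mem_of_fox_eq_zero _ hu ?_
    ext1 p
    rw [← fox_incl, hlam, h1, zero_smul]
    rfl
  rw [eq_bot_iff]
  rintro u ⟨hu1, hu2⟩
  -- `u` comes from `F(W)`
  let j : W → Y0 x0 i i' := fun p => ⟨p.1, hWS p.2⟩
  have hle : (without (x0, k) : Subgroup (FreeGroup (Y0 x0 i i'))) ≤ (FreeGroup.map j).range := by
    rw [without, Subgroup.closure_le]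
    rintro _ ⟨p, hp, rfl⟩
    exact ⟨of ⟨p.1, p.2, hp⟩, FreeGroup.map.of⟩
  obtain ⟨v, hv⟩ := hle hu2
  have h1 : incl W v = incl (Y0 x0 i i') u := by
    rw [← hv, incl, incl, FreeGroup.map.comp]
    rfl
  have h2 : v ∈ ((f.comp (iota c)).comp (incl W)).ker := by
    rw [MonoidHom.mem_ker, MonoidHom.comp_apply, h1]
    exact hu1
  rw [hbot, Subgroup.mem_bot] at h2
  rw [Subgroup.mem_bot, ← hv, h2, map_one]

/-- the coset property and the new relator -/
theorem exists_y0 (hΓ : LI Γ) (f : FreeGroup (Option X) →* Γ)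
    (hf : f.ker ≤ (tau c).ker) (y : FreeGroup (X × ℤ)) (hy : Cyc f (iota c y)) (x0 : X) (i i' : ℤ)
    (hi : fox (f.comp (iota c)) y (x0, i) ≠ 0) (hi' : fox (f.comp (iota c)) y (x0, i') ≠ 0)
    (hr : ∀ j, fox (f.comp (iota c)) y (x0, j) ≠ 0 → i ≤ j ∧ j ≤ i') :
    ∃ (y0 : FreeGroup (Y0 x0 i i')) (v : FreeGroup (X × ℤ)), f (iota c (incl _ y0)) = 1 ∧
      fox (f.comp (iota c)) (incl _ y0) =
        MonoidAlgebra.of ℤ Γ (f (iota c v)) • fox (f.comp (iota c)) y := by
  classical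
  have := hΓ.noZeroDivisors ℤ
  set g := f.comp (iota c) with hg
  set S := Y0 x0 i i' with hS
  -- all letters of `y` lie in `S`
  have hsupp : ∀ p, fox g y p ≠ 0 → p ∈ S := by
    rintro ⟨x, j⟩ hp hx
    subst hx
    exact hr j hp
  obtain ⟨h, hh⟩ : ∃ h, h ∈ (fox g y (x0, i)).coeff.support := by
    by_contra hn
    apply hi
    push Not at hn
    have : (fox g y (x0, i)).coeff = 0 := Finsupp.support_eq_empty.1 (Finset.eq_empty_of_forall_notMem hn)
    exact MonoidAlgebra.coeff_injective this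
  obtain ⟨v, hv⟩ := fox_support_range g y (x0, i) h hh
  -- the coset of `h`
  let P : Γ → Prop := fun γ => h⁻¹ * γ ∈ (g.comp (incl S)).range
  have hP1 : P h := by
    show h⁻¹ * h ∈ _
    rw [inv_mul_cancel]
    exact Subgroup.one_mem _
  have hPmul : ∀ p ∈ S, ∀ γ, P (γ * g (of p)) ↔ P γ := by
    intro p hp γ
    have h1 : g (of p) ∈ (g.comp (incl S)).range := ⟨of ⟨p, hp⟩, by
      rw [MonoidHom.comp_apply, incl, FreeGroup.map.of]⟩
    show h⁻¹ * (γ * g (of p)) ∈ _ ↔ h⁻¹ * γ ∈ _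
    rw [← mul_assoc]
    exact Subgroup.mul_mem_cancel_right _ h1
  -- the restricted cycle, translated to the range
  let e : S →₀ MonoidAlgebra ℤ Γ := (fox g y).comapDomain Subtype.val Subtype.val_injective.injOn
  let cc : S →₀ MonoidAlgebra ℤ Γ := e.mapRange
    (fun a => MonoidAlgebra.of ℤ Γ h⁻¹ * rC P a) (by rw [rC_zero, mul_zero])
  have hcc : ∀ p : S, cc p = MonoidAlgebra.of ℤ Γ h⁻¹ * rC P (fox g y p.1) := fun p => rfl
  have hs : ∀ p, ∀ γ ∈ (cc p).coeff.support, γ ∈ (g.comp (incl S)).range := by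
    intro p γ hγ
    rw [hcc, Finsupp.mem_support_iff, MonoidAlgebra.of_apply,
      MonoidAlgebra.coeff_single_mul_apply, one_mul, inv_inv] at hγ
    by_contra hn
    apply hγ
    refine rC_neg (fun hp => hn ?_) _
    have : h⁻¹ * (h * γ) ∈ (g.comp (incl S)).range := hp
    rwa [inv_mul_cancel_left] at this
  have hc : (cc.sum fun p a => a * (MonoidAlgebra.of ℤ Γ ((g.comp (incl S)) (of p)) - 1)) = 0 := by
    have h1 : (cc.sum fun p a => a * (MonoidAlgebra.of ℤ Γ ((g.comp (incl S)) (of p)) - 1)) =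
        MonoidAlgebra.of ℤ Γ h⁻¹ * rCHom P ((fox g y).sum fun p a =>
          a * (MonoidAlgebra.of ℤ Γ (g (of p)) - 1)) := by
      rw [Finsupp.sum_mapRange_index (by intro p; rw [zero_mul])]
      have h2 : ((fox g y).sum fun p a => a * (MonoidAlgebra.of ℤ Γ (g (of p)) - 1)) =
          e.sum fun p a => a * (MonoidAlgebra.of ℤ Γ (g (of p.1)) - 1) := by
        have h3 : Set.BijOn (Subtype.val : S → X × ℤ) (Subtype.val ⁻¹' ↑(fox g y).support)
            ↑(fox g y).support := by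
          refine ⟨fun p hp => hp, Subtype.val_injective.injOn, fun p hp => ?_⟩
          exact ⟨⟨p, hsupp p (Finsupp.mem_support_iff.1 (Finset.mem_coe.1 hp))⟩, hp, rfl⟩
        exact (Finsupp.sum_comapDomain (Subtype.val : S → X × ℤ) (fox g y)
          (fun p a => a * (MonoidAlgebra.of ℤ Γ (g (of p)) - 1)) h3).symm
      rw [h2, Finsupp.sum, Finsupp.sum, map_sum, Finset.mul_sum]
      refine Finset.sum_congr rfl fun p _ => ?_
      have h4 : (g.comp (incl S)) (of p) = g (of p.1) := by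
        rw [MonoidHom.comp_apply, incl, FreeGroup.map.of]
      have h5 : rCHom P (e p * (MonoidAlgebra.of ℤ Γ (g (of p.1)) - 1)) =
          rC P (e p) * (MonoidAlgebra.of ℤ Γ (g (of p.1)) - 1) := by
        rw [mul_sub, mul_sub, map_sub, mul_one, mul_one]
        congr 1
        exact rC_mul_of P _ (hPmul p.1 p.2) _
      rw [h5, h4, mul_assoc]
    have h6 : ((fox g y).sum fun p a => a * (MonoidAlgebra.of ℤ Γ (g (of p)) - 1)) = 0 := by
      rw [fox_fund]
      have : g y = 1 := hy.1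
      rw [this, map_one, sub_self]
    rw [h1, h6, map_zero, mul_zero]
  obtain ⟨u0, hu0, hfu0⟩ := exists_fox_eq (g.comp (incl S)) cc hs hc
  -- `h • fox u0` is the restriction of `fox y`
  have hfox : ∀ p, fox g (incl S u0) p = MonoidAlgebra.of ℤ Γ h⁻¹ * rC P (fox g y p) := by
    intro p
    by_cases hp : p ∈ S
    · have := fox_incl S g u0 ⟨p, hp⟩
      rw [hfu0, hcc] at this
      exact this
    · rw [fox_incl_not_mem S g u0 p hp]
      have : fox g y p = 0 := by
        by_contra h1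
        exact hp (hsupp p h1)
      rw [this, rC_zero, mul_zero]
  obtain ⟨lam, hlam⟩ := exists_smul_of_levels c hΓ f hf y hy x0 i i' hi hi' hr (incl S u0) hu0
    (fun j hj => by
      by_contra h1
      exact hj (fox_incl_not_mem S _ u0 (x0, j) fun hm => h1 (hm rfl)))
  -- `h * lam` is a scalar
  have hmul : ∀ p, MonoidAlgebra.of ℤ Γ h * lam * fox g y p = rC P (fox g y p) := by
    intro p
    have h1 := hfox p
    rw [hlam, Finsupp.smul_apply, smul_eq_mul] at h1
    rw [mul_assoc, h1, ← mul_assoc, ← map_mul, mul_inv_cancel, map_one, one_mul]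
  obtain ⟨z, hz⟩ := hΓ.scalar (MonoidAlgebra.of ℤ Γ h * lam) (fox g y (x0, i)) hi
    (by rw [hmul]; exact rC_support P _)
  have hz1 : z = 1 := by
    have h1 := hmul (x0, i)
    have h2 : (MonoidAlgebra.of ℤ Γ h * lam * fox g y (x0, i)).coeff h =
        (rC P (fox g y (x0, i))).coeff h := by rw [h1]
    rw [rC_pos hP1, hz, MonoidAlgebra.coeff_single_mul_apply, inv_one, one_mul] at h2
    have h3 := Finsupp.mem_support_iff.1 hh
    exact mul_right_cancel₀ h3 (by rw [h2, one_mul])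
  have hone : MonoidAlgebra.of ℤ Γ h * lam = 1 := by
    rw [hz, hz1]
    rfl
  refine ⟨u0, v⁻¹, hu0, ?_⟩
  rw [hlam]
  have h2 : f (iota c v⁻¹) = h⁻¹ := by
    rw [map_inv, map_inv, ← hv]
    rfl
  have h3 : lam = MonoidAlgebra.of ℤ Γ h⁻¹ := by
    rw [← one_mul lam, ← map_one (MonoidAlgebra.of ℤ Γ), ← inv_mul_cancel h, map_mul, mul_assoc,
      hone, mul_one]
  rw [h2, h3]

theorem step_alg (hΓ : LI Γ) (f : FreeGroup (Option X) →* Γ) (hf : f.ker ≤ (tau c).ker)
    (y : FreeGroup (X × ℤ)) (hy : Cyc f (iota c y)) (x0 : X) (i i' : ℤ)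
    (hi : fox (f.comp (iota c)) y (x0, i) ≠ 0) (hi' : fox (f.comp (iota c)) y (x0, i') ≠ 0)
    (hr : ∀ j, fox (f.comp (iota c)) y (x0, j) ≠ 0 → i ≤ j ∧ j ≤ i') :
    ∃ y0 : FreeGroup (Y0 x0 i i'),
      Cyc ((f.comp (iota c)).comp (incl (Y0 x0 i i'))) y0 ∧
      nrm (fox ((f.comp (iota c)).comp (incl (Y0 x0 i i'))) y0) =
        nrm (fox (f.comp (iota c)) y) ∧
      (fox ((f.comp (iota c)).comp (incl (Y0 x0 i i'))) y0).support.card =
        (fox (f.comp (iota c)) y).support.card ∧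
      ((f.comp (iota c)).comp (incl (Y0 x0 i i'))).ker ⊓ without (x0, i') = ⊥ ∧
      ((f.comp (iota c)).comp (incl (Y0 x0 i i'))).ker ⊓ without (x0, i) = ⊥ ∧
      Cyc f (iota c (incl _ y0)) := by
  obtain ⟨y0, v, hy0, hfy0⟩ := exists_y0 c hΓ f hf y hy x0 i i' hi hi' hr
  have hv : MonoidAlgebra.of ℤ Γ (f (iota c v))⁻¹ * MonoidAlgebra.of ℤ Γ (f (iota c v)) = 1 := by
    rw [← map_mul, inv_mul_cancel, map_one]
  refine ⟨y0, ⟨hy0, fun u hu => ?_⟩, ?_, ?_, ker_inf_without c hΓ f hf y hy x0 i i' hi hi' hr i' hi',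
    ker_inf_without c hΓ f hf y hy x0 i i' hi hi' hr i hi, ⟨hy0, fun u hu => ?_⟩⟩
  · -- `ker f0` is generated by `y0`
    obtain ⟨lam, hlam⟩ := exists_smul_of_levels c hΓ f hf y hy x0 i i' hi hi' hr (incl _ u) hu
      (fun j hj => by
        by_contra h1
        exact hj (fox_incl_not_mem _ _ u (x0, j) fun hm => h1 (hm rfl)))
    refine mem_of_fox_smul _ y0 u hy0 hu (lam * MonoidAlgebra.of ℤ Γ (f (iota c v))⁻¹) ?_
    ext1 p
    rw [← fox_incl, hlam, Finsupp.smul_apply, Finsupp.smul_apply, ← fox_incl, hfy0,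
      Finsupp.smul_apply, smul_eq_mul, smul_eq_mul, smul_eq_mul, mul_assoc lam, ← mul_assoc _ _ (fox (f.comp (iota c)) y p.1), hv,
      one_mul]
  · rw [← (nrm_fox_incl _ _ y0).1, hfy0, (nrm_of_smul _ _).1]
  · rw [← (nrm_fox_incl _ _ y0).2, hfy0, (nrm_of_smul _ _).2]
  · -- `iota y` is conjugate to `iota y0` modulo the commutator subgroup
    have hu' := hy.2 hu
    refine (sup_le ?_ le_sup_right : Subgroup.normalClosure {iota c y} ⊔ ⁅f.ker, f.ker⁆ ≤ _) hu'
    have hN : (Subgroup.normalClosure {iota c (incl (Y0 x0 i i') y0)} ⊔ ⁅f.ker, f.ker⁆).Normal :=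
      inferInstance
    refine Subgroup.normalClosure_le_normal ?_
    rintro _ rfl
    have h1 : fox (f.comp (iota c)) (incl _ y0 * (v * y * v⁻¹)⁻¹) = 0 := by
      refine fox_mul_inv_of_eq _ ?_ ?_
      · have h2 : (f.comp (iota c)) y = 1 := hy.1
        rw [map_mul, map_mul, h2, mul_one, map_inv, mul_inv_cancel]
        exact hy0
      · rw [fox_conj (f.comp (iota c)) v y hy.1]
        exact hfy0
    have h2 : incl _ y0 * (v * y * v⁻¹)⁻¹ ∈ ⁅(f.comp (iota c)).ker, (f.comp (iota c)).ker⁆ := by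
      refine mem_of_fox_eq_zero _ ?_ h1
      have h2 : (f.comp (iota c)) y = 1 := hy.1
      have h3 : (f.comp (iota c)) (incl _ y0) = 1 := hy0
      rw [map_mul, map_inv, map_mul, map_mul, h2, h3, mul_one, map_inv, mul_inv_cancel, inv_one,
        mul_one]
    have h3 : iota c (incl _ y0 * (v * y * v⁻¹)⁻¹) ∈ ⁅f.ker, f.ker⁆ := by
      have h4 : (⁅(f.comp (iota c)).ker, (f.comp (iota c)).ker⁆).map (iota c) ≤ ⁅f.ker, f.ker⁆ := by
        rw [Subgroup.map_commutator]
        refine Subgroup.commutator_mono ?_ ?_ <;>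
        · rintro _ ⟨w, hw, rfl⟩
          exact hw
      exact h4 ⟨_, h2, rfl⟩
    have h5 : iota c y = (iota c v)⁻¹ * ((iota c (incl _ y0 * (v * y * v⁻¹)⁻¹))⁻¹ *
        iota c (incl _ y0)) * ((iota c v)⁻¹)⁻¹ := by
      simp only [map_mul, map_inv, mul_inv_rev, inv_inv]
      group
    rw [h5]
    refine hN.conj_mem _ (Subgroup.mul_mem _ (Subgroup.inv_mem _ (Subgroup.mem_sup_right h3))
      (Subgroup.mem_sup_left (Subgroup.subset_normalClosure (Set.mem_singleton _)))) _

end P7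

end Pool.Agent.ROR
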