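import Pool.Agent.ROR.LIGroup
import Pool.Agent.ROR.FoxExt
import Pool.Agent.ROR.Division

/-!
# The rational derived series modulo `R` (package ROR-P13)
-/

set_option autoImplicit false

namespace Pool.Agent.ROR

open FreeGroup (of)
open Pool.Agent.RSMonic

attribute [-simp] MonoidAlgebra.of_apply

open scoped commutatorElement

section Elem
variable {G : Type*} [Group G] (R : Subgroup G) [R.Normal]

/-- modulo a normal subgroup containing `[N,N]`, elements of `N` commute -/
theorem mul_pow_mem_aux (N K : Subgroup G) [K.Normal] (hK : ⁅N, N⁆ ≤ K) {x y : G} (hx : x ∈ N)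
    (hy : y ∈ N) {e e' : ℕ} (hxe : x ^ e ∈ K) (hye : y ^ e' ∈ K) : (x * y) ^ (e * e') ∈ K := by
  have hc : Commute (QuotientGroup.mk' K x) (QuotientGroup.mk' K y) := by
    have h1 : QuotientGroup.mk' K ⁅x, y⁆ = 1 :=
      (QuotientGroup.eq_one_iff _).2 (hK (Subgroup.commutator_mem_commutator hx hy))
    rw [map_commutatorElement] at h1
    exact commutatorElement_eq_one_iff_commute.1 h1
  rw [← QuotientGroup.eq_one_iff, ← QuotientGroup.mk'_apply, map_pow, map_mul, hc.mul_pow]
  have h2 : QuotientGroup.mk' K x ^ e = 1 := by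
    rw [← map_pow]; exact (QuotientGroup.eq_one_iff _).2 hxe
  have h3 : QuotientGroup.mk' K y ^ e' = 1 := by
    rw [← map_pow]; exact (QuotientGroup.eq_one_iff _).2 hye
  rw [pow_mul, h2, one_pow, one_mul, mul_comm e e', pow_mul, h3, one_pow]

theorem mem_closure_nextSet (N : Subgroup G) [N.Normal] (x : G) :
    x ∈ Subgroup.closure (nextSet R N) ↔
      x ∈ N ∧ ∃ e : ℕ, 0 < e ∧ x ^ e ∈ ⁅N, N⁆ ⊔ R := by
  constructor
  · intro hx
    induction hx using Subgroup.closure_induction with
    | mem x hx => exact hx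
    | one => exact ⟨N.one_mem, 1, one_pos, by simp⟩
    | mul x y _ _ hx hy =>
      obtain ⟨hx, e, he, hxe⟩ := hx
      obtain ⟨hy, e', he', hye⟩ := hy
      exact ⟨N.mul_mem hx hy, e * e', Nat.mul_pos he he',
        mul_pow_mem_aux N (⁅N, N⁆ ⊔ R) le_sup_left hx hy hxe hye⟩
    | inv x _ hx =>
      obtain ⟨hx, e, he, hxe⟩ := hx
      exact ⟨N.inv_mem hx, e, he, by rw [inv_pow]; exact Subgroup.inv_mem _ hxe⟩
  · intro hx
    exact Subgroup.subset_closure hx

theorem rser_normal (m : ℕ) : (rser R m).Normal := by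
  induction m with
  | zero => exact inferInstanceAs (⊤ : Subgroup G).Normal
  | succ m ih =>
    constructor
    intro x hx g
    change x ∈ Subgroup.closure (nextSet R (rser R m)) at hx
    change _ ∈ Subgroup.closure (nextSet R (rser R m))
    rw [mem_closure_nextSet] at hx ⊢
    obtain ⟨hx, e, he, hxe⟩ := hx
    refine ⟨ih.conj_mem x hx g, e, he, ?_⟩
    rw [conj_pow]
    have hn : (⁅rser R m, rser R m⁆ ⊔ R).Normal := inferInstance
    exact hn.conj_mem _ hxe g

theorem mem_rser_succ (m : ℕ) (x : G) : x ∈ rser R (m + 1) ↔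
    x ∈ rser R m ∧ ∃ e : ℕ, 0 < e ∧ x ^ e ∈ ⁅rser R m, rser R m⁆ ⊔ R := by
  have := rser_normal R m
  exact mem_closure_nextSet R (rser R m) x

theorem rser_antitone : Antitone (rser R) :=
  antitone_nat_of_succ_le fun m _ hx => ((mem_rser_succ R m _).1 hx).1

theorem le_rser (m : ℕ) : R ≤ rser R m := by
  induction m with
  | zero => exact le_top
  | succ m ih =>
    intro x hx
    rw [mem_rser_succ]
    exact ⟨ih hx, 1, one_pos, by rw [pow_one]; exact (le_sup_right : R ≤ _) hx⟩

theorem rser_tf (m : ℕ) (x : G) (e : ℕ) (he : e ≠ 0) (hx : x ∈ rser R m)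
    (h : x ^ e ∈ rser R (m + 1)) : x ∈ rser R (m + 1) := by
  obtain ⟨_, e', he', h'⟩ := (mem_rser_succ R m _).1 h
  rw [mem_rser_succ]
  exact ⟨hx, e * e', Nat.mul_pos (Nat.pos_of_ne_zero he) he', by rw [pow_mul]; exact h'⟩

theorem commutator_rser_le (m : ℕ) : ⁅rser R m, rser R m⁆ ≤ rser R (m + 1) := by
  intro x hx
  rw [mem_rser_succ]
  have := rser_normal R m
  exact ⟨Subgroup.commutator_le_left _ _ hx, 1, one_pos, by
    rw [pow_one]; exact (le_sup_left : ⁅rser R m, rser R m⁆ ≤ _) hx⟩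

omit [R.Normal] in
theorem mem_rres (x : G) : x ∈ rres R ↔ ∀ m, x ∈ rser R m := Subgroup.mem_iInf

omit [R.Normal] in
theorem rres_le_rser (m : ℕ) : rres R ≤ rser R m := iInf_le _ m

theorem le_rres : R ≤ rres R := le_iInf fun m => le_rser R m

theorem rres_normal : (rres R).Normal := Subgroup.normal_iInf_normal (rser_normal R)

/-- a subsingleton group is locally indicable -/
theorem LI.of_subsingleton (Γ : Type*) [Group Γ] [Subsingleton Γ] : LI Γ := by
  rintro S ⟨s, _, hs⟩
  exact absurd (Subsingleton.elim s 1) hs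

/-- `LI.of_comm` for a group whose elements commute -/
theorem LI.of_commute {A : Type*} [Group A] (hc : ∀ a b : A, a * b = b * a)
    (hA : ∀ (a : A) (e : ℕ), e ≠ 0 → a ^ e = 1 → a = 1) : LI A := by
  let I : CommGroup A := { (inferInstance : Group A) with mul_comm := hc }
  exact @LI.of_comm A I hA

theorem li_quotient_aux (m : ℕ) : ∀ _ : (rser R m).Normal, LI (G ⧸ rser R m) := by
  induction m with
  | zero =>
    intro _
    have : Subsingleton (G ⧸ rser R 0) := QuotientGroup.subsingleton_quotient_top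
    exact LI.of_subsingleton _
  | succ m ih =>
    intro _
    have hn := rser_normal R m
    have hle : rser R (m + 1) ≤ rser R m := rser_antitone R (Nat.le_succ m)
    let l : G ⧸ rser R (m + 1) →* G ⧸ rser R m :=
      QuotientGroup.map _ _ (MonoidHom.id G) (by simpa using hle)
    have hl : ∀ x : G, l (QuotientGroup.mk' _ x) = QuotientGroup.mk' _ x := fun x => rfl
    have hker : ∀ x : G, l (QuotientGroup.mk' _ x) = 1 → x ∈ rser R m := fun x hx =>
      (QuotientGroup.eq_one_iff x).1 (by rw [← QuotientGroup.mk'_apply, ← hl x, hx])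
    refine LI.of_ext l (ih hn) (LI.of_commute ?_ ?_)
    · rintro ⟨a, ha⟩ ⟨b, hb⟩
      obtain ⟨x, rfl⟩ := QuotientGroup.mk'_surjective _ a
      obtain ⟨y, rfl⟩ := QuotientGroup.mk'_surjective _ b
      rw [MonoidHom.mem_ker] at ha hb
      apply Subtype.ext
      change QuotientGroup.mk' _ x * QuotientGroup.mk' _ y =
        QuotientGroup.mk' _ y * QuotientGroup.mk' _ x
      have h1 : QuotientGroup.mk' (rser R (m + 1)) ⁅x, y⁆ = 1 :=
        (QuotientGroup.eq_one_iff _).2 (commutator_rser_le R m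
          (Subgroup.commutator_mem_commutator (hker x ha) (hker y hb)))
      rw [map_commutatorElement] at h1
      exact (commutatorElement_eq_one_iff_mul_comm.1 h1)
    · rintro ⟨a, ha⟩ e he h
      obtain ⟨x, rfl⟩ := QuotientGroup.mk'_surjective _ a
      rw [MonoidHom.mem_ker] at ha
      apply Subtype.ext
      have h1 : (QuotientGroup.mk' (rser R (m + 1)) x) ^ e = 1 := by
        have := congrArg Subtype.val h
        simpa using this
      rw [← map_pow] at h1
      have h2 : x ^ e ∈ rser R (m + 1) := (QuotientGroup.eq_one_iff _).1 h1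
      exact (QuotientGroup.eq_one_iff _).2 (rser_tf R m x e he (hker x ha) h2)

theorem li_quotient (m : ℕ) [(rser R m).Normal] : LI (G ⧸ rser R m) :=
  li_quotient_aux R m inferInstance

/-- the image of the series in `G / rres R` -/
def nser [(rres R).Normal] (m : ℕ) : Subgroup (G ⧸ rres R) :=
  (rser R m).map (QuotientGroup.mk' (rres R))

theorem nser_normal [(rres R).Normal] (m : ℕ) : (nser R m).Normal :=
  (rser_normal R m).map _ (QuotientGroup.mk'_surjective _)

omit [R.Normal] in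
theorem mem_nser [(rres R).Normal] (m : ℕ) (x : G) :
    QuotientGroup.mk' (rres R) x ∈ nser R m ↔ x ∈ rser R m := by
  constructor
  · rintro ⟨y, hy, h⟩
    have h1 : y⁻¹ * x ∈ rres R := QuotientGroup.eq.1 h
    have h2 := (rser R m).mul_mem hy (rres_le_rser R m h1)
    rwa [mul_inv_cancel_left] at h2
  · intro hx
    exact ⟨x, hx, rfl⟩

omit [R.Normal] in
theorem nser_zero [(rres R).Normal] : nser R 0 = ⊤ := by
  rw [Subgroup.eq_top_iff']
  intro x
  obtain ⟨x, rfl⟩ := QuotientGroup.mk'_surjective _ x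
  rw [mem_nser]
  exact Subgroup.mem_top x

theorem nser_antitone [(rres R).Normal] : Antitone (nser R) := fun _ _ h =>
  Subgroup.map_mono (rser_antitone R h)

theorem nser_comm [(rres R).Normal] (m : ℕ) : ⁅nser R m, nser R m⁆ ≤ nser R (m + 1) := by
  rw [nser, ← Subgroup.map_commutator]
  exact Subgroup.map_mono (commutator_rser_le R m)

theorem nser_tf [(rres R).Normal] (m : ℕ) (x : G ⧸ rres R) (e : ℕ) (he : e ≠ 0)
    (hx : x ∈ nser R m) (h : x ^ e ∈ nser R (m + 1)) : x ∈ nser R (m + 1) := by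
  obtain ⟨x, rfl⟩ := QuotientGroup.mk'_surjective _ x
  rw [← map_pow] at h
  rw [mem_nser] at hx h ⊢
  exact rser_tf R m x e he hx h

omit [R.Normal] in
theorem nser_bot [(rres R).Normal] (x : G ⧸ rres R) (h : ∀ m, x ∈ nser R m) : x = 1 := by
  obtain ⟨x, rfl⟩ := QuotientGroup.mk'_surjective _ x
  refine (QuotientGroup.eq_one_iff x).2 ((mem_rres R x).2 fun m => ?_)
  exact (mem_nser R m x).1 (h m)

theorem li_nser [(rres R).Normal] (m : ℕ) [(nser R m).Normal] : LI ((G ⧸ rres R) ⧸ nser R m) := by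
  have := rser_normal R m
  let e : (G ⧸ rres R) ⧸ nser R m ≃* G ⧸ rser R m :=
    QuotientGroup.quotientQuotientEquivQuotient (rres R) (rser R m) (rres_le_rser R m)
  exact LI.of_injective e.toMonoidHom e.injective (li_quotient R m)

theorem li_rres [(rres R).Normal] : LI (G ⧸ rres R) := by
  have : ∀ m, (nser R m).Normal := nser_normal R
  exact LI.of_chain (nser R) (nser_antitone R) (nser_bot R) fun m => li_nser R m

end Elem

section GroupRing

variable {Γ : Type*} [Group Γ]

/-- no zero divisors (`LI.noZeroDivisors` of `LIRing`, from `LI.uniqueProds`) -/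
theorem LI.nzd {Γ : Type*} [Group Γ] (h : LI Γ) (k : Type*) [Ring k] [NoZeroDivisors k] :
    NoZeroDivisors (MonoidAlgebra k Γ) := by
  have := h.uniqueProds
  infer_instance

theorem exists_injOn (N : ℕ → Subgroup Γ) [∀ m, (N m).Normal] (hanti : Antitone N)
    (hbot : ∀ x, (∀ m, x ∈ N m) → x = 1) (S : Finset Γ) :
    ∃ m, ∀ m' ≥ m, Set.InjOn (QuotientGroup.mk' (N m')) (S : Set Γ) := by
  classical
  have hsep : ∀ γ γ' : Γ, γ ≠ γ' → ∃ m, ∀ m' ≥ m,
      QuotientGroup.mk' (N m') γ ≠ QuotientGroup.mk' (N m') γ' := by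
    intro γ γ' hne
    have h1 : ¬ ∀ m, γ⁻¹ * γ' ∈ N m := fun h => hne (by
      have := hbot _ h
      rwa [inv_mul_eq_one] at this)
    push Not at h1
    obtain ⟨m, hm⟩ := h1
    exact ⟨m, fun m' hm' heq => hm (hanti hm' (QuotientGroup.eq.1 heq))⟩
  choose! M hM using hsep
  refine ⟨(S ×ˢ S).sup fun p => M p.1 p.2, fun m' hm' γ hγ γ' hγ' heq => ?_⟩
  by_contra hne
  refine hM γ γ' hne m' (le_trans ?_ hm') heq
  exact Finset.le_sup (f := fun p : Γ × Γ => M p.1 p.2)
    (Finset.mem_product.2 ⟨hγ, hγ'⟩ : (γ, γ') ∈ S ×ˢ S)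

theorem eq_zero_of_mapDomain {k : Type*} [Ring k] {Γ' : Type*} [Group Γ'] (l : Γ →* Γ')
    (b : MonoidAlgebra k Γ) (hinj : Set.InjOn l (b.coeff.support : Set Γ))
    (h : MonoidAlgebra.mapDomainRingHom k l b = 0) : b = 0 := by
  have h1 : Finsupp.mapDomain l b.coeff = 0 := by
    have := congrArg MonoidAlgebra.coeff h
    simpa using this
  have h2 : b.coeff = 0 := by
    refine Finsupp.mapDomain_injOn (b.coeff.support : Set Γ) hinj ?_ ?_ ?_
    · simp
    · simp
    · rw [h1, Finsupp.mapDomain_zero]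
  exact MonoidAlgebra.coeff_injective (by rw [h2]; rfl)

/-- `ℤΓ → ℚΓ` -/
noncomputable def rat (Γ : Type*) [Group Γ] : MonoidAlgebra ℤ Γ →+* MonoidAlgebra ℚ Γ :=
  MonoidAlgebra.mapRingHom Γ (Int.castRingHom ℚ)

theorem coeff_rat (a : MonoidAlgebra ℤ Γ) (γ : Γ) : (rat Γ a).coeff γ = (a.coeff γ : ℚ) := by
  simp [rat]

theorem rat_injective : Function.Injective (rat Γ) := by
  intro a b h
  apply MonoidAlgebra.coeff_injective
  ext γ
  have := congrArg (fun t => MonoidAlgebra.coeff t γ) h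
  simp only [coeff_rat] at this
  exact_mod_cast this

theorem rat_mapDomain {Γ' : Type*} [Group Γ'] (l : Γ →* Γ') (a : MonoidAlgebra ℤ Γ) :
    rat Γ' (MonoidAlgebra.mapDomainRingHom ℤ l a) =
      MonoidAlgebra.mapDomainRingHom ℚ l (rat Γ a) :=
  RingHom.congr_fun (MonoidAlgebra.mapRingHom_comp_mapDomainRingHom (Int.castRingHom ℚ) l) a

/-- common denominator -/
theorem exists_denom (mu : MonoidAlgebra ℚ Γ) :
    ∃ (N : ℕ) (nu : MonoidAlgebra ℤ Γ), 0 < N ∧ rat Γ nu = N • mu := by
  induction mu using MonoidAlgebra.induction_linear with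
  | zero => exact ⟨1, 0, one_pos, by simp⟩
  | add f g hf hg =>
    obtain ⟨N, nu, hN, h⟩ := hf
    obtain ⟨N', nu', hN', h'⟩ := hg
    refine ⟨N * N', N' • nu + N • nu', Nat.mul_pos hN hN', ?_⟩
    rw [map_add, map_nsmul, map_nsmul, h, h', smul_add, ← mul_smul, ← mul_smul, mul_comm N' N]
  | single γ q =>
    refine ⟨q.den, MonoidAlgebra.single γ q.num, q.den_pos, ?_⟩
    apply MonoidAlgebra.coeff_injective
    ext γ'
    rw [coeff_rat]
    classical
    simp only [MonoidAlgebra.coeff_smul, Finsupp.smul_apply, MonoidAlgebra.coeff_single,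
      Finsupp.single_apply]
    split_ifs
    · rw [nsmul_eq_mul, mul_comm]
      exact (Rat.mul_den_eq_num q).symm
    · simp

omit [Group Γ] in
theorem coeff_nsmul_apply {k : Type*} [Ring k] (n : ℕ) (a : MonoidAlgebra k Γ) (γ : Γ) :
    (n • a).coeff γ = n * a.coeff γ := by
  rw [MonoidAlgebra.coeff_smul, Finsupp.smul_apply, nsmul_eq_mul]

omit [Group Γ] in
/-- divide all coefficients -/
theorem exists_div (p : ℕ) (a : MonoidAlgebra ℤ Γ) (h : ∀ γ, (p : ℤ) ∣ a.coeff γ) :
    ∃ b : MonoidAlgebra ℤ Γ, a = p • b := by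
  refine ⟨MonoidAlgebra.ofCoeff (a.coeff.mapRange (fun z => z / (p : ℤ)) (by simp)), ?_⟩
  apply MonoidAlgebra.coeff_injective
  ext γ
  rw [coeff_nsmul_apply, MonoidAlgebra.coeff_ofCoeff, Finsupp.mapRange_apply]
  exact (Int.mul_ediv_cancel' (h γ)).symm

theorem exists_div_fam {X : Type*} (p : ℕ) (c : X →₀ MonoidAlgebra ℤ Γ)
    (h : ∀ z γ, (p : ℤ) ∣ (c z).coeff γ) : ∃ c' : X →₀ MonoidAlgebra ℤ Γ, c = p • c' := by
  choose b hb using fun z => exists_div p (c z) (h z)
  classical
  refine ⟨Finsupp.onFinset c.support (fun z => if c z = 0 then 0 else b z) ?_, ?_⟩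
  · intro z hz
    rw [Finsupp.mem_support_iff]
    intro h0
    simp [h0] at hz
  · ext1 z
    rw [Finsupp.smul_apply, Finsupp.onFinset_apply]
    split_ifs with h0
    · rw [h0, smul_zero]
    · exact hb z

/-- the content -/
theorem exists_content {X : Type*} (n : ℕ) : ∀ (d : X →₀ MonoidAlgebra ℤ Γ) (z : X) (γ : Γ),
    (d z).coeff γ ≠ 0 → ((d z).coeff γ).natAbs ≤ n →
    ∃ (k : ℕ) (c : X →₀ MonoidAlgebra ℤ Γ), 0 < k ∧ d = k • c ∧
      ∀ p : ℕ, p.Prime → ∃ z γ, ¬ (p : ℤ) ∣ (c z).coeff γ := by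
  induction n with
  | zero =>
    intro d z γ h0 hn
    exact absurd (Int.natAbs_eq_zero.1 (Nat.le_zero.1 hn)) h0
  | succ n ih =>
    intro d z γ h0 hn
    by_cases h : ∀ p : ℕ, p.Prime → ∃ z γ, ¬ (p : ℤ) ∣ (d z).coeff γ
    · exact ⟨1, d, one_pos, by rw [one_smul], h⟩
    · push Not at h
      obtain ⟨p, hp, h⟩ := h
      obtain ⟨d', rfl⟩ := exists_div_fam p d h
      have h1 : ((p • d') z).coeff γ = (p : ℤ) * (d' z).coeff γ := by
        rw [Finsupp.smul_apply, coeff_nsmul_apply]
      rw [h1] at h0 hn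
      have h2 : (d' z).coeff γ ≠ 0 := right_ne_zero_of_mul h0
      have h3 : ((d' z).coeff γ).natAbs ≤ n := by
        rw [Int.natAbs_mul, Int.natAbs_natCast] at hn
        have h4 := Int.natAbs_pos.2 h2
        have h5 := hp.two_le
        nlinarith
      obtain ⟨k, c, hk, hc, hprim⟩ := ih d' z γ h2 h3
      exact ⟨p * k, c, Nat.mul_pos hp.pos hk, by rw [mul_smul, ← hc], hprim⟩

/-- a quotient of integral families by a primitive family is integral -/
theorem integral_aux (hΓ : LI Γ) {X : Type*} (c v : X →₀ MonoidAlgebra ℤ Γ)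
    (hprim : ∀ p : ℕ, p.Prime → ∃ z γ, ¬ (p : ℤ) ∣ (c z).coeff γ) (mu : MonoidAlgebra ℚ Γ)
    (hmu : ∀ z, mu * rat Γ (c z) = rat Γ (v z)) (N : ℕ) :
    ∀ nu : MonoidAlgebra ℤ Γ, 0 < N → rat Γ nu = N • mu →
      ∃ nu : MonoidAlgebra ℤ Γ, rat Γ nu = mu := by
  induction N using Nat.strong_induction_on with
  | _ N ih =>
    intro nu hN hnu
    by_cases h1 : N = 1
    · subst h1
      exact ⟨nu, by rw [hnu, one_smul]⟩
    · obtain ⟨p, hp, N', rfl⟩ := Nat.exists_prime_and_dvd h1
      have : Fact p.Prime := ⟨hp⟩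
      obtain ⟨z, γ, hz⟩ := hprim p hp
      have h2 : nu * c z = (p * N') • v z := by
        apply rat_injective
        rw [map_mul, hnu, map_nsmul, ← hmu z, smul_mul_assoc]
      let q := MonoidAlgebra.mapRingHom Γ (Int.castRingHom (ZMod p))
      have h3 : q nu * q (c z) = 0 := by
        rw [← map_mul, h2, map_nsmul]
        apply MonoidAlgebra.coeff_injective
        ext γ
        rw [coeff_nsmul_apply]
        simp
      have h4 : q (c z) ≠ 0 := by
        intro h0
        apply hz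
        have := congrArg (fun t => MonoidAlgebra.coeff t γ) h0
        simp only [q, MonoidAlgebra.coeff_mapRingHom] at this
        simpa [ZMod.intCast_zmod_eq_zero_iff_dvd] using this
      have := hΓ.nzd (ZMod p)
      have h5 : q nu = 0 := (mul_eq_zero.1 h3).resolve_right h4
      have h6 : ∀ γ, (p : ℤ) ∣ nu.coeff γ := by
        intro γ
        have := congrArg (fun t => MonoidAlgebra.coeff t γ) h5
        simp only [q, MonoidAlgebra.coeff_mapRingHom] at this
        simpa [ZMod.intCast_zmod_eq_zero_iff_dvd] using this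
      obtain ⟨nu', rfl⟩ := exists_div p nu h6
      have h7 : N' ≠ 0 := by
        rintro rfl
        simp at hN
      refine ih N' ?_ nu' (Nat.pos_of_ne_zero h7) ?_
      · have := hp.two_le
        have := Nat.pos_of_ne_zero h7
        nlinarith
      · have h8 : p • rat Γ nu' = p • (N' • mu) := by
          rw [← map_nsmul, hnu, mul_smul]
        exact smul_right_injective _ hp.ne_zero h8

theorem integral (hΓ : LI Γ) {X : Type*} (c v : X →₀ MonoidAlgebra ℤ Γ)
    (hprim : ∀ p : ℕ, p.Prime → ∃ z γ, ¬ (p : ℤ) ∣ (c z).coeff γ) (mu : MonoidAlgebra ℚ Γ)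
    (hmu : ∀ z, mu * rat Γ (c z) = rat Γ (v z)) :
    ∃ nu : MonoidAlgebra ℤ Γ, v = nu • c := by
  obtain ⟨N, nu, hN, h⟩ := exists_denom mu
  obtain ⟨nu, rfl⟩ := integral_aux hΓ c v hprim mu hmu N nu hN h
  refine ⟨nu, ?_⟩
  ext1 z
  apply rat_injective
  rw [← hmu z, Finsupp.smul_apply, smul_eq_mul, map_mul]

end GroupRing

section TowerThm

variable {X : Type*}

theorem fox_pow_of_eq_one {Γ : Type*} [Group Γ] (f : FreeGroup X →* Γ) {x : FreeGroup X}
    (hx : f x = 1) (n : ℕ) : fox f (x ^ n) = n • fox f x := by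
  induction n with
  | zero => rw [pow_zero, fox_one, zero_smul]
  | succ n ih =>
    rw [pow_succ, fox_mul, ih, map_pow, hx, one_pow, map_one, one_smul, succ_nsmul]

/-- the relation at level `m` -/
theorem tower_level (r : FreeGroup X) [(rres (Subgroup.normalClosure {r})).Normal]
    [∀ m, (nser (Subgroup.normalClosure {r}) m).Normal]
    (x : FreeGroup X) (hx : x ∈ rres (Subgroup.normalClosure {r})) (m : ℕ) :
    ∃ (e : ℕ) (lam : MonoidAlgebra ℤ ((FreeGroup X ⧸ rres (Subgroup.normalClosure {r})) ⧸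
        nser (Subgroup.normalClosure {r}) m)), 0 < e ∧ ∀ z,
      e • MonoidAlgebra.mapDomainRingHom ℤ
          (QuotientGroup.mk' (nser (Subgroup.normalClosure {r}) m))
          (fox (QuotientGroup.mk' (rres (Subgroup.normalClosure {r}))) x z) =
        lam * MonoidAlgebra.mapDomainRingHom ℤ
          (QuotientGroup.mk' (nser (Subgroup.normalClosure {r}) m))
          (fox (QuotientGroup.mk' (rres (Subgroup.normalClosure {r}))) r z) := by
  set R := Subgroup.normalClosure {r} with hR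
  let g := (QuotientGroup.mk' (nser R m)).comp (QuotientGroup.mk' (rres R))
  have hg : ∀ y, g y = 1 ↔ y ∈ rser R m := by
    intro y
    rw [← mem_nser R m y]
    exact QuotientGroup.eq_one_iff _
  have hker : g.ker = rser R m := by
    ext y
    rw [MonoidHom.mem_ker, hg]
  obtain ⟨hxm, e, he, hxe⟩ := (mem_rser_succ R m x).1 ((mem_rres R x).1 hx (m + 1))
  have hr1 : g r = 1 := (hg r).2 (le_rser R m (Subgroup.subset_normalClosure rfl))
  have h1 : fox g (x ^ e) ∈ Submodule.span
      (MonoidAlgebra ℤ ((FreeGroup X ⧸ rres R) ⧸ nser R m)) (fox g '' {r}) := by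
    refine fox_mem_span g {r} ?_ _ ?_
    · rintro y rfl
      exact hr1
    · rw [hker, sup_comm]
      exact hxe
  rw [Set.image_singleton, Submodule.mem_span_singleton] at h1
  obtain ⟨lam, hlam⟩ := h1
  rw [fox_pow_of_eq_one g ((hg x).2 hxm)] at hlam
  refine ⟨e, lam, he, fun z => ?_⟩
  rw [← fox_comp_apply, ← fox_comp_apply]
  have h2 := DFunLike.congr_fun hlam z
  rw [Finsupp.smul_apply, Finsupp.smul_apply, smul_eq_mul] at h2
  exact h2.symm

theorem tower_ne (r : FreeGroup X) (hr : r ≠ 1)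
    [(rres (Subgroup.normalClosure {r})).Normal] :
    fox (QuotientGroup.mk' (rres (Subgroup.normalClosure {r}))) r ≠ 0 := by
  intro h0
  have hn := nser_normal (Subgroup.normalClosure {r})
  have hrn := rser_normal (Subgroup.normalClosure {r})
  set R := Subgroup.normalClosure {r} with hR
  have hlt : ∀ m (Γ' : Type _) [Group Γ'] (a : MonoidAlgebra ℤ Γ'), m ≠ 0 → m • a = 0 → a = 0 := by
    intro m Γ' _ a hm h
    apply MonoidAlgebra.coeff_injective
    ext γ
    have h1 := congrArg (fun t => MonoidAlgebra.coeff t γ) h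
    simp only [coeff_nsmul_apply] at h1
    simp only [MonoidAlgebra.coeff_zero, Finsupp.zero_apply] at h1 ⊢
    rcases mul_eq_zero.1 h1 with h2 | h2
    · exact absurd (by exact_mod_cast h2) hm
    · exact h2
  have hperf : rres R ≤ ⁅rres R, rres R⁆ := by
    intro x hx
    have h1 : fox (QuotientGroup.mk' (rres R)) x = 0 := by
      ext1 z
      rw [Finsupp.zero_apply]
      obtain ⟨m, hm⟩ := exists_injOn (nser R) (nser_antitone R) (nser_bot R)
        (fox (QuotientGroup.mk' (rres R)) x z).coeff.support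
      refine eq_zero_of_mapDomain (QuotientGroup.mk' (nser R m)) _ (hm m le_rfl) ?_
      obtain ⟨e, lam, he, h⟩ := tower_level r x hx m
      have h2 := h z
      rw [h0, Finsupp.zero_apply, map_zero, mul_zero] at h2
      exact hlt e _ _ he.ne' h2
    have h3 := mem_of_fox_eq_zero (QuotientGroup.mk' (rres R))
      ((QuotientGroup.eq_one_iff x).2 hx) h1
    rwa [QuotientGroup.ker_mk'] at h3
  have hbot := perfect_eq_bot _ hperf
  have hrE : r ∈ rres R := le_rres R (Subgroup.subset_normalClosure rfl)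
  rw [hbot, Subgroup.mem_bot] at hrE
  exact hr hrE

/-- the relation over `ℚ` -/
theorem tower_rat (r : FreeGroup X) (hr : r ≠ 1)
    [(rres (Subgroup.normalClosure {r})).Normal]
    (x : FreeGroup X) (hx : x ∈ rres (Subgroup.normalClosure {r})) :
    ∃ lam : MonoidAlgebra ℚ (FreeGroup X ⧸ rres (Subgroup.normalClosure {r})), ∀ z,
      lam * rat _ (fox (QuotientGroup.mk' (rres (Subgroup.normalClosure {r}))) r z) =
        rat _ (fox (QuotientGroup.mk' (rres (Subgroup.normalClosure {r}))) x z) := by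
  have hn := nser_normal (Subgroup.normalClosure {r})
  obtain ⟨z0, hz0⟩ := Finsupp.ne_iff.1 (tower_ne r hr)
  rw [Finsupp.zero_apply] at hz0
  set R := Subgroup.normalClosure {r} with hR
  set f := QuotientGroup.mk' (rres R) with hf
  have hδ : rat _ (fox f r z0) ≠ 0 := fun h => hz0 (rat_injective (by rw [h, map_zero]))
  -- the relation over `ℚ` at level `m`
  have hlev : ∀ m, ∃ lam : MonoidAlgebra ℚ ((FreeGroup X ⧸ rres R) ⧸ nser R m), ∀ z,
      lam * MonoidAlgebra.mapDomainRingHom ℚ (QuotientGroup.mk' (nser R m)) (rat _ (fox f r z)) =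
        MonoidAlgebra.mapDomainRingHom ℚ (QuotientGroup.mk' (nser R m)) (rat _ (fox f x z)) := by
    intro m
    obtain ⟨e, lam, he, h⟩ := tower_level r x hx m
    refine ⟨(e : ℚ)⁻¹ • rat _ lam, fun z => ?_⟩
    have h1 := congrArg (rat _) (h z)
    rw [map_mul, map_nsmul, rat_mapDomain, rat_mapDomain] at h1
    rw [smul_mul_assoc, ← h1, ← Nat.cast_smul_eq_nsmul ℚ, smul_smul,
      inv_mul_cancel₀ (by exact_mod_cast he.ne'), one_smul]
  obtain ⟨lam, hlam⟩ := division (nser R) (nser_zero R) (nser_antitone R) (nser_comm R)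
    (nser_tf R) (nser_bot R) (rat _ (fox f r z0)) (rat _ (fox f x z0)) hδ fun m => by
      obtain ⟨l, hl⟩ := hlev m
      exact ⟨l, hl z0⟩
  refine ⟨lam, fun z => ?_⟩
  rw [← sub_eq_zero]
  obtain ⟨m1, hm1⟩ := exists_injOn (nser R) (nser_antitone R) (nser_bot R)
    (lam * rat _ (fox f r z) - rat _ (fox f x z)).coeff.support
  obtain ⟨m2, hm2⟩ := exists_injOn (nser R) (nser_antitone R) (nser_bot R)
    (rat _ (fox f r z0)).coeff.support
  let m := max m1 m2
  refine eq_zero_of_mapDomain (QuotientGroup.mk' (nser R m)) _ (hm1 m (le_max_left _ _)) ?_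
  have hne : MonoidAlgebra.mapDomainRingHom ℚ (QuotientGroup.mk' (nser R m))
      (rat _ (fox f r z0)) ≠ 0 := fun h =>
    hδ (eq_zero_of_mapDomain (QuotientGroup.mk' (nser R m)) _ (hm2 m (le_max_right _ _)) h)
  obtain ⟨l, hl⟩ := hlev m
  have hnz := (li_nser R m).nzd ℚ
  have hleq : MonoidAlgebra.mapDomainRingHom ℚ (QuotientGroup.mk' (nser R m)) lam = l := by
    have h1 := hl z0
    rw [← hlam, map_mul, ← sub_eq_zero, ← sub_mul] at h1
    exact (sub_eq_zero.1 ((mul_eq_zero.1 h1).resolve_right hne)).symm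
  rw [map_sub, map_mul, hleq, hl z, sub_self]

theorem tower (r : FreeGroup X) (hr : r ≠ 1)
    [(rres (Subgroup.normalClosure {r})).Normal] :
    ∃ (y : FreeGroup X) (k : ℕ), 0 < k ∧
      Cyc (QuotientGroup.mk' (rres (Subgroup.normalClosure {r}))) y ∧
      y ^ k * r⁻¹ ∈ ⁅rres (Subgroup.normalClosure {r}), rres (Subgroup.normalClosure {r})⁆ := by
  obtain ⟨z0, hz0⟩ := Finsupp.ne_iff.1 (tower_ne r hr)
  have hrat := tower_rat r hr
  have hrE : r ∈ rres (Subgroup.normalClosure {r}) :=
    le_rres _ (Subgroup.subset_normalClosure rfl)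
  have hLI := li_rres (Subgroup.normalClosure {r})
  set R := Subgroup.normalClosure {r} with hR
  set f := QuotientGroup.mk' (rres R) with hf
  rw [Finsupp.zero_apply] at hz0
  obtain ⟨γ, hγ⟩ : ∃ γ, (fox f r z0).coeff γ ≠ 0 := by
    by_contra h
    push Not at h
    exact hz0 (MonoidAlgebra.coeff_injective (by ext γ; simpa using h γ))
  have hfr : f r = 1 := (QuotientGroup.eq_one_iff r).2 hrE
  obtain ⟨k, c, hk, hc, hprim⟩ := exists_content _ (fox f r) z0 γ hγ le_rfl
  -- `c` is a cycle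
  have hcyc : (c.sum fun x a => a * (MonoidAlgebra.of ℤ _ (f (of x)) - 1)) = 0 := by
    have h1 := fox_fund f r
    rw [hfr, map_one, sub_self, hc, Finsupp.sum_smul_index' (by simp)] at h1
    have h2 : k • (c.sum fun x a => a * (MonoidAlgebra.of ℤ _ (f (of x)) - 1)) = 0 := by
      rw [Finsupp.smul_sum, ← h1]
      refine Finsupp.sum_congr fun z _ => ?_
      rw [smul_mul_assoc]
    apply MonoidAlgebra.coeff_injective
    ext γ
    have h3 := congrArg (fun t => MonoidAlgebra.coeff t γ) h2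
    simp only [coeff_nsmul_apply] at h3
    rw [MonoidAlgebra.coeff_zero, Finsupp.zero_apply] at h3 ⊢
    rcases mul_eq_zero.1 h3 with h4 | h4
    · exact absurd (by exact_mod_cast h4) hk.ne'
    · exact h4
  obtain ⟨y, hy1, hy⟩ := exists_fox_eq f c (fun z g _ => by
    rw [MonoidHom.range_eq_top_of_surjective f (QuotientGroup.mk'_surjective _)]
    exact Subgroup.mem_top g) hcyc
  refine ⟨y, k, hk, ⟨hy1, ?_⟩, ?_⟩
  · intro x hx
    have hxE : x ∈ rres R := by rwa [hf, QuotientGroup.ker_mk'] at hx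
    obtain ⟨lam, hlam⟩ := hrat x hxE
    obtain ⟨nu, hnu⟩ := integral hLI c (fox f x) hprim (k • lam) fun z => by
      rw [← hlam z, hc, Finsupp.smul_apply, map_nsmul, smul_mul_assoc, mul_smul_comm]
    exact mem_of_fox_smul f y x hy1 hx nu (by rw [hnu, hy])
  · have h1 : f (y ^ k * r⁻¹) = 1 := by
      rw [map_mul, map_pow, hy1, one_pow, map_inv, hfr, inv_one, one_mul]
    have h2 : fox f (y ^ k * r⁻¹) = 0 := by
      refine fox_mul_inv_of_eq f ?_ ?_
      · rw [map_pow, hy1, one_pow, hfr]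
      · rw [fox_pow_of_eq_one f hy1, hy, hc]
    have h3 := mem_of_fox_eq_zero f h1 h2
    rwa [hf, QuotientGroup.ker_mk'] at h3

end TowerThm

end Pool.Agent.ROR
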