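import Pool.Agent.ROR.LIGroup
import Pool.Agent.ROR.LIRing
import Pool.Agent.ROR.FoxExt
import Pool.Agent.ROR.Tower
import Pool.Agent.ROR.FoxGood
import Pool.Agent.ROR.Core

/-! # Certificates and residual solvability (project ROR, MP_08b746_al) -/

set_option autoImplicit false

namespace Pool.Agent.ROR

open FreeGroup (of)
open Pool.Agent.RSMonic

attribute [-simp] MonoidAlgebra.of_apply

variable {X : Type*}

/-! ## group theory -/

/-- commutators of a term lie in the next term -/
theorem comm_le_rser_succ {G : Type*} [Group G] (R : Subgroup G) [R.Normal] (m : ℕ) :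
    ⁅rser R m, rser R m⁆ ≤ rser R (m + 1) := by
  have := rser_normal R m
  intro x hx
  rw [mem_rser_succ]
  refine ⟨Subgroup.commutator_le_right _ _ hx, 1, one_pos, ?_⟩
  rw [pow_one]
  exact Subgroup.mem_sup_left hx

/-- certificate: `r = (g r'^{±1} g⁻¹)^k` modulo `[R', R']`, `R' = ⟨⟨r'⟩⟩` -/
def Crt (r r' : FreeGroup X) (k : ℕ) (g : FreeGroup X) (b : Bool) : Prop :=
  r * (g * (if b then r' else r'⁻¹) ^ k * g⁻¹)⁻¹ ∈
    ⁅Subgroup.normalClosure {r'}, Subgroup.normalClosure {r'}⁆

/-- `r` is no proper power -/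
def NonPow (r : FreeGroup X) : Prop := ∀ (g : FreeGroup X) (k : ℕ), g ^ k = r → k = 1

theorem crt_le {r r' : FreeGroup X} {k : ℕ} (hk : 0 < k) {g : FreeGroup X} {b : Bool}
    (h : Crt r r' k g b) :
    Subgroup.normalClosure {r'} ≤ rres (Subgroup.normalClosure {r}) := by
  rw [rres]
  refine le_iInf fun m => ?_
  induction m with
  | zero => exact le_top
  | succ m ih =>
    have := rser_normal (Subgroup.normalClosure {r}) m
    have := rser_normal (Subgroup.normalClosure {r}) (m + 1)
    refine Subgroup.normalClosure_le_normal (Set.singleton_subset_iff.2 ?_)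
    show r' ∈ rser (Subgroup.normalClosure {r}) (m + 1)
    rw [mem_rser_succ]
    refine ⟨ih (Subgroup.subset_normalClosure rfl), k, hk, ?_⟩
    have h1 : r * (g * (if b then r' else r'⁻¹) ^ k * g⁻¹)⁻¹ ∈
        ⁅rser (Subgroup.normalClosure {r}) m, rser (Subgroup.normalClosure {r}) m⁆ ⊔
          Subgroup.normalClosure {r} :=
      Subgroup.mem_sup_left (Subgroup.commutator_mono ih ih h)
    have hr : r ∈ ⁅rser (Subgroup.normalClosure {r}) m, rser (Subgroup.normalClosure {r}) m⁆ ⊔
        Subgroup.normalClosure {r} :=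
      Subgroup.mem_sup_right (Subgroup.subset_normalClosure rfl)
    have h2 : g * (if b then r' else r'⁻¹) ^ k * g⁻¹ ∈
        ⁅rser (Subgroup.normalClosure {r}) m, rser (Subgroup.normalClosure {r}) m⁆ ⊔
          Subgroup.normalClosure {r} := by
      have := Subgroup.mul_mem _ (Subgroup.inv_mem _ h1) hr
      simpa [mul_assoc] using this
    have hN : (⁅rser (Subgroup.normalClosure {r}) m, rser (Subgroup.normalClosure {r}) m⁆ ⊔
        Subgroup.normalClosure {r}).Normal := inferInstance
    have h3 : (if b then r' else r'⁻¹) ^ k ∈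
        ⁅rser (Subgroup.normalClosure {r}) m, rser (Subgroup.normalClosure {r}) m⁆ ⊔
          Subgroup.normalClosure {r} := by
      have := hN.conj_mem _ h2 g⁻¹
      simpa [mul_assoc] using this
    cases b with
    | true => simpa using h3
    | false =>
      have h4 := Subgroup.inv_mem _ h3
      simpa using h4

/-! ## Fox derivatives of words -/

section Fox

variable {Γ : Type*} [Group Γ]

/-- the support of a Fox derivative consists of images of prefixes -/
theorem mem_support_start (f : FreeGroup X →* Γ) (w : List (X × Bool)) (x : X) (γ : Γ)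
    (h : γ ∈ (fox f (FreeGroup.mk w) x).coeff.support) :
    ∃ p, p <+: w ∧ γ = f (FreeGroup.mk p) := by
  classical
  induction w generalizing γ with
  | nil =>
    exfalso
    have : (FreeGroup.mk ([] : List (X × Bool))) = 1 := rfl
    rw [this, fox_one] at h
    simp at h
  | cons a w ih =>
    obtain ⟨z, b⟩ := a
    have hmk : FreeGroup.mk ((z, b) :: w) = FreeGroup.mk [(z, b)] * FreeGroup.mk w := by
      rw [FreeGroup.mul_mk]; rfl
    rw [hmk, fox_mul, Finsupp.add_apply, Finsupp.smul_apply] at h
    have h' : γ ∈ (fox f (FreeGroup.mk [(z, b)]) x).coeff.support ∪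
        (MonoidAlgebra.of ℤ Γ (f (FreeGroup.mk [(z, b)])) • fox f (FreeGroup.mk w) x).coeff.support :=
      Finsupp.support_add h
    rw [Finset.mem_union] at h'
    rcases h' with h' | h'
    · cases b with
      | true =>
        have : FreeGroup.mk [(z, true)] = of z := rfl
        rw [this, fox_of, Finsupp.single_apply] at h'
        split_ifs at h' with hz
        · have : γ = 1 := by
            by_contra hne
            simp [MonoidAlgebra.one_def] at h'
            exact hne h'
          exact ⟨[], ⟨_, rfl⟩, by rw [this]; exact (map_one f).symm⟩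
        · simp at h'
      | false =>
        have : FreeGroup.mk [(z, false)] = (of z)⁻¹ := rfl
        rw [this, fox_inv, fox_of, Finsupp.neg_apply, Finsupp.smul_apply,
          Finsupp.single_apply] at h'
        split_ifs at h' with hz
        · refine ⟨[(z, false)], ⟨w, rfl⟩, ?_⟩
          rw [this, map_inv]
          by_contra hne
          simp [MonoidAlgebra.of_apply] at h'
          exact hne h'
        · simp at h'
    · have h2 : (f (FreeGroup.mk [(z, b)]))⁻¹ * γ ∈
          (fox f (FreeGroup.mk w) x).coeff.support := by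
        rw [Finsupp.mem_support_iff] at h' ⊢
        intro h0
        apply h'
        rw [smul_eq_mul, MonoidAlgebra.of_apply, MonoidAlgebra.coeff_single_mul_apply, h0, mul_zero]
      obtain ⟨p, hp, hγ⟩ := ih _ h2
      refine ⟨(z, b) :: p, ?_, ?_⟩
      · obtain ⟨t, rfl⟩ := hp
        exact ⟨t, rfl⟩
      · have hmk' : FreeGroup.mk ((z, b) :: p) = FreeGroup.mk [(z, b)] * FreeGroup.mk p := by
          rw [FreeGroup.mul_mk]; rfl
        rw [hmk', map_mul, ← hγ]
        simp

/-- the letters in the support of a Fox derivative occur in the word -/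
theorem letter_mem (f : FreeGroup X →* Γ) (w : List (X × Bool)) (x : X)
    (h : fox f (FreeGroup.mk w) x ≠ 0) : ∃ e, (x, e) ∈ w := by
  classical
  induction w with
  | nil =>
    exfalso
    apply h
    have : (FreeGroup.mk ([] : List (X × Bool))) = 1 := rfl
    rw [this, fox_one, Finsupp.zero_apply]
  | cons a w ih =>
    obtain ⟨z, b⟩ := a
    by_cases hz : z = x
    · subst hz
      exact ⟨b, List.mem_cons_self⟩
    · have hmk : FreeGroup.mk ((z, b) :: w) = FreeGroup.mk [(z, b)] * FreeGroup.mk w := by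
        rw [FreeGroup.mul_mk]; rfl
      rw [hmk, fox_mul, Finsupp.add_apply, Finsupp.smul_apply] at h
      have h0 : fox f (FreeGroup.mk [(z, b)]) x = 0 := by
        cases b with
        | true =>
          have : FreeGroup.mk [(z, true)] = of z := rfl
          rw [this, fox_of, Finsupp.single_apply, if_neg hz]
        | false =>
          have : FreeGroup.mk [(z, false)] = (of z)⁻¹ := rfl
          rw [this, fox_inv, fox_of, Finsupp.neg_apply, Finsupp.smul_apply,
            Finsupp.single_apply, if_neg hz, smul_zero, neg_zero]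
      rw [h0, zero_add] at h
      obtain ⟨e, he⟩ := ih (fun h1 => h (by rw [h1, smul_zero]))
      exact ⟨e, List.mem_cons_of_mem _ he⟩

theorem fox_pow (f : FreeGroup X →* Γ) (u : FreeGroup X) (hu : f u = 1) (k : ℕ) :
    fox f (u ^ k) = k • fox f u := by
  induction k with
  | zero => simp
  | succ k ih => rw [pow_succ, fox_mul, map_pow, hu, one_pow, map_one, one_smul, ih, succ_nsmul]

theorem nrm1_nsmul (k : ℕ) (a : MonoidAlgebra ℤ Γ) : nrm1 (k • a) = k * nrm1 a := by
  rw [nrm1, nrm1, MonoidAlgebra.coeff_smul, Finsupp.sum_smul_index' (by intro; rfl), Finsupp.mul_sum]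
  refine Finsupp.sum_congr fun x _ => ?_
  rw [nsmul_eq_mul, Int.natAbs_mul, Int.natAbs_natCast]

theorem nrm_nsmul (k : ℕ) (d : X →₀ MonoidAlgebra ℤ Γ) : nrm (k • d) = k * nrm d := by
  rw [nrm, nrm, Finsupp.sum_smul_index' (by intro; simp [nrm1]), Finsupp.mul_sum]
  refine Finsupp.sum_congr fun x _ => ?_
  rw [nrm1_nsmul]

/-- `supp (g c D) = g supp D` -/
theorem mem_support_smul (γ g : Γ) (c : ℤ) (hc : c ≠ 0) (a : MonoidAlgebra ℤ Γ)
    (h : γ ∈ a.coeff.support) : g * γ ∈ (MonoidAlgebra.single g c * a).coeff.support := by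
  rw [Finsupp.mem_support_iff] at h ⊢
  rw [MonoidAlgebra.coeff_single_mul_apply]
  simpa [hc] using h

end Fox

/-! ## the certificate -/

theorem exists_crt (w : List (X × Bool)) (hw : FreeGroup.mk w ≠ 1) :
    ∃ (w' : List (X × Bool)) (k : ℕ) (g : List (X × Bool)) (b : Bool), w' ≠ [] ∧ 0 < k ∧
      rres (Subgroup.normalClosure {FreeGroup.mk w}) =
        Subgroup.normalClosure {FreeGroup.mk w'} ∧
      Crt (FreeGroup.mk w) (FreeGroup.mk w') k (FreeGroup.mk g) b ∧
      w'.length * k ≤ w.length ∧ g.length ≤ 2 * w.length ∧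
      (∀ a ∈ w' ++ g, ∃ e, (a.1, e) ∈ w) ∧ NonPow (FreeGroup.mk w') ∧
      FreeGroup.IsCyclicallyReduced w' := by
  classical
  set r : FreeGroup X := FreeGroup.mk w with hr
  have hEn : (rres (Subgroup.normalClosure {r})).Normal := rres_normal _
  set E : Subgroup (FreeGroup X) := rres (Subgroup.normalClosure {r}) with hE
  set f : FreeGroup X →* FreeGroup X ⧸ E := QuotientGroup.mk' E with hf
  have hker : f.ker = E := QuotientGroup.ker_mk' E
  have hLI : LI (FreeGroup X ⧸ E) := li_rres _
  obtain ⟨y, k, hk, hy, hyk⟩ := tower r hw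
  have hrE : r ∈ E := by
    rw [hE, rres, Subgroup.mem_iInf]
    intro m
    exact le_rser _ m (Subgroup.subset_normalClosure rfl)
  have hne : f.ker ≠ ⊥ := by
    intro h0
    rw [hker] at h0
    rw [h0, Subgroup.mem_bot] at hrE
    exact hw hrE
  obtain ⟨w', hw'⟩ := core hLI f y hy hne
  have hkw : f.ker = Subgroup.normalClosure {FreeGroup.mk w'} := hw'.2.2
  obtain ⟨g0, ε, hε, hfox⟩ := Good.fox_unit hLI hw' hy hne
  -- the Fox derivative of `r`
  have hfy : f y = 1 := hy.1
  have hfr : f r = 1 := by rw [← MonoidHom.mem_ker, hker]; exact hrE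
  have hfw' : f (FreeGroup.mk w') = 1 := hw'.map_eq_one
  have hfyk : f (y ^ k) = f r := by rw [map_pow, hfy, one_pow, hfr]
  have h1 : fox f (y ^ k * r⁻¹) = 0 := by
    apply fox_eq_zero_of_mem
    rw [hker]
    exact hyk
  have h2 : fox f r = k • fox f y := by
    rw [fox_mul_inv_eq_zero_iff f hfyk] at h1
    rw [← h1, fox_pow f y hfy]
  have hεε : ε * ε = 1 := by
    rcases Int.isUnit_iff.1 hε with h | h <;> rw [h] <;> rfl
  have h3 : fox f y = MonoidAlgebra.single g0⁻¹ ε • fox f (FreeGroup.mk w') := by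
    rw [hfox, ← mul_smul, MonoidAlgebra.single_mul_single, inv_mul_cancel, hεε,
      ← MonoidAlgebra.one_def, one_smul]
  have h4 : fox f r = MonoidAlgebra.single g0⁻¹ ((k : ℤ) * ε) • fox f (FreeGroup.mk w') := by
    rw [h2, h3, ← smul_assoc]
    congr 1
    rw [← Nat.cast_smul_eq_nsmul ℤ]
    simp
  have hkε : (k : ℤ) * ε ≠ 0 := by
    refine mul_ne_zero (by exact_mod_cast hk.ne') hε.ne_zero
  -- a letter in the support
  have hDne : fox f (FreeGroup.mk w') ≠ 0 := by
    intro h0
    have := hw'.nrm_eq hne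
    rw [h0] at this
    have hlen : w'.length = 0 := by rw [← this]; simp [nrm]
    exact hw'.1 (List.length_eq_zero_iff.1 hlen)
  obtain ⟨x, hx⟩ : ∃ x, fox f (FreeGroup.mk w') x ≠ 0 := by
    by_contra hcon
    push Not at hcon
    exact hDne (Finsupp.ext hcon)
  obtain ⟨γ, hγ⟩ : ∃ γ, γ ∈ (fox f (FreeGroup.mk w') x).coeff.support := by
    by_contra hcon
    push Not at hcon
    apply hx
    apply MonoidAlgebra.coeff_injective
    ext γ
    have := hcon γ
    rw [Finsupp.mem_support_iff, not_not] at this
    rw [this]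
    simp
  have hγ2 : g0⁻¹ * γ ∈ (fox f r x).coeff.support := by
    rw [h4, Finsupp.smul_apply, smul_eq_mul]
    exact mem_support_smul γ g0⁻¹ _ hkε _ hγ
  obtain ⟨p', hp', hγp'⟩ := mem_support_start f w' x γ hγ
  obtain ⟨p, hp, hγp⟩ := mem_support_start f w x _ hγ2
  -- the conjugator
  set g : List (X × Bool) := p ++ FreeGroup.invRev p' with hg
  have hgmk : FreeGroup.mk g = FreeGroup.mk p * (FreeGroup.mk p')⁻¹ := by
    rw [hg, ← FreeGroup.mul_mk, FreeGroup.inv_mk]
  have hfg : f (FreeGroup.mk g) = g0⁻¹ := by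
    rw [hgmk, map_mul, map_inv, ← hγp, ← hγp']
    group
  -- lengths
  have hnw' : nrm (fox f (FreeGroup.mk w')) = w'.length := hw'.nrm_eq hne
  have hny : nrm (fox f y) = w'.length := by
    rw [h3, (nrm_unit_smul _ _ hε _).1, hnw']
  have hnr : nrm (fox f r) = k * w'.length := by
    rw [h2, ← hny, nrm_nsmul]
  have hlen : w'.length * k ≤ w.length := by
    rw [mul_comm, ← hnr]
    exact nrm_fox_le f w
  have hlenw' : w'.length ≤ w.length := le_trans (Nat.le_mul_of_pos_right _ hk) hlen
  refine ⟨w', k, g, decide (ε = 1), hw'.1, hk, ?_, ?_, hlen, ?_, ?_, ?_, hw'.reduced hne⟩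
  · rw [← hkw, hker]
  · -- T2
    rw [Crt, ← hkw]
    set s : FreeGroup X := if decide (ε = 1) = true then FreeGroup.mk w'
      else (FreeGroup.mk w')⁻¹ with hs
    have hfs : f s = 1 := by
      rw [hs]
      split_ifs
      · exact hfw'
      · rw [map_inv, hfw', inv_one]
    have hDs : fox f s = ε • fox f (FreeGroup.mk w') := by
      rw [hs]
      rcases Int.isUnit_iff.1 hε with h | h
      · rw [if_pos (by rw [h]; rfl), h, one_smul]
      · rw [if_neg (by rw [h]; decide), h, fox_inv, hfw', inv_one, map_one, one_smul, neg_smul,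
          one_smul]
    have hfc : f (FreeGroup.mk g * s ^ k * (FreeGroup.mk g)⁻¹) = 1 := by
      rw [map_mul, map_mul, map_pow, hfs, one_pow, mul_one, map_inv, mul_inv_cancel]
    refine mem_of_fox_eq_zero f ?_ ?_
    · rw [map_mul, map_inv, hfc, hfr, inv_one, mul_one]
    · rw [fox_mul_inv_eq_zero_iff f (hfr.trans hfc.symm), h4]
      have hconj : fox f (FreeGroup.mk g * s ^ k * (FreeGroup.mk g)⁻¹) =
          MonoidAlgebra.of ℤ _ (f (FreeGroup.mk g)) • fox f (s ^ k) :=
        fox_conj f _ _ (by rw [map_pow, hfs, one_pow])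
      rw [hconj, fox_pow f s hfs, hDs, hfg]
      rw [← Nat.cast_smul_eq_nsmul ℤ, smul_smul, MonoidAlgebra.of_apply]
      rw [smul_comm, ← smul_assoc]
      simp
  · have := hp.length_le
    have := hp'.length_le
    rw [hg, List.length_append, FreeGroup.invRev_length]
    omega
  · have hw'l : ∀ a ∈ w', ∃ e, (a.1, e) ∈ w := by
      intro a ha
      have h5 : fox f (FreeGroup.mk w') a.1 ≠ 0 :=
        hw'.letter hne (x := a.1) (b := a.2) ha
      refine letter_mem f w a.1 ?_
      change fox f r a.1 ≠ 0
      rw [h4, Finsupp.smul_apply, smul_eq_mul]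
      obtain ⟨γ1, hγ1⟩ : ∃ γ, γ ∈ (fox f (FreeGroup.mk w') a.1).coeff.support := by
        by_contra hcon
        push Not at hcon
        apply h5
        apply MonoidAlgebra.coeff_injective
        ext γ
        have := hcon γ
        rw [Finsupp.mem_support_iff, not_not] at this
        rw [this]
        simp
      intro h0
      have := mem_support_smul γ1 g0⁻¹ _ hkε _ hγ1
      rw [h0] at this
      simp at this
    intro a ha
    rw [List.mem_append] at ha
    rcases ha with ha | ha
    · exact hw'l a ha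
    · rw [hg, List.mem_append] at ha
      rcases ha with ha | ha
      · exact ⟨a.2, hp.subset ha⟩
      · rw [FreeGroup.invRev, List.mem_reverse, List.mem_map] at ha
        obtain ⟨a', ha', rfl⟩ := ha
        exact hw'l a' (hp'.subset ha')
  · -- no proper power
    intro h m hm
    have hm0 : m ≠ 0 := by
      rintro rfl
      rw [pow_zero] at hm
      apply hne
      rw [hkw, ← hm]
      exact Subgroup.normalClosure_eq_bot_iff.2 (by simp)
    have hfh : f h = 1 := by
      refine hLI.eq_one_of_pow hm0 ?_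
      rw [← map_pow, hm, hfw']
    have hCw : Cyc f (FreeGroup.mk w') := ⟨hfw', by rw [hkw]; exact le_sup_left⟩
    obtain ⟨lam, hlam⟩ := hCw.fox_eq hfh
    have h5 : fox f (FreeGroup.mk w') = m • fox f h := by rw [← hm, fox_pow f h hfh]
    have h6 : (m • lam - 1) • fox f (FreeGroup.mk w') = 0 := by
      rw [sub_smul, one_smul, smul_assoc, ← hlam, ← h5, sub_self]
    have := hLI.noZeroDivisors ℤ
    have h7 : m • lam - 1 = 0 := by
      have h8 : (m • lam - 1) * fox f (FreeGroup.mk w') x = 0 := by
        have := DFunLike.congr_fun h6 x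
        simpa using this
      rcases mul_eq_zero.1 h8 with h9 | h9
      · exact h9
      · exact absurd h9 hx
    have h8 : (m : ℤ) * lam.coeff 1 = 1 := by
      have h81 : (m • lam).coeff 1 = (m : ℤ) * lam.coeff 1 := by
        rw [MonoidAlgebra.coeff_smul, Finsupp.smul_apply, nsmul_eq_mul]
      rw [← h81, sub_eq_zero.1 h7]
      simp [MonoidAlgebra.one_def]
    have h9 : (m : ℤ) ∣ 1 := ⟨_, h8.symm⟩
    have h10 : m ∣ 1 := by exact_mod_cast h9
    exact Nat.dvd_one.1 h10

/-! ## residual solvability -/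

theorem rs_of_rres_eq (r : FreeGroup X)
    (h : rres (Subgroup.normalClosure {r}) = Subgroup.normalClosure {r}) :
    RS (FreeGroup X ⧸ Subgroup.normalClosure {r}) := by
  intro g hg
  have key : ∀ m, derivedSeries (FreeGroup X ⧸ Subgroup.normalClosure {r}) m ≤
      (rser (Subgroup.normalClosure {r}) m).map
        (QuotientGroup.mk' (Subgroup.normalClosure {r})) := by
    intro m
    induction m with
    | zero =>
      rw [derivedSeries_zero, rser]
      rw [← MonoidHom.range_eq_map, MonoidHom.range_eq_top.2 (QuotientGroup.mk'_surjective _)]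
    | succ m ih =>
      rw [derivedSeries_succ]
      refine (Subgroup.commutator_mono ih ih).trans ?_
      rw [← Subgroup.map_commutator]
      exact Subgroup.map_mono (comm_le_rser_succ _ m)
  obtain ⟨u, rfl⟩ := QuotientGroup.mk'_surjective _ g
  rw [← MonoidHom.mem_ker, QuotientGroup.ker_mk', ← h, rres, Subgroup.mem_iInf]
  intro m
  obtain ⟨v, hv, huv⟩ := key m (hg m)
  have h1 : v⁻¹ * u ∈ Subgroup.normalClosure {r} := QuotientGroup.eq.1 huv
  have h2 : v⁻¹ * u ∈ rser (Subgroup.normalClosure {r}) m := le_rser _ m h1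
  have := Subgroup.mul_mem _ hv h2
  simpa using this

theorem not_rs_of_crt {r r' g : FreeGroup X} {b : Bool} (h : Crt r r' 1 g b)
    (h' : r' ∉ Subgroup.normalClosure {r}) :
    ¬ RS (FreeGroup X ⧸ Subgroup.normalClosure {r}) := by
  intro hRS
  apply h'
  set R := Subgroup.normalClosure {r} with hR
  set R' := Subgroup.normalClosure {r'} with hR'
  set q := QuotientGroup.mk' R with hq
  have h1 : r' ∈ ⁅R', R'⁆ ⊔ R := by
    have h1 : r * (g * (if b then r' else r'⁻¹) ^ 1 * g⁻¹)⁻¹ ∈ ⁅R', R'⁆ ⊔ R :=
      Subgroup.mem_sup_left h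
    have hr : r ∈ ⁅R', R'⁆ ⊔ R := Subgroup.mem_sup_right (Subgroup.subset_normalClosure rfl)
    have h2 : g * (if b then r' else r'⁻¹) * g⁻¹ ∈ ⁅R', R'⁆ ⊔ R := by
      have := Subgroup.mul_mem _ (Subgroup.inv_mem _ h1) hr
      simpa [mul_assoc] using this
    have hN : (⁅R', R'⁆ ⊔ R).Normal := inferInstance
    have h3 : (if b then r' else r'⁻¹) ∈ ⁅R', R'⁆ ⊔ R := by
      have := hN.conj_mem _ h2 g⁻¹
      simpa [mul_assoc] using this
    cases b with
    | true => simpa using h3
    | false =>
      have h4 := Subgroup.inv_mem _ h3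
      simpa using h4
  have hle : R' ≤ ⁅R', R'⁆ ⊔ R := Subgroup.normalClosure_le_normal (Set.singleton_subset_iff.2 h1)
  have hmap : R'.map q ≤ ⁅R'.map q, R'.map q⁆ := by
    refine (Subgroup.map_mono hle).trans ?_
    rw [Subgroup.map_sup, Subgroup.map_commutator]
    have : R.map q = ⊥ := by
      rw [hq, Subgroup.map_eq_bot_iff, QuotientGroup.ker_mk']
    rw [this, sup_bot_eq]
  have hder : ∀ m, R'.map q ≤ derivedSeries (FreeGroup X ⧸ R) m := by
    intro m
    induction m with
    | zero => exact le_top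
    | succ m ih =>
      rw [derivedSeries_succ]
      exact hmap.trans (Subgroup.commutator_mono ih ih)
  have h2 : q r' = 1 := hRS _ fun m =>
    hder m (Subgroup.mem_map_of_mem q (Subgroup.subset_normalClosure rfl))
  rw [← MonoidHom.mem_ker, hq, QuotientGroup.ker_mk'] at h2
  exact h2

end Pool.Agent.ROR
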